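import Pool.Agent.SD12.Defs

/-!
# The energy of a distance-separated set

The main theorem on finite sets of lines implies the theorem on distance-separated sets: a pair
of points `(p, q)` is sent to the line `(p + q - 2 o, q - p)`.
-/

open Finset ComplexConjugate

namespace SD12

/-- The line of a pair of points. -/
noncomputable def appMap (o : ℂ) (x : ℂ × ℂ) : ℂ × ℂ := (x.1 + x.2 - 2 * o, x.2 - x.1)

lemma app_inj (o : ℂ) : Function.Injective (appMap o) := by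
  rintro ⟨a, b⟩ ⟨c, d⟩ h
  simp only [appMap, Prod.mk.injEq] at h
  obtain ⟨h1, h2⟩ := h
  have h3 : a = c := by linear_combination (h1 - h2) / 2
  have h4 : b = d := by linear_combination (h1 + h2) / 2
  rw [h3, h4]

/-- The separation property. -/
def AppSep (A : Finset ℂ) : Prop := ∀ p ∈ A, ∀ q ∈ A, ∀ p' ∈ A, ∀ q' ∈ A,
  dist p q ≠ dist p' q' → 1 ≤ |dist p q - dist p' q'|

lemma app_one {A : Finset ℂ} (h : AppSep A) {p q : ℂ} (hp : p ∈ A) (hq : q ∈ A) (hne : p ≠ q) :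
    1 ≤ ‖p - q‖ := by
  have h1 := h p hp q hq p hp p hp (by
    rw [dist_self]
    exact dist_ne_zero.2 hne)
  rw [dist_self, sub_zero, abs_of_nonneg dist_nonneg, dist_eq_norm] at h1
  exact h1

lemma app_eq {A : Finset ℂ} (h : AppSep A) {p q p' q' : ℂ} (hp : p ∈ A) (hq : q ∈ A)
    (hp' : p' ∈ A) (hq' : q' ∈ A) (hlt : |‖p - q‖ - ‖p' - q'‖| < 1) : ‖p - q‖ = ‖p' - q'‖ := by
  by_contra hne
  have h1 := h p hp q hq p' hp' q' hq'
  rw [dist_eq_norm, dist_eq_norm] at h1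
  exact absurd hlt (not_lt.2 (h1 hne))

lemma app_norm (s : ℝ) : ‖(1 : ℂ) - Complex.I * s‖ = ‖(1 : ℂ) + Complex.I * s‖ ∧
    1 ≤ ‖(1 : ℂ) + Complex.I * s‖ := by
  have h1 : ‖(1 : ℂ) - Complex.I * s‖ = ‖(1 : ℂ) + Complex.I * s‖ := by
    rw [← Complex.norm_conj]
    congr 1
    simp
  refine ⟨h1, ?_⟩
  have h2 : |((1 : ℂ) + Complex.I * s).re| ≤ ‖(1 : ℂ) + Complex.I * s‖ :=
    Complex.abs_re_le_norm _
  have h3 : ((1 : ℂ) + Complex.I * s).re = 1 := by simp
  rw [h3, abs_one] at h2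
  exact h2

lemma app_diff (o p q p' q' : ℂ) (s : ℝ) :
    L (appMap o (p, q)) s - L (appMap o (p', q')) s =
      (1 - Complex.I * s) * (q - q') - (1 + Complex.I * s) * (p - p') := by
  simp only [L, appMap]
  ring

lemma app_par (a b : ℂ) : ‖a + b‖ ^ 2 + ‖b - a‖ ^ 2 = 2 * (‖a‖ ^ 2 + ‖b‖ ^ 2) := by
  have h := parallelogram_law_with_norm ℝ b a
  rw [add_comm b a] at h
  nlinarith [h]

/-- If `‖a‖ = ‖b‖` and `a + b ≠ 0` then `b - a` is perpendicular to `a + b`. -/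
lemma app_perp {a b : ℂ} (h : ‖a‖ = ‖b‖) (hne : a + b ≠ 0) :
    ∃ t : ℝ, b - a = Complex.I * t * (a + b) := by
  refine ⟨((b - a) / (a + b)).im, ?_⟩
  have h1 : ((b - a) / (a + b)).re = 0 := by
    rw [Complex.div_re, ← add_div]
    have h2 : a.re ^ 2 + a.im ^ 2 = b.re ^ 2 + b.im ^ 2 := by
      have h3 : ‖a‖ ^ 2 = ‖b‖ ^ 2 := by rw [h]
      rw [← Complex.normSq_eq_norm_sq, ← Complex.normSq_eq_norm_sq, Complex.normSq_apply,
        Complex.normSq_apply] at h3
      nlinarith [h3]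
    have h3 : (b - a).re * (a + b).re + (b - a).im * (a + b).im = 0 := by
      simp only [Complex.sub_re, Complex.sub_im, Complex.add_re, Complex.add_im]
      nlinarith [h2]
    rw [h3, zero_div]
  have h2 : (b - a) / (a + b) = Complex.I * (((b - a) / (a + b)).im : ℝ) := by
    apply Complex.ext
    · simp [h1]
    · simp
  rw [← h2]
  field_simp

lemma app_cr {A : Finset ℂ} (h : AppSep A) (o : ℂ) : Cr ((A ×ˢ A).image (appMap o)) := by
  intro x hx y hy hxy s hs hlt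
  obtain ⟨⟨p, q⟩, hpq, rfl⟩ := mem_image.1 hx
  obtain ⟨⟨p', q'⟩, hpq', rfl⟩ := mem_image.1 hy
  rw [mem_product] at hpq hpq'
  obtain ⟨hp, hq⟩ := hpq
  obtain ⟨hp', hq'⟩ := hpq'
  simp only at hp hq hp' hq'
  have hd := app_diff o p q p' q' s
  obtain ⟨n1, n2⟩ := app_norm s
  have e1 : ‖p - p'‖ = ‖q - q'‖ := by
    refine app_eq h hp hp' hq hq' ?_
    have h1 : |‖(1 - Complex.I * s) * (q - q')‖ - ‖(1 + Complex.I * s) * (p - p')‖| ≤
        ‖(1 - Complex.I * s) * (q - q') - (1 + Complex.I * s) * (p - p')‖ :=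
      abs_norm_sub_norm_le _ _
    rw [← hd, norm_mul, norm_mul, n1, ← mul_sub, abs_mul, abs_norm] at h1
    have h2 : |‖q - q'‖ - ‖p - p'‖| ≤
        ‖(1 : ℂ) + Complex.I * s‖ * |‖q - q'‖ - ‖p - p'‖| :=
      le_mul_of_one_le_left (abs_nonneg _) n2
    rw [abs_sub_comm]
    linarith
  have e2 : 1 ≤ ‖p - p'‖ := by
    by_cases hpp : p = p'
    · have h1 : q = q' := by
        rw [hpp, sub_self, norm_zero] at e1
        exact sub_eq_zero.1 (norm_eq_zero.1 e1.symm)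
      exact absurd (by rw [hpp, h1]) hxy
    · exact app_one h hp hp' hpp
  have e3 := app_par (p - p') (q - q')
  rw [← e1] at e3
  have m1 : (appMap o (p, q)).1 - (appMap o (p', q')).1 = (p - p') + (q - q') := by
    simp only [appMap]
    ring
  have e4 : ‖(q - q') - (p - p')‖ ≤ ‖(p - p') + (q - q')‖ + 1 / 2 := by
    have h1 : (q - q') - (p - p') = (L (appMap o (p, q)) s - L (appMap o (p', q')) s) +
        Complex.I * s * ((p - p') + (q - q')) := by
      rw [hd]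
      ring
    have h2 : ‖Complex.I * s * ((p - p') + (q - q'))‖ ≤ ‖(p - p') + (q - q')‖ := by
      rw [norm_mul, norm_mul, Complex.norm_I, one_mul, Complex.norm_real, Real.norm_eq_abs]
      exact mul_le_of_le_one_left (norm_nonneg _) hs
    rw [h1]
    refine (norm_add_le _ _).trans ?_
    linarith
  have e5 : 1 ≤ ‖(p - p') + (q - q')‖ := by
    by_contra hc
    push Not at hc
    nlinarith [norm_nonneg ((p - p') + (q - q')), norm_nonneg ((q - q') - (p - p'))]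
  refine ⟨by rw [m1]; exact e5, ?_⟩
  obtain ⟨t, ht⟩ := app_perp e1 (by
    intro h0
    rw [h0, norm_zero] at e5
    linarith)
  refine ⟨t, ?_⟩
  unfold Meet
  rw [← sub_eq_zero, app_diff]
  linear_combination ht

lemma app_fn {A : Finset ℂ} (h : AppSep A) (o : ℂ) : Fn ((A ×ˢ A).image (appMap o)) := by
  intro x hx y hy hxy
  obtain ⟨⟨p, q⟩, hpq, rfl⟩ := mem_image.1 hx
  obtain ⟨⟨p', q'⟩, hpq', rfl⟩ := mem_image.1 hy
  rw [mem_product] at hpq hpq'
  obtain ⟨hp, hq⟩ := hpq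
  obtain ⟨hp', hq'⟩ := hpq'
  simp only at hp hq hp' hq'
  have m1 : (appMap o (p, q)).1 - (appMap o (p', q')).1 = (p - p') + (q - q') := by
    simp only [appMap]
    ring
  have m2 : (appMap o (p, q)).2 - (appMap o (p', q')).2 = (q - q') - (p - p') := by
    simp only [appMap]
    ring
  rw [m1, m2]
  by_cases hpp : p = p'
  · have hqq : q ≠ q' := by
      intro hqq
      exact hxy (by rw [hpp, hqq])
    left
    have h1 := app_one h hq hq' hqq
    rw [hpp, sub_self, zero_add]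
    linarith
  · have h1 := app_one h hp hp' hpp
    by_cases hqq : q = q'
    · left
      rw [hqq, sub_self, add_zero]
      linarith
    · have h2 := app_one h hq hq' hqq
      have h3 := app_par (p - p') (q - q')
      by_contra hc
      push Not at hc
      obtain ⟨c1, c2⟩ := hc
      nlinarith [norm_nonneg ((p - p') + (q - q')), norm_nonneg ((q - q') - (p - p'))]

/-- The majorant of the number of lines in a plane. -/
noncomputable def appB (A : Finset ℂ) (o : ℂ) (x : ℂ × ℂ) (r : ℝ) : ℝ :=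
  (A.filter fun p' => ‖(x.1 - x.2) / 2 + o - p'‖ ≤ 10 * r + 1).card

lemma app_npl {A : Finset ℂ} (o : ℂ) {x y : ℂ × ℂ} :
    (npl ((A ×ˢ A).image (appMap o)) 0 x y : ℝ) ≤ appB A o x ‖x.1 - y.1‖ := by
  unfold npl appB
  norm_cast
  classical
  have key : ∀ z : ℂ × ℂ, z ≠ x → (∃ t : ℝ, Meet x z t) →
      ‖x.1 - z.1‖ ≤ 10 * ‖x.1 - y.1‖ → x.1 - y.1 ≠ 0 := by
    intro z hz ⟨t, ht⟩ h1 h2
    rw [h2, norm_zero, mul_zero] at h1
    have h3 : x.1 - z.1 = 0 := norm_le_zero_iff.1 h1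
    exact ht.ne (Ne.symm hz) (sub_eq_zero.1 h3)
  refine card_le_card_of_injOn (fun z => (z.1 - z.2) / 2 + o) ?_ ?_
  · intro z hz
    rw [mem_coe, mem_filter] at hz
    obtain ⟨hzE, hzx, hm, hp, h1, h2⟩ := hz
    obtain ⟨⟨p', q'⟩, hpq', rfl⟩ := mem_image.1 hzE
    rw [mem_product] at hpq'
    have e1 : ((appMap o (p', q')).1 - (appMap o (p', q')).2) / 2 + o = p' := by
      simp only [appMap]
      ring
    rw [mem_coe, mem_filter]
    simp only
    refine ⟨by rw [e1]; exact hpq'.1, ?_⟩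
    have e2 : (x.1 - x.2) / 2 + o -
        (((appMap o (p', q')).1 - (appMap o (p', q')).2) / 2 + o) =
        ((x.1 - (appMap o (p', q')).1) - (x.2 - (appMap o (p', q')).2)) / 2 := by ring
    rw [e2, norm_div]
    have e3 : ‖(2 : ℂ)‖ = 2 := by simp
    rw [e3]
    have e4 := norm_sub_le (x.1 - (appMap o (p', q')).1) (x.2 - (appMap o (p', q')).2)
    rw [pow_zero, div_one] at h2
    linarith
  · intro z hz w hw hzw
    rw [mem_coe, mem_filter] at hz hw
    obtain ⟨hzE, hzx, ⟨tz, hmz⟩, hpz, hz1, hz2⟩ := hz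
    obtain ⟨hwE, hwx, ⟨tw, hmw⟩, hpw, hw1, hw2⟩ := hw
    have hu := key z hzx ⟨tz, hmz⟩ hz1
    have hcu : conj (x.1 - y.1) ≠ 0 := (map_ne_zero _).2 hu
    simp only at hzw
    have e1 : z.1 - z.2 = w.1 - w.2 := by linear_combination 2 * hzw
    unfold Par at hpz hpw
    unfold Meet L at hmz hmw
    have dz : x.2 - z.2 = Complex.I * tz * (x.1 - z.1) := by linear_combination hmz
    have dw : x.2 - w.2 = Complex.I * tw * (x.1 - w.1) := by linear_combination hmw
    have e2 : (1 - Complex.I * tz) * ((x.1 - z.1) * conj (x.1 - y.1)) =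
        (1 - Complex.I * tw) * ((x.1 - w.1) * conj (x.1 - y.1)) := by
      linear_combination (conj (x.1 - y.1)) * (-e1 + dz - dw)
    set α := (x.1 - z.1) * conj (x.1 - y.1) with hα
    set β := (x.1 - w.1) * conj (x.1 - y.1) with hβ
    have e3 : α = β := by
      have r1 := congrArg Complex.re e2
      simp [hpz, hpw] at r1
      exact Complex.ext r1 (by rw [hpz, hpw])
    have e4 : x.1 - z.1 = x.1 - w.1 := mul_right_cancel₀ hcu (by rw [← hα, ← hβ, e3])
    have e5 : z.1 = w.1 := by linear_combination -e4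
    have e6 : z.2 = w.2 := by linear_combination e5 - e1
    exact Prod.ext e5 e6

/-- The number of points near `p`. -/
noncomputable def appN (A : Finset ℂ) (k : ℕ) (p : ℂ) : ℝ :=
  (A.filter fun p' => ‖p - p'‖ ≤ 11 * 2 ^ k).card

lemma app_B_le (A : Finset ℂ) (o p q : ℂ) (k : ℕ) :
    appB A o (appMap o (p, q)) (2 ^ k) ≤ appN A k p := by
  unfold appB appN
  rw [Nat.cast_le]
  refine card_le_card ?_
  intro z hz
  rw [mem_filter] at hz ⊢
  refine ⟨hz.1, ?_⟩
  have h1 := hz.2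
  have e1 : ((appMap o (p, q)).1 - (appMap o (p, q)).2) / 2 + o = p := by
    simp only [appMap]
    ring
  rw [e1] at h1
  have h2 : (1 : ℝ) ≤ 2 ^ k := one_le_pow₀ (by norm_num)
  linarith

lemma app_Nk_le (A : Finset ℂ) (o p q : ℂ) (k : ℕ) :
    (Nk ((A ×ˢ A).image (appMap o)) 0 k (appMap o (p, q)) : ℝ) ≤ appN A k p * appN A k q := by
  unfold Nk appN
  rw [← Nat.cast_mul, Nat.cast_le]
  classical
  have h0 : ((A.filter fun p' => ‖p - p'‖ ≤ 11 * 2 ^ k) ×ˢ
      (A.filter fun p' => ‖q - p'‖ ≤ 11 * 2 ^ k)).card =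
      (A.filter fun p' => ‖p - p'‖ ≤ 11 * 2 ^ k).card *
      (A.filter fun p' => ‖q - p'‖ ≤ 11 * 2 ^ k).card := card_product _ _
  rw [← h0]
  refine le_trans (card_le_card ?_) (card_image_le (f := appMap o))
  intro z hz
  rw [mem_filter] at hz
  obtain ⟨hzE, h1, h2⟩ := hz
  obtain ⟨⟨p', q'⟩, hpq', rfl⟩ := mem_image.1 hzE
  rw [mem_product] at hpq'
  refine mem_image_of_mem _ ?_
  rw [mem_product, mem_filter, mem_filter]
  have m1 : (appMap o (p, q)).1 - (appMap o (p', q')).1 = (p - p') + (q - q') := by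
    simp only [appMap]
    ring
  have m2 : (appMap o (p, q)).2 - (appMap o (p', q')).2 = (q - q') - (p - p') := by
    simp only [appMap]
    ring
  rw [m1] at h1
  rw [m2] at h2
  have h3 : (2 : ℝ) ^ (k + 1 - (0 + 2)) ≤ 2 ^ k :=
    pow_le_pow_right₀ (by norm_num) (by omega)
  have h4 : (0 : ℝ) < 2 ^ k := by positivity
  have n2 : ‖(2 : ℂ)‖ = 2 := by simp
  refine ⟨⟨hpq'.1, ?_⟩, ⟨hpq'.2, ?_⟩⟩
  · have e1 : p - p' = (((p - p') + (q - q')) - ((q - q') - (p - p'))) / 2 := by ring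
    have e2 := norm_sub_le ((p - p') + (q - q')) ((q - q') - (p - p'))
    simp only
    rw [e1, norm_div, n2]
    linarith
  · have e1 : q - q' = (((p - p') + (q - q')) + ((q - q') - (p - p'))) / 2 := by ring
    have e2 := norm_add_le ((p - p') + (q - q')) ((q - q') - (p - p'))
    simp only
    rw [e1, norm_div, n2]
    linarith

lemma app_geom (d : ℝ) (hd : 0 < d) (K : ℕ) :
    ∑ k ∈ range K, om 0 k * (if d ≤ 11 * 2 ^ k then 1 else 0) ≤
      44 / d - min (4 / 2 ^ K) (44 / d) := by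
  induction K with
  | zero => simp
  | succ K ih =>
    rw [sum_range_succ]
    have h2 : (0 : ℝ) < 2 ^ K := by positivity
    by_cases hc : d ≤ 11 * 2 ^ K
    · rw [if_pos hc, mul_one]
      have h3 : 4 / 2 ^ K ≤ 44 / d := by
        rw [div_le_div_iff₀ h2 hd]
        linarith
      rw [min_eq_left h3] at ih
      have h4 : om 0 K ≤ 2 / 2 ^ K := by
        unfold om
        refine (min_le_right _ _).trans (le_of_eq ?_)
        norm_num
      have h5 : min (4 / 2 ^ (K + 1)) (44 / d) ≤ 4 / (2 : ℝ) ^ (K + 1) := min_le_left _ _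
      have h6 : 4 / (2 : ℝ) ^ (K + 1) = 4 / 2 ^ K - 2 / 2 ^ K := by
        rw [pow_succ]
        field_simp
        norm_num
      linarith
    · rw [if_neg hc, mul_zero, add_zero]
      push Not at hc
      have h3 : 44 / d ≤ 4 / 2 ^ K := by
        rw [div_le_div_iff₀ hd h2]
        linarith
      rw [min_eq_right h3] at ih
      have h5 : min (4 / 2 ^ (K + 1)) (44 / d) ≤ 44 / d := min_le_right _ _
      linarith

lemma app_geom0 (K : ℕ) : ∑ k ∈ range K, om 0 k ≤ 4 - 4 / 2 ^ K := by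
  induction K with
  | zero => simp
  | succ K ih =>
    rw [sum_range_succ]
    have h2 : (0 : ℝ) < 2 ^ K := by positivity
    have h4 : om 0 K ≤ 2 / 2 ^ K := by
      unfold om
      refine (min_le_right _ _).trans (le_of_eq ?_)
      norm_num
    have h6 : 4 / (2 : ℝ) ^ (K + 1) = 4 / 2 ^ K - 2 / 2 ^ K := by
      rw [pow_succ]
      field_simp
      norm_num
    linarith

lemma app_term (p p' : ℂ) (K : ℕ) :
    ∑ k ∈ range K, om 0 k * (if ‖p - p'‖ ≤ 11 * 2 ^ k then 1 else 0) ≤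
      (if p = p' then 4 else 0) + 44 * (dist p p')⁻¹ := by
  by_cases h : p = p'
  · rw [if_pos h, h, dist_self, inv_zero, mul_zero, add_zero, sub_self, norm_zero]
    have h1 : ∀ k ∈ range K, om 0 k * (if (0 : ℝ) ≤ 11 * 2 ^ k then 1 else 0) = om 0 k := by
      intro k _
      rw [if_pos (by positivity), mul_one]
    rw [sum_congr rfl h1]
    have h2 := app_geom0 K
    have h3 : (0 : ℝ) < 4 / 2 ^ K := by positivity
    linarith
  · rw [if_neg h, zero_add, dist_eq_norm]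
    have h0 : 0 < ‖p - p'‖ := norm_pos_iff.2 (sub_ne_zero.2 h)
    have h1 := app_geom ‖p - p'‖ h0 K
    have h2 : 0 ≤ min (4 / 2 ^ K) (44 / ‖p - p'‖) := by positivity
    have h3 : 44 / ‖p - p'‖ = 44 * ‖p - p'‖⁻¹ := div_eq_mul_inv _ _
    linarith

lemma app_sum (A : Finset ℂ) (K : ℕ) :
    ∑ k ∈ range K, om 0 k * ∑ p ∈ A, appN A k p ≤
      4 * A.card + 44 * ∑ p ∈ A, ∑ q ∈ A, (dist p q)⁻¹ := by
  have h1 : ∑ k ∈ range K, om 0 k * ∑ p ∈ A, appN A k p =
      ∑ p ∈ A, ∑ q ∈ A, ∑ k ∈ range K,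
        om 0 k * (if ‖p - q‖ ≤ 11 * 2 ^ k then 1 else 0) := by
    have h2 : ∀ k ∈ range K, om 0 k * ∑ p ∈ A, appN A k p =
        ∑ p ∈ A, ∑ q ∈ A, om 0 k * (if ‖p - q‖ ≤ 11 * 2 ^ k then 1 else 0) := by
      intro k _
      rw [mul_sum]
      refine sum_congr rfl fun p _ => ?_
      unfold appN
      rw [card_filter, Nat.cast_sum, mul_sum]
      refine sum_congr rfl fun q _ => ?_
      push_cast
      rfl
    rw [sum_congr rfl h2, sum_comm]
    refine sum_congr rfl fun p _ => ?_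
    rw [sum_comm]
  rw [h1]
  have h3 : ∑ p ∈ A, ∑ q ∈ A, ∑ k ∈ range K,
      om 0 k * (if ‖p - q‖ ≤ 11 * 2 ^ k then 1 else 0) ≤
      ∑ p ∈ A, ∑ q ∈ A, ((if p = q then 4 else 0) + 44 * (dist p q)⁻¹) :=
    sum_le_sum fun p _ => sum_le_sum fun q _ => app_term p q K
  refine h3.trans (le_of_eq ?_)
  have h4 : ∀ p ∈ A, ∑ q ∈ A, ((if p = q then (4 : ℝ) else 0) + 44 * (dist p q)⁻¹) =
      4 + 44 * ∑ q ∈ A, (dist p q)⁻¹ := by
    intro p hp
    rw [sum_add_distrib, sum_ite_eq, if_pos hp, mul_sum]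
  rw [sum_congr rfl h4, sum_add_distrib, sum_const, nsmul_eq_mul, ← mul_sum]
  ring

lemma app_final {C K I : ℝ} (hC : 1 ≤ C) (hK0 : 0 < K) (hI : K / 2 ≤ I)
    (h : K ^ 2 ≤ C * ((1 + (4 + 44 * I) / K) ^ 4 + (4 + 44 * I))) :
    K ^ (3 / 2 : ℝ) ≤ 108 * C * I := by
  have hI0 : 0 < I := by linarith
  by_cases h1 : K ≤ 1
  · have h2 : K ^ (3 / 2 : ℝ) ≤ K ^ (1 : ℝ) :=
      Real.rpow_le_rpow_of_exponent_ge hK0 h1 (by norm_num)
    rw [Real.rpow_one] at h2
    nlinarith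
  · push Not at h1
    have h2 : 4 + 44 * I ≤ 52 * I := by linarith
    have h3 : 1 + (4 + 44 * I) / K ≤ 54 * I / K := by
      have h4 : 54 * I / K = 1 + (54 * I - K) / K := by
        field_simp
        ring
      rw [h4]
      have h5 : (4 + 44 * I) / K ≤ (54 * I - K) / K :=
        div_le_div_of_nonneg_right (by linarith) hK0.le
      linarith
    have h3' : 0 ≤ 1 + (4 + 44 * I) / K := by positivity
    have h4 : (1 + (4 + 44 * I) / K) ^ 4 ≤ (54 * I / K) ^ 4 := pow_le_pow_left₀ h3' h3 4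
    have h5 : K ^ 2 ≤ C * ((54 * I / K) ^ 4 + 52 * I) :=
      h.trans (mul_le_mul_of_nonneg_left (by linarith) (by linarith))
    have h6 : K ^ (3 / 2 : ℝ) ≤ K ^ 2 := by
      rw [← Real.rpow_natCast K 2]
      exact Real.rpow_le_rpow_of_exponent_le h1.le (by norm_num)
    by_cases h7 : (54 * I / K) ^ 4 ≤ 52 * I
    · have h8 : K ^ 2 ≤ C * (104 * I) :=
        h5.trans (mul_le_mul_of_nonneg_left (by linarith) (by linarith))
      nlinarith [mul_pos (by linarith : (0 : ℝ) < C) hI0]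
    · push Not at h7
      have h8 : K ^ 2 ≤ C * (2 * (54 * I / K) ^ 4) :=
        h5.trans (mul_le_mul_of_nonneg_left (by linarith) (by linarith))
      have h9 : K ^ 6 ≤ 2 * C * (54 * I) ^ 4 := by
        have h10 : C * (2 * (54 * I / K) ^ 4) * K ^ 4 = 2 * C * (54 * I) ^ 4 := by
          field_simp
        have h11 : K ^ 2 * K ^ 4 ≤ C * (2 * (54 * I / K) ^ 4) * K ^ 4 :=
          mul_le_mul_of_nonneg_right h8 (by positivity)
        rw [h10] at h11
        calc K ^ 6 = K ^ 2 * K ^ 4 := by ring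
          _ ≤ _ := h11
      have h12 : 2 * C * (54 * I) ^ 4 ≤ (108 * C * I) ^ 4 := by
        have h13 : (108 * C * I) ^ 4 = (2 * C) ^ 4 * (54 * I) ^ 4 := by ring
        rw [h13]
        refine mul_le_mul_of_nonneg_right ?_ (by positivity)
        have h14 : (1 : ℝ) ≤ 2 * C := by linarith
        calc 2 * C = (2 * C) ^ 1 := (pow_one _).symm
          _ ≤ (2 * C) ^ 4 := pow_le_pow_right₀ h14 (by norm_num)
      have h15 : (K ^ (3 / 2 : ℝ)) ^ 4 = K ^ 6 := by
        rw [← Real.rpow_natCast (K ^ (3 / 2 : ℝ)) 4, ← Real.rpow_mul hK0.le,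
          ← Real.rpow_natCast K 6]
        norm_num
      have h16 : (K ^ (3 / 2 : ℝ)) ^ 4 ≤ (108 * C * I) ^ 4 := by
        rw [h15]
        exact h9.trans h12
      exact le_of_pow_le_pow_left₀ (by norm_num) (by positivity) h16

open Classical in
theorem app_core {C : ℝ} (hC : 1 ≤ C)
    (hmain : ∀ (E : Finset (ℂ × ℂ)) (j K : ℕ) (h : ℝ), 1 ≤ h → E.Nonempty →
    Cr E → Fn E → (∀ x ∈ E, ‖x.2‖ ≤ h ∧ ‖x.1‖ ≤ 2 * h * 2 ^ j) →
    (∀ x ∈ E, ∀ y ∈ E, 26 * ‖x.1 - y.1‖ < 2 ^ K) →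
    ∀ Bh : ℂ × ℂ → ℝ → ℝ, (∀ x r, 0 ≤ Bh x r) → (∀ x r r', r ≤ r' → Bh x r ≤ Bh x r') →
    (∀ x ∈ E, ∀ y ∈ E, (npl E j x y : ℝ) ≤ Bh x ‖x.1 - y.1‖) →
    E.card / h ^ 2 ≤ C * ((1 + (∑ k ∈ range K, om j k * ∑ x ∈ E, Real.sqrt (Nk E j k x)) /
        E.card * (h / Real.sqrt E.card)) ^ 4 +
      (∑ k ∈ range K, om j k * ∑ x ∈ E, Bh x (2 ^ k)) / E.card +
      ((E ×ˢ E).filter fun p => p.1 ≠ p.2 ∧ ‖p.1.1 - p.2.1‖ ≤ 2 ^ j / 512 ∧
        ∃ s : ℝ, |s| ≤ 1 / 2 ∧ ‖L p.1 s - L p.2 s‖ < 1 / 512).card / E.card))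
    (A : Finset ℂ) (D : ℝ) (hA : AppSep A) (hA2 : 2 ≤ A.card)
    (hD : ∀ p ∈ A, ∀ q ∈ A, dist p q ≤ D) :
    ((A.card : ℝ) / D) ^ (3 / 2 : ℝ) ≤
      108 * C * ((∑ p ∈ A, ∑ q ∈ A, (dist p q)⁻¹) / A.card) := by
  obtain ⟨o, ho⟩ : A.Nonempty := card_pos.1 (by omega)
  obtain ⟨a, ha, b, hb, hab⟩ := one_lt_card.1 (by omega : 1 < A.card)
  have hD1 : 1 ≤ D := by
    have h1 := app_one hA ha hb hab
    have h2 := hD a ha b hb
    rw [dist_eq_norm] at h2
    linarith
  set n : ℝ := (A.card : ℝ) with hn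
  have hn2 : (2 : ℝ) ≤ n := by
    rw [hn]
    exact_mod_cast hA2
  set E := (A ×ˢ A).image (appMap o) with hE
  have hEc : (E.card : ℝ) = n ^ 2 := by
    rw [hE, card_image_of_injective _ (app_inj o), card_product, hn]
    push_cast
    ring
  have hsum : ∀ f : ℂ × ℂ → ℝ, ∑ x ∈ E, f x = ∑ p ∈ A, ∑ q ∈ A, f (appMap o (p, q)) := by
    intro f
    rw [hE, sum_image (fun x _ y _ hxy => app_inj o hxy), sum_product]
  have hbd : ∀ x ∈ E, ‖x.2‖ ≤ D ∧ ‖x.1‖ ≤ 2 * D * 2 ^ 0 := by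
    intro x hx
    obtain ⟨⟨p, q⟩, hpq, rfl⟩ := mem_image.1 hx
    rw [mem_product] at hpq
    simp only [appMap, pow_zero, mul_one]
    have h1 := hD q hpq.2 p hpq.1
    have h2 := hD p hpq.1 o ho
    have h3 := hD q hpq.2 o ho
    rw [dist_eq_norm] at h1 h2 h3
    refine ⟨h1, ?_⟩
    have h4 : p + q - 2 * o = (p - o) + (q - o) := by ring
    rw [h4]
    refine (norm_add_le _ _).trans ?_
    linarith
  obtain ⟨K, hK⟩ : ∃ K : ℕ, 26 * (4 * D) < 2 ^ K :=
    pow_unbounded_of_one_lt _ (by norm_num)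
  have hK' : ∀ x ∈ E, ∀ y ∈ E, 26 * ‖x.1 - y.1‖ < 2 ^ K := by
    intro x hx y hy
    have h1 := (hbd x hx).2
    have h2 := (hbd y hy).2
    have h3 := norm_sub_le x.1 y.1
    rw [pow_zero, mul_one] at h1 h2
    linarith
  have hne : E.Nonempty := ⟨appMap o (o, o), mem_image_of_mem _ (mem_product.2 ⟨ho, ho⟩)⟩
  have hcr := app_cr hA o
  have hfn := app_fn hA o
  rw [← hE] at hcr hfn
  have key := hmain E 0 K D hD1 hne hcr hfn hbd hK' (appB A o)
    (fun x r => by unfold appB; positivity)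
    (fun x r r' hr => by
      unfold appB
      have h1 : (A.filter fun p' => ‖(x.1 - x.2) / 2 + o - p'‖ ≤ 10 * r + 1) ⊆
          (A.filter fun p' => ‖(x.1 - x.2) / 2 + o - p'‖ ≤ 10 * r' + 1) := by
        intro z hz
        rw [mem_filter] at hz ⊢
        exact ⟨hz.1, by linarith [hz.2]⟩
      exact_mod_cast card_le_card h1)
    (fun x _ y _ => app_npl o)
  have hnear : ((E ×ˢ E).filter fun p => p.1 ≠ p.2 ∧ ‖p.1.1 - p.2.1‖ ≤ 2 ^ 0 / 512 ∧
        ∃ s : ℝ, |s| ≤ 1 / 2 ∧ ‖L p.1 s - L p.2 s‖ < 1 / 512) = ∅ := by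
    rw [filter_eq_empty_iff]
    rintro ⟨x, y⟩ hxy ⟨h1, h2, s, h3, h4⟩
    rw [mem_product] at hxy
    have h5 := (hcr x hxy.1 y hxy.2 h1 s (by linarith) (by simp only at h4; linarith)).1
    simp only at h2
    rw [pow_zero] at h2
    linarith
  rw [hnear, card_empty, Nat.cast_zero, zero_div, add_zero, hEc] at key
  have hn0 : 0 < n := by linarith
  rw [Real.sqrt_sq hn0.le] at key
  set T := ∑ p ∈ A, ∑ q ∈ A, (dist p q)⁻¹ with hT
  set Y := ∑ k ∈ range K, om 0 k * ∑ p ∈ A, appN A k p with hY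
  have hYT : Y ≤ 4 * n + 44 * T := app_sum A K
  have hom : ∀ k, 0 ≤ om 0 k := fun k => by unfold om; positivity
  have hS1 : ∑ k ∈ range K, om 0 k * ∑ x ∈ E, Real.sqrt (Nk E 0 k x) ≤ n * Y := by
    rw [hY, mul_sum]
    refine sum_le_sum fun k _ => ?_
    have h1 : ∑ x ∈ E, Real.sqrt (Nk E 0 k x) ≤ n * ∑ p ∈ A, appN A k p := by
      rw [hsum]
      have h2 : ∑ p ∈ A, ∑ q ∈ A, Real.sqrt (Nk E 0 k (appMap o (p, q))) ≤
          ∑ p ∈ A, ∑ q ∈ A, Real.sqrt (appN A k p) * Real.sqrt (appN A k q) := by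
        refine sum_le_sum fun p _ => sum_le_sum fun q _ => ?_
        rw [← Real.sqrt_mul (by unfold appN; positivity)]
        exact Real.sqrt_le_sqrt (app_Nk_le A o p q k)
      refine h2.trans ?_
      have h3 : ∑ p ∈ A, ∑ q ∈ A, Real.sqrt (appN A k p) * Real.sqrt (appN A k q) =
          (∑ p ∈ A, Real.sqrt (appN A k p)) ^ 2 := by
        rw [sq, sum_mul_sum]
      rw [h3]
      refine (sq_sum_le_card_mul_sum_sq).trans (le_of_eq ?_)
      rw [← hn]
      congr 1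
      refine sum_congr rfl fun p _ => ?_
      rw [Real.sq_sqrt (by unfold appN; positivity)]
    calc om 0 k * ∑ x ∈ E, Real.sqrt (Nk E 0 k x) ≤ om 0 k * (n * ∑ p ∈ A, appN A k p) :=
          mul_le_mul_of_nonneg_left h1 (hom k)
      _ = n * (om 0 k * ∑ p ∈ A, appN A k p) := by ring
  have hS2 : ∑ k ∈ range K, om 0 k * ∑ x ∈ E, appB A o x (2 ^ k) ≤ n * Y := by
    rw [hY, mul_sum]
    refine sum_le_sum fun k _ => ?_
    have h1 : ∑ x ∈ E, appB A o x (2 ^ k) ≤ n * ∑ p ∈ A, appN A k p := by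
      rw [hsum]
      have h2 : ∑ p ∈ A, ∑ q ∈ A, appB A o (appMap o (p, q)) (2 ^ k) ≤
          ∑ p ∈ A, ∑ q ∈ A, appN A k p :=
        sum_le_sum fun p _ => sum_le_sum fun q _ => app_B_le A o p q k
      refine h2.trans (le_of_eq ?_)
      rw [mul_sum]
      refine sum_congr rfl fun p _ => ?_
      rw [sum_const, nsmul_eq_mul]
    calc om 0 k * ∑ x ∈ E, appB A o x (2 ^ k) ≤ om 0 k * (n * ∑ p ∈ A, appN A k p) :=
          mul_le_mul_of_nonneg_left h1 (hom k)
      _ = n * (om 0 k * ∑ p ∈ A, appN A k p) := by ring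
  have hD0 : 0 < D := by linarith
  refine app_final hC (div_pos hn0 hD0) ?_ ?_
  · -- the lower bound of the energy
    have h1 : ∀ p ∈ A, (n - 1) / D ≤ ∑ q ∈ A, (dist p q)⁻¹ := by
      intro p hp
      have h2 : ∑ q ∈ A.erase p, D⁻¹ ≤ ∑ q ∈ A.erase p, (dist p q)⁻¹ := by
        refine sum_le_sum fun q hq => ?_
        rw [mem_erase] at hq
        exact inv_anti₀ (dist_pos.2 (Ne.symm hq.1)) (hD p hp q hq.2)
      have h3 : ∑ q ∈ A.erase p, (dist p q)⁻¹ ≤ ∑ q ∈ A, (dist p q)⁻¹ :=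
        sum_le_sum_of_subset_of_nonneg (erase_subset _ _)
          (fun _ _ _ => inv_nonneg.2 dist_nonneg)
      rw [sum_const, nsmul_eq_mul, card_erase_of_mem hp, Nat.cast_sub (by omega),
        Nat.cast_one, ← hn, ← div_eq_mul_inv] at h2
      linarith
    have h2 : n * ((n - 1) / D) ≤ T := by
      have h3 := sum_le_sum h1
      rw [sum_const, nsmul_eq_mul, ← hn] at h3
      exact h3
    rw [le_div_iff₀ hn0]
    have h4 : n / D / 2 * n ≤ n * ((n - 1) / D) := by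
      have h5 : n / 2 ≤ n - 1 := by linarith
      have h6 : n / D / 2 = n / 2 / D := by ring
      rw [h6, mul_comm]
      exact mul_le_mul_of_nonneg_left (div_le_div_of_nonneg_right h5 hD0.le) hn0.le
    linarith
  · have hI : Y / n ≤ 4 + 44 * (T / n) := by
      rw [div_le_iff₀ hn0]
      calc Y ≤ 4 * n + 44 * T := hYT
        _ = (4 + 44 * (T / n)) * n := by
          field_simp
    have h1 : (n / D) ^ 2 = n ^ 2 / D ^ 2 := div_pow _ _ _
    rw [h1]
    refine key.trans (mul_le_mul_of_nonneg_left ?_ (by linarith))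
    have hY0 : 0 ≤ Y := sum_nonneg fun k _ => mul_nonneg (hom k)
      (sum_nonneg fun p _ => by unfold appN; positivity)
    refine add_le_add ?_ ?_
    · refine pow_le_pow_left₀ ?_ ?_ 4
      · have h5 : 0 ≤ ∑ k ∈ range K, om 0 k * ∑ x ∈ E, Real.sqrt (Nk E 0 k x) :=
          sum_nonneg fun k _ => mul_nonneg (hom k) (sum_nonneg fun x _ => Real.sqrt_nonneg _)
        positivity
      · have h5 : (∑ k ∈ range K, om 0 k * ∑ x ∈ E, Real.sqrt (Nk E 0 k x)) / n ^ 2 ≤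
            4 + 44 * (T / n) := by
          refine le_trans ?_ hI
          rw [div_le_div_iff₀ (by positivity) hn0]
          nlinarith
        have h6 : D / n = 1 / (n / D) := by
          field_simp
        rw [h6, ← mul_one_div (4 + 44 * (T / n))]
        have h7 : 0 ≤ 1 / (n / D) := by positivity
        have h8 := mul_le_mul_of_nonneg_right h5 h7
        linarith
    · refine le_trans ?_ hI
      rw [div_le_div_iff₀ (by positivity) hn0]
      nlinarith

end SD12
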