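import Pool.Agent.SD12.AppPre

/-!
# The energy of a distance-separated set, second version

As `AppPre`, from the main theorem with the square.
-/

open Finset ComplexConjugate

namespace SD12

lemma app_final2 {C K I : ℝ} (hC : 1 ≤ C) (hK0 : 0 < K) (hI : K / 2 ≤ I)
    (h : K ^ 2 ≤ C * ((1 + (4 + 44 * I) / K) ^ 2 + (4 + 44 * I))) :
    K ^ 2 ≤ 4000 * C * I := by
  have hI0 : 0 < I := by linarith
  by_cases h1 : K ≤ 1
  · have h2 : K ^ 2 ≤ K := by nlinarith
    nlinarith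
  · push Not at h1
    have h2 : 4 + 44 * I ≤ 52 * I := by linarith
    have h3 : 1 + (4 + 44 * I) / K ≤ 54 * I / K := by
      have h4 : 54 * I / K = 1 + (54 * I - K) / K := by
        field_simp
        ring
      rw [h4]
      have h5 : (4 + 44 * I) / K ≤ (54 * I - K) / K :=
        div_le_div_of_nonneg_right (by linarith) hK0.le
      linarith
    have h3' : 0 ≤ 1 + (4 + 44 * I) / K := by positivity
    have h4 : (1 + (4 + 44 * I) / K) ^ 2 ≤ (54 * I / K) ^ 2 := pow_le_pow_left₀ h3' h3 2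
    have h5 : K ^ 2 ≤ C * ((54 * I / K) ^ 2 + 52 * I) :=
      h.trans (mul_le_mul_of_nonneg_left (by linarith) (by linarith))
    by_cases h7 : (54 * I / K) ^ 2 ≤ 52 * I
    · have h8 : K ^ 2 ≤ C * (104 * I) :=
        h5.trans (mul_le_mul_of_nonneg_left (by linarith) (by linarith))
      nlinarith [mul_pos (by linarith : (0 : ℝ) < C) hI0]
    · push Not at h7
      have h8 : K ^ 2 ≤ C * (2 * (54 * I / K) ^ 2) :=
        h5.trans (mul_le_mul_of_nonneg_left (by linarith) (by linarith))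
      have h9 : K ^ 4 ≤ 2 * C * (54 * I) ^ 2 := by
        have h10 : C * (2 * (54 * I / K) ^ 2) * K ^ 2 = 2 * C * (54 * I) ^ 2 := by
          field_simp
        have h11 : K ^ 2 * K ^ 2 ≤ C * (2 * (54 * I / K) ^ 2) * K ^ 2 :=
          mul_le_mul_of_nonneg_right h8 (by positivity)
        rw [h10] at h11
        calc K ^ 4 = K ^ 2 * K ^ 2 := by ring
          _ ≤ _ := h11
      have h12 : 2 * C * (54 * I) ^ 2 ≤ (4000 * C * I) ^ 2 := by
        have h13 : 0 ≤ I ^ 2 := by positivity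
        have h14 : 2 * 54 ^ 2 * C ≤ 4000 ^ 2 * C ^ 2 := by nlinarith
        nlinarith
      have h16 : (K ^ 2) ^ 2 ≤ (4000 * C * I) ^ 2 := by
        calc (K ^ 2) ^ 2 = K ^ 4 := by ring
          _ ≤ _ := h9.trans h12
      exact le_of_pow_le_pow_left₀ (by norm_num) (by positivity) h16

open Classical in
theorem app_core2 {C : ℝ} (hC : 1 ≤ C)
    (hmain : ∀ (E : Finset (ℂ × ℂ)) (j K : ℕ) (h : ℝ), 1 ≤ h → E.Nonempty →
    Cr E → Fn E → (∀ x ∈ E, ‖x.2‖ ≤ h ∧ ‖x.1‖ ≤ 2 * h * 2 ^ j) →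
    (∀ x ∈ E, ∀ y ∈ E, 26 * ‖x.1 - y.1‖ < 2 ^ K) →
    ∀ Bh : ℂ × ℂ → ℝ → ℝ, (∀ x r, 0 ≤ Bh x r) → (∀ x r r', r ≤ r' → Bh x r ≤ Bh x r') →
    (∀ x ∈ E, ∀ y ∈ E, (npl E j x y : ℝ) ≤ Bh x ‖x.1 - y.1‖) →
    E.card / h ^ 2 ≤ C * ((1 + (∑ k ∈ range K, om j k * ∑ x ∈ E, Real.sqrt (Nk E j k x)) /
        E.card * (h / Real.sqrt E.card)) ^ 2 +
      (∑ k ∈ range K, om j k * ∑ x ∈ E, Bh x (2 ^ k)) / E.card +
      ((E ×ˢ E).filter fun p => p.1 ≠ p.2 ∧ ‖p.1.1 - p.2.1‖ ≤ 2 ^ j / 512 ∧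
        ∃ s : ℝ, |s| ≤ 1 / 2 ∧ ‖L p.1 s - L p.2 s‖ < 1 / 512).card / E.card))
    (A : Finset ℂ) (D : ℝ) (hA : AppSep A) (hA2 : 2 ≤ A.card)
    (hD : ∀ p ∈ A, ∀ q ∈ A, dist p q ≤ D) :
    ((A.card : ℝ) / D) ^ 2 ≤
      4000 * C * ((∑ p ∈ A, ∑ q ∈ A, (dist p q)⁻¹) / A.card) := by
  obtain ⟨o, ho⟩ : A.Nonempty := card_pos.1 (by omega)
  obtain ⟨a, ha, b, hb, hab⟩ := one_lt_card.1 (by omega : 1 < A.card)
  have hD1 : 1 ≤ D := by
    have h1 := app_one hA ha hb hab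
    have h2 := hD a ha b hb
    rw [dist_eq_norm] at h2
    linarith
  set n : ℝ := (A.card : ℝ) with hn
  have hn2 : (2 : ℝ) ≤ n := by
    rw [hn]
    exact_mod_cast hA2
  set E := (A ×ˢ A).image (appMap o) with hE
  have hEc : (E.card : ℝ) = n ^ 2 := by
    rw [hE, card_image_of_injective _ (app_inj o), card_product, hn]
    push_cast
    ring
  have hsum : ∀ f : ℂ × ℂ → ℝ, ∑ x ∈ E, f x = ∑ p ∈ A, ∑ q ∈ A, f (appMap o (p, q)) := by
    intro f
    rw [hE, sum_image (fun x _ y _ hxy => app_inj o hxy), sum_product]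
  have hbd : ∀ x ∈ E, ‖x.2‖ ≤ D ∧ ‖x.1‖ ≤ 2 * D * 2 ^ 0 := by
    intro x hx
    obtain ⟨⟨p, q⟩, hpq, rfl⟩ := mem_image.1 hx
    rw [mem_product] at hpq
    simp only [appMap, pow_zero, mul_one]
    have h1 := hD q hpq.2 p hpq.1
    have h2 := hD p hpq.1 o ho
    have h3 := hD q hpq.2 o ho
    rw [dist_eq_norm] at h1 h2 h3
    refine ⟨h1, ?_⟩
    have h4 : p + q - 2 * o = (p - o) + (q - o) := by ring
    rw [h4]
    refine (norm_add_le _ _).trans ?_
    linarith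
  obtain ⟨K, hK⟩ : ∃ K : ℕ, 26 * (4 * D) < 2 ^ K :=
    pow_unbounded_of_one_lt _ (by norm_num)
  have hK' : ∀ x ∈ E, ∀ y ∈ E, 26 * ‖x.1 - y.1‖ < 2 ^ K := by
    intro x hx y hy
    have h1 := (hbd x hx).2
    have h2 := (hbd y hy).2
    have h3 := norm_sub_le x.1 y.1
    rw [pow_zero, mul_one] at h1 h2
    linarith
  have hne : E.Nonempty := ⟨appMap o (o, o), mem_image_of_mem _ (mem_product.2 ⟨ho, ho⟩)⟩
  have hcr := app_cr hA o
  have hfn := app_fn hA o
  rw [← hE] at hcr hfn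
  have key := hmain E 0 K D hD1 hne hcr hfn hbd hK' (appB A o)
    (fun x r => by unfold appB; positivity)
    (fun x r r' hr => by
      unfold appB
      have h1 : (A.filter fun p' => ‖(x.1 - x.2) / 2 + o - p'‖ ≤ 10 * r + 1) ⊆
          (A.filter fun p' => ‖(x.1 - x.2) / 2 + o - p'‖ ≤ 10 * r' + 1) := by
        intro z hz
        rw [mem_filter] at hz ⊢
        exact ⟨hz.1, by linarith [hz.2]⟩
      exact_mod_cast card_le_card h1)
    (fun x _ y _ => app_npl o)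
  have hnear : ((E ×ˢ E).filter fun p => p.1 ≠ p.2 ∧ ‖p.1.1 - p.2.1‖ ≤ 2 ^ 0 / 512 ∧
        ∃ s : ℝ, |s| ≤ 1 / 2 ∧ ‖L p.1 s - L p.2 s‖ < 1 / 512) = ∅ := by
    rw [filter_eq_empty_iff]
    rintro ⟨x, y⟩ hxy ⟨h1, h2, s, h3, h4⟩
    rw [mem_product] at hxy
    have h5 := (hcr x hxy.1 y hxy.2 h1 s (by linarith) (by simp only at h4; linarith)).1
    simp only at h2
    rw [pow_zero] at h2
    linarith
  rw [hnear, card_empty, Nat.cast_zero, zero_div, add_zero, hEc] at key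
  have hn0 : 0 < n := by linarith
  rw [Real.sqrt_sq hn0.le] at key
  set T := ∑ p ∈ A, ∑ q ∈ A, (dist p q)⁻¹ with hT
  set Y := ∑ k ∈ range K, om 0 k * ∑ p ∈ A, appN A k p with hY
  have hYT : Y ≤ 4 * n + 44 * T := app_sum A K
  have hom : ∀ k, 0 ≤ om 0 k := fun k => by unfold om; positivity
  have hS1 : ∑ k ∈ range K, om 0 k * ∑ x ∈ E, Real.sqrt (Nk E 0 k x) ≤ n * Y := by
    rw [hY, mul_sum]
    refine sum_le_sum fun k _ => ?_
    have h1 : ∑ x ∈ E, Real.sqrt (Nk E 0 k x) ≤ n * ∑ p ∈ A, appN A k p := by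
      rw [hsum]
      have h2 : ∑ p ∈ A, ∑ q ∈ A, Real.sqrt (Nk E 0 k (appMap o (p, q))) ≤
          ∑ p ∈ A, ∑ q ∈ A, Real.sqrt (appN A k p) * Real.sqrt (appN A k q) := by
        refine sum_le_sum fun p _ => sum_le_sum fun q _ => ?_
        rw [← Real.sqrt_mul (by unfold appN; positivity)]
        exact Real.sqrt_le_sqrt (app_Nk_le A o p q k)
      refine h2.trans ?_
      have h3 : ∑ p ∈ A, ∑ q ∈ A, Real.sqrt (appN A k p) * Real.sqrt (appN A k q) =
          (∑ p ∈ A, Real.sqrt (appN A k p)) ^ 2 := by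
        rw [sq, sum_mul_sum]
      rw [h3]
      refine (sq_sum_le_card_mul_sum_sq).trans (le_of_eq ?_)
      rw [← hn]
      congr 1
      refine sum_congr rfl fun p _ => ?_
      rw [Real.sq_sqrt (by unfold appN; positivity)]
    calc om 0 k * ∑ x ∈ E, Real.sqrt (Nk E 0 k x) ≤ om 0 k * (n * ∑ p ∈ A, appN A k p) :=
          mul_le_mul_of_nonneg_left h1 (hom k)
      _ = n * (om 0 k * ∑ p ∈ A, appN A k p) := by ring
  have hS2 : ∑ k ∈ range K, om 0 k * ∑ x ∈ E, appB A o x (2 ^ k) ≤ n * Y := by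
    rw [hY, mul_sum]
    refine sum_le_sum fun k _ => ?_
    have h1 : ∑ x ∈ E, appB A o x (2 ^ k) ≤ n * ∑ p ∈ A, appN A k p := by
      rw [hsum]
      have h2 : ∑ p ∈ A, ∑ q ∈ A, appB A o (appMap o (p, q)) (2 ^ k) ≤
          ∑ p ∈ A, ∑ q ∈ A, appN A k p :=
        sum_le_sum fun p _ => sum_le_sum fun q _ => app_B_le A o p q k
      refine h2.trans (le_of_eq ?_)
      rw [mul_sum]
      refine sum_congr rfl fun p _ => ?_
      rw [sum_const, nsmul_eq_mul]
    calc om 0 k * ∑ x ∈ E, appB A o x (2 ^ k) ≤ om 0 k * (n * ∑ p ∈ A, appN A k p) :=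
          mul_le_mul_of_nonneg_left h1 (hom k)
      _ = n * (om 0 k * ∑ p ∈ A, appN A k p) := by ring
  have hD0 : 0 < D := by linarith
  refine app_final2 hC (div_pos hn0 hD0) ?_ ?_
  · -- the lower bound of the energy
    have h1 : ∀ p ∈ A, (n - 1) / D ≤ ∑ q ∈ A, (dist p q)⁻¹ := by
      intro p hp
      have h2 : ∑ q ∈ A.erase p, D⁻¹ ≤ ∑ q ∈ A.erase p, (dist p q)⁻¹ := by
        refine sum_le_sum fun q hq => ?_
        rw [mem_erase] at hq
        exact inv_anti₀ (dist_pos.2 (Ne.symm hq.1)) (hD p hp q hq.2)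
      have h3 : ∑ q ∈ A.erase p, (dist p q)⁻¹ ≤ ∑ q ∈ A, (dist p q)⁻¹ :=
        sum_le_sum_of_subset_of_nonneg (erase_subset _ _)
          (fun _ _ _ => inv_nonneg.2 dist_nonneg)
      rw [sum_const, nsmul_eq_mul, card_erase_of_mem hp, Nat.cast_sub (by omega),
        Nat.cast_one, ← hn, ← div_eq_mul_inv] at h2
      linarith
    have h2 : n * ((n - 1) / D) ≤ T := by
      have h3 := sum_le_sum h1
      rw [sum_const, nsmul_eq_mul, ← hn] at h3
      exact h3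
    rw [le_div_iff₀ hn0]
    have h4 : n / D / 2 * n ≤ n * ((n - 1) / D) := by
      have h5 : n / 2 ≤ n - 1 := by linarith
      have h6 : n / D / 2 = n / 2 / D := by ring
      rw [h6, mul_comm]
      exact mul_le_mul_of_nonneg_left (div_le_div_of_nonneg_right h5 hD0.le) hn0.le
    linarith
  · have hI : Y / n ≤ 4 + 44 * (T / n) := by
      rw [div_le_iff₀ hn0]
      calc Y ≤ 4 * n + 44 * T := hYT
        _ = (4 + 44 * (T / n)) * n := by
          field_simp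
    have h1 : (n / D) ^ 2 = n ^ 2 / D ^ 2 := div_pow _ _ _
    rw [h1]
    refine key.trans (mul_le_mul_of_nonneg_left ?_ (by linarith))
    have hY0 : 0 ≤ Y := sum_nonneg fun k _ => mul_nonneg (hom k)
      (sum_nonneg fun p _ => by unfold appN; positivity)
    refine add_le_add ?_ ?_
    · refine pow_le_pow_left₀ ?_ ?_ 2
      · have h5 : 0 ≤ ∑ k ∈ range K, om 0 k * ∑ x ∈ E, Real.sqrt (Nk E 0 k x) :=
          sum_nonneg fun k _ => mul_nonneg (hom k) (sum_nonneg fun x _ => Real.sqrt_nonneg _)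
        positivity
      · have h5 : (∑ k ∈ range K, om 0 k * ∑ x ∈ E, Real.sqrt (Nk E 0 k x)) / n ^ 2 ≤
            4 + 44 * (T / n) := by
          refine le_trans ?_ hI
          rw [div_le_div_iff₀ (by positivity) hn0]
          nlinarith
        have h6 : D / n = 1 / (n / D) := by
          field_simp
        rw [h6, ← mul_one_div (4 + 44 * (T / n))]
        have h7 : 0 ≤ 1 / (n / D) := by positivity
        have h8 := mul_le_mul_of_nonneg_right h5 h7
        linarith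
    · refine le_trans ?_ hI
      rw [div_le_div_iff₀ (by positivity) hn0]
      nlinarith

end SD12
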