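import Pool.Agent.SD12.Defs

/-!
# Linked lines

If `y` and `z` are both close to `x` at a time `s` and meet `x` at different times, then there is
a line which meets `x`, whose direction relative to `x` is parallel to the one of `y`, and whose
time is next to the one of `y` among the times of all the lines which meet `x`.
-/

open Finset ComplexConjugate

namespace SD12

/-- Being parallel is transitive over a nonzero vector. -/
lemma link_par_trans {u v w : ℂ} (hv : v ≠ 0) (h1 : Par u v) (h2 : Par v w) : Par u w := by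
  unfold Par at *
  rw [Complex.mul_im, Complex.conj_re, Complex.conj_im] at *
  have hre : v.re ≠ 0 ∨ v.im ≠ 0 := by
    by_contra hcon
    push Not at hcon
    exact hv (Complex.ext hcon.1 hcon.2)
  rcases hre with h | h
  · have : v.re * (u.re * -w.im + u.im * w.re) = 0 := by
      linear_combination w.re * h1 + u.re * h2
    exact (mul_eq_zero.1 this).resolve_left h
  · have : v.im * (u.re * -w.im + u.im * w.re) = 0 := by
      linear_combination w.im * h1 + u.im * h2
    exact (mul_eq_zero.1 this).resolve_left h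

/-- Real multiples are parallel. -/
lemma link_par_of_mul {u v : ℂ} {p q : ℝ} (hp : p ≠ 0) (h : (p : ℂ) * u = (q : ℂ) * v) :
    Par u v := by
  have hre : p * u.re = q * v.re := by
    have := congrArg Complex.re h
    simpa using this
  have him : p * u.im = q * v.im := by
    have := congrArg Complex.im h
    simpa using this
  unfold Par
  rw [Complex.mul_im, Complex.conj_re, Complex.conj_im]
  have : p * (u.re * -v.im + u.im * v.re) = 0 := by
    linear_combination (-v.im) * hre + v.re * him
  exact (mul_eq_zero.1 this).resolve_left hp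

lemma link_par_symm {u v : ℂ} (h : Par u v) : Par v u := by
  unfold Par at *
  rw [Complex.mul_im, Complex.conj_re, Complex.conj_im] at *
  linarith

/-- Three lines which pairwise meet and do not have a common point are coplanar. -/
lemma link_coplanar {x v w : ℂ × ℂ} {tv tw t : ℝ} (hv : Meet x v tv) (hw : Meet x w tw)
    (hvw : Meet v w t) (hne : tv ≠ tw) : Par (x.1 - v.1) (x.1 - w.1) := by
  have h1 := hv.sub t
  have h2 := hw.sub t
  have h3 : L v t = L w t := hvw
  rw [h3, h2] at h1
  have h4 : ((tv - t : ℝ) : ℂ) * (x.1 - v.1) = ((tw - t : ℝ) : ℂ) * (x.1 - w.1) := by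
    have h5 : Complex.I * (((tw - t : ℝ) : ℂ) * (x.1 - w.1)) =
        Complex.I * (((tv - t : ℝ) : ℂ) * (x.1 - v.1)) := by
      push_cast
      linear_combination h1
    exact (mul_left_cancel₀ Complex.I_ne_zero h5).symm
  by_cases h : tv - t = 0
  · have h' : tw - t ≠ 0 := by
      intro h'
      exact hne (by linarith)
    exact link_par_symm (link_par_of_mul h' h4.symm)
  · exact link_par_of_mul h h4

theorem link {E : Finset (ℂ × ℂ)} (hE : Cr E) {x y z : ℂ × ℂ} (hx : x ∈ E) (hy : y ∈ E)
    (hz : z ∈ E) (hxy : y ≠ x) (hxz : z ≠ x) {s ty tz : ℝ} (hs : |s| ≤ 1 / 2)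
    (h1 : ‖L x s - L y s‖ ≤ 1 / 16) (h2 : ‖L x s - L z s‖ ≤ 1 / 16)
    (my : Meet x y ty) (mz : Meet x z tz) (hne : ty ≠ tz) :
    ∃ v ∈ E, v ≠ x ∧ ∃ tv : ℝ, Meet x v tv ∧ tv ≠ ty ∧ Par (x.1 - v.1) (x.1 - y.1) ∧
      ∀ w ∈ E, w ≠ x → ∀ tw : ℝ, Meet x w tw →
        ¬ (ty < tw ∧ tw < tv) ∧ ¬ (tv < tw ∧ tw < ty) := by
  classical
  have hyz : y ≠ z := by
    rintro rfl
    exact hne (my.unique mz hxy.symm)
  have ay : 1 ≤ ‖x.1 - y.1‖ := (hE x hx y hy hxy.symm s (by linarith) (by linarith)).1
  have az : 1 ≤ ‖x.1 - z.1‖ := (hE x hx z hz hxz.symm s (by linarith) (by linarith)).1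
  have e1 : |ty - s| * ‖x.1 - y.1‖ ≤ 1 / 16 := by rw [← my.norm_sub]; exact h1
  have e2 : |tz - s| * ‖x.1 - z.1‖ ≤ 1 / 16 := by rw [← mz.norm_sub]; exact h2
  have f1 : |ty - s| ≤ 1 / 16 := by
    have := abs_nonneg (ty - s)
    nlinarith
  have f2 : |tz - s| ≤ 1 / 16 := by
    have := abs_nonneg (tz - s)
    nlinarith
  have hyz8 : ‖L y s - L z s‖ ≤ 1 / 8 := by
    have : L y s - L z s = (L x s - L z s) - (L x s - L y s) := by ring
    rw [this]
    have := norm_sub_le (L x s - L z s) (L x s - L y s)
    linarith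
  obtain ⟨-, t3, m3⟩ := hE y hy z hz hyz s (by linarith) (by linarith)
  have pzy : Par (x.1 - z.1) (x.1 - y.1) := link_coplanar mz my m3.symm (Ne.symm hne)
  -- the lines whose time is strictly between
  let C := E.filter fun w => w ≠ x ∧ ∃ t : ℝ, Meet x w t ∧
    ((ty < t ∧ t < tz) ∨ (tz < t ∧ t < ty))
  by_cases hC : C.Nonempty
  · let T : ℂ × ℂ → ℝ := fun w => if h : ∃ t : ℝ, Meet x w t then h.choose else 0
    have hT : ∀ w, w ≠ x → ∀ t : ℝ, Meet x w t → T w = t := by
      intro w hw t ht
      have hex : ∃ t : ℝ, Meet x w t := ⟨t, ht⟩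
      have : T w = hex.choose := dif_pos hex
      rw [this]
      exact hex.choose_spec.unique ht hw.symm
    obtain ⟨v, hvC, hmin⟩ := Finset.exists_min_image C (fun w => |T w - ty|) hC
    obtain ⟨hvE, hvx, tv, mv, hbt⟩ := Finset.mem_filter.1 hvC
    have hTv := hT v hvx tv mv
    have hvty : tv ≠ ty := by
      rcases hbt with h | h
      · exact ne_of_gt h.1
      · exact ne_of_lt h.2
    have hvtz : tv ≠ tz := by
      rcases hbt with h | h
      · exact ne_of_lt h.2
      · exact ne_of_gt h.1
    refine ⟨v, hvE, hvx, tv, mv, hvty, ?_, ?_⟩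
    · -- the line is parallel
      have g1 : |tz - tv| ≤ |tz - ty| := by
        rcases hbt with h | h
        · rw [abs_of_nonneg (by linarith), abs_of_nonneg (by linarith)]; linarith
        · rw [abs_of_nonpos (by linarith), abs_of_nonpos (by linarith)]; linarith
      have g2 : |ty - tv| ≤ |tz - ty| := by
        rcases hbt with h | h
        · rw [abs_of_nonpos (by linarith), abs_of_nonneg (by linarith)]; linarith
        · rw [abs_of_nonneg (by linarith), abs_of_nonpos (by linarith)]; linarith
      have g3 : |tz - ty| ≤ |tz - s| + |ty - s| := by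
        have : tz - ty = (tz - s) - (ty - s) := by ring
        rw [this]
        exact abs_sub _ _
      have g4 : |tv| ≤ 1 := by
        have a1 := abs_le.1 f1
        have a2 := abs_le.1 f2
        have a3 := abs_le.1 hs
        rw [abs_le]
        rcases hbt with h | h
        · constructor <;> linarith
        · constructor <;> linarith
      have mv' : L x tv = L v tv := mv
      rcases le_or_gt ‖x.1 - z.1‖ ‖x.1 - y.1‖ with hle | hlt
      · have k1 : ‖L v tv - L z tv‖ ≤ 1 / 8 := by
          rw [← mv', mz.norm_sub]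
          have b1 : |tz - tv| * ‖x.1 - z.1‖ ≤ (|tz - s| + |ty - s|) * ‖x.1 - z.1‖ :=
            mul_le_mul_of_nonneg_right (g1.trans g3) (norm_nonneg _)
          have b2 : |ty - s| * ‖x.1 - z.1‖ ≤ |ty - s| * ‖x.1 - y.1‖ :=
            mul_le_mul_of_nonneg_left hle (abs_nonneg _)
          nlinarith
        have hvz : v ≠ z := by
          rintro rfl
          exact hvtz (mv.unique mz hvx.symm)
        obtain ⟨-, t4, m4⟩ := hE v hvE z hz hvz tv g4 (by linarith)
        have pvz : Par (x.1 - v.1) (x.1 - z.1) := link_coplanar mv mz m4 hvtz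
        exact link_par_trans (sub_ne_zero.2 (mz.ne hxz.symm)) pvz pzy
      · have k1 : ‖L v tv - L y tv‖ ≤ 1 / 8 := by
          rw [← mv', my.norm_sub]
          have b1 : |ty - tv| * ‖x.1 - y.1‖ ≤ (|tz - s| + |ty - s|) * ‖x.1 - y.1‖ :=
            mul_le_mul_of_nonneg_right (g2.trans g3) (norm_nonneg _)
          have b2 : |tz - s| * ‖x.1 - y.1‖ ≤ |tz - s| * ‖x.1 - z.1‖ :=
            mul_le_mul_of_nonneg_left hlt.le (abs_nonneg _)
          nlinarith
        have hvy : v ≠ y := by
          rintro rfl
          exact hvty (mv.unique my hvx.symm)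
        obtain ⟨-, t4, m4⟩ := hE v hvE y hy hvy tv g4 (by linarith)
        exact link_coplanar mv my m4 hvty
    · intro w hwE hwx tw mw
      have key : ((ty < tw ∧ tw < tz) ∨ (tz < tw ∧ tw < ty)) → |tv - ty| ≤ |tw - ty| := by
        intro hb
        have hwC : w ∈ C := Finset.mem_filter.2 ⟨hwE, hwx, tw, mw, hb⟩
        have := hmin w hwC
        rw [hTv, hT w hwx tw mw] at this
        exact this
      constructor
      · rintro ⟨b1, b2⟩
        have hb : ty < tv ∧ tv < tz := by
          rcases hbt with h | h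
          · exact h
          · exact absurd (b1.trans b2) (not_lt.2 h.2.le)
        have := key (Or.inl ⟨b1, b2.trans hb.2⟩)
        rw [abs_of_pos (by linarith), abs_of_pos (by linarith)] at this
        linarith
      · rintro ⟨b1, b2⟩
        have hb : tz < tv ∧ tv < ty := by
          rcases hbt with h | h
          · exact absurd (b1.trans b2) (not_lt.2 h.1.le)
          · exact h
        have := key (Or.inr ⟨hb.1.trans b1, b2⟩)
        rw [abs_of_neg (by linarith), abs_of_neg (by linarith)] at this
        linarith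
  · refine ⟨z, hz, hxz, tz, mz, Ne.symm hne, pzy, ?_⟩
    intro w hwE hwx tw mw
    constructor
    · rintro ⟨b1, b2⟩
      exact hC ⟨w, Finset.mem_filter.2 ⟨hwE, hwx, tw, mw, Or.inl ⟨b1, b2⟩⟩⟩
    · rintro ⟨b1, b2⟩
      exact hC ⟨w, Finset.mem_filter.2 ⟨hwE, hwx, tw, mw, Or.inr ⟨b1, b2⟩⟩⟩

end SD12
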