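import Pool.Agent.SD12.Defs

/-!
# Linked directions at consecutive times

Let `G, H` be polynomials and let each `y` in a finite set `Y` have a time `τ y` and a direction
`u y` such that `(G (τ y), H (τ y))` is orthogonal to `u y`. If `y` and `z` have parallel
directions and consecutive times then there is a root of `G` or of the Wronskian of `G` and `H`
between these times. So there are few such times, unless many directions are parallel.
-/

open Finset ComplexConjugate Polynomial

namespace SD12

/-- A root of `G` or of the Wronskian between two roots of `a G + b H`. -/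
lemma times_root (G H : Polynomial ℝ) {a b p q : ℝ} (hab : a ≠ 0 ∨ b ≠ 0) (hpq : p < q)
    (hp : G.eval p * a + H.eval p * b = 0) (hq : G.eval q * a + H.eval q * b = 0) :
    ∃ r : ℝ, p ≤ r ∧ r ≤ q ∧ (G * (G * derivative H - derivative G * H)).eval r = 0 := by
  by_cases hG : ∃ r : ℝ, p ≤ r ∧ r ≤ q ∧ G.eval r = 0
  · obtain ⟨r, h1, h2, h3⟩ := hG
    exact ⟨r, h1, h2, by rw [eval_mul, h3, zero_mul]⟩
  · push Not at hG
    have hb : b ≠ 0 := by
      rintro rfl
      rw [mul_zero, add_zero] at hp
      rcases mul_eq_zero.1 hp with h | h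
      · exact hG p le_rfl hpq.le h
      · rcases hab with h' | h'
        · exact h' h
        · exact h' rfl
    have hGp : G.eval p ≠ 0 := hG p le_rfl hpq.le
    have hGq : G.eval q ≠ 0 := hG q hpq.le le_rfl
    obtain ⟨c, hc, hc0⟩ := exists_hasDerivAt_eq_zero (f := fun s => H.eval s / G.eval s)
      (f' := fun s => ((derivative H).eval s * G.eval s - H.eval s * (derivative G).eval s) /
        (G.eval s) ^ 2) hpq
      (by
        intro s hs
        exact (H.continuous.continuousAt.div G.continuous.continuousAt
          (hG s hs.1 hs.2)).continuousWithinAt)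
      (by
        have e1 : H.eval p / G.eval p = - a / b := by
          rw [div_eq_div_iff hGp hb]
          linear_combination hp
        have e2 : H.eval q / G.eval q = - a / b := by
          rw [div_eq_div_iff hGq hb]
          linear_combination hq
        show H.eval p / G.eval p = H.eval q / G.eval q
        rw [e1, e2])
      (by
        intro s hs
        exact (H.hasDerivAt s).div (G.hasDerivAt s) (hG s hs.1.le hs.2.le))
    refine ⟨c, hc.1.le, hc.2.le, ?_⟩
    have hGc : G.eval c ≠ 0 := hG c hc.1.le hc.2.le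
    have h1 : (derivative H).eval c * G.eval c - H.eval c * (derivative G).eval c = 0 := by
      rcases div_eq_zero_iff.1 hc0 with h | h
      · exact h
      · exact absurd h (pow_ne_zero 2 hGc)
    rw [eval_mul, eval_sub, eval_mul, eval_mul]
    have h2 : G.eval c * (derivative H).eval c - (derivative G).eval c * H.eval c = 0 := by
      linear_combination h1
    rw [h2, mul_zero]

/-- Polynomials whose Wronskian is `0` are proportional. -/
lemma times_prop (G H : Polynomial ℝ) (hGH : G ≠ 0 ∨ H ≠ 0) {d : ℕ} (hG : G.natDegree ≤ d)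
    (hH : H.natDegree ≤ d) (hW : G * derivative H - derivative G * H = 0) :
    ∃ (g : Polynomial ℝ) (α β : ℝ), g ≠ 0 ∧ g.natDegree ≤ d ∧ (α ≠ 0 ∨ β ≠ 0) ∧
      (∀ t : ℝ, G.eval t = α * g.eval t) ∧ ∀ t : ℝ, H.eval t = β * g.eval t := by
  by_cases hH0 : H = 0
  · have hG0 : G ≠ 0 := by
      rcases hGH with h | h
      · exact h
      · exact absurd hH0 h
    exact ⟨G, 1, 0, hG0, hG, Or.inl one_ne_zero, fun t => by rw [one_mul],
      fun t => by rw [hH0, eval_zero, zero_mul]⟩
  · have hcop := isCoprime_div_gcd_div_gcd (p := G) (q := H) hH0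
    have hg0 : GCDMonoid.gcd G H ≠ 0 := gcd_ne_zero_of_right hH0
    set g := GCDMonoid.gcd G H with hg
    have e1 : g * (G / g) = G := EuclideanDomain.mul_div_cancel' hg0 (gcd_dvd_left G H)
    have e2 : g * (H / g) = H := EuclideanDomain.mul_div_cancel' hg0 (gcd_dvd_right G H)
    have hw : wronskian (G / g) (H / g) = 0 := by
      have h1 : g ^ 2 * wronskian (G / g) (H / g) = 0 := by
        have h2 : derivative G = derivative g * (G / g) + g * derivative (G / g) := by
          rw [← derivative_mul, e1]
        have h3 : derivative H = derivative g * (H / g) + g * derivative (H / g) := by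
          rw [← derivative_mul, e2]
        rw [h2, h3] at hW
        rw [wronskian]
        linear_combination hW + (derivative g * (H / g) + g * derivative (H / g)) * e1 -
          (derivative g * (G / g) + g * derivative (G / g)) * e2
      exact (mul_eq_zero.1 h1).resolve_left (pow_ne_zero 2 hg0)
    obtain ⟨d1, d2⟩ := (IsCoprime.wronskian_eq_zero_iff hcop).1 hw
    have c1 := eq_C_of_derivative_eq_zero d1
    have c2 := eq_C_of_derivative_eq_zero d2
    have hd : g.natDegree ≤ d := (natDegree_le_of_dvd (gcd_dvd_right G H) hH0).trans hH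
    refine ⟨g, (G / g).coeff 0, (H / g).coeff 0, hg0, hd, ?_, ?_, ?_⟩
    · right
      intro h0
      apply hH0
      rw [← e2, c2, h0, C_0, mul_zero]
    · intro t
      conv_lhs => rw [← e1, c1]
      rw [eval_mul, eval_C, mul_comm]
    · intro t
      conv_lhs => rw [← e2, c2]
      rw [eval_mul, eval_C, mul_comm]

/-- The number of times is at most three times the number of roots. -/
lemma times_card (V V0 R : Finset ℝ) (hV : V0 ⊆ V)
    (h : ∀ t ∈ V0, ∃ t' ∈ V, ∃ r ∈ R, (∀ w ∈ V, ¬ (t < w ∧ w < t') ∧ ¬ (t' < w ∧ w < t)) ∧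
      ((t ≤ r ∧ r ≤ t') ∨ (t' ≤ r ∧ r ≤ t))) : V0.card ≤ 3 * R.card := by
  classical
  let A : ℝ → Finset ℝ := fun r => V.filter fun v => v < r ∧ ∀ w ∈ V, ¬ (v < w ∧ w < r)
  let A' : ℝ → Finset ℝ := fun r => V.filter fun v => r < v ∧ ∀ w ∈ V, ¬ (r < w ∧ w < v)
  have hA : ∀ r, (A r).card ≤ 1 := by
    intro r
    refine Finset.card_le_one.2 ?_
    intro a ha b hb
    obtain ⟨ha1, ha2, ha3⟩ := Finset.mem_filter.1 ha
    obtain ⟨hb1, hb2, hb3⟩ := Finset.mem_filter.1 hb
    rcases lt_trichotomy a b with h | h | h
    · exact absurd ⟨h, hb2⟩ (ha3 b hb1)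
    · exact h
    · exact absurd ⟨h, ha2⟩ (hb3 a ha1)
  have hA' : ∀ r, (A' r).card ≤ 1 := by
    intro r
    refine Finset.card_le_one.2 ?_
    intro a ha b hb
    obtain ⟨ha1, ha2, ha3⟩ := Finset.mem_filter.1 ha
    obtain ⟨hb1, hb2, hb3⟩ := Finset.mem_filter.1 hb
    rcases lt_trichotomy a b with h | h | h
    · exact absurd ⟨ha2, h⟩ (hb3 a ha1)
    · exact h
    · exact absurd ⟨hb2, h⟩ (ha3 b hb1)
  have hsub : V0 ⊆ R.biUnion fun r => insert r (A r ∪ A' r) := by
    intro t ht
    obtain ⟨t', ht', r, hr, hw, hb⟩ := h t ht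
    refine Finset.mem_biUnion.2 ⟨r, hr, ?_⟩
    rcases lt_trichotomy t r with hlt | heq | hgt
    · refine Finset.mem_insert_of_mem (Finset.mem_union_left _ ?_)
      refine Finset.mem_filter.2 ⟨hV ht, hlt, ?_⟩
      intro w hwV hh
      rcases hb with hb | hb
      · exact (hw w hwV).1 ⟨hh.1, lt_of_lt_of_le hh.2 hb.2⟩
      · exact absurd hb.2 (not_le.2 hlt)
    · rw [heq]
      exact Finset.mem_insert_self _ _
    · refine Finset.mem_insert_of_mem (Finset.mem_union_right _ ?_)
      refine Finset.mem_filter.2 ⟨hV ht, hgt, ?_⟩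
      intro w hwV hh
      rcases hb with hb | hb
      · exact absurd hb.1 (not_le.2 hgt)
      · exact (hw w hwV).2 ⟨lt_of_le_of_lt hb.1 hh.1, hh.2⟩
  calc V0.card ≤ (R.biUnion fun r => insert r (A r ∪ A' r)).card := Finset.card_le_card hsub
    _ ≤ R.card * 3 := by
        refine Finset.card_biUnion_le_card_mul _ _ _ ?_
        intro r _
        calc (insert r (A r ∪ A' r)).card ≤ (A r ∪ A' r).card + 1 := Finset.card_insert_le _ _
          _ ≤ (A r).card + (A' r).card + 1 := by
              have := Finset.card_union_le (A r) (A' r)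
              omega
          _ ≤ 3 := by
              have := hA r
              have := hA' r
              omega
    _ = 3 * R.card := mul_comm _ _

theorem count_times {ι : Type*} [DecidableEq ι] (Y Y0 : Finset ι) (τ : ι → ℝ) (u : ι → ℂ)
    (G H : Polynomial ℝ) (hGH : G ≠ 0 ∨ H ≠ 0) (d B : ℕ) (hG : G.natDegree ≤ d)
    (hH : H.natDegree ≤ d) (hu : ∀ y ∈ Y, u y ≠ 0)
    (hz : ∀ y ∈ Y, G.eval (τ y) * (u y).re + H.eval (τ y) * (u y).im = 0)
    (hY0 : Y0 ⊆ Y)
    (hl : ∀ y ∈ Y0, ∃ z ∈ Y, τ z ≠ τ y ∧ Par (u z) (u y) ∧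
      ∀ w ∈ Y, ¬ (τ y < τ w ∧ τ w < τ z) ∧ ¬ (τ z < τ w ∧ τ w < τ y))
    (hB : ∀ y ∈ Y0, ∀ T : Finset ι, T ⊆ Y → (∀ z ∈ T, Par (u z) (u y)) → T.card ≤ B) :
    (Y0.image τ).card ≤ 9 * d + B := by
  classical
  have hre : ∀ y ∈ Y, (u y).re ≠ 0 ∨ (u y).im ≠ 0 := by
    intro y hy
    by_contra hcon
    push Not at hcon
    exact hu y hy (Complex.ext hcon.1 hcon.2)
  by_cases hW : G * derivative H - derivative G * H = 0
  · obtain ⟨g, α, β, hg0, hgd, hab, hGg, hHg⟩ := times_prop G H hGH hG hH hW
    have h1 : ∀ y ∈ Y, g.eval (τ y) ≠ 0 → α * (u y).re + β * (u y).im = 0 := by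
      intro y hy hgy
      have h := hz y hy
      rw [hGg, hHg] at h
      have h' : g.eval (τ y) * (α * (u y).re + β * (u y).im) = 0 := by linear_combination h
      exact (mul_eq_zero.1 h').resolve_left hgy
    have hsub : Y0.image τ ⊆ g.roots.toFinset ∪
        (Y0.filter fun y => g.eval (τ y) ≠ 0).image τ := by
      intro t ht
      obtain ⟨y, hy, rfl⟩ := Finset.mem_image.1 ht
      by_cases hgy : g.eval (τ y) = 0
      · refine Finset.mem_union_left _ ?_
        rw [Multiset.mem_toFinset, mem_roots hg0]
        exact hgy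
      · exact Finset.mem_union_right _
          (Finset.mem_image_of_mem _ (Finset.mem_filter.2 ⟨hy, hgy⟩))
    have hr : g.roots.toFinset.card ≤ d :=
      (Multiset.toFinset_card_le _).trans ((card_roots' g).trans hgd)
    have hT : ((Y0.filter fun y => g.eval (τ y) ≠ 0).image τ).card ≤ B := by
      refine Finset.card_image_le.trans ?_
      rcases (Y0.filter fun y => g.eval (τ y) ≠ 0).eq_empty_or_nonempty with he | ⟨y0, hy0⟩
      · rw [he]; simp
      · obtain ⟨hy01, hy02⟩ := Finset.mem_filter.1 hy0
        refine hB y0 hy01 _ ((Finset.filter_subset _ _).trans hY0) ?_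
        intro z hz'
        obtain ⟨hz1, hz2⟩ := Finset.mem_filter.1 hz'
        have e1 := h1 y0 (hY0 hy01) hy02
        have e2 := h1 z (hY0 hz1) hz2
        unfold Par
        rw [Complex.mul_im, Complex.conj_re, Complex.conj_im]
        rcases hab with ha | hb
        · have : α * ((u z).re * -(u y0).im + (u z).im * (u y0).re) = 0 := by
            linear_combination (u z).im * e1 - (u y0).im * e2
          exact (mul_eq_zero.1 this).resolve_left ha
        · have : β * ((u z).re * -(u y0).im + (u z).im * (u y0).re) = 0 := by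
            linear_combination (u y0).re * e2 - (u z).re * e1
          exact (mul_eq_zero.1 this).resolve_left hb
    have := Finset.card_le_card hsub
    have h2 := Finset.card_union_le g.roots.toFinset
      ((Y0.filter fun y => g.eval (τ y) ≠ 0).image τ)
    omega
  · set W := G * derivative H - derivative G * H with hWdef
    have hG0 : G ≠ 0 := by
      rintro rfl
      apply hW
      rw [hWdef]
      simp
    have hP0 : G * W ≠ 0 := mul_ne_zero hG0 hW
    have hWd : W.natDegree ≤ 2 * d := by
      have h1 : (G * derivative H).natDegree ≤ 2 * d := by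
        refine natDegree_mul_le.trans ?_
        have := natDegree_derivative_le H
        omega
      have h2 : (derivative G * H).natDegree ≤ 2 * d := by
        refine natDegree_mul_le.trans ?_
        have := natDegree_derivative_le G
        omega
      exact (natDegree_sub_le _ _).trans (max_le h1 h2)
    have hPd : (G * W).natDegree ≤ 3 * d := by
      refine natDegree_mul_le.trans ?_
      omega
    have hR : (G * W).roots.toFinset.card ≤ 3 * d :=
      (Multiset.toFinset_card_le _).trans ((card_roots' _).trans hPd)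
    have hc := times_card (Y.image τ) (Y0.image τ) (G * W).roots.toFinset
      (Finset.image_subset_image hY0) (by
        intro t ht
        obtain ⟨y, hy, rfl⟩ := Finset.mem_image.1 ht
        obtain ⟨z, hzY, hne, hpar, hw⟩ := hl y hy
        refine ⟨τ z, Finset.mem_image_of_mem _ hzY, ?_⟩
        have hF1 : G.eval (τ y) * (u y).re + H.eval (τ y) * (u y).im = 0 := hz y (hY0 hy)
        have hF2 : G.eval (τ z) * (u y).re + H.eval (τ z) * (u y).im = 0 := by
          have e := hz z hzY
          unfold Par at hpar
          rw [Complex.mul_im, Complex.conj_re, Complex.conj_im] at hpar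
          rcases hre z hzY with h | h
          · have : (u z).re * (G.eval (τ z) * (u y).re + H.eval (τ z) * (u y).im) = 0 := by
              linear_combination (u y).re * e - H.eval (τ z) * hpar
            exact (mul_eq_zero.1 this).resolve_left h
          · have : (u z).im * (G.eval (τ z) * (u y).re + H.eval (τ z) * (u y).im) = 0 := by
              linear_combination (u y).im * e + G.eval (τ z) * hpar
            exact (mul_eq_zero.1 this).resolve_left h
        have hmem : ∀ r : ℝ, (G * W).eval r = 0 → r ∈ (G * W).roots.toFinset := by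
          intro r hr
          rw [Multiset.mem_toFinset, mem_roots hP0]
          exact hr
        have hw' : ∀ w ∈ Y.image τ, ¬ (τ y < w ∧ w < τ z) ∧ ¬ (τ z < w ∧ w < τ y) := by
          intro w hwm
          obtain ⟨v, hv, rfl⟩ := Finset.mem_image.1 hwm
          exact hw v hv
        rcases lt_or_gt_of_ne hne with h | h
        · obtain ⟨r, h1, h2, h3⟩ := times_root G H (hre y (hY0 hy)) h hF2 hF1
          exact ⟨r, hmem r h3, hw', Or.inr ⟨h1, h2⟩⟩
        · obtain ⟨r, h1, h2, h3⟩ := times_root G H (hre y (hY0 hy)) h hF1 hF2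
          exact ⟨r, hmem r h3, hw', Or.inl ⟨h1, h2⟩⟩)
    omega

end SD12
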