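import Pool.Agent.SD12.PolyA
import Pool.Agent.SD12.Times
import Pool.Agent.SD12.Link

/-!
# Pairs of close lines in a set of lines

Close pairs of lines in `F` are counted by removing the lines one by one, the line given by the
polynomial method first: its partners are linked (and then there are few of them) or they are alone
with it in their cell (and then a branching cell disappears).
-/

open Finset ComplexConjugate

namespace SD12

open Classical in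
/-- The time at which two lines meet. -/
noncomputable def cellTau (x y : ℂ × ℂ) : ℝ :=
  if h : ∃ t : ℝ, Meet x y t then h.choose else 0

lemma cellTau_spec {x y : ℂ × ℂ} (h : ∃ t : ℝ, Meet x y t) : Meet x y (cellTau x y) := by
  unfold cellTau
  rw [dif_pos h]
  exact h.choose_spec

lemma cell_meet {F : Finset (ℂ × ℂ)} (hF : Cr F) {x y : ℂ × ℂ} (hx : x ∈ F) (hy : y ∈ F)
    (hxy : x ≠ y) {s : ℝ} (hs : |s| ≤ 1 / 2) (h : ‖L x s - L y s‖ ≤ 1 / 16) :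
    ∃ t : ℝ, Meet x y t :=
  (hF x hx y hy hxy s (by linarith) (by linarith)).2

open Classical in
/-- There are few linked lines. -/
lemma cell_linked {F : Finset (ℂ × ℂ)} (hF : Cr F) {ι' : Type*} (S : Finset ℝ)
    (hS : ∀ s ∈ S, |s| ≤ 1 / 2) (c : ℝ → ℂ × ℂ → ι')
    (hc : ∀ s ∈ S, ∀ x ∈ F, ∀ y ∈ F, c s x = c s y → ‖L x s - L y s‖ ≤ 1 / 16)
    (P : ℂ × ℂ → ℂ × ℂ → Prop) {x : ℂ × ℂ} (hx : x ∈ F) (G H : Polynomial ℝ)
    (hGH : G ≠ 0 ∨ H ≠ 0) (hG : (G.natDegree : ℝ) ≤ 6 * Real.sqrt F.card)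
    (hH : (H.natDegree : ℝ) ≤ 6 * Real.sqrt F.card)
    (hz : ∀ y ∈ F, ∀ t : ℝ, Meet x y t → G.eval t * (x.1 - y.1).re + H.eval t * (x.1 - y.1).im = 0)
    (b : ℝ) (hb0 : 0 ≤ b)
    (hcl : ∀ y ∈ F, x ≠ y → P x y → ∀ z ∈ F, z ≠ x → ∀ t : ℝ, Meet x y t → Meet x z t → z = y)
    (hgd : ∀ y ∈ F, x ≠ y → P x y →
      ((F.filter fun z => z ≠ x ∧ (∃ t : ℝ, Meet x z t) ∧ Par (x.1 - z.1) (x.1 - y.1)).card : ℝ)
        ≤ b) :
    (((F.erase x).filter fun y => P x y ∧ ∃ s ∈ S, c s x = c s y ∧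
      ∃ z ∈ F.erase x, c s z = c s x ∧ cellTau x z ≠ cellTau x y).card : ℝ) ≤
      54 * Real.sqrt F.card + b := by
  set Y0 : Finset (ℂ × ℂ) := (F.erase x).filter fun y => P x y ∧ ∃ s ∈ S, c s x = c s y ∧
      ∃ z ∈ F.erase x, c s z = c s x ∧ cellTau x z ≠ cellTau x y with hY0def
  set Y : Finset (ℂ × ℂ) := (F.erase x).filter fun z => ∃ t : ℝ, Meet x z t with hYdef
  have hmem : ∀ y ∈ Y0, y ∈ F ∧ x ≠ y ∧ P x y ∧ (∃ t : ℝ, Meet x y t) ∧
      ∃ s ∈ S, c s x = c s y ∧ ∃ z ∈ F.erase x, c s z = c s x ∧ cellTau x z ≠ cellTau x y := by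
    intro y hy
    rw [hY0def, mem_filter, mem_erase] at hy
    obtain ⟨⟨h1, h2⟩, h3, s, hs, h4, h5⟩ := hy
    exact ⟨h2, Ne.symm h1, h3, cell_meet hF hx h2 (Ne.symm h1) (hS s hs) (hc s hs x hx y h2 h4),
      s, hs, h4, h5⟩
  have hYmem : ∀ y ∈ Y, y ∈ F ∧ y ≠ x ∧ Meet x y (cellTau x y) := by
    intro y hy
    rw [hYdef, mem_filter, mem_erase] at hy
    exact ⟨hy.1.2, hy.1.1, cellTau_spec hy.2⟩
  have hsub : Y0 ⊆ Y := by
    intro y hy
    obtain ⟨h1, h2, -, h4, -⟩ := hmem y hy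
    rw [hYdef, mem_filter, mem_erase]
    exact ⟨⟨Ne.symm h2, h1⟩, h4⟩
  have hinj : Set.InjOn (cellTau x) (Y0 : Set (ℂ × ℂ)) := by
    intro y hy y' hy' hyy
    have hy1 := hmem y (by exact_mod_cast hy)
    have hy2 := hmem y' (by exact_mod_cast hy')
    have h := hcl y hy1.1 hy1.2.1 hy1.2.2.1 y' hy2.1 (Ne.symm hy2.2.1) (cellTau x y)
      (cellTau_spec hy1.2.2.2.1) (by rw [hyy]; exact cellTau_spec hy2.2.2.2.1)
    exact h.symm
  have hcount := count_times Y Y0 (cellTau x) (fun z => x.1 - z.1) G H hGH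
    ⌊6 * Real.sqrt F.card⌋₊ ⌊b⌋₊ (Nat.le_floor hG) (Nat.le_floor hH)
    (fun y hy => sub_ne_zero.2 ((hYmem y hy).2.2.ne (Ne.symm (hYmem y hy).2.1)))
    (fun y hy => hz y (hYmem y hy).1 _ (hYmem y hy).2.2) hsub
    (by
      intro y hy
      obtain ⟨h1, h2, h3, h4, s, hs, h5, z, hz1, hz2, hz3⟩ := hmem y hy
      rw [mem_erase] at hz1
      have hzm : ∃ t : ℝ, Meet x z t := cell_meet hF hx hz1.2 (Ne.symm hz1.1) (hS s hs)
        (hc s hs x hx z hz1.2 hz2.symm)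
      obtain ⟨v, hv, hvx, tv, hm, hne, hpar, hw⟩ := link hF hx h1 hz1.2 (Ne.symm h2) hz1.1
        (hS s hs) (hc s hs x hx y h1 h5) (hc s hs x hx z hz1.2 hz2.symm) (cellTau_spec h4)
        (cellTau_spec hzm) (Ne.symm hz3)
      have hvt : cellTau x v = tv := (cellTau_spec ⟨tv, hm⟩).unique hm (Ne.symm hvx)
      refine ⟨v, ?_, ?_, hpar, ?_⟩
      · rw [hYdef, mem_filter, mem_erase]
        exact ⟨⟨hvx, hv⟩, tv, hm⟩
      · rw [hvt]; exact hne
      · intro w hwY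
        rw [hvt]
        exact hw w (hYmem w hwY).1 (hYmem w hwY).2.1 _ (hYmem w hwY).2.2)
    (by
      intro y hy T hT hTp
      obtain ⟨h1, h2, h3, -⟩ := hmem y hy
      apply Nat.le_floor
      refine le_trans ?_ (hgd y h1 h2 h3)
      have hTs : T ⊆ F.filter fun z => z ≠ x ∧ (∃ t : ℝ, Meet x z t) ∧
          Par (x.1 - z.1) (x.1 - y.1) := by
        intro z hzT
        obtain ⟨g1, g2, g3⟩ := hYmem z (hT hzT)
        rw [mem_filter]
        exact ⟨g1, g2, ⟨_, g3⟩, hTp z hzT⟩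
      exact_mod_cast card_le_card hTs)
  rw [card_image_of_injOn hinj] at hcount
  have h1 : ((⌊6 * Real.sqrt F.card⌋₊ : ℕ) : ℝ) ≤ 6 * Real.sqrt F.card :=
    Nat.floor_le (by positivity)
  have h2 : ((⌊b⌋₊ : ℕ) : ℝ) ≤ b := Nat.floor_le hb0
  have h3 : (Y0.card : ℝ) ≤ 9 * ((⌊6 * Real.sqrt F.card⌋₊ : ℕ) : ℝ) + ((⌊b⌋₊ : ℕ) : ℝ) := by
    exact_mod_cast hcount
  linarith

open Classical in
/-- The branching cells. -/
noncomputable def cellBr {ι' κ' : Type*} (f : ℂ × ℂ → ι') (ch : ℂ × ℂ → κ')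
    (F : Finset (ℂ × ℂ)) : Finset ι' :=
  (F.image f).filter fun u => ∃ x ∈ F, ∃ y ∈ F, f x = u ∧ f y = u ∧ ch x ≠ ch y

lemma cellBr_mono {ι' κ' : Type*} (f : ℂ × ℂ → ι') (ch : ℂ × ℂ → κ')
    {F F' : Finset (ℂ × ℂ)} (h : F' ⊆ F) : cellBr f ch F' ⊆ cellBr f ch F := by
  classical
  intro u hu
  unfold cellBr at hu ⊢
  rw [mem_filter] at hu ⊢
  obtain ⟨h1, x, hx, y, hy, h2⟩ := hu
  exact ⟨image_subset_image h h1, x, h hx, y, h hy, h2⟩

open Classical in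
/-- A line which is not linked uses a branching cell. -/
lemma cell_unlinked {F : Finset (ℂ × ℂ)} (hF : Cr F) {ι' κ' : Type*} {s : ℝ}
    (hs : |s| ≤ 1 / 2) (f : ℂ × ℂ → ι') (ch : ℂ × ℂ → κ')
    (hc : ∀ x ∈ F, ∀ y ∈ F, f x = f y → ‖L x s - L y s‖ ≤ 1 / 16)
    (P : ℂ × ℂ → ℂ × ℂ → Prop) {x : ℂ × ℂ} (hx : x ∈ F)
    (hch : ∀ y ∈ F, x ≠ y → P x y → ch x ≠ ch y)
    (hcl : ∀ y ∈ F, x ≠ y → P x y → ∀ z ∈ F, z ≠ x → ∀ t : ℝ, Meet x y t → Meet x z t → z = y) :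
    ((F.erase x).filter fun y => (P x y ∧ f x = f y) ∧
      ¬ ∃ z ∈ F.erase x, f z = f x ∧ cellTau x z ≠ cellTau x y).card +
      (cellBr f ch (F.erase x)).card ≤ (cellBr f ch F).card := by
  set U : Finset (ℂ × ℂ) := (F.erase x).filter fun y => (P x y ∧ f x = f y) ∧
      ¬ ∃ z ∈ F.erase x, f z = f x ∧ cellTau x z ≠ cellTau x y with hU
  have hkey : ∀ y ∈ U, y ∈ F ∧ x ≠ y ∧ P x y ∧ f x = f y ∧
      ∀ z ∈ F.erase x, f z = f x → z = y := by
    intro y hy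
    rw [hU, mem_filter, mem_erase] at hy
    obtain ⟨⟨h1, h2⟩, ⟨h3, h4⟩, h5⟩ := hy
    refine ⟨h2, Ne.symm h1, h3, h4, fun z hz hzx => ?_⟩
    have hz' := mem_erase.1 hz
    have hzt : cellTau x z = cellTau x y := by
      by_contra hne
      exact h5 ⟨z, hz, hzx, hne⟩
    have m1 := cell_meet hF hx h2 (Ne.symm h1) hs (hc x hx y h2 h4)
    have m2 := cell_meet hF hx hz'.2 (Ne.symm hz'.1) hs (hc x hx z hz'.2 hzx.symm)
    exact hcl y h2 (Ne.symm h1) h3 z hz'.2 hz'.1 (cellTau x y) (cellTau_spec m1)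
      (by rw [← hzt]; exact cellTau_spec m2)
  rcases U.eq_empty_or_nonempty with hUe | ⟨y, hy⟩
  · rw [hUe, card_empty, zero_add]
    exact card_le_card (cellBr_mono f ch (erase_subset _ _))
  · obtain ⟨h1, h2, h3, h4, h5⟩ := hkey y hy
    have hU1 : U.card ≤ 1 := by
      rw [card_le_one]
      intro a ha b hb
      obtain ⟨a1, a2, a3, a4, a5⟩ := hkey a ha
      obtain ⟨b1, b2, b3, b4, b5⟩ := hkey b hb
      exact b5 a (mem_erase.2 ⟨Ne.symm a2, a1⟩) a4.symm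
    have hnot : f x ∉ cellBr f ch (F.erase x) := by
      intro hu
      unfold cellBr at hu
      rw [mem_filter] at hu
      obtain ⟨-, x', hx', y', hy', e1, e2, hne⟩ := hu
      apply hne
      rw [h5 x' hx' e1, h5 y' hy' e2]
    have hin : f x ∈ cellBr f ch F := by
      unfold cellBr
      rw [mem_filter]
      exact ⟨mem_image_of_mem _ hx, x, hx, y, h1, rfl, h4.symm, hch y h1 h2 h3⟩
    have hsub : insert (f x) (cellBr f ch (F.erase x)) ⊆ cellBr f ch F :=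
      insert_subset hin (cellBr_mono f ch (erase_subset _ _))
    have := card_le_card hsub
    rw [card_insert_of_notMem hnot] at this
    omega

open Classical in
/-- Removing a line. -/
lemma cell_step {F : Finset (ℂ × ℂ)} (hF : Cr F) {κ' ι' : Type*}
    (S : Finset ℝ) (hS : ∀ s ∈ S, |s| ≤ 1 / 2) (c : ℝ → ℂ × ℂ → ι')
    (hc : ∀ s ∈ S, ∀ x ∈ F, ∀ y ∈ F, c s x = c s y → ‖L x s - L y s‖ ≤ 1 / 16)
    (ch : ℂ × ℂ → κ') (P : ℂ × ℂ → ℂ × ℂ → Prop)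
    (R : ℝ) (hR0 : 0 ≤ R) {x : ℂ × ℂ} (hx : x ∈ F) (G H : Polynomial ℝ)
    (hGH : G ≠ 0 ∨ H ≠ 0) (hG : (G.natDegree : ℝ) ≤ 6 * Real.sqrt F.card)
    (hH : (H.natDegree : ℝ) ≤ 6 * Real.sqrt F.card)
    (hz : ∀ y ∈ F, ∀ t : ℝ, Meet x y t → G.eval t * (x.1 - y.1).re + H.eval t * (x.1 - y.1).im = 0)
    (b : ℝ) (hb0 : 0 ≤ b)
    (hR : ∀ y ∈ F, x ≠ y → P x y → ((S.filter fun s => c s x = c s y).card : ℝ) ≤ R)
    (hch : ∀ y ∈ F, x ≠ y → P x y → ch x ≠ ch y)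
    (hcl : ∀ y ∈ F, x ≠ y → P x y → ∀ z ∈ F, z ≠ x → ∀ t : ℝ, Meet x y t → Meet x z t → z = y)
    (hgd : ∀ y ∈ F, x ≠ y → P x y →
      ((F.filter fun z => z ≠ x ∧ (∃ t : ℝ, Meet x z t) ∧ Par (x.1 - z.1) (x.1 - y.1)).card : ℝ)
        ≤ b) :
    ∑ s ∈ S, (((F.erase x).filter fun y => P x y ∧ c s x = c s y).card : ℝ) +
      ∑ s ∈ S, ((cellBr (c s) ch (F.erase x)).card : ℝ) ≤
      R * (54 * Real.sqrt F.card + b) + ∑ s ∈ S, ((cellBr (c s) ch F).card : ℝ) := by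
  set Y0 : Finset (ℂ × ℂ) := (F.erase x).filter fun y => P x y ∧ ∃ s ∈ S, c s x = c s y ∧
      ∃ z ∈ F.erase x, c s z = c s x ∧ cellTau x z ≠ cellTau x y with hY0def
  have hY0 : (Y0.card : ℝ) ≤ 54 * Real.sqrt F.card + b :=
    cell_linked hF S hS c hc P hx G H hGH hG hH hz b hb0 hcl hgd
  have h1 : ∀ s ∈ S, (((F.erase x).filter fun y => P x y ∧ c s x = c s y).card : ℝ) +
      ((cellBr (c s) ch (F.erase x)).card : ℝ) ≤
      ((Y0.filter fun y => c s x = c s y).card : ℝ) + ((cellBr (c s) ch F).card : ℝ) := by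
    intro s hs
    have hun := cell_unlinked hF (hS s hs) (c s) ch (hc s hs) P hx hch hcl
    have hsub : ((F.erase x).filter fun y => P x y ∧ c s x = c s y) ⊆
        (Y0.filter fun y => c s x = c s y) ∪ ((F.erase x).filter fun y => (P x y ∧ c s x = c s y) ∧
          ¬ ∃ z ∈ F.erase x, c s z = c s x ∧ cellTau x z ≠ cellTau x y) := by
      intro y hy
      rw [mem_filter] at hy
      rw [mem_union]
      by_cases hl : ∃ z ∈ F.erase x, c s z = c s x ∧ cellTau x z ≠ cellTau x y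
      · left
        exact mem_filter.2 ⟨mem_filter.2 ⟨hy.1, hy.2.1, s, hs, hy.2.2, hl⟩, hy.2.2⟩
      · right
        exact mem_filter.2 ⟨hy.1, hy.2, hl⟩
    have hcard := (card_le_card hsub).trans (card_union_le _ _)
    have : ((F.erase x).filter fun y => P x y ∧ c s x = c s y).card +
        (cellBr (c s) ch (F.erase x)).card ≤
        (Y0.filter fun y => c s x = c s y).card + (cellBr (c s) ch F).card := by omega
    exact_mod_cast this
  have h2 : ∑ s ∈ S, ((Y0.filter fun y => c s x = c s y).card : ℝ) ≤ Y0.card * R := by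
    have e1 : ∑ s ∈ S, ((Y0.filter fun y => c s x = c s y).card : ℝ) =
        ∑ y ∈ Y0, ((S.filter fun s => c s x = c s y).card : ℝ) := by
      simp only [card_filter]
      push_cast
      exact sum_comm
    rw [e1, ← nsmul_eq_mul]
    apply sum_le_card_nsmul
    intro y hy
    rw [hY0def, mem_filter, mem_erase] at hy
    exact hR y hy.1.2 (Ne.symm hy.1.1) hy.2.1
  have h3 : (Y0.card : ℝ) * R ≤ R * (54 * Real.sqrt F.card + b) := by
    rw [mul_comm]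
    exact mul_le_mul_of_nonneg_left hY0 hR0
  calc ∑ s ∈ S, (((F.erase x).filter fun y => P x y ∧ c s x = c s y).card : ℝ) +
        ∑ s ∈ S, ((cellBr (c s) ch (F.erase x)).card : ℝ)
      = ∑ s ∈ S, ((((F.erase x).filter fun y => P x y ∧ c s x = c s y).card : ℝ) +
        ((cellBr (c s) ch (F.erase x)).card : ℝ)) := by rw [sum_add_distrib]
    _ ≤ ∑ s ∈ S, (((Y0.filter fun y => c s x = c s y).card : ℝ) +
        ((cellBr (c s) ch F).card : ℝ)) := sum_le_sum h1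
    _ = ∑ s ∈ S, ((Y0.filter fun y => c s x = c s y).card : ℝ) +
        ∑ s ∈ S, ((cellBr (c s) ch F).card : ℝ) := sum_add_distrib
    _ ≤ _ := by linarith

open Classical in
lemma cell_pairs {F : Finset (ℂ × ℂ)} {ι' : Type*} (f : ℂ × ℂ → ι')
    (P : ℂ × ℂ → ℂ × ℂ → Prop) (hsymm : ∀ x y, P x y → P y x) {x : ℂ × ℂ} :
    ((F ×ˢ F).filter fun p => p.1 ≠ p.2 ∧ P p.1 p.2 ∧ f p.1 = f p.2).card ≤
      (((F.erase x) ×ˢ (F.erase x)).filter fun p => p.1 ≠ p.2 ∧ P p.1 p.2 ∧ f p.1 = f p.2).card +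
      2 * ((F.erase x).filter fun y => P x y ∧ f x = f y).card := by
  set Y := (F.erase x).filter fun y => P x y ∧ f x = f y with hY
  have hsub : ((F ×ˢ F).filter fun p => p.1 ≠ p.2 ∧ P p.1 p.2 ∧ f p.1 = f p.2) ⊆
      ((((F.erase x) ×ˢ (F.erase x)).filter fun p => p.1 ≠ p.2 ∧ P p.1 p.2 ∧ f p.1 = f p.2) ∪
        Y.image fun y => (x, y)) ∪ Y.image fun y => (y, x) := by
    intro p hp
    rw [mem_filter, mem_product] at hp
    obtain ⟨⟨h1, h2⟩, h3, h4, h5⟩ := hp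
    rw [mem_union, mem_union, mem_filter, mem_product, mem_erase, mem_erase, mem_image, mem_image]
    by_cases hp1 : p.1 = x
    · left; right
      refine ⟨p.2, ?_, by rw [← hp1]⟩
      rw [hY, mem_filter, mem_erase]
      exact ⟨⟨fun h => h3 (hp1.trans h.symm), h2⟩, by rw [← hp1]; exact h4, by rw [← hp1]; exact h5⟩
    · by_cases hp2 : p.2 = x
      · right
        refine ⟨p.1, ?_, by rw [← hp2]⟩
        rw [hY, mem_filter, mem_erase]
        exact ⟨⟨hp1, h1⟩, by rw [← hp2]; exact hsymm _ _ h4, by rw [← hp2]; exact h5.symm⟩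
      · left; left
        exact ⟨⟨⟨hp1, h1⟩, hp2, h2⟩, h3, h4, h5⟩
  have h1 := card_le_card hsub
  have h2 := card_union_le ((((F.erase x) ×ˢ (F.erase x)).filter fun p => p.1 ≠ p.2 ∧ P p.1 p.2 ∧
    f p.1 = f p.2) ∪ Y.image fun y => (x, y)) (Y.image fun y => (y, x))
  have h3 := card_union_le (((F.erase x) ×ˢ (F.erase x)).filter fun p => p.1 ≠ p.2 ∧ P p.1 p.2 ∧
    f p.1 = f p.2) (Y.image fun y => (x, y))
  have h4 : (Y.image fun y => (x, y)).card ≤ Y.card := card_image_le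
  have h5 : (Y.image fun y => (y, x)).card ≤ Y.card := card_image_le
  omega

open Classical in
lemma cell_count_aux {κ' ι' : Type*}
    (S : Finset ℝ) (hS : ∀ s ∈ S, |s| ≤ 1 / 2) (c : ℝ → ℂ × ℂ → ι')
    (ch : ℂ × ℂ → κ') (P : ℂ × ℂ → ℂ × ℂ → Prop) (hsymm : ∀ x y, P x y → P y x)
    (B : ℂ × ℂ → ℝ) (hB0 : ∀ x, 0 ≤ B x) (R : ℝ) (hR0 : 0 ≤ R) :
    ∀ (n : ℕ) (F : Finset (ℂ × ℂ)), F.card = n → Cr F →
    (∀ s ∈ S, ∀ x ∈ F, ∀ y ∈ F, c s x = c s y → ‖L x s - L y s‖ ≤ 1 / 16) →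
    (∀ x ∈ F, ∀ y ∈ F, x ≠ y → P x y →
      ((S.filter fun s => c s x = c s y).card : ℝ) ≤ R) →
    (∀ x ∈ F, ∀ y ∈ F, x ≠ y → P x y → ch x ≠ ch y) →
    (∀ x ∈ F, ∀ y ∈ F, x ≠ y → P x y → ∀ z ∈ F, z ≠ x → ∀ t : ℝ, Meet x y t →
      Meet x z t → z = y) →
    (∀ x ∈ F, ∀ y ∈ F, x ≠ y → P x y →
      ((F.filter fun z => z ≠ x ∧ (∃ t : ℝ, Meet x z t) ∧ Par (x.1 - z.1) (x.1 - y.1)).card : ℝ)
        ≤ B x) →
    ∑ s ∈ S, (((F ×ˢ F).filter fun p => p.1 ≠ p.2 ∧ P p.1 p.2 ∧ c s p.1 = c s p.2).card : ℝ) ≤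
      2 * R * ∑ x ∈ F, (54 * Real.sqrt F.card + B x) +
      2 * ∑ s ∈ S, ((cellBr (c s) ch F).card : ℝ) := by
  intro n
  induction n with
  | zero =>
    intro F hF0 _ _ _ _ _ _
    rw [card_eq_zero] at hF0
    subst hF0
    simp only [product_empty, filter_empty, card_empty, Nat.cast_zero, sum_const_zero, sum_empty,
      mul_zero, zero_add]
    positivity
  | succ n ih =>
    intro F hFc hF hc hR hch hcl hgd
    have hne : F.Nonempty := by
      rw [← card_pos]; omega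
    obtain ⟨x, hx, G, H, hGH, hG, hH, hz⟩ := exists_grad F hne
    have hsub : F.erase x ⊆ F := erase_subset _ _
    have hcard : (F.erase x).card = n := by rw [card_erase_of_mem hx]; omega
    have hih := ih (F.erase x) hcard (hF.mono hsub)
      (fun s hs a ha b hb => hc s hs a (hsub ha) b (hsub hb))
      (fun a ha b hb => hR a (hsub ha) b (hsub hb))
      (fun a ha b hb => hch a (hsub ha) b (hsub hb))
      (fun a ha b hb hab hP z hz' => hcl a (hsub ha) b (hsub hb) hab hP z (hsub hz'))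
      (fun a ha b hb hab hP => by
        refine le_trans ?_ (hgd a (hsub ha) b (hsub hb) hab hP)
        exact_mod_cast card_le_card (filter_subset_filter _ hsub))
    have hstep := cell_step hF S hS c hc ch P R hR0 hx G H hGH hG hH hz (B x) (hB0 x)
      (hR x hx) (hch x hx) (hcl x hx) (hgd x hx)
    have hpairs : ∑ s ∈ S, (((F ×ˢ F).filter fun p => p.1 ≠ p.2 ∧ P p.1 p.2 ∧
        c s p.1 = c s p.2).card : ℝ) ≤
        ∑ s ∈ S, ((((F.erase x) ×ˢ (F.erase x)).filter fun p => p.1 ≠ p.2 ∧ P p.1 p.2 ∧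
        c s p.1 = c s p.2).card : ℝ) +
        2 * ∑ s ∈ S, (((F.erase x).filter fun y => P x y ∧ c s x = c s y).card : ℝ) := by
      rw [mul_sum, ← sum_add_distrib]
      apply sum_le_sum
      intro s _
      exact_mod_cast cell_pairs (F := F) (c s) P hsymm (x := x)
    have hsq : Real.sqrt (F.erase x).card ≤ Real.sqrt F.card := by
      apply Real.sqrt_le_sqrt
      exact_mod_cast card_le_card hsub
    have hsum : ∑ y ∈ F.erase x, (54 * Real.sqrt (F.erase x).card + B y) +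
        (54 * Real.sqrt F.card + B x) ≤ ∑ y ∈ F, (54 * Real.sqrt F.card + B y) := by
      rw [← sum_erase_add F _ hx]
      gcongr
    have h2R : 2 * R * (∑ y ∈ F.erase x, (54 * Real.sqrt (F.erase x).card + B y) +
        (54 * Real.sqrt F.card + B x)) ≤ 2 * R * ∑ y ∈ F, (54 * Real.sqrt F.card + B y) :=
      mul_le_mul_of_nonneg_left hsum (by positivity)
    linarith

open Classical in
theorem cell_count {F : Finset (ℂ × ℂ)} (hF : Cr F) {κ' ι' : Type*}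
    (S : Finset ℝ) (hS : ∀ s ∈ S, |s| ≤ 1 / 2) (c : ℝ → ℂ × ℂ → ι')
    (hc : ∀ s ∈ S, ∀ x ∈ F, ∀ y ∈ F, c s x = c s y → ‖L x s - L y s‖ ≤ 1 / 16)
    (ch : ℂ × ℂ → κ') (P : ℂ × ℂ → ℂ × ℂ → Prop) (hsymm : ∀ x y, P x y → P y x)
    (B : ℂ × ℂ → ℝ) (hB0 : ∀ x, 0 ≤ B x) (R : ℝ) (hR0 : 0 ≤ R)
    (hR : ∀ x ∈ F, ∀ y ∈ F, x ≠ y → P x y →
      ((S.filter fun s => c s x = c s y).card : ℝ) ≤ R)
    (hch : ∀ x ∈ F, ∀ y ∈ F, x ≠ y → P x y → ch x ≠ ch y)
    (hcl : ∀ x ∈ F, ∀ y ∈ F, x ≠ y → P x y → ∀ z ∈ F, z ≠ x → ∀ t : ℝ, Meet x y t →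
      Meet x z t → z = y)
    (hgd : ∀ x ∈ F, ∀ y ∈ F, x ≠ y → P x y →
      ((F.filter fun z => z ≠ x ∧ (∃ t : ℝ, Meet x z t) ∧ Par (x.1 - z.1) (x.1 - y.1)).card : ℝ)
        ≤ B x) :
    ∑ s ∈ S, (((F ×ˢ F).filter fun p => p.1 ≠ p.2 ∧ P p.1 p.2 ∧ c s p.1 = c s p.2).card : ℝ) ≤
      2 * R * ∑ x ∈ F, (54 * Real.sqrt F.card + B x) +
      2 * ∑ s ∈ S, (((F.image (c s)).filter fun u =>
        ∃ x ∈ F, ∃ y ∈ F, c s x = u ∧ c s y = u ∧ ch x ≠ ch y).card : ℝ) := by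
  have h := cell_count_aux S hS c ch P hsymm B hB0 R hR0 F.card F rfl hF hc hR hch hcl hgd
  unfold cellBr at h
  exact h

end SD12
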