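import Mathlib

/-!
# Lines in space, close lines meet

A pair `x : ℂ × ℂ` is the line `s ↦ x.2 - i s x.1` in space (`s` is the time). We study finite
sets of lines in which any two lines which are close at some time meet.
-/

open Finset ComplexConjugate

namespace SD12

/-- The point at time `s` of the line `x`. -/
noncomputable def L (x : ℂ × ℂ) (s : ℝ) : ℂ := x.2 - Complex.I * s * x.1

/-- The lines `x` and `y` meet at time `t`. -/
def Meet (x y : ℂ × ℂ) (t : ℝ) : Prop := L x t = L y t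

/-- The vectors `u` and `v` are parallel. -/
def Par (u v : ℂ) : Prop := (u * conj v).im = 0

/-- Lines of `E` which are close at some time meet, and have different velocities. -/
def Cr (E : Finset (ℂ × ℂ)) : Prop :=
  ∀ x ∈ E, ∀ y ∈ E, x ≠ y → ∀ s : ℝ, |s| ≤ 1 → ‖L x s - L y s‖ < 1 / 2 →
    1 ≤ ‖x.1 - y.1‖ ∧ ∃ t : ℝ, Meet x y t

/-- Different lines of `E` are not too close in the space of lines. -/
def Fn (E : Finset (ℂ × ℂ)) : Prop :=
  ∀ x ∈ E, ∀ y ∈ E, x ≠ y → 3 / 8 ≤ ‖x.1 - y.1‖ ∨ 3 / 2 ≤ ‖x.2 - y.2‖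

lemma Cr.mono {E F : Finset (ℂ × ℂ)} (h : Cr E) (hF : F ⊆ E) : Cr F :=
  fun x hx y hy => h x (hF hx) y (hF hy)

lemma Fn.mono {E F : Finset (ℂ × ℂ)} (h : Fn E) (hF : F ⊆ E) : Fn F :=
  fun x hx y hy => h x (hF hx) y (hF hy)

lemma Meet.symm {x y : ℂ × ℂ} {t : ℝ} (h : Meet x y t) : Meet y x t := Eq.symm h

lemma Meet.trans {x y z : ℂ × ℂ} {t : ℝ} (h : Meet x y t) (h' : Meet y z t) : Meet x z t :=
  Eq.trans h h'

lemma meet_self (x : ℂ × ℂ) (t : ℝ) : Meet x x t := rfl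

lemma Meet.sub {x y : ℂ × ℂ} {t : ℝ} (h : Meet x y t) (s : ℝ) :
    L x s - L y s = Complex.I * (t - s) * (x.1 - y.1) := by
  unfold Meet L at h
  unfold L
  linear_combination h

lemma Meet.norm_sub {x y : ℂ × ℂ} {t : ℝ} (h : Meet x y t) (s : ℝ) :
    ‖L x s - L y s‖ = |t - s| * ‖x.1 - y.1‖ := by
  rw [h.sub, norm_mul, norm_mul, Complex.norm_I, one_mul, ← Complex.ofReal_sub,
    Complex.norm_real, Real.norm_eq_abs]

lemma Meet.ne {x y : ℂ × ℂ} {t : ℝ} (h : Meet x y t) (hxy : x ≠ y) : x.1 ≠ y.1 := by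
  intro h1
  apply hxy
  unfold Meet L at h
  rw [h1] at h
  exact Prod.ext h1 (sub_left_injective h)

lemma Meet.unique {x y : ℂ × ℂ} {t t' : ℝ} (h : Meet x y t) (h' : Meet x y t') (hxy : x ≠ y) :
    t = t' := by
  have h1 := h.norm_sub t'
  have h2 : L x t' - L y t' = 0 := sub_eq_zero.2 h'
  rw [h2, norm_zero] at h1
  have h3 : ‖x.1 - y.1‖ ≠ 0 := norm_ne_zero_iff.2 (sub_ne_zero.2 (h.ne hxy))
  have h4 : |t - t'| = 0 := by
    rcases mul_eq_zero.1 h1.symm with h | h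
    · exact h
    · exact absurd h h3
  exact sub_eq_zero.1 (abs_eq_zero.1 h4)

/-- If no line of `E`, not much farther away than `y`, passes through the point where `x` and `y`
meet, apart from `x` and `y`. -/
def Clean (E : Finset (ℂ × ℂ)) (x y : ℂ × ℂ) : Prop :=
  ∀ z ∈ E, z ≠ x → ∀ t : ℝ, Meet x y t → Meet x z t → ‖x.1 - z.1‖ ≤ 10 * ‖x.1 - y.1‖ → z = y

open Classical in
/-- The number of the lines of `E` through the point where `x` and `y` meet which are not much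
farther away than `y`, apart from `x` and `y`. -/
noncomputable def hh (E : Finset (ℂ × ℂ)) (x y : ℂ × ℂ) : ℕ :=
  (E.filter fun z => z ≠ x ∧ z ≠ y ∧ (∃ t : ℝ, Meet x y t ∧ Meet x z t) ∧
    ‖x.1 - z.1‖ ≤ 10 * ‖x.1 - y.1‖).card

open Classical in
/-- The number of the lines of `E` in the plane of `x` and `y` which are not much farther away
than `y` (at scale `j`), apart from `x`. -/
noncomputable def npl (E : Finset (ℂ × ℂ)) (j : ℕ) (x y : ℂ × ℂ) : ℕ :=
  (E.filter fun z => z ≠ x ∧ (∃ t : ℝ, Meet x z t) ∧ Par (x.1 - z.1) (x.1 - y.1) ∧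
    ‖x.1 - z.1‖ ≤ 10 * ‖x.1 - y.1‖ ∧
    ‖x.2 - z.2‖ ≤ 10 * ‖x.1 - y.1‖ / 2 ^ j + 3 / 2).card

/-- The pairs which are counted by the polynomial method. -/
def Pr (E : Finset (ℂ × ℂ)) (j : ℕ) (β : ℂ × ℂ → ℝ → ℝ) (x y : ℂ × ℂ) : Prop :=
  Clean E x y ∧ Clean E y x ∧ (npl E j x y : ℝ) ≤ β x ‖x.1 - y.1‖ ∧
    (npl E j y x : ℝ) ≤ β y ‖y.1 - x.1‖

lemma Pr.symm {E : Finset (ℂ × ℂ)} {j : ℕ} {β : ℂ × ℂ → ℝ → ℝ} {x y : ℂ × ℂ}
    (h : Pr E j β x y) : Pr E j β y x := ⟨h.2.1, h.1, h.2.2.2, h.2.2.1⟩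

/-! ### The grids -/

/-- The dyadic label of level `k` of a real number, shifted if `a` is true. -/
noncomputable def fl (a : Bool) (k : ℕ) (v : ℝ) : ℤ :=
  ⌊v / 2 ^ k + (if a then (-1) ^ k / 3 else 0)⌋

/-- The label of level `k` of a line: the mesh is `2 ^ k / 4` in the first coordinate and
`2 ^ (k - (j + 2))` (truncated subtraction) in the second one. -/
noncomputable def lab (j : ℕ) (a : Bool × Bool × Bool × Bool) (k : ℕ) (x : ℂ × ℂ) :
    ℤ × ℤ × ℤ × ℤ :=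
  (fl a.1 k (4 * x.1.re), fl a.2.1 k (4 * x.1.im),
    fl a.2.2.1 (k - (j + 2)) x.2.re, fl a.2.2.2 (k - (j + 2)) x.2.im)

/-- The cell of a point of the plane, in a grid of mesh `1 / 25` which is shifted according to
`b`. -/
noncomputable def vc (b : Bool × Bool) (z : ℂ) : ℤ × ℤ :=
  (⌊25 * z.re + (if b.1 then 1 / 2 else 0)⌋, ⌊25 * z.im + (if b.2 then 1 / 2 else 0)⌋)

/-- The weight of the level `k`. -/
noncomputable def om (j k : ℕ) : ℝ := min 1 (2 ^ (j + 1) / 2 ^ k)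

open Classical in
/-- The number of the lines of `E` in a box of level `k` around `x`. -/
noncomputable def Nk (E : Finset (ℂ × ℂ)) (j k : ℕ) (x : ℂ × ℂ) : ℕ :=
  (E.filter fun y => ‖x.1 - y.1‖ < 2 ^ k ∧
    ‖x.2 - y.2‖ < 3 / 2 * 2 ^ (k + 1 - (j + 2))).card

/-- `S` is a set of times in `[-1 / 2 ^ (j + 1), 1 / 2 ^ (j + 1)]` with density `κ`. -/
structure Times (j : ℕ) (κ : ℝ) (S : Finset ℝ) : Prop where
  pos : 0 < κ
  abs_le : ∀ s ∈ S, |s| ≤ 1 / 2 ^ (j + 1)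
  le_card : κ ≤ S.card * 2 ^ j
  count : ∀ u v : ℝ, u ≤ v → ((S.filter fun s => u ≤ s ∧ s ≤ v).card : ℝ) ≤ κ * (v - u) + 1

/-! ### Random subsets -/

/-- The expectation of `f` at the random subset of `E` which contains each element of `E` with
probability `π`, independently. -/
noncomputable def Ex {α : Type*} [DecidableEq α] (E : Finset α) (π : ℝ) (f : Finset α → ℝ) : ℝ :=
  ∑ T ∈ E.powerset, π ^ T.card * (1 - π) ^ (E \ T).card * f T

end SD12
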