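import Pool.Agent.SD12.Defs

/-!
# Families of lines which pairwise meet

Lines which pairwise meet are concurrent, or they are in a plane; and the lines of a plane of
space are the lines of the plane of pairs of real numbers.
-/

open Finset ComplexConjugate

namespace SD12

lemma mf_par (m : ℝ) (u : ℂ) : Par (m * u) u := by
  unfold Par
  rw [mul_assoc, Complex.mul_conj, ← Complex.ofReal_mul, Complex.ofReal_im]

lemma mf_of_par {v u : ℂ} (hu : u ≠ 0) (h : Par v u) :
    v = (((v * conj u).re / Complex.normSq u : ℝ) : ℂ) * u := by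
  have hn : (Complex.normSq u : ℂ) ≠ 0 := by
    rw [Ne, Complex.ofReal_eq_zero, Complex.normSq_eq_zero]
    exact hu
  have h1 : v * conj u = ((v * conj u).re : ℂ) := by
    apply Complex.ext
    · rw [Complex.ofReal_re]
    · rw [Complex.ofReal_im]
      exact h
  have h2 : v * (Complex.normSq u : ℂ) = ((v * conj u).re : ℂ) * u := by
    rw [← h1, ← Complex.mul_conj]
    ring
  rw [Complex.ofReal_div, div_mul_eq_mul_div, eq_div_iff hn]
  exact h2

/-- Two points of the line `w` are in the plane through `x` in the direction `u`: then `w` is in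
this plane. -/
lemma mf_two {x w : ℂ × ℂ} {u : ℂ} {s1 s2 : ℝ} (hs : s1 ≠ s2) {r1 r2 : ℝ}
    (h1 : L w s1 = L x s1 + r1 * (Complex.I * u)) (h2 : L w s2 = L x s2 + r2 * (Complex.I * u)) :
    ∃ m h : ℝ, w.1 = x.1 + m * u ∧ w.2 = x.2 + h * (Complex.I * u) := by
  have hd : ((s1 : ℂ) - s2) ≠ 0 := by
    rw [← Complex.ofReal_sub, Ne, Complex.ofReal_eq_zero]
    exact sub_ne_zero.2 hs
  unfold L at h1 h2
  have e1 : w.1 = x.1 + (((-(r1 - r2) / (s1 - s2) : ℝ)) : ℂ) * u := by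
    have h3 : Complex.I * ((s1 - s2) * (w.1 - x.1) + (r1 - r2) * u) = 0 := by
      linear_combination h2 - h1
    have h4 : (s1 - s2) * (w.1 - x.1) + (r1 - r2) * u = 0 := by
      rcases mul_eq_zero.1 h3 with h | h
      · exact absurd h Complex.I_ne_zero
      · exact h
    push_cast
    field_simp
    linear_combination h4
  refine ⟨-(r1 - r2) / (s1 - s2), s1 * (-(r1 - r2) / (s1 - s2)) + r1, e1, ?_⟩
  rw [Complex.ofReal_add, Complex.ofReal_mul]
  linear_combination h1 + Complex.I * s1 * e1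

lemma mf_all {x w : ℂ × ℂ} {u : ℂ} {m h : ℝ} (h1 : w.1 = x.1 + m * u)
    (h2 : w.2 = x.2 + h * (Complex.I * u)) (s : ℝ) :
    L w s = L x s + ((h - s * m : ℝ) : ℂ) * (Complex.I * u) := by
  unfold L
  rw [h1, h2]
  push_cast
  ring

/-- Lines which pairwise meet are concurrent or in a plane. -/
theorem meet_family {Q : Finset (ℂ × ℂ)}
    (hm : ∀ x ∈ Q, ∀ y ∈ Q, x ≠ y → ∃ t : ℝ, Meet x y t) :
    (∃ (t : ℝ) (P : ℂ), ∀ z ∈ Q, L z t = P) ∨
      ∃ a c u : ℂ, u ≠ 0 ∧ ∀ z ∈ Q, Par (z.1 - a) u ∧ Par (z.2 - c) (Complex.I * u) := by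
  by_cases h : ∃ x ∈ Q, ∃ y ∈ Q, x ≠ y
  swap
  · left
    rcases Q.eq_empty_or_nonempty with h0 | ⟨x, hx⟩
    · exact ⟨0, 0, fun z hz => by rw [h0] at hz; exact absurd hz (Finset.notMem_empty z)⟩
    · refine ⟨0, L x 0, fun z hz => ?_⟩
      by_cases hzx : z = x
      · rw [hzx]
      · exact absurd ⟨z, hz, x, hx, hzx⟩ h
  obtain ⟨x, hx, y, hy, hxy⟩ := h
  obtain ⟨t, ht⟩ := hm x hx y hy hxy
  by_cases hall : ∀ z ∈ Q, L z t = L x t
  · exact Or.inl ⟨t, L x t, hall⟩
  right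
  push Not at hall
  obtain ⟨z, hz, hzt⟩ := hall
  have hzx : x ≠ z := by
    rintro rfl
    exact hzt rfl
  have hzy : y ≠ z := by
    rintro rfl
    exact hzt ht.symm
  obtain ⟨t1, ht1⟩ := hm x hx z hz hzx
  obtain ⟨t2, ht2⟩ := hm y hy z hz hzy
  have ht12 : t1 ≠ t2 := by
    rintro rfl
    have h1 : Meet x y t1 := ht1.trans ht2.symm
    have h2 : t1 = t := h1.unique ht hxy
    rw [h2] at ht1
    exact hzt ht1.symm
  have hu : x.1 - y.1 ≠ 0 := sub_ne_zero.2 (ht.ne hxy)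
  -- the plane
  have key : ∀ w ∈ Q, ∃ m h : ℝ, w.1 = x.1 + m * (x.1 - y.1) ∧
      w.2 = x.2 + h * (Complex.I * (x.1 - y.1)) := by
    have hyall : ∀ s : ℝ, L y s = L x s + ((s - t : ℝ) : ℂ) * (Complex.I * (x.1 - y.1)) := by
      intro s
      have h1 := ht.sub s
      push_cast
      linear_combination -h1
    have hyk : ∃ m h : ℝ, y.1 = x.1 + m * (x.1 - y.1) ∧
        y.2 = x.2 + h * (Complex.I * (x.1 - y.1)) :=
      mf_two (s1 := 0) (s2 := 1) (by norm_num) (hyall 0) (hyall 1)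
    have hxk : ∃ m h : ℝ, x.1 = x.1 + m * (x.1 - y.1) ∧
        x.2 = x.2 + h * (Complex.I * (x.1 - y.1)) := ⟨0, 0, by simp, by simp⟩
    have hzk : ∃ m h : ℝ, z.1 = x.1 + m * (x.1 - y.1) ∧
        z.2 = x.2 + h * (Complex.I * (x.1 - y.1)) := by
      refine mf_two (s1 := t1) (s2 := t2) ht12 (r1 := 0) (r2 := t2 - t) ?_ ?_
      · rw [Complex.ofReal_zero, zero_mul, add_zero]
        exact ht1.symm
      · rw [← hyall t2]
        exact ht2.symm
    intro w hw
    by_cases hwx : w = x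
    · rw [hwx]
      exact hxk
    by_cases hwy : w = y
    · rw [hwy]
      exact hyk
    by_cases hwz : w = z
    · rw [hwz]
      exact hzk
    obtain ⟨s1, hs1⟩ := hm w hw x hx hwx
    obtain ⟨s2, hs2⟩ := hm w hw y hy hwy
    obtain ⟨s3, hs3⟩ := hm w hw z hz hwz
    by_cases h12 : s1 = s2
    · have h1 : Meet x y s1 := by
        rw [← h12] at hs2
        exact hs1.symm.trans hs2
      have h2 : s1 = t := h1.unique ht hxy
      have h3 : s1 ≠ s3 := by
        intro h3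
        rw [← h3, h2] at hs3
        rw [h2] at hs1
        exact hzt (hs3.symm.trans hs1)
      obtain ⟨m, h, hm1, hm2⟩ := hzk
      refine mf_two (s1 := s1) (s2 := s3) h3 (r1 := 0) (r2 := h - s3 * m) ?_ ?_
      · rw [Complex.ofReal_zero, zero_mul, add_zero]
        exact hs1
      · rw [← mf_all hm1 hm2 s3]
        exact hs3
    · refine mf_two (s1 := s1) (s2 := s2) h12 (r1 := 0) (r2 := s2 - t) ?_ ?_
      · rw [Complex.ofReal_zero, zero_mul, add_zero]
        exact hs1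
      · rw [← hyall s2]
        exact hs2
  refine ⟨x.1, x.2, x.1 - y.1, hu, fun w hw => ?_⟩
  obtain ⟨m, h, hm1, hm2⟩ := key w hw
  constructor
  · rw [hm1, add_sub_cancel_left]
    exact mf_par m _
  · rw [hm2, add_sub_cancel_left]
    exact mf_par h _

/-- The lines of a plane are lines in the plane `ℝ × ℝ`. -/
theorem plane_coord {Q : Finset (ℂ × ℂ)} {a c u : ℂ} (hu : u ≠ 0)
    (h : ∀ z ∈ Q, Par (z.1 - a) u ∧ Par (z.2 - c) (Complex.I * u)) :
    ∃ Φ : ℂ × ℂ → ℝ × ℝ, (∀ x ∈ Q, ∀ y ∈ Q, Φ x = Φ y → x = y) ∧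
      ∀ x ∈ Q, ∀ y ∈ Q, ∀ t : ℝ, Meet x y t ↔ (Φ x).1 * t + (Φ x).2 = (Φ y).1 * t + (Φ y).2 := by
  have hIu : Complex.I * u ≠ 0 := mul_ne_zero Complex.I_ne_zero hu
  set m : ℂ × ℂ → ℝ := fun z => ((z.1 - a) * conj u).re / Complex.normSq u with hmdef
  set k : ℂ × ℂ → ℝ := fun z => ((z.2 - c) * conj (Complex.I * u)).re /
    Complex.normSq (Complex.I * u) with hkdef
  have h1 : ∀ z ∈ Q, z.1 = a + m z * u := fun z hz => by
    have h2 := mf_of_par hu (h z hz).1
    linear_combination h2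
  have h2 : ∀ z ∈ Q, z.2 = c + k z * (Complex.I * u) := fun z hz => by
    have h2 := mf_of_par hIu (h z hz).2
    linear_combination h2
  refine ⟨fun z => (-m z, k z), fun x hx y hy hxy => ?_, fun x hx y hy t => ?_⟩
  · simp only [Prod.mk.injEq, neg_inj] at hxy
    apply Prod.ext
    · rw [h1 x hx, h1 y hy, hxy.1]
    · rw [h2 x hx, h2 y hy, hxy.2]
  · have h3 : ∀ z ∈ Q, L z t = (c - Complex.I * t * a) +
        ((-m z * t + k z : ℝ) : ℂ) * (Complex.I * u) := fun z hz => by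
      unfold L
      push_cast
      linear_combination h2 z hz - Complex.I * t * h1 z hz
    show L x t = L y t ↔ _
    rw [h3 x hx, h3 y hy, add_right_inj, mul_left_inj' hIu, Complex.ofReal_inj]

end SD12
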