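import Pool.Agent.SD12.LGDefs
import Pool.Agent.SD12.MeetFam

/-!
# The families of the points and of the planes
-/

open Finset ComplexConjugate

namespace SD12

lemma lgf_par_iff {x v : ℂ} (hv : v ≠ 0) : Par x v ↔ ∃ r : ℝ, x = r * v := by
  constructor
  · intro h
    have hn : (Complex.normSq v : ℂ) ≠ 0 := by
      exact_mod_cast (Complex.normSq_pos.2 hv).ne'
    refine ⟨(x * conj v).re / Complex.normSq v, ?_⟩
    have h1 : ((x * conj v).re : ℂ) = x * conj v := by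
      apply Complex.ext
      · simp
      · rw [Complex.ofReal_im]
        exact h.symm
    push_cast
    rw [h1, div_mul_eq_mul_div, mul_assoc, ← Complex.normSq_eq_conj_mul_self, mul_div_assoc,
      div_self hn, mul_one]
  · rintro ⟨r, rfl⟩
    unfold Par
    rw [mul_assoc, Complex.mul_conj, ← Complex.ofReal_mul, Complex.ofReal_im]

lemma lgf_par_sub {x y v : ℂ} (hx : Par x v) (hy : Par y v) : Par (x - y) v := by
  unfold Par at *
  rw [sub_mul, Complex.sub_im, hx, hy, sub_zero]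

lemma lgf_par_add {x y v : ℂ} (hx : Par x v) (hy : Par y v) : Par (x + y) v := by
  unfold Par at *
  rw [add_mul, Complex.add_im, hx, hy, add_zero]

/-- a non-zero vector parallel to two non-zero vectors -/
lemma lgf_scale {d u u' : ℂ} (hd : d ≠ 0) (hu : u ≠ 0) (hu' : u' ≠ 0) (h : Par d u)
    (h' : Par d u') : ∃ ρ : ℝ, ρ ≠ 0 ∧ u' = ρ * u := by
  obtain ⟨r, hr⟩ := (lgf_par_iff hu).1 h
  obtain ⟨r', hr'⟩ := (lgf_par_iff hu').1 h'
  have hr0 : r ≠ 0 := by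
    rintro rfl
    apply hd
    rw [hr]
    simp
  have hr'0 : r' ≠ 0 := by
    rintro rfl
    apply hd
    rw [hr']
    simp
  have hr'c : (r' : ℂ) ≠ 0 := by exact_mod_cast hr'0
  refine ⟨r / r', div_ne_zero hr0 hr'0, ?_⟩
  push_cast
  rw [div_mul_eq_mul_div, ← hr, hr', mul_comm (r' : ℂ) u', mul_div_assoc, div_self hr'c, mul_one]

lemma lgf_par_scale {x u u' : ℂ} {ρ : ℝ} (h : u' = ρ * u) (hx : Par x u) : Par x u' := by
  unfold Par at *
  rw [h, map_mul, Complex.conj_ofReal]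
  have : x * (ρ * conj u) = ρ * (x * conj u) := by ring
  rw [this, Complex.im_ofReal_mul, hx, mul_zero]

theorem fam1_inter (E : Finset (ℂ × ℂ)) :
    ∀ ω ∈ Fam1 E, ∀ ω' ∈ Fam1 E, ω ≠ ω' → (ω ∩ ω').card ≤ 1 := by
  classical
  intro ω hω ω' hω' hne
  by_contra hcon
  push Not at hcon
  obtain ⟨z, hz, w, hw, hzw⟩ := Finset.one_lt_card.1 hcon
  rw [mem_inter] at hz hw
  obtain ⟨-, t, P, rfl⟩ := mem_filter.1 hω
  obtain ⟨-, t', P', rfl⟩ := mem_filter.1 hω'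
  simp only [mem_filter] at hz hw
  have h1 : Meet z w t := by
    unfold Meet
    rw [hz.1.2, hw.1.2]
  have h2 : Meet z w t' := by
    unfold Meet
    rw [hz.2.2, hw.2.2]
  have h3 := h1.unique h2 hzw
  subst h3
  apply hne
  have h4 : P = P' := by rw [← hz.1.2, ← hz.2.2]
  rw [h4]

lemma lgf_plane {a c u a' c' u' : ℂ} (hu : u ≠ 0) (hu' : u' ≠ 0) {z w : ℂ × ℂ} (hzw : z ≠ w)
    (hz : Par (z.1 - a) u ∧ Par (z.2 - c) (Complex.I * u))
    (hw : Par (w.1 - a) u ∧ Par (w.2 - c) (Complex.I * u))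
    (hz' : Par (z.1 - a') u' ∧ Par (z.2 - c') (Complex.I * u'))
    (hw' : Par (w.1 - a') u' ∧ Par (w.2 - c') (Complex.I * u')) :
    ∃ ρ : ℝ, ρ ≠ 0 ∧ u' = ρ * u := by
  have h1 : Par (z.1 - w.1) u := by
    have := lgf_par_sub hz.1 hw.1
    rwa [sub_sub_sub_cancel_right] at this
  have h2 : Par (z.2 - w.2) (Complex.I * u) := by
    have := lgf_par_sub hz.2 hw.2
    rwa [sub_sub_sub_cancel_right] at this
  have h1' : Par (z.1 - w.1) u' := by
    have := lgf_par_sub hz'.1 hw'.1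
    rwa [sub_sub_sub_cancel_right] at this
  have h2' : Par (z.2 - w.2) (Complex.I * u') := by
    have := lgf_par_sub hz'.2 hw'.2
    rwa [sub_sub_sub_cancel_right] at this
  by_cases hd : z.1 - w.1 = 0
  · have hd2 : z.2 - w.2 ≠ 0 := by
      intro h0
      exact hzw (Prod.ext (sub_eq_zero.1 hd) (sub_eq_zero.1 h0))
    obtain ⟨ρ, h0, h⟩ := lgf_scale hd2 (mul_ne_zero Complex.I_ne_zero hu)
      (mul_ne_zero Complex.I_ne_zero hu') h2 h2'
    refine ⟨ρ, h0, ?_⟩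
    apply mul_left_cancel₀ Complex.I_ne_zero
    rw [h]
    ring
  · exact lgf_scale hd hu hu' h1 h1'

lemma lgf_sub {a c u a' c' u' : ℂ} {ρ : ℝ} (h : u' = ρ * u) {z v : ℂ × ℂ}
    (hz : Par (z.1 - a) u ∧ Par (z.2 - c) (Complex.I * u))
    (hz' : Par (z.1 - a') u' ∧ Par (z.2 - c') (Complex.I * u'))
    (hv : Par (v.1 - a) u ∧ Par (v.2 - c) (Complex.I * u)) :
    Par (v.1 - a') u' ∧ Par (v.2 - c') (Complex.I * u') := by
  have h1 : Par (v.1 - z.1) u' := by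
    apply lgf_par_scale h
    have := lgf_par_sub hv.1 hz.1
    rwa [sub_sub_sub_cancel_right] at this
  have h2 : Par (v.2 - z.2) (Complex.I * u') := by
    have h3 : Complex.I * u' = ρ * (Complex.I * u) := by
      rw [h]
      ring
    apply lgf_par_scale h3
    have := lgf_par_sub hv.2 hz.2
    rwa [sub_sub_sub_cancel_right] at this
  refine ⟨?_, ?_⟩
  · have := lgf_par_add h1 hz'.1
    rwa [sub_add_sub_cancel] at this
  · have := lgf_par_add h2 hz'.2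
    rwa [sub_add_sub_cancel] at this

theorem fam2_inter (E : Finset (ℂ × ℂ)) :
    ∀ ω ∈ Fam2 E, ∀ ω' ∈ Fam2 E, ω ≠ ω' → (ω ∩ ω').card ≤ 1 := by
  classical
  intro ω hω ω' hω' hne
  by_contra hcon
  push Not at hcon
  obtain ⟨z, hz, w, hw, hzw⟩ := Finset.one_lt_card.1 hcon
  rw [mem_inter] at hz hw
  obtain ⟨-, a, c, u, hu, rfl⟩ := mem_filter.1 hω
  obtain ⟨-, a', c', u', hu', rfl⟩ := mem_filter.1 hω'
  simp only [mem_filter] at hz hw
  obtain ⟨ρ, hρ0, hρ⟩ := lgf_plane hu hu' hzw hz.1.2 hw.1.2 hz.2.2 hw.2.2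
  have hρ' : u = (ρ⁻¹ : ℝ) * u' := by
    have hρc : (ρ : ℂ) ≠ 0 := by exact_mod_cast hρ0
    rw [hρ]
    push_cast
    rw [← mul_assoc, inv_mul_cancel₀ hρc, one_mul]
  apply hne
  ext v
  simp only [mem_filter]
  constructor
  · rintro ⟨hvE, hv⟩
    exact ⟨hvE, lgf_sub hρ hz.1.2 hz.2.2 hv⟩
  · rintro ⟨hvE, hv⟩
    exact ⟨hvE, lgf_sub hρ' hz.2.2 hz.1.2 hv⟩

/-- A set of lines which are pairwise close at some time is in a member of one of the families. -/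
theorem fam_cover {E : Finset (ℂ × ℂ)} (hE : Cr E) {B : Finset (ℂ × ℂ)} (hB : B ⊆ E) {σ : ℝ}
    (hσ : |σ| ≤ 1) (h : ∀ z ∈ B, ∀ w ∈ B, ‖L z σ - L w σ‖ < 1 / 2) :
    (∃ ω ∈ Fam1 E, B ⊆ ω) ∨ ∃ ω ∈ Fam2 E, B ⊆ ω := by
  classical
  rcases meet_family (Q := B) (fun z hz w hw hzw =>
    (hE z (hB hz) w (hB hw) hzw σ hσ (h z hz w hw)).2) with ⟨t, P, hP⟩ | ⟨a, c, u, hu, hP⟩
  · refine Or.inl ⟨E.filter fun z => L z t = P, ?_, fun z hz => ?_⟩
    · unfold Fam1
      rw [mem_filter, mem_powerset]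
      refine ⟨filter_subset _ _, t, P, ?_⟩
      congr
    · rw [mem_filter]
      exact ⟨hB hz, hP z hz⟩
  · refine Or.inr ⟨E.filter fun z => Par (z.1 - a) u ∧ Par (z.2 - c) (Complex.I * u), ?_,
      fun z hz => ?_⟩
    · unfold Fam2
      rw [mem_filter, mem_powerset]
      refine ⟨filter_subset _ _, a, c, u, hu, ?_⟩
      congr
    · rw [mem_filter]
      exact ⟨hB hz, hP z hz⟩

end SD12
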