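import Pool.Agent.SD12.LGb0

/-! # Cells: the rich traces -/

open Finset

namespace SD12

open Classical in
theorem lgb_pairs {α : Type*} (E : Finset α) (C : α → ℤ × ℤ) (K : Finset (ℤ × ℤ)) :
    ∑ κ ∈ K, ((E.filter fun z => nr 5 (C z) κ).card *
      (E.filter fun z => nr 14 (C z) κ).card) ≤
      121 * ((E ×ˢ E).filter fun p => nr 19 (C p.1) (C p.2)).card := by
  have e1 : ∀ κ ∈ K, (E.filter fun z => nr 5 (C z) κ).card *
      (E.filter fun z => nr 14 (C z) κ).card =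
      ∑ p ∈ E ×ˢ E, if nr 5 (C p.1) κ ∧ nr 14 (C p.2) κ then 1 else 0 := by
    intro κ _
    rw [← card_filter, ← card_product, ← filter_product]
  rw [sum_congr rfl e1, sum_comm, card_filter, mul_sum]
  refine sum_le_sum fun p _ => ?_
  by_cases h : nr 19 (C p.1) (C p.2)
  · rw [if_pos h, mul_one, ← card_filter]
    refine le_trans (card_le_card ?_) (nr_card K 5 (C p.1))
    intro κ hκ
    rw [mem_filter] at hκ ⊢
    exact ⟨hκ.1, hκ.2.1⟩
  · rw [if_neg h, mul_zero, Nat.le_zero, sum_eq_zero_iff]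
    intro κ _
    rw [if_neg]
    rintro ⟨h5, h14⟩
    exact h (nr_trans h5 (nr_symm h14))

open Classical in
/-- Near pairs and pairs in the same cell. -/
theorem lgb_fine {α : Type*} (E : Finset α) (C : α → ℤ × ℤ) (R : ℕ) :
    ((E ×ˢ E).filter fun p => nr R (C p.1) (C p.2)).card ≤
      (2 * R + 1) ^ 2 * ((E ×ˢ E).filter fun p => C p.1 = C p.2).card := by
  set K := E.image C with hK
  set m : ℤ × ℤ → ℕ := fun c => (E.filter fun z => C z = c).card with hm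
  have key : ∀ Q : ℤ × ℤ → ℤ × ℤ → Prop,
      ((E ×ˢ E).filter fun p => Q (C p.1) (C p.2)).card =
        ∑ c ∈ K, ∑ c' ∈ K, m c * (m c' * if Q c c' then 1 else 0) := by
    intro Q
    rw [card_filter, sum_product]
    have e1 : ∀ z ∈ E, (∑ w ∈ E, if Q (C z) (C w) then 1 else 0) =
        ∑ c' ∈ K, m c' * (if Q (C z) c' then 1 else 0) := by
      intro z _
      have := sum_comp (s := E) (fun c' => if Q (C z) c' then (1 : ℕ) else 0) C
      simpa only [smul_eq_mul] using this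
    rw [sum_congr rfl e1]
    have := sum_comp (s := E) (fun c => ∑ c' ∈ K, m c' * (if Q c c' then 1 else 0)) C
    simp only [smul_eq_mul] at this
    rw [this]
    refine sum_congr rfl fun c _ => ?_
    rw [mul_sum]
  have h2 : ((E ×ˢ E).filter fun p => C p.1 = C p.2).card = ∑ c ∈ K, m c ^ 2 := by
    have h0 := key (fun c c' => c = c')
    have h0' : ((E ×ˢ E).filter fun p => C p.1 = C p.2).card =
        ∑ c ∈ K, ∑ c' ∈ K, m c * (m c' * if c = c' then 1 else 0) := by convert h0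
    rw [h0']
    refine sum_congr rfl fun c hc => ?_
    rw [sum_eq_single c]
    · rw [if_pos rfl, mul_one, sq]
    · intro c' _ hne
      rw [if_neg (Ne.symm hne), mul_zero, mul_zero]
    · intro h
      exact absurd hc h
  have h1 : 2 * ((E ×ˢ E).filter fun p => nr R (C p.1) (C p.2)).card ≤
      2 * ((2 * R + 1) ^ 2 * ∑ c ∈ K, m c ^ 2) := by
    rw [key (fun c c' => nr R c c'), mul_sum]
    have e2 : ∀ c ∈ K, 2 * ∑ c' ∈ K, m c * (m c' * if nr R c c' then 1 else 0) ≤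
        (∑ c' ∈ K, if nr R c c' then m c ^ 2 else 0) +
          ∑ c' ∈ K, if nr R c' c then m c' ^ 2 else 0 := by
      intro c _
      rw [mul_sum, ← sum_add_distrib]
      refine sum_le_sum fun c' _ => ?_
      by_cases h : nr R c c'
      · rw [if_pos h, if_pos h, if_pos (nr_symm h), mul_one]
        have := two_mul_le_add_sq (m c) (m c')
        linarith
      · rw [if_neg h, if_neg h, mul_zero, mul_zero, mul_zero]
        exact Nat.zero_le _
    refine (sum_le_sum e2).trans ?_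
    rw [sum_add_distrib]
    have e3 : ∑ c ∈ K, ∑ c' ∈ K, (if nr R c c' then m c ^ 2 else 0) ≤
        (2 * R + 1) ^ 2 * ∑ c ∈ K, m c ^ 2 := by
      rw [mul_sum]
      refine sum_le_sum fun c _ => ?_
      rw [← sum_filter, sum_const, smul_eq_mul]
      exact Nat.mul_le_mul_right _ (nr_card K R c)
    have e4 : ∑ c ∈ K, ∑ c' ∈ K, (if nr R c' c then m c' ^ 2 else 0) ≤
        (2 * R + 1) ^ 2 * ∑ c ∈ K, m c ^ 2 := by
      rw [sum_comm]
      exact e3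
    linarith
  rw [h2]
  linarith

lemma lgb_level {i : ℕ} {a b : ℝ} (h : |⌊64 * a / 2 ^ i⌋ - ⌊64 * b / 2 ^ i⌋| ≤ 19) :
    |⌊64 * a / 2 ^ 0⌋ - ⌊64 * b / 2 ^ 0⌋| ≤ ((20 * 2 ^ i : ℕ) : ℤ) := by
  have hp : (0 : ℝ) < 2 ^ i := by positivity
  rw [abs_le] at h
  have h1 : ((⌊64 * a / 2 ^ i⌋ : ℤ) : ℝ) - ⌊64 * b / 2 ^ i⌋ ≤ 19 := by exact_mod_cast h.2
  have h2 : -19 ≤ ((⌊64 * a / 2 ^ i⌋ : ℤ) : ℝ) - ⌊64 * b / 2 ^ i⌋ := by exact_mod_cast h.1
  have a1 := Int.floor_le (64 * a / 2 ^ i)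
  have a2 := Int.lt_floor_add_one (64 * a / 2 ^ i)
  have b1 := Int.floor_le (64 * b / 2 ^ i)
  have b2 := Int.lt_floor_add_one (64 * b / 2 ^ i)
  have c1 : 64 * a / 2 ^ i - 64 * b / 2 ^ i < 20 := by linarith
  have c2 : -20 < 64 * a / 2 ^ i - 64 * b / 2 ^ i := by linarith
  rw [← sub_div] at c1 c2
  rw [div_lt_iff₀ hp] at c1
  rw [lt_div_iff₀ hp] at c2
  rw [pow_zero, div_one, div_one]
  have a3 := Int.floor_le (64 * a)
  have a4 := Int.lt_floor_add_one (64 * a)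
  have b3 := Int.floor_le (64 * b)
  have b4 := Int.lt_floor_add_one (64 * b)
  rw [abs_le]
  constructor
  · have : ((-((20 * 2 ^ i : ℕ) : ℤ) : ℤ) : ℝ) < ((⌊64 * a⌋ - ⌊64 * b⌋ + 1 : ℤ) : ℝ) := by
      push_cast
      linarith
    have := Int.cast_lt.1 this
    linarith
  · have : ((⌊64 * a⌋ - ⌊64 * b⌋ : ℤ) : ℝ) < ((((20 * 2 ^ i : ℕ) : ℤ) + 1 : ℤ) : ℝ) := by
      push_cast
      linarith
    have := Int.cast_lt.1 this
    linarith

lemma lgb_nr {i : ℕ} {z w : ℂ} (h : nr 19 (cel i z) (cel i w)) :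
    nr ((20 * 2 ^ i : ℕ) : ℤ) (cel 0 z) (cel 0 w) :=
  ⟨lgb_level h.1, lgb_level h.2⟩

lemma lgb_near1 {a b : ℝ} (h : ⌊64 * a / 2 ^ 0⌋ = ⌊64 * b / 2 ^ 0⌋) : |a - b| < 1 / 64 := by
  rw [pow_zero, div_one, div_one] at h
  have h1 := Int.abs_sub_lt_one_of_floor_eq_floor h
  rw [abs_lt] at h1 ⊢
  constructor <;> linarith [h1.1, h1.2]

lemma lgb_near {z w : ℂ} (h : cel 0 z = cel 0 w) : ‖z - w‖ < 1 / 16 := by
  unfold cel at h
  rw [Prod.mk.injEq] at h
  have h1 := lgb_near1 h.1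
  have h2 := lgb_near1 h.2
  have h3 := Complex.norm_le_abs_re_add_abs_im (z - w)
  rw [Complex.sub_re, Complex.sub_im] at h3
  linarith

open Classical in
theorem lgb_close {α : Type*} (E : Finset α) (P : α → ℂ) (i : ℕ) :
    ((E ×ˢ E).filter fun p => nr 19 (cel i (P p.1)) (cel i (P p.2))).card ≤
      (41 * 2 ^ i) ^ 2 * ((E ×ˢ E).filter fun p => ‖P p.1 - P p.2‖ < 1 / 16).card := by
  have h1 : ((E ×ˢ E).filter fun p => nr 19 (cel i (P p.1)) (cel i (P p.2))).card ≤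
      ((E ×ˢ E).filter fun p =>
        nr ((20 * 2 ^ i : ℕ) : ℤ) (cel 0 (P p.1)) (cel 0 (P p.2))).card := by
    refine card_le_card fun p hp => ?_
    rw [mem_filter] at hp ⊢
    exact ⟨hp.1, lgb_nr hp.2⟩
  have h2 := lgb_fine E (fun z => cel 0 (P z)) (20 * 2 ^ i)
  have h3 : ((E ×ˢ E).filter fun p => cel 0 (P p.1) = cel 0 (P p.2)).card ≤
      ((E ×ˢ E).filter fun p => ‖P p.1 - P p.2‖ < 1 / 16).card := by
    refine card_le_card fun p hp => ?_
    rw [mem_filter] at hp ⊢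
    exact ⟨hp.1, lgb_near hp.2⟩
  have h4 : 2 * (20 * 2 ^ i) + 1 ≤ 41 * 2 ^ i := by
    have := Nat.one_le_two_pow (n := i)
    linarith
  calc _ ≤ _ := h1
    _ ≤ _ := h2
    _ ≤ _ := Nat.mul_le_mul (Nat.pow_le_pow_left h4 2) h3

open Classical in
/-- The pairs in a common large trace `ω ∩ B(κ)` which is small for the next level: `P` is the
position of a line at the given time, `B(κ)` the set of the lines whose cell is near `κ`. -/
theorem cell_rich {α : Type*} (E : Finset α) (P : α → ℂ) (i : ℕ) (Ω : Finset (Finset α))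
    (h1 : ∀ ω ∈ Ω, ∀ ω' ∈ Ω, ω ≠ ω' → (ω ∩ ω').card ≤ 1) :
    (((E ×ˢ E).filter fun p => ∃ ω ∈ Ω, p.1 ∈ ω ∧ p.2 ∈ ω ∧
      nr 5 (cel i (P p.2)) (cel i (P p.1)) ∧
      8 * (E.filter fun z => nr 5 (cel i (P z)) (cel i (P p.1))).card ≤
        (E.filter fun z => z ∈ ω ∧ nr 5 (cel i (P z)) (cel i (P p.1))).card ^ 2 ∧
      (E.filter fun z => z ∈ ω ∧ nr 5 (cel i (P z)) (cel i (P p.1))).card ^ 2 ≤
        8 * (E.filter fun z => nr 14 (cel i (P z)) (cel i (P p.1))).card).card : ℝ) ≤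
      30000 * 2 ^ i * Real.sqrt (E.card *
        ((E ×ˢ E).filter fun p => ‖P p.1 - P p.2‖ < 1 / 16).card) := by
  set C : α → ℤ × ℤ := fun z => cel i (P z) with hC
  set La : ℤ × ℤ → ℝ := fun κ => ((E.filter fun z => nr 5 (C z) κ).card : ℝ) with hLa
  set Lb : ℤ × ℤ → ℝ := fun κ => ((E.filter fun z => nr 14 (C z) κ).card : ℝ) with hLb
  set W : ℝ := (((E ×ˢ E).filter fun p => ‖P p.1 - P p.2‖ < 1 / 16).card : ℝ) with hW
  have hLa0 : ∀ κ, 0 ≤ La κ := fun κ => Nat.cast_nonneg _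
  have hLb0 : ∀ κ, 0 ≤ Lb κ := fun κ => Nat.cast_nonneg _
  have h2 := cell_total E C Ω h1 (m := fun κ => Real.sqrt (8 * Lb κ))
    (fun κ => Real.sqrt_nonneg _)
  have h4 : ((E ×ˢ E).filter fun p => ∃ ω ∈ Ω, p.1 ∈ ω ∧ p.2 ∈ ω ∧
      nr 5 (cel i (P p.2)) (cel i (P p.1)) ∧
      8 * (E.filter fun z => nr 5 (cel i (P z)) (cel i (P p.1))).card ≤
        (E.filter fun z => z ∈ ω ∧ nr 5 (cel i (P z)) (cel i (P p.1))).card ^ 2 ∧
      (E.filter fun z => z ∈ ω ∧ nr 5 (cel i (P z)) (cel i (P p.1))).card ^ 2 ≤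
        8 * (E.filter fun z => nr 14 (cel i (P z)) (cel i (P p.1))).card) ⊆
      ((E ×ˢ E).filter fun p => ∃ ω ∈ Ω, p.1 ∈ ω ∧ p.2 ∈ ω ∧
      nr 5 (C p.2) (C p.1) ∧ 8 * (E.filter fun z => nr 5 (C z) (C p.1)).card ≤
        (E.filter fun z => z ∈ ω ∧ nr 5 (C z) (C p.1)).card ^ 2 ∧
      ((E.filter fun z => z ∈ ω ∧ nr 5 (C z) (C p.1)).card : ℝ) ≤
        Real.sqrt (8 * Lb (C p.1))) := by
    intro p hp
    rw [mem_filter] at hp ⊢
    obtain ⟨hp0, ω, hω, hx, hy, hn, hr, hs⟩ := hp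
    refine ⟨hp0, ω, hω, hx, hy, hn, hr, ?_⟩
    refine Real.le_sqrt_of_sq_le ?_
    have hs' := (Nat.cast_le (α := ℝ)).2 hs
    push_cast at hs'
    exact hs'
  have h5 : (((E ×ˢ E).filter fun p => ∃ ω ∈ Ω, p.1 ∈ ω ∧ p.2 ∈ ω ∧
      nr 5 (cel i (P p.2)) (cel i (P p.1)) ∧
      8 * (E.filter fun z => nr 5 (cel i (P z)) (cel i (P p.1))).card ≤
        (E.filter fun z => z ∈ ω ∧ nr 5 (cel i (P z)) (cel i (P p.1))).card ^ 2 ∧
      (E.filter fun z => z ∈ ω ∧ nr 5 (cel i (P z)) (cel i (P p.1))).card ^ 2 ≤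
        8 * (E.filter fun z => nr 14 (cel i (P z)) (cel i (P p.1))).card).card : ℝ) ≤
      ∑ κ ∈ E.image C, Real.sqrt (8 * Lb κ) * (2 * La κ) :=
    (Nat.cast_le.2 (card_le_card h4)).trans h2
  refine h5.trans ?_
  -- Cauchy-Schwarz
  have e1 : ∑ κ ∈ E.image C, Real.sqrt (8 * Lb κ) * (2 * La κ) =
      2 * Real.sqrt 8 * ∑ κ ∈ E.image C, Real.sqrt (La κ) * Real.sqrt (La κ * Lb κ) := by
    rw [mul_sum]
    refine sum_congr rfl fun κ _ => ?_
    rw [Real.sqrt_mul (by norm_num), Real.sqrt_mul (hLa0 κ)]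
    have := Real.mul_self_sqrt (hLa0 κ)
    linear_combination (-2 * Real.sqrt 8 * Real.sqrt (Lb κ)) * this
  have e2 := Real.sum_sqrt_mul_sqrt_le (E.image C) (f := La) (g := fun κ => La κ * Lb κ)
    hLa0 (fun κ => mul_nonneg (hLa0 κ) (hLb0 κ))
  have e3 : ∑ κ ∈ E.image C, La κ ≤ 121 * E.card := by
    have := cell_sum E C 5 (E.image C)
    have h6 : (((∑ κ ∈ E.image C, (E.filter fun z => nr 5 (C z) κ).card : ℕ) : ℕ) : ℝ) ≤
        (((2 * 5 + 1) ^ 2 * E.card : ℕ) : ℝ) := Nat.cast_le.2 this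
    push_cast at h6
    linarith
  have e4 : ∑ κ ∈ E.image C, La κ * Lb κ ≤ 121 * ((41 * 2 ^ i) ^ 2 * W) := by
    have h6 := lgb_pairs E C (E.image C)
    have h7 := lgb_close E P i
    have h8 : (((∑ κ ∈ E.image C, ((E.filter fun z => nr 5 (C z) κ).card *
        (E.filter fun z => nr 14 (C z) κ).card) : ℕ) : ℕ) : ℝ) ≤
        ((121 * ((41 * 2 ^ i) ^ 2 *
          ((E ×ˢ E).filter fun p => ‖P p.1 - P p.2‖ < 1 / 16).card) : ℕ) : ℝ) :=
      Nat.cast_le.2 (h6.trans (Nat.mul_le_mul_left _ h7))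
    push_cast at h8
    exact h8
  have e5 : Real.sqrt (∑ κ ∈ E.image C, La κ) * Real.sqrt (∑ κ ∈ E.image C, La κ * Lb κ) ≤
      121 * 41 * 2 ^ i * Real.sqrt (E.card * W) := by
    refine (mul_le_mul (Real.sqrt_le_sqrt e3) (Real.sqrt_le_sqrt e4) (Real.sqrt_nonneg _)
      (Real.sqrt_nonneg _)).trans_eq ?_
    rw [← Real.sqrt_mul (by positivity)]
    have : 121 * (E.card : ℝ) * (121 * ((41 * 2 ^ i) ^ 2 * W)) =
        (121 * 41 * 2 ^ i) ^ 2 * (E.card * W) := by ring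
    rw [this, Real.sqrt_mul (by positivity), Real.sqrt_sq (by positivity)]
  rw [e1]
  have e6 : Real.sqrt 8 ≤ 3 := by
    rw [Real.sqrt_le_left (by norm_num)]
    norm_num
  have e7 : 2 * Real.sqrt 8 * (121 * 41) ≤ 30000 := by
    have : Real.sqrt 8 ≤ 2.83 := by
      rw [Real.sqrt_le_left (by norm_num)]
      norm_num
    linarith
  have e8 : 0 ≤ 2 ^ i * Real.sqrt (E.card * W) := by positivity
  calc 2 * Real.sqrt 8 * ∑ κ ∈ E.image C, Real.sqrt (La κ) * Real.sqrt (La κ * Lb κ)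
      ≤ 2 * Real.sqrt 8 * (121 * 41 * 2 ^ i * Real.sqrt (E.card * W)) :=
        mul_le_mul_of_nonneg_left (e2.trans e5) (by positivity)
    _ = (2 * Real.sqrt 8 * (121 * 41)) * (2 ^ i * Real.sqrt (E.card * W)) := by ring
    _ ≤ 30000 * (2 ^ i * Real.sqrt (E.card * W)) := mul_le_mul_of_nonneg_right e7 e8
    _ = _ := by ring

end SD12
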