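import Pool.Agent.SD12.LGb0

/-! # Cells: the top level -/

open Finset

namespace SD12

open Classical in
/-- The pairs in a common large trace at the top level. -/
theorem cell_top {α : Type*} (E : Finset α) (P : α → ℂ) (i : ℕ) (Ω : Finset (Finset α))
    (h1 : ∀ ω ∈ Ω, ∀ ω' ∈ Ω, ω ≠ ω' → (ω ∩ ω').card ≤ 1) {b : ℕ}
    (hb : ∀ ω ∈ Ω, (E.filter fun z => z ∈ ω).card ≤ b) :
    ((E ×ˢ E).filter fun p => ∃ ω ∈ Ω, p.1 ∈ ω ∧ p.2 ∈ ω ∧
      nr 5 (cel i (P p.2)) (cel i (P p.1)) ∧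
      8 * (E.filter fun z => nr 5 (cel i (P z)) (cel i (P p.1))).card ≤
        (E.filter fun z => z ∈ ω ∧ nr 5 (cel i (P z)) (cel i (P p.1))).card ^ 2).card ≤
      250 * b * E.card := by
  set C : α → ℤ × ℤ := fun z => cel i (P z) with hC
  have h2 := cell_total E C Ω h1 (m := fun _ => (b : ℝ)) (fun _ => Nat.cast_nonneg _)
  have h3 := cell_sum E C 5 (E.image C)
  have h4 : ((E ×ˢ E).filter fun p => ∃ ω ∈ Ω, p.1 ∈ ω ∧ p.2 ∈ ω ∧
      nr 5 (cel i (P p.2)) (cel i (P p.1)) ∧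
      8 * (E.filter fun z => nr 5 (cel i (P z)) (cel i (P p.1))).card ≤
        (E.filter fun z => z ∈ ω ∧ nr 5 (cel i (P z)) (cel i (P p.1))).card ^ 2) ⊆
      ((E ×ˢ E).filter fun p => ∃ ω ∈ Ω, p.1 ∈ ω ∧ p.2 ∈ ω ∧
      nr 5 (C p.2) (C p.1) ∧ 8 * (E.filter fun z => nr 5 (C z) (C p.1)).card ≤
        (E.filter fun z => z ∈ ω ∧ nr 5 (C z) (C p.1)).card ^ 2 ∧
      ((E.filter fun z => z ∈ ω ∧ nr 5 (C z) (C p.1)).card : ℝ) ≤ (b : ℝ)) := by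
    intro p hp
    rw [mem_filter] at hp ⊢
    obtain ⟨hp0, ω, hω, hx, hy, hn, hr⟩ := hp
    refine ⟨hp0, ω, hω, hx, hy, hn, hr, ?_⟩
    rw [Nat.cast_le]
    refine (card_le_card ?_).trans (hb ω hω)
    intro z hz
    rw [mem_filter] at hz ⊢
    exact ⟨hz.1, hz.2.1⟩
  have h5 := card_le_card h4
  have h6 : (∑ κ ∈ E.image C, (b : ℝ) * (2 * (E.filter fun z => nr 5 (C z) κ).card)) ≤
      250 * b * E.card := by
    rw [← mul_sum, ← mul_sum]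
    have h3' : (∑ κ ∈ E.image C, ((E.filter fun z => nr 5 (C z) κ).card : ℝ)) ≤
        121 * E.card := by
      have : (((∑ κ ∈ E.image C, (E.filter fun z => nr 5 (C z) κ).card : ℕ) : ℕ) : ℝ) ≤
          (((2 * 5 + 1) ^ 2 * E.card : ℕ) : ℝ) := Nat.cast_le.2 h3
      push_cast at this
      linarith
    have hb0 : (0 : ℝ) ≤ b := Nat.cast_nonneg _
    have hE0 : (0 : ℝ) ≤ E.card := Nat.cast_nonneg _
    nlinarith [mul_nonneg hb0 hE0]
  have h7 : (((E ×ˢ E).filter fun p => ∃ ω ∈ Ω, p.1 ∈ ω ∧ p.2 ∈ ω ∧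
      nr 5 (cel i (P p.2)) (cel i (P p.1)) ∧
      8 * (E.filter fun z => nr 5 (cel i (P z)) (cel i (P p.1))).card ≤
        (E.filter fun z => z ∈ ω ∧ nr 5 (cel i (P z)) (cel i (P p.1))).card ^ 2).card : ℝ) ≤
      ((250 * b * E.card : ℕ) : ℝ) := by
    refine (Nat.cast_le.2 h5).trans ((h2.trans h6).trans_eq ?_)
    push_cast
    ring
  exact_mod_cast h7

end SD12
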