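import Pool.Agent.SD12.LGDefs

/-! # Nesting of the boxes -/

open Finset ComplexConjugate

namespace SD12

lemma lgn_floor {a b : ℝ} {R : ℤ} (h : |a - b| ≤ R) : |⌊a⌋ - ⌊b⌋| ≤ R := by
  have ha := Int.floor_le a
  have ha' := Int.lt_floor_add_one a
  have hb := Int.floor_le b
  have hb' := Int.lt_floor_add_one b
  rw [abs_le] at h ⊢
  constructor
  · have h1 : (-(R : ℝ) - 1 : ℝ) < ((⌊a⌋ - ⌊b⌋ : ℤ) : ℝ) := by
      push_cast
      linarith [h.1]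
    have h2 : ((-R - 1 : ℤ) : ℝ) < ((⌊a⌋ - ⌊b⌋ : ℤ) : ℝ) := by
      push_cast at h1 ⊢
      exact h1
    have h3 := Int.cast_lt.1 h2
    omega
  · have h1 : ((⌊a⌋ - ⌊b⌋ : ℤ) : ℝ) < ((R + 1 : ℤ) : ℝ) := by
      push_cast
      linarith [h.2]
    have h3 := Int.cast_lt.1 h1
    omega

lemma lgn_unfloor {a b : ℝ} {R : ℤ} (h : |⌊a⌋ - ⌊b⌋| ≤ R) : |a - b| < R + 1 := by
  have ha := Int.floor_le a
  have ha' := Int.lt_floor_add_one a
  have hb := Int.floor_le b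
  have hb' := Int.lt_floor_add_one b
  rw [abs_le] at h
  have h1 : (-(R : ℝ)) ≤ (⌊a⌋ : ℝ) - ⌊b⌋ := by exact_mod_cast h.1
  have h2 : (⌊a⌋ : ℝ) - ⌊b⌋ ≤ R := by exact_mod_cast h.2
  rw [abs_lt]
  constructor <;> linarith

lemma lgn_move (x y : ℂ × ℂ) (s σ : ℝ) :
    (L x s - L y s) - (L x σ - L y σ) = Complex.I * ((σ - s : ℝ) : ℂ) * (x.1 - y.1) := by
  unfold L
  push_cast
  ring

lemma lgn_move_norm {x y : ℂ × ℂ} {s σ V d : ℝ} (hV : ‖x.1 - y.1‖ ≤ V)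
    (hs : |s - σ| * V ≤ d) :
    |(L x s - L y s).re - (L x σ - L y σ).re| ≤ d ∧
      |(L x s - L y s).im - (L x σ - L y σ).im| ≤ d ∧
      ‖(L x s - L y s) - (L x σ - L y σ)‖ ≤ d := by
  have h1 : ‖(L x s - L y s) - (L x σ - L y σ)‖ ≤ d := by
    rw [lgn_move, norm_mul, norm_mul, Complex.norm_I, one_mul, Complex.norm_real,
      Real.norm_eq_abs, abs_sub_comm]
    exact (mul_le_mul_of_nonneg_left hV (abs_nonneg _)).trans hs
  refine ⟨?_, ?_, h1⟩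
  · rw [← Complex.sub_re]
    exact (Complex.abs_re_le_norm _).trans h1
  · rw [← Complex.sub_im]
    exact (Complex.abs_im_le_norm _).trans h1

/-- Near cells, from the coordinates. -/
lemma lgn_nr {z w : ℂ} {i : ℕ} {R : ℤ} (h1 : |z.re - w.re| ≤ R * 2 ^ i / 64)
    (h2 : |z.im - w.im| ≤ R * 2 ^ i / 64) : nr R (cel i z) (cel i w) := by
  have hp : (0 : ℝ) < 2 ^ i := by positivity
  have key : ∀ a b : ℝ, |a - b| ≤ R * 2 ^ i / 64 →
      |⌊64 * a / 2 ^ i⌋ - ⌊64 * b / 2 ^ i⌋| ≤ R := by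
    intro a b h
    refine lgn_floor ?_
    have e : 64 * a / 2 ^ i - 64 * b / 2 ^ i = 64 / 2 ^ i * (a - b) := by ring
    rw [e, abs_mul, abs_of_pos (by positivity : (0 : ℝ) < 64 / 2 ^ i)]
    calc 64 / 2 ^ i * |a - b| ≤ 64 / 2 ^ i * (R * 2 ^ i / 64) :=
          mul_le_mul_of_nonneg_left h (by positivity)
      _ = R := by field_simp
  exact ⟨key _ _ h1, key _ _ h2⟩

/-- The coordinates, from near cells. -/
lemma lgn_unnr {z w : ℂ} {i : ℕ} {R : ℤ} (h : nr R (cel i z) (cel i w)) :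
    |z.re - w.re| < (R + 1) * 2 ^ i / 64 ∧ |z.im - w.im| < (R + 1) * 2 ^ i / 64 := by
  have hp : (0 : ℝ) < 2 ^ i := by positivity
  have key : ∀ a b : ℝ, |⌊64 * a / 2 ^ i⌋ - ⌊64 * b / 2 ^ i⌋| ≤ R →
      |a - b| < (R + 1) * 2 ^ i / 64 := by
    intro a b h
    have h1 := lgn_unfloor h
    have e : 64 * a / 2 ^ i - 64 * b / 2 ^ i = 64 / 2 ^ i * (a - b) := by ring
    rw [e, abs_mul, abs_of_pos (by positivity : (0 : ℝ) < 64 / 2 ^ i)] at h1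
    calc |a - b| = 2 ^ i / 64 * (64 / 2 ^ i * |a - b|) := by field_simp
      _ < 2 ^ i / 64 * (R + 1) := mul_lt_mul_of_pos_left h1 (by positivity)
      _ = (R + 1) * 2 ^ i / 64 := by ring
  exact ⟨key _ _ h.1, key _ _ h.2⟩

theorem nr_start {x y : ℂ × ℂ} {s σ V : ℝ} (hV : ‖x.1 - y.1‖ ≤ V) (hs : |s - σ| * V ≤ 1 / 64)
    (h : ‖L x s - L y s‖ < 1 / 16) : nr 5 (cel 0 (L y σ)) (cel 0 (L x σ)) := by
  obtain ⟨-, -, h3⟩ := lgn_move_norm hV hs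
  have h4 : ‖L x σ - L y σ‖ ≤ 5 / 64 := by
    have : L x σ - L y σ = (L x s - L y s) - ((L x s - L y s) - (L x σ - L y σ)) := by ring
    rw [this]
    refine (norm_sub_le _ _).trans ?_
    linarith
  have h5 := (Complex.abs_re_le_norm (L x σ - L y σ)).trans h4
  have h6 := (Complex.abs_im_le_norm (L x σ - L y σ)).trans h4
  rw [Complex.sub_re, abs_sub_comm] at h5
  rw [Complex.sub_im, abs_sub_comm] at h6
  refine lgn_nr ?_ ?_
  · push_cast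
    linarith
  · push_cast
    linarith

theorem nr_meet {z w : ℂ × ℂ} {x : ℂ × ℂ} {σ : ℝ} (hz : nr 5 (cel 0 (L z σ)) (cel 0 (L x σ)))
    (hw : nr 5 (cel 0 (L w σ)) (cel 0 (L x σ))) : ‖L z σ - L w σ‖ < 1 / 2 := by
  obtain ⟨a1, a2⟩ := lgn_unnr hz
  obtain ⟨b1, b2⟩ := lgn_unnr hw
  have h1 : |(L z σ - L w σ).re| < 12 / 64 := by
    rw [Complex.sub_re]
    rw [abs_lt] at a1 b1 ⊢
    push_cast at a1 b1
    constructor <;> linarith [a1.1, a1.2, b1.1, b1.2]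
  have h2 : |(L z σ - L w σ).im| < 12 / 64 := by
    rw [Complex.sub_im]
    rw [abs_lt] at a2 b2 ⊢
    push_cast at a2 b2
    constructor <;> linarith [a2.1, a2.2, b2.1, b2.2]
  have h3 := Complex.norm_le_abs_re_add_abs_im (L z σ - L w σ)
  linarith

theorem nr_up {x z : ℂ × ℂ} {σ σ' V : ℝ} {i : ℕ} (hV : ‖x.1 - z.1‖ ≤ V)
    (hs : |σ - σ'| * V ≤ 2 ^ (i + 1) / 64) (h : nr 5 (cel i (L z σ)) (cel i (L x σ))) :
    nr 5 (cel (i + 1) (L z σ')) (cel (i + 1) (L x σ')) := by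
  obtain ⟨a1, a2⟩ := lgn_unnr h
  obtain ⟨b1, b2, -⟩ := lgn_move_norm hV hs
  rw [Complex.sub_re, Complex.sub_re] at b1
  rw [Complex.sub_im, Complex.sub_im] at b2
  rw [abs_lt] at a1 a2
  rw [abs_le] at b1 b2
  have hp : (0 : ℝ) < 2 ^ i := by positivity
  push_cast at a1 a2
  rw [pow_succ] at b1 b2
  refine lgn_nr ?_ ?_
  · rw [abs_le, pow_succ]
    push_cast
    constructor <;> linarith [a1.1, a1.2, b1.1, b1.2]
  · rw [abs_le, pow_succ]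
    push_cast
    constructor <;> linarith [a2.1, a2.2, b2.1, b2.2]

theorem nr_down {x z : ℂ × ℂ} {σ σ' V : ℝ} {i : ℕ} (hV : ‖x.1 - z.1‖ ≤ V)
    (hs : |σ - σ'| * V ≤ 2 ^ (i + 1) / 64)
    (h : nr 5 (cel (i + 1) (L z σ')) (cel (i + 1) (L x σ'))) :
    nr 14 (cel i (L z σ)) (cel i (L x σ)) := by
  obtain ⟨a1, a2⟩ := lgn_unnr h
  obtain ⟨b1, b2, -⟩ := lgn_move_norm hV hs
  rw [Complex.sub_re, Complex.sub_re] at b1
  rw [Complex.sub_im, Complex.sub_im] at b2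
  rw [abs_lt] at a1 a2
  rw [abs_le] at b1 b2
  have hp : (0 : ℝ) < 2 ^ i := by positivity
  rw [pow_succ] at a1 a2 b1 b2
  push_cast at a1 a2
  refine lgn_nr ?_ ?_
  · rw [abs_le]
    push_cast
    constructor <;> linarith [a1.1, a1.2, b1.1, b1.2]
  · rw [abs_le]
    push_cast
    constructor <;> linarith [a2.1, a2.2, b2.1, b2.2]

end SD12
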