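import Pool.Agent.SD12.LGDefs

/-!
# The times of the slabs
-/

open Finset ComplexConjugate

namespace SD12

theorem abs_tm {τ : ℝ} (hτ : 0 < τ) {m k : ℕ} (hk : k < 2 ^ m) : |tm τ m k| ≤ τ := by
  unfold tm
  have h2 : (0 : ℝ) < 2 ^ m := by positivity
  have hk' : ((k : ℝ) + 1) ≤ 2 ^ m := by exact_mod_cast hk
  have h0 : (0 : ℝ) ≤ (2 * k + 1) / 2 ^ m := by positivity
  have h1 : (2 * (k : ℝ) + 1) / 2 ^ m ≤ 2 := by
    rw [div_le_iff₀ h2]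
    linarith
  rw [abs_mul, abs_of_pos hτ]
  have h3 : |(2 * (k : ℝ) + 1) / 2 ^ m - 1| ≤ 1 := by
    rw [abs_le]
    constructor <;> linarith
  calc τ * |(2 * (k : ℝ) + 1) / 2 ^ m - 1| ≤ τ * 1 := by gcongr
    _ = τ := mul_one τ

theorem lgt_sum_block (g : ℕ → ℝ) (M n : ℕ) :
    ∑ k ∈ range (n * M), g k = ∑ a ∈ range n, ∑ j ∈ range M, g (a * M + j) := by
  induction n with
  | zero => simp
  | succ n ih => rw [Nat.succ_mul, Finset.sum_range_add, ih, Finset.sum_range_succ]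

/-- The grid points of a part. -/
theorem lgt_part {τ : ℝ} (hτ : 0 < τ) {q m : ℕ} (hqm : q ≤ m) {a j : ℕ} (hj : j < 2 ^ (m - q)) :
    tb τ q a ≤ tm τ m (a * 2 ^ (m - q) + j) ∧
      tm τ m (a * 2 ^ (m - q) + j) ≤ tb τ q (a + 1) := by
  have hm : (2 : ℝ) ^ m = 2 ^ q * 2 ^ (m - q) := by
    rw [← pow_add, Nat.add_sub_cancel' hqm]
  have hq0 : (0 : ℝ) < 2 ^ q := by positivity
  have hr0 : (0 : ℝ) < 2 ^ (m - q) := by positivity
  have hj' : ((j : ℝ) + 1) ≤ 2 ^ (m - q) := by exact_mod_cast hj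
  have hj0 : (0 : ℝ) ≤ j := Nat.cast_nonneg j
  unfold tb tm
  rw [hm]
  push_cast
  constructor
  · refine mul_le_mul_of_nonneg_left ?_ hτ.le
    have : 2 * (a : ℝ) / 2 ^ q ≤
        (2 * ((a : ℝ) * 2 ^ (m - q) + j) + 1) / (2 ^ q * 2 ^ (m - q)) := by
      rw [div_le_div_iff₀ hq0 (by positivity)]
      nlinarith [mul_nonneg hj0 hq0.le]
    linarith
  · refine mul_le_mul_of_nonneg_left ?_ hτ.le
    have : (2 * ((a : ℝ) * 2 ^ (m - q) + j) + 1) / (2 ^ q * 2 ^ (m - q)) ≤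
        2 * ((a : ℝ) + 1) / 2 ^ q := by
      rw [div_le_div_iff₀ (by positivity) hq0]
      nlinarith [mul_le_mul_of_nonneg_left hj' hq0.le]
    linarith

/-- In each of the `2 ^ q` parts one can choose a time at which `f` is at most its average. -/
theorem slab_times (f : ℝ → ℝ) {τ : ℝ} (hτ : 0 < τ) {q m : ℕ} (hqm : q ≤ m) :
    ∃ σ : ℕ → ℝ, (∀ a < 2 ^ q, tb τ q a ≤ σ a ∧ σ a ≤ tb τ q (a + 1)) ∧
      (∑ a ∈ range (2 ^ q), f (σ a)) / 2 ^ q ≤ (∑ k ∈ range (2 ^ m), f (tm τ m k)) / 2 ^ m := by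
  have hM : (range (2 ^ (m - q))).Nonempty := ⟨0, mem_range.2 (by positivity)⟩
  have hex : ∀ a : ℕ, ∃ j ∈ range (2 ^ (m - q)), ∀ i ∈ range (2 ^ (m - q)),
      f (tm τ m (a * 2 ^ (m - q) + j)) ≤ f (tm τ m (a * 2 ^ (m - q) + i)) := fun a =>
    Finset.exists_min_image _ (fun j => f (tm τ m (a * 2 ^ (m - q) + j))) hM
  choose J hJ hJmin using hex
  refine ⟨fun a => tm τ m (a * 2 ^ (m - q) + J a), fun a _ => lgt_part hτ hqm (mem_range.1 (hJ a)),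
    ?_⟩
  have hm : (2 : ℝ) ^ m = 2 ^ q * 2 ^ (m - q) := by
    rw [← pow_add, Nat.add_sub_cancel' hqm]
  have hmN : 2 ^ m = 2 ^ q * 2 ^ (m - q) := by
    rw [← pow_add, Nat.add_sub_cancel' hqm]
  have hq0 : (0 : ℝ) < 2 ^ q := by positivity
  have hr0 : (0 : ℝ) < 2 ^ (m - q) := by positivity
  rw [hmN, lgt_sum_block (fun k => f (tm τ m k)), hm, div_le_div_iff₀ hq0 (by positivity)]
  have hkey : (∑ a ∈ range (2 ^ q), f (tm τ m (a * 2 ^ (m - q) + J a))) * 2 ^ (m - q) ≤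
      ∑ a ∈ range (2 ^ q), ∑ j ∈ range (2 ^ (m - q)), f (tm τ m (a * 2 ^ (m - q) + j)) := by
    rw [Finset.sum_mul]
    refine Finset.sum_le_sum fun a _ => ?_
    have := Finset.card_nsmul_le_sum (range (2 ^ (m - q)))
      (fun j => f (tm τ m (a * 2 ^ (m - q) + j))) (f (tm τ m (a * 2 ^ (m - q) + J a)))
      (fun i hi => hJmin a i hi)
    rw [card_range, nsmul_eq_mul] at this
    push_cast at this
    linarith
  nlinarith [mul_le_mul_of_nonneg_right hkey hq0.le]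

/-- Each time is in a part, and the parts are nested. -/
theorem slab_exists {τ : ℝ} (hτ : 0 < τ) {n : ℕ} {s : ℝ} (hs : |s| ≤ τ) :
    ∃ a < 2 ^ n, tb τ n a ≤ s ∧ s ≤ tb τ n (a + 1) := by
  have h2 : (0 : ℝ) < 2 ^ n := by positivity
  obtain ⟨hs1, hs2⟩ := abs_le.1 hs
  set y : ℝ := (s / τ + 1) * 2 ^ n / 2 with hy
  have hsτ1 : -1 ≤ s / τ := by
    rw [le_div_iff₀ hτ]
    linarith
  have hsτ2 : s / τ ≤ 1 := by
    rw [div_le_iff₀ hτ]
    linarith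
  have hy0 : 0 ≤ y := by
    rw [hy]
    have : 0 ≤ s / τ + 1 := by linarith
    positivity
  have hy1 : y ≤ 2 ^ n := by
    rw [hy]
    nlinarith
  have hpos : (1 : ℕ) ≤ 2 ^ n := Nat.one_le_two_pow
  have key : ∃ a : ℕ, a < 2 ^ n ∧ (a : ℝ) ≤ y ∧ y ≤ a + 1 := by
    rcases lt_or_ge (⌊y⌋₊) (2 ^ n) with h | h
    · exact ⟨⌊y⌋₊, h, Nat.floor_le hy0, (Nat.lt_floor_add_one y).le⟩
    · refine ⟨2 ^ n - 1, by omega, ?_, ?_⟩
      · have h1 : ((2 ^ n : ℕ) : ℝ) ≤ y := le_trans (by exact_mod_cast h) (Nat.floor_le hy0)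
        rw [Nat.cast_sub hpos]
        push_cast at h1 ⊢
        linarith
      · rw [Nat.cast_sub hpos]
        push_cast
        linarith
  obtain ⟨a, ha, h1, h2'⟩ := key
  have hyeq : τ * (2 * y / 2 ^ n - 1) = s := by
    rw [hy]
    field_simp
    ring
  refine ⟨a, ha, ?_, ?_⟩
  · unfold tb
    rw [← hyeq]
    gcongr
  · unfold tb
    rw [← hyeq]
    push_cast
    gcongr

theorem slab_nest {τ : ℝ} (hτ : 0 < τ) {n i a : ℕ} (hi : i + 1 ≤ n) :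
    tb τ (n - (i + 1)) (a / 2 ^ (i + 1)) ≤ tb τ (n - i) (a / 2 ^ i) ∧
      tb τ (n - i) (a / 2 ^ i + 1) ≤ tb τ (n - (i + 1)) (a / 2 ^ (i + 1) + 1) := by
  obtain ⟨N, hN⟩ : ∃ N, N = n - (i + 1) := ⟨_, rfl⟩
  have hN' : n - i = N + 1 := by omega
  obtain ⟨b, hb⟩ : ∃ b, b = a / 2 ^ i := ⟨_, rfl⟩
  have hb' : a / 2 ^ (i + 1) = b / 2 := by
    rw [pow_succ, ← Nat.div_div_eq_div_mul, hb]
  rw [← hN, hN', hb', ← hb]
  have h2 : (0 : ℝ) < 2 ^ N := by positivity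
  have e1 : 2 * (b / 2) ≤ b := by omega
  have e2 : b + 1 ≤ 2 * (b / 2 + 1) := by omega
  have e1' : 2 * ((b / 2 : ℕ) : ℝ) ≤ b := by exact_mod_cast e1
  have e2' : (b : ℝ) + 1 ≤ 2 * (((b / 2 : ℕ) : ℝ) + 1) := by exact_mod_cast e2
  have hp : (2 : ℝ) ^ (N + 1) = 2 * 2 ^ N := by rw [pow_succ]; ring
  unfold tb
  rw [hp]
  constructor
  · refine mul_le_mul_of_nonneg_left ?_ hτ.le
    have h3 : 2 * (b : ℝ) / (2 * 2 ^ N) = b / 2 ^ N := by field_simp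
    rw [h3]
    gcongr
  · refine mul_le_mul_of_nonneg_left ?_ hτ.le
    push_cast
    have h3 : 2 * ((b : ℝ) + 1) / (2 * 2 ^ N) = (b + 1) / 2 ^ N := by field_simp
    rw [h3]
    gcongr

theorem slab_length (τ : ℝ) (q a : ℕ) : tb τ q (a + 1) - tb τ q a = 2 * τ / 2 ^ q := by
  unfold tb
  have h2 : (2 : ℝ) ^ q ≠ 0 := by positivity
  push_cast
  field_simp
  ring

end SD12
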