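import Pool.Agent.SD12.LGDefs
import Pool.Agent.SD12.LGt
import Pool.Agent.SD12.LGn
import Pool.Agent.SD12.LGb
import Pool.Agent.SD12.LGc

/-!
# The sum over the levels for one family
-/

open Finset ComplexConjugate

namespace SD12

open Classical in
/-- The number of the pairs which are close at time `s`. -/
noncomputable def lgLevF (E : Finset (ℂ × ℂ)) (s : ℝ) : ℝ :=
  (((E ×ˢ E).filter fun p => ‖L p.1 s - L p.2 s‖ < 1 / 16).card : ℝ)

lemma lgLev_nonneg (E : Finset (ℂ × ℂ)) (s : ℝ) : 0 ≤ lgLevF E s := Nat.cast_nonneg _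

section
variable {α : Type*}

open Classical in
/-- The trace of `ω` on the box of level `i` of `x`. -/
noncomputable def lgLevTr (E ω : Finset α) (P : α → ℂ) (i : ℕ) (x : α) : Finset α :=
  E.filter fun z => z ∈ ω ∧ nr 5 (cel i (P z)) (cel i (P x))

open Classical in
/-- The pairs in a rich trace of level `i`. -/
noncomputable def lgLevRich (E : Finset α) (P : α → ℂ) (i : ℕ) (Ω : Finset (Finset α)) :
    Finset (α × α) :=
  (E ×ˢ E).filter fun p => ∃ ω ∈ Ω, p.1 ∈ ω ∧ p.2 ∈ ω ∧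
    nr 5 (cel i (P p.2)) (cel i (P p.1)) ∧
    8 * (E.filter fun z => nr 5 (cel i (P z)) (cel i (P p.1))).card ≤
      (E.filter fun z => z ∈ ω ∧ nr 5 (cel i (P z)) (cel i (P p.1))).card ^ 2 ∧
    (E.filter fun z => z ∈ ω ∧ nr 5 (cel i (P z)) (cel i (P p.1))).card ^ 2 ≤
      8 * (E.filter fun z => nr 14 (cel i (P z)) (cel i (P p.1))).card

open Classical in
/-- The pairs in a rich trace of the top level. -/
noncomputable def lgLevTop (E : Finset α) (P : α → ℂ) (i : ℕ) (Ω : Finset (Finset α)) :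
    Finset (α × α) :=
  (E ×ˢ E).filter fun p => ∃ ω ∈ Ω, p.1 ∈ ω ∧ p.2 ∈ ω ∧
    nr 5 (cel i (P p.2)) (cel i (P p.1)) ∧
    8 * (E.filter fun z => nr 5 (cel i (P z)) (cel i (P p.1))).card ≤
      (E.filter fun z => z ∈ ω ∧ nr 5 (cel i (P z)) (cel i (P p.1))).card ^ 2

open Classical in
lemma lgLev_card_mem (E ω : Finset α) : (E.filter fun z => z ∈ ω).card ≤ ω.card :=
  card_le_card fun _ hz => (mem_filter.1 hz).2

open Classical in
lemma lgLev_mem_rich {E : Finset α} {P : α → ℂ} {i : ℕ} {Ω : Finset (Finset α)} {x y : α}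
    (hx : x ∈ E) (hy : y ∈ E) {ω : Finset α} (hω : ω ∈ Ω) (hxω : x ∈ ω) (hyω : y ∈ ω)
    (h : nr 5 (cel i (P y)) (cel i (P x)))
    (h1 : 8 * (E.filter fun z => nr 5 (cel i (P z)) (cel i (P x))).card ≤
      (lgLevTr E ω P i x).card ^ 2)
    (h2 : (lgLevTr E ω P i x).card ^ 2 ≤
      8 * (E.filter fun z => nr 14 (cel i (P z)) (cel i (P x))).card) :
    (x, y) ∈ lgLevRich E P i Ω :=
  mem_filter.2 ⟨mem_product.2 ⟨hx, hy⟩, ω, hω, hxω, hyω, h, h1, h2⟩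

open Classical in
lemma lgLev_mem_top {E : Finset α} {P : α → ℂ} {i : ℕ} {Ω : Finset (Finset α)} {x y : α}
    (hx : x ∈ E) (hy : y ∈ E) {ω : Finset α} (hω : ω ∈ Ω) (hxω : x ∈ ω) (hyω : y ∈ ω)
    (h : nr 5 (cel i (P y)) (cel i (P x)))
    (h1 : 8 * (E.filter fun z => nr 5 (cel i (P z)) (cel i (P x))).card ≤
      (lgLevTr E ω P i x).card ^ 2) :
    (x, y) ∈ lgLevTop E P i Ω :=
  mem_filter.2 ⟨mem_product.2 ⟨hx, hy⟩, ω, hω, hxω, hyω, h, h1⟩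

end

/-- The times of all levels. -/
lemma lgLev_times (f : ℝ → ℝ) {τ : ℝ} {n m : ℕ} (hnm : n ≤ m) (hτ0 : 0 < τ) (σ : ℕ → ℝ)
    (hσ : ∀ a < 2 ^ n, tb τ n a ≤ σ a ∧ σ a ≤ tb τ n (a + 1)) :
    ∃ S : ℕ → ℕ → ℝ, S 0 = σ ∧
      (∀ i ≤ n, ∀ a < 2 ^ (n - i), tb τ (n - i) a ≤ S i a ∧ S i a ≤ tb τ (n - i) (a + 1)) ∧
      ∀ i, 1 ≤ i → (∑ a ∈ range (2 ^ (n - i)), f (S i a)) / 2 ^ (n - i) ≤
        (∑ k ∈ range (2 ^ m), f (tm τ m k)) / 2 ^ m := by
  have h : ∀ i : ℕ, ∃ T : ℕ → ℝ, (∀ a < 2 ^ (n - i), tb τ (n - i) a ≤ T a ∧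
      T a ≤ tb τ (n - i) (a + 1)) ∧
      (∑ a ∈ range (2 ^ (n - i)), f (T a)) / 2 ^ (n - i) ≤
        (∑ k ∈ range (2 ^ m), f (tm τ m k)) / 2 ^ m := fun i =>
    slab_times f hτ0 (by omega)
  choose T hT1 hT2 using h
  refine ⟨fun i => if i = 0 then σ else T i, by simp, ?_, ?_⟩
  · intro i _ a ha
    by_cases h0 : i = 0
    · subst h0
      simp only [if_true]
      exact hσ a ha
    · simp only [h0, if_false]
      exact hT1 i a ha
  · intro i hi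
    have h0 : i ≠ 0 := by omega
    simp only [h0, if_false]
    exact hT2 i

lemma lgLev_div {n i a : ℕ} (hi : i ≤ n) (ha : a < 2 ^ n) : a / 2 ^ i < 2 ^ (n - i) := by
  refine Nat.div_lt_of_lt_mul ?_
  rwa [← pow_add, Nat.add_sub_cancel' hi]

/-- The times of two consecutive levels are close. -/
lemma lgLev_step {V τ : ℝ} {n : ℕ} (hV0 : 0 ≤ V) (hτ0 : 0 < τ) (hn : 128 * V * τ ≤ 2 ^ n)
    {S : ℕ → ℕ → ℝ}
    (hS : ∀ i ≤ n, ∀ a < 2 ^ (n - i), tb τ (n - i) a ≤ S i a ∧ S i a ≤ tb τ (n - i) (a + 1))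
    {i a : ℕ} (hi : i + 1 ≤ n) (ha : a < 2 ^ n) :
    |S i (a / 2 ^ i) - S (i + 1) (a / 2 ^ (i + 1))| * V ≤ 2 ^ (i + 1) / 64 := by
  obtain ⟨h1, h2⟩ := hS i (by omega) (a / 2 ^ i) (lgLev_div (by omega) ha)
  obtain ⟨h3, h4⟩ := hS (i + 1) hi (a / 2 ^ (i + 1)) (lgLev_div hi ha)
  obtain ⟨h5, h6⟩ := slab_nest (a := a) hτ0 hi
  have h7 := slab_length τ (n - (i + 1)) (a / 2 ^ (i + 1))
  have h8 : |S i (a / 2 ^ i) - S (i + 1) (a / 2 ^ (i + 1))| ≤ 2 * τ / 2 ^ (n - (i + 1)) := by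
    rw [abs_le]
    constructor <;> linarith
  refine (mul_le_mul_of_nonneg_right h8 hV0).trans ?_
  have hp : (0 : ℝ) < 2 ^ (n - (i + 1)) := by positivity
  have e : (2 : ℝ) ^ n = 2 ^ (i + 1) * 2 ^ (n - (i + 1)) := by
    rw [← pow_add, Nat.add_sub_cancel' hi]
  rw [e] at hn
  rw [div_mul_eq_mul_div, div_le_div_iff₀ hp (by norm_num)]
  linarith

lemma lgLev_nr {E : Finset (ℂ × ℂ)} {V τ : ℝ} {n : ℕ}
    (hV : ∀ x ∈ E, ∀ y ∈ E, ‖x.1 - y.1‖ ≤ V) (hτ0 : 0 < τ) (hn : 128 * V * τ ≤ 2 ^ n)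
    {S : ℕ → ℕ → ℝ}
    (hS : ∀ i ≤ n, ∀ a < 2 ^ (n - i), tb τ (n - i) a ≤ S i a ∧ S i a ≤ tb τ (n - i) (a + 1))
    {a : ℕ} (ha : a < 2 ^ n) {x z : ℂ × ℂ} (hx : x ∈ E) (hz : z ∈ E)
    (h : nr 5 (cel 0 (L z (S 0 (a / 2 ^ 0)))) (cel 0 (L x (S 0 (a / 2 ^ 0))))) :
    ∀ i ≤ n, nr 5 (cel i (L z (S i (a / 2 ^ i)))) (cel i (L x (S i (a / 2 ^ i)))) := by
  have hV0 : 0 ≤ V := (norm_nonneg _).trans (hV x hx z hz)
  intro i
  induction i with
  | zero => exact fun _ => h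
  | succ i ih =>
    intro hi
    exact nr_up (hV x hx z hz) (lgLev_step hV0 hτ0 hn hS hi ha) (ih (by omega))

/-- The largest level with a property. -/
lemma lgLev_greatest (Q : ℕ → Prop) (h0 : Q 0) (n : ℕ) :
    ∃ i ≤ n, Q i ∧ (i = n ∨ (i + 1 ≤ n ∧ ¬ Q (i + 1))) := by
  induction n with
  | zero => exact ⟨0, le_rfl, h0, Or.inl rfl⟩
  | succ n ih =>
    by_cases h : Q (n + 1)
    · exact ⟨n + 1, le_rfl, h, Or.inl rfl⟩
    · obtain ⟨i, hi, hQ, hor⟩ := ih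
      rcases hor with hor | hor
      · subst hor
        exact ⟨i, by omega, hQ, Or.inr ⟨le_rfl, h⟩⟩
      · exact ⟨i, by omega, hQ, Or.inr ⟨by omega, hor.2⟩⟩

/-- Cauchy-Schwarz. -/
lemma lgLev_sqrt_sum {M : ℕ} {g : ℕ → ℝ} {c B : ℝ} (hM : 0 < M) (hg : ∀ a, 0 ≤ g a)
    (hc : 0 ≤ c) (h : (∑ a ∈ range M, g a) / M ≤ B) :
    ∑ a ∈ range M, Real.sqrt (c * g a) ≤ M * Real.sqrt (c * B) := by
  have hM' : (0 : ℝ) < M := by exact_mod_cast hM
  have h1 : (∑ a ∈ range M, Real.sqrt (c * g a)) ^ 2 ≤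
      (range M).card * ∑ a ∈ range M, Real.sqrt (c * g a) ^ 2 := sq_sum_le_card_mul_sum_sq
  have h2 : ∑ a ∈ range M, Real.sqrt (c * g a) ^ 2 = c * ∑ a ∈ range M, g a := by
    rw [mul_sum]
    exact sum_congr rfl fun a _ => Real.sq_sqrt (mul_nonneg hc (hg a))
  rw [h2, card_range] at h1
  have h3 : ∑ a ∈ range M, g a ≤ M * B := by
    rw [div_le_iff₀ hM'] at h
    linarith
  have hB : 0 ≤ B := le_trans (div_nonneg (sum_nonneg fun a _ => hg a) hM'.le) h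
  have h4 : (∑ a ∈ range M, Real.sqrt (c * g a)) ^ 2 ≤ (M * Real.sqrt (c * B)) ^ 2 := by
    rw [mul_pow, Real.sq_sqrt (mul_nonneg hc hB)]
    refine h1.trans ?_
    have := mul_le_mul_of_nonneg_left h3 (mul_nonneg hM'.le hc)
    calc (M : ℝ) * (c * ∑ a ∈ range M, g a) = M * c * ∑ a ∈ range M, g a := by ring
      _ ≤ M * c * (M * B) := this
      _ = M ^ 2 * (c * B) := by ring
  exact le_of_sq_le_sq h4 (by positivity)

open Classical in
/-- Every pair is in a rich trace of some level. -/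
lemma lgLev_cover {E : Finset (ℂ × ℂ)} {V τ : ℝ} {n : ℕ}
    (hV : ∀ x ∈ E, ∀ y ∈ E, ‖x.1 - y.1‖ ≤ V) (hτ0 : 0 < τ) (hn : 128 * V * τ ≤ 2 ^ n)
    {Ω : Finset (Finset (ℂ × ℂ))} {S : ℕ → ℕ → ℝ}
    (hS : ∀ i ≤ n, ∀ a < 2 ^ (n - i), tb τ (n - i) a ≤ S i a ∧ S i a ≤ tb τ (n - i) (a + 1))
    {a : ℕ} (ha : a < 2 ^ n) {x y : ℂ × ℂ} (hx : x ∈ E) (hy : y ∈ E)
    (hnr : nr 5 (cel 0 (L y (S 0 a))) (cel 0 (L x (S 0 a))))
    (h8 : 8 ≤ (E.filter fun z => nr 5 (cel 0 (L z (S 0 a))) (cel 0 (L x (S 0 a)))).card)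
    {ω : Finset (ℂ × ℂ)} (hω : ω ∈ Ω)
    (hsub : E.filter (fun z => nr 5 (cel 0 (L z (S 0 a))) (cel 0 (L x (S 0 a)))) ⊆ ω) :
    (∃ i < n, ∃ a' < 2 ^ (n - i), (x, y) ∈ lgLevRich E (fun z => L z (S i a')) i Ω) ∨
      (x, y) ∈ lgLevTop E (fun z => L z (S n 0)) n Ω := by
  have hV0 : 0 ≤ V := (norm_nonneg _).trans (hV x hx x hx)
  have e0 : a / 2 ^ 0 = a := by simp
  -- the boxes and the traces
  set Bx : ℕ → Finset (ℂ × ℂ) := fun i =>
    E.filter fun z => nr 5 (cel i (L z (S i (a / 2 ^ i)))) (cel i (L x (S i (a / 2 ^ i)))) with hBx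
  set Tr : ℕ → Finset (ℂ × ℂ) := fun i =>
    lgLevTr E ω (fun z => L z (S i (a / 2 ^ i))) i x with hTr
  have hxω : x ∈ ω := hsub (mem_filter.2 ⟨hx, nr_refl (by norm_num) _⟩)
  have hyω : y ∈ ω := hsub (mem_filter.2 ⟨hy, hnr⟩)
  have hyn : ∀ i ≤ n, nr 5 (cel i (L y (S i (a / 2 ^ i)))) (cel i (L x (S i (a / 2 ^ i)))) :=
    lgLev_nr hV hτ0 hn hS ha hx hy (by rw [e0]; exact hnr)
  have hQ0 : 8 * (Bx 0).card ≤ (Tr 0).card ^ 2 := by
    have e1 : Tr 0 = Bx 0 := by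
      rw [hTr, hBx]
      ext z
      simp only [lgLevTr, mem_filter]
      constructor
      · exact fun h => ⟨h.1, h.2.2⟩
      · intro h
        refine ⟨h.1, hsub (mem_filter.2 ⟨h.1, ?_⟩), h.2⟩
        have := h.2
        rwa [e0] at this
    have e2 : 8 ≤ (Bx 0).card := by
      rw [hBx]
      simp only [e0]
      exact h8
    rw [e1, sq]
    exact Nat.mul_le_mul_right _ e2
  obtain ⟨i, hi, hQ, hor⟩ := lgLev_greatest (fun i => 8 * (Bx i).card ≤ (Tr i).card ^ 2) hQ0 n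
  rcases hor with rfl | ⟨hi1, hnQ⟩
  · right
    have e3 : a / 2 ^ i = 0 := Nat.div_eq_of_lt ha
    have h1 := hyn i le_rfl
    rw [e3] at h1
    rw [hBx, hTr] at hQ
    simp only [e3] at hQ
    exact lgLev_mem_top hx hy hω hxω hyω h1 hQ
  · left
    refine ⟨i, by omega, a / 2 ^ i, lgLev_div hi ha, ?_⟩
    refine lgLev_mem_rich (ω := ω) hx hy hω hxω hyω (hyn i hi) hQ ?_
    push Not at hnQ
    have h2 : (Tr i).card ≤ (Tr (i + 1)).card := by
      refine card_le_card fun z hz => ?_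
      simp only [hTr, lgLevTr, mem_filter] at hz ⊢
      exact ⟨hz.1, hz.2.1, nr_up (hV x hx z hz.1) (lgLev_step hV0 hτ0 hn hS hi1 ha) hz.2.2⟩
    have h3 : (Bx (i + 1)).card ≤ (E.filter fun z =>
        nr 14 (cel i (L z (S i (a / 2 ^ i)))) (cel i (L x (S i (a / 2 ^ i))))).card := by
      refine card_le_card fun z hz => ?_
      rw [hBx, mem_filter] at hz
      rw [mem_filter]
      exact ⟨hz.1, nr_down (hV x hx z hz.1) (lgLev_step hV0 hτ0 hn hS hi1 ha) hz.2⟩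
    have h4 : (Tr i).card ^ 2 ≤ (Tr (i + 1)).card ^ 2 := Nat.pow_le_pow_left h2 2
    change (Tr i).card ^ 2 ≤ 8 * (E.filter fun z =>
        nr 14 (cel i (L z (S i (a / 2 ^ i)))) (cel i (L x (S i (a / 2 ^ i))))).card
    omega

open Classical in
/-- The pairs whose box of level `0` (with at least `8` lines) is in a member of the family. -/
theorem levels {E : Finset (ℂ × ℂ)} {V τ : ℝ} {n m : ℕ} (hnm : n ≤ m)
    (hV : ∀ x ∈ E, ∀ y ∈ E, ‖x.1 - y.1‖ ≤ V) (hτ0 : 0 < τ) (hn : 128 * V * τ ≤ 2 ^ n)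
    (Ω : Finset (Finset (ℂ × ℂ))) (hΩ : ∀ ω ∈ Ω, ω ⊆ E)
    (h1 : ∀ ω ∈ Ω, ∀ ω' ∈ Ω, ω ≠ ω' → (ω ∩ ω').card ≤ 1) {b : ℕ} (hb : ∀ ω ∈ Ω, ω.card ≤ b)
    (σ : ℕ → ℝ) (hσ : ∀ a < 2 ^ n, tb τ n a ≤ σ a ∧ σ a ≤ tb τ n (a + 1)) :
    (((E ×ˢ E).filter fun p => ∃ a < 2 ^ n, nr 5 (cel 0 (L p.2 (σ a))) (cel 0 (L p.1 (σ a))) ∧
      8 ≤ (E.filter fun z => nr 5 (cel 0 (L z (σ a))) (cel 0 (L p.1 (σ a)))).card ∧
      ∃ ω ∈ Ω, E.filter (fun z => nr 5 (cel 0 (L z (σ a))) (cel 0 (L p.1 (σ a)))) ⊆ ω).card : ℝ) ≤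
      30000 * ∑ a ∈ range (2 ^ n), Real.sqrt (E.card *
        ((E ×ˢ E).filter fun p => ‖L p.1 (σ a) - L p.2 (σ a)‖ < 1 / 16).card) +
      30000 * n * 2 ^ n * Real.sqrt (E.card * ((∑ k ∈ range (2 ^ m),
        (((E ×ˢ E).filter fun p => ‖L p.1 (tm τ m k) - L p.2 (tm τ m k)‖ < 1 / 16).card : ℝ)) /
          2 ^ m)) + 250 * b * E.card := by
  obtain ⟨S, hS0, hS, hSavg⟩ := lgLev_times (lgLevF E) hnm hτ0 σ hσ
  subst hS0
  set Pb : ℝ := (∑ k ∈ range (2 ^ m), lgLevF E (tm τ m k)) / 2 ^ m with hPb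
  set X := (E ×ˢ E).filter fun p => ∃ a < 2 ^ n,
      nr 5 (cel 0 (L p.2 (S 0 a))) (cel 0 (L p.1 (S 0 a))) ∧
      8 ≤ (E.filter fun z => nr 5 (cel 0 (L z (S 0 a))) (cel 0 (L p.1 (S 0 a)))).card ∧
      ∃ ω ∈ Ω, E.filter (fun z => nr 5 (cel 0 (L z (S 0 a))) (cel 0 (L p.1 (S 0 a)))) ⊆ ω with hX
  have hsub : X ⊆ ((range n).biUnion fun i => (range (2 ^ (n - i))).biUnion fun a =>
      lgLevRich E (fun z => L z (S i a)) i Ω) ∪ lgLevTop E (fun z => L z (S n 0)) n Ω := by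
    rintro ⟨x, y⟩ hp
    rw [hX, mem_filter, mem_product] at hp
    obtain ⟨⟨hx, hy⟩, a, ha, hnr, h8, ω, hω, hsubω⟩ := hp
    rw [mem_union, mem_biUnion]
    rcases lgLev_cover hV hτ0 hn hS ha hx hy hnr h8 hω hsubω with ⟨i, hi, a', ha', h⟩ | h
    · left
      refine ⟨i, mem_range.2 hi, ?_⟩
      rw [mem_biUnion]
      exact ⟨a', mem_range.2 ha', h⟩
    · right
      exact h
  have hrich : ∀ (i : ℕ) (s : ℝ), ((lgLevRich E (fun z => L z s) i Ω).card : ℝ) ≤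
      30000 * 2 ^ i * Real.sqrt (E.card * lgLevF E s) := fun i s =>
    cell_rich E (fun z => L z s) i Ω (fun ω hω ω' hω' hne =>
      (Finset.card_le_card (fun z hz => by
        simp only [Finset.mem_inter] at hz ⊢
        exact hz)).trans (h1 ω hω ω' hω' hne))
  have htop : ((lgLevTop E (fun z => L z (S n 0)) n Ω).card : ℝ) ≤ 250 * b * E.card := by
    have h2 : (lgLevTop E (fun z => L z (S n 0)) n Ω).card ≤ 250 * b * E.card :=
      cell_top E (fun z => L z (S n 0)) n Ω (fun ω hω ω' hω' hne =>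
        (Finset.card_le_card (fun z hz => by
          simp only [Finset.mem_inter] at hz ⊢
          exact hz)).trans (h1 ω hω ω' hω' hne)) (b := b) (fun ω hω =>
        (lgLev_card_mem E ω).trans (hb ω hω))
    exact_mod_cast h2
  have hcard : (X.card : ℝ) ≤ ∑ i ∈ range n, ∑ a ∈ range (2 ^ (n - i)),
      30000 * 2 ^ i * Real.sqrt (E.card * lgLevF E (S i a)) + 250 * b * E.card := by
    have h2 : X.card ≤ ∑ i ∈ range n, ∑ a ∈ range (2 ^ (n - i)),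
        (lgLevRich E (fun z => L z (S i a)) i Ω).card +
        (lgLevTop E (fun z => L z (S n 0)) n Ω).card := by
      refine (card_le_card hsub).trans ((card_union_le _ _).trans ?_)
      refine Nat.add_le_add_right ?_ _
      refine card_biUnion_le.trans (sum_le_sum fun i _ => ?_)
      exact card_biUnion_le
    have h3 : (X.card : ℝ) ≤ ∑ i ∈ range n, ∑ a ∈ range (2 ^ (n - i)),
        ((lgLevRich E (fun z => L z (S i a)) i Ω).card : ℝ) +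
        ((lgLevTop E (fun z => L z (S n 0)) n Ω).card : ℝ) := by
      exact_mod_cast h2
    refine h3.trans (add_le_add (sum_le_sum fun i _ => sum_le_sum fun a _ => hrich i _) htop)
  have hE0 : (0 : ℝ) ≤ E.card := Nat.cast_nonneg _
  -- the sum of one level
  set A : ℝ := 30000 * ∑ a ∈ range (2 ^ n), Real.sqrt (E.card * lgLevF E (S 0 a)) with hA
  set B : ℝ := 30000 * 2 ^ n * Real.sqrt (E.card * Pb) with hB
  have hA0 : 0 ≤ A := mul_nonneg (by norm_num) (sum_nonneg fun a _ => Real.sqrt_nonneg _)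
  have hB0 : 0 ≤ B := by positivity
  have hlev : ∀ i ∈ range n, ∑ a ∈ range (2 ^ (n - i)),
      30000 * 2 ^ i * Real.sqrt (E.card * lgLevF E (S i a)) ≤ (if i = 0 then A else 0) + B := by
    intro i hi
    rw [mem_range] at hi
    by_cases h0 : i = 0
    · subst h0
      have e1 : ∑ a ∈ range (2 ^ (n - 0)),
          30000 * 2 ^ 0 * Real.sqrt (E.card * lgLevF E (S 0 a)) = A := by
        rw [hA, mul_sum, Nat.sub_zero]
        refine sum_congr rfl fun a _ => ?_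
        ring
      rw [e1, if_pos rfl]
      linarith
    · rw [if_neg h0, zero_add, ← mul_sum]
      have h4 := hSavg i (by omega)
      have h5 := lgLev_sqrt_sum (M := 2 ^ (n - i)) (g := fun a => lgLevF E (S i a))
        (c := E.card) (B := Pb) (by positivity) (fun a => lgLev_nonneg E _) hE0 (by
          push_cast
          exact h4)
      push_cast at h5
      have e2 : (2 : ℝ) ^ n = 2 ^ i * 2 ^ (n - i) := by
        rw [← pow_add, Nat.add_sub_cancel' hi.le]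
      calc 30000 * 2 ^ i * ∑ a ∈ range (2 ^ (n - i)), Real.sqrt (E.card * lgLevF E (S i a))
          ≤ 30000 * 2 ^ i * (2 ^ (n - i) * Real.sqrt (E.card * Pb)) :=
            mul_le_mul_of_nonneg_left h5 (by positivity)
        _ = B := by rw [hB, e2]; ring
  have hsum : ∑ i ∈ range n, ∑ a ∈ range (2 ^ (n - i)),
      30000 * 2 ^ i * Real.sqrt (E.card * lgLevF E (S i a)) ≤ A + n * B := by
    refine (sum_le_sum hlev).trans ?_
    rw [sum_add_distrib, sum_const, card_range, nsmul_eq_mul, sum_ite_eq']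
    split_ifs <;> linarith
  have hfin := hcard.trans (add_le_add_left hsum (250 * b * E.card))
  refine hfin.trans (le_of_eq ?_)
  rw [hA, hB]
  unfold lgLevF at hPb
  rw [← hPb]
  unfold lgLevF
  ring

end SD12
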