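import Pool.Agent.SD12.LGt
import Pool.Agent.SD12.LGn
import Pool.Agent.SD12.LGf
import Pool.Agent.SD12.LGlev

/-!
# Lemma G: the pairs which are close at some time
-/

open Finset ComplexConjugate

namespace SD12

/-- The boundaries of the parts are in the window. -/
lemma lemg_tb {τ : ℝ} (hτ : 0 < τ) {n a : ℕ} (ha : a ≤ 2 ^ n) : |tb τ n a| ≤ τ := by
  unfold tb
  have h2 : (0 : ℝ) < 2 ^ n := by positivity
  have ha' : (a : ℝ) ≤ 2 ^ n := by exact_mod_cast ha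
  have h0 : (0 : ℝ) ≤ 2 * a / 2 ^ n := by positivity
  have h1 : 2 * (a : ℝ) / 2 ^ n ≤ 2 := by
    rw [div_le_iff₀ h2]
    linarith
  rw [abs_mul, abs_of_pos hτ]
  have h3 : |2 * (a : ℝ) / 2 ^ n - 1| ≤ 1 := by
    rw [abs_le]
    constructor <;> linarith
  calc τ * |2 * (a : ℝ) / 2 ^ n - 1| ≤ τ * 1 := by gcongr
    _ = τ := mul_one _

/-- Cauchy-Schwarz for the sum of square roots. -/
lemma lemg_cs (M : ℕ) (f : ℕ → ℝ) (hf : ∀ a, 0 ≤ f a) {N P : ℝ} (hN : 0 ≤ N)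
    (hM : 0 < M) (hP : (∑ a ∈ range M, f a) / M ≤ P) :
    ∑ a ∈ range M, Real.sqrt (N * f a) ≤ M * Real.sqrt (N * P) := by
  have hM' : (0 : ℝ) < M := by exact_mod_cast hM
  have hS0 : 0 ≤ ∑ a ∈ range M, Real.sqrt (N * f a) := Finset.sum_nonneg fun a _ => Real.sqrt_nonneg _
  have h1 : (∑ a ∈ range M, Real.sqrt (N * f a)) ^ 2 ≤ M * ∑ a ∈ range M, (Real.sqrt (N * f a)) ^ 2 := by
    have := sq_sum_le_card_mul_sum_sq (s := range M) (f := fun a => Real.sqrt (N * f a))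
    simpa using this
  have h2 : ∑ a ∈ range M, (Real.sqrt (N * f a)) ^ 2 = N * ∑ a ∈ range M, f a := by
    rw [Finset.mul_sum]
    refine Finset.sum_congr rfl fun a _ => ?_
    exact Real.sq_sqrt (mul_nonneg hN (hf a))
  have h3 : ∑ a ∈ range M, f a ≤ M * P := by
    rw [div_le_iff₀ hM'] at hP
    linarith
  have hP0 : 0 ≤ P := le_trans (div_nonneg (Finset.sum_nonneg fun a _ => hf a) hM'.le) hP
  have h4 : (∑ a ∈ range M, Real.sqrt (N * f a)) ^ 2 ≤ (M * Real.sqrt (N * P)) ^ 2 := by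
    rw [mul_pow, Real.sq_sqrt (mul_nonneg hN hP0)]
    calc (∑ a ∈ range M, Real.sqrt (N * f a)) ^ 2 ≤ M * ∑ a ∈ range M, (Real.sqrt (N * f a)) ^ 2 := h1
      _ = M * (N * ∑ a ∈ range M, f a) := by rw [h2]
      _ ≤ M * (N * (M * P)) := by gcongr
      _ = (M : ℝ) ^ 2 * (N * P) := by ring
  exact le_of_sq_le_sq h4 (by positivity)

open Classical in
/-- The pairs in boxes with few lines. -/
lemma lemg_small (E : Finset (ℂ × ℂ)) (M : ℕ) (Q : ℕ → (ℂ × ℂ) → (ℂ × ℂ) → Prop) :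
    ((E ×ˢ E).filter fun p => ∃ a < M, Q a p.2 p.1 ∧ (E.filter fun z => Q a z p.1).card < 8).card ≤
      M * (E.card * 7) := by
  have hsub : ((E ×ˢ E).filter fun p => ∃ a < M, Q a p.2 p.1 ∧
      (E.filter fun z => Q a z p.1).card < 8) ⊆
      (range M).biUnion fun a => E.biUnion fun x =>
        (if (E.filter fun z => Q a z x).card < 8 then (E.filter fun z => Q a z x) else ∅).image
          fun y => (x, y) := by
    rintro ⟨x, y⟩ hp
    rw [mem_filter, mem_product] at hp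
    obtain ⟨⟨hx, hy⟩, a, ha, hQ, h8⟩ := hp
    rw [mem_biUnion]
    refine ⟨a, mem_range.2 ha, ?_⟩
    rw [mem_biUnion]
    refine ⟨x, hx, ?_⟩
    rw [mem_image]
    refine ⟨y, ?_, rfl⟩
    rw [if_pos h8, mem_filter]
    exact ⟨hy, hQ⟩
  refine (card_le_card hsub).trans ?_
  refine (card_biUnion_le_card_mul _ _ (E.card * 7) fun a _ => ?_).trans (by simp)
  refine card_biUnion_le_card_mul _ _ 7 fun x _ => ?_
  refine card_image_le.trans ?_
  split_ifs with h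
  · omega
  · simp

open Classical in
theorem lemG {E : Finset (ℂ × ℂ)} (hE : Cr E) {V τ : ℝ} {n m : ℕ} (hnm : n ≤ m)
    (hV : ∀ x ∈ E, ∀ y ∈ E, ‖x.1 - y.1‖ ≤ V) (hτ0 : 0 < τ) (hτ1 : τ ≤ 1 / 2)
    (hn : 128 * V * τ ≤ 2 ^ n) {b : ℕ}
    (hb1 : ∀ (t : ℝ) (P : ℂ), (E.filter fun z => L z t = P).card ≤ b)
    (hb2 : ∀ a c u : ℂ, u ≠ 0 →
      (E.filter fun z => Par (z.1 - a) u ∧ Par (z.2 - c) (Complex.I * u)).card ≤ b) :
    ((CP E τ).card : ℝ) ≤ 500 * b * E.card +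
      70000 * (n + 1) * 2 ^ n * Real.sqrt (E.card * Pbar E τ m) := by
  obtain ⟨σ, hσ, hσavg⟩ := slab_times (lgLevF E) hτ0 hnm
  have hPbar : Pbar E τ m = (∑ k ∈ range (2 ^ m), lgLevF E (tm τ m k)) / 2 ^ m := rfl
  -- the diagonal
  have hF : ∀ s : ℝ, (E.card : ℝ) ≤ lgLevF E s := by
    intro s
    unfold lgLevF
    have h1 : (E.image fun x => (x, x)) ⊆ (E ×ˢ E).filter fun p => ‖L p.1 s - L p.2 s‖ < 1 / 16 := by
      intro p hp
      rw [mem_image] at hp
      obtain ⟨x, hx, rfl⟩ := hp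
      rw [mem_filter, mem_product]
      refine ⟨⟨hx, hx⟩, ?_⟩
      simp
    have h2 : (E.image fun x => (x, x)).card = E.card :=
      card_image_of_injective _ fun x y h => (Prod.mk.inj h).1
    have h3 := card_le_card h1
    rw [h2] at h3
    exact_mod_cast h3
  have h2m : (0 : ℝ) < 2 ^ m := by positivity
  have h2n : (0 : ℝ) < 2 ^ n := by positivity
  have hN0 : (0 : ℝ) ≤ E.card := Nat.cast_nonneg _
  have hPb : (E.card : ℝ) ≤ Pbar E τ m := by
    rw [hPbar, le_div_iff₀ h2m]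
    calc (E.card : ℝ) * 2 ^ m = ∑ k ∈ range (2 ^ m), (E.card : ℝ) := by
          rw [Finset.sum_const, card_range, nsmul_eq_mul]
          push_cast
          ring
      _ ≤ _ := Finset.sum_le_sum fun k _ => hF _
  have hsq : (E.card : ℝ) ≤ Real.sqrt (E.card * Pbar E τ m) := by
    apply Real.le_sqrt_of_sq_le
    rw [sq]
    gcongr
  have hcs : ∑ a ∈ range (2 ^ n), Real.sqrt (E.card * lgLevF E (σ a)) ≤
      2 ^ n * Real.sqrt (E.card * Pbar E τ m) := by
    have := lemg_cs (2 ^ n) (fun a => lgLevF E (σ a)) (fun a => lgLev_nonneg E _) hN0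
      (by positivity) (P := Pbar E τ m) (by push_cast; rw [hPbar]; exact hσavg)
    push_cast at this
    exact this
  -- the three sets
  set A0 := (E ×ˢ E).filter fun p => ∃ a < 2 ^ n,
      nr 5 (cel 0 (L p.2 (σ a))) (cel 0 (L p.1 (σ a))) ∧
      (E.filter fun z => nr 5 (cel 0 (L z (σ a))) (cel 0 (L p.1 (σ a)))).card < 8 with hA0
  set A1 := (E ×ˢ E).filter fun p => ∃ a < 2 ^ n,
      nr 5 (cel 0 (L p.2 (σ a))) (cel 0 (L p.1 (σ a))) ∧
      8 ≤ (E.filter fun z => nr 5 (cel 0 (L z (σ a))) (cel 0 (L p.1 (σ a)))).card ∧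
      ∃ ω ∈ Fam1 E, E.filter (fun z => nr 5 (cel 0 (L z (σ a))) (cel 0 (L p.1 (σ a)))) ⊆ ω with hA1
  set A2 := (E ×ˢ E).filter fun p => ∃ a < 2 ^ n,
      nr 5 (cel 0 (L p.2 (σ a))) (cel 0 (L p.1 (σ a))) ∧
      8 ≤ (E.filter fun z => nr 5 (cel 0 (L z (σ a))) (cel 0 (L p.1 (σ a)))).card ∧
      ∃ ω ∈ Fam2 E, E.filter (fun z => nr 5 (cel 0 (L z (σ a))) (cel 0 (L p.1 (σ a)))) ⊆ ω with hA2
  have hsub : CP E τ ⊆ A0 ∪ (A1 ∪ A2) := by
    rintro ⟨x, y⟩ hp
    unfold CP at hp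
    rw [mem_filter, mem_product] at hp
    obtain ⟨⟨hx, hy⟩, -, s, hs, hclose⟩ := hp
    dsimp only at hx hy hclose
    obtain ⟨a, ha, ha1, ha2⟩ := slab_exists hτ0 (n := n) hs
    obtain ⟨hσ1, hσ2⟩ := hσ a ha
    have hlen := slab_length τ n a
    have hV0 : 0 ≤ V := le_trans (norm_nonneg _) (hV x hx y hy)
    have hdist : |s - σ a| ≤ 2 * τ / 2 ^ n := by
      rw [abs_le]
      constructor <;> linarith
    have hmul : |s - σ a| * V ≤ 1 / 64 := by
      calc |s - σ a| * V ≤ 2 * τ / 2 ^ n * V := by gcongr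
        _ = (128 * V * τ) / (64 * 2 ^ n) := by field_simp; ring
        _ ≤ 2 ^ n / (64 * 2 ^ n) := by gcongr
        _ = 1 / 64 := by field_simp
    have hnr : nr 5 (cel 0 (L y (σ a))) (cel 0 (L x (σ a))) := nr_start (hV x hx y hy) hmul hclose
    have htb1 := lemg_tb hτ0 (n := n) (a := a) ha.le
    have htb2 := lemg_tb hτ0 (n := n) (a := a + 1) ha
    have hσabs : |σ a| ≤ 1 := by
      rw [abs_le] at htb1 htb2 ⊢
      constructor
      · linarith [htb1.1]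
      · linarith [htb2.2]
    rw [mem_union, mem_union]
    by_cases h8 : (E.filter fun z => nr 5 (cel 0 (L z (σ a))) (cel 0 (L x (σ a)))).card < 8
    · left
      rw [hA0, mem_filter, mem_product]
      exact ⟨⟨hx, hy⟩, a, ha, hnr, h8⟩
    · right
      push Not at h8
      rcases fam_cover hE (filter_subset (fun z => nr 5 (cel 0 (L z (σ a))) (cel 0 (L x (σ a)))) E)
        hσabs (fun z hz w hw => nr_meet (mem_filter.1 hz).2 (mem_filter.1 hw).2) with
        ⟨ω, hω, hsubω⟩ | ⟨ω, hω, hsubω⟩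
      · left
        rw [hA1, mem_filter, mem_product]
        exact ⟨⟨hx, hy⟩, a, ha, hnr, h8, ω, hω, hsubω⟩
      · right
        rw [hA2, mem_filter, mem_product]
        exact ⟨⟨hx, hy⟩, a, ha, hnr, h8, ω, hω, hsubω⟩
  have hc0 : (A0.card : ℝ) ≤ 2 ^ n * (E.card * 7) := by
    have := lemg_small E (2 ^ n) (fun a z x => nr 5 (cel 0 (L z (σ a))) (cel 0 (L x (σ a))))
    have h' : A0.card ≤ 2 ^ n * (E.card * 7) := this
    exact_mod_cast h'
  have hc1 := levels (m := m) hnm hV hτ0 hn (Fam1 E)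
    (fun ω hω => mem_powerset.1 (mem_filter.1 hω).1) (fam1_inter E) (b := b)
    (fun ω hω => by
      obtain ⟨-, t, P, rfl⟩ := mem_filter.1 hω
      exact hb1 t P) σ hσ
  have hc2 := levels (m := m) hnm hV hτ0 hn (Fam2 E)
    (fun ω hω => mem_powerset.1 (mem_filter.1 hω).1) (fam2_inter E) (b := b)
    (fun ω hω => by
      obtain ⟨-, a, c, u, hu, rfl⟩ := mem_filter.1 hω
      exact hb2 a c u hu) σ hσ
  have hc1' : (A1.card : ℝ) ≤ 30000 * (2 ^ n * Real.sqrt (E.card * Pbar E τ m)) +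
      30000 * n * 2 ^ n * Real.sqrt (E.card * Pbar E τ m) + 250 * b * E.card := by
    refine le_trans hc1 ?_
    have : (∑ a ∈ range (2 ^ n), Real.sqrt (E.card *
        ((E ×ˢ E).filter fun p => ‖L p.1 (σ a) - L p.2 (σ a)‖ < 1 / 16).card)) ≤
        2 ^ n * Real.sqrt (E.card * Pbar E τ m) := hcs
    have h0 : (0 : ℝ) ≤ 30000 := by norm_num
    have h1 := mul_le_mul_of_nonneg_left this h0
    exact add_le_add (add_le_add h1 le_rfl) le_rfl
  have hc2' : (A2.card : ℝ) ≤ 30000 * (2 ^ n * Real.sqrt (E.card * Pbar E τ m)) +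
      30000 * n * 2 ^ n * Real.sqrt (E.card * Pbar E τ m) + 250 * b * E.card := by
    refine le_trans hc2 ?_
    have : (∑ a ∈ range (2 ^ n), Real.sqrt (E.card *
        ((E ×ˢ E).filter fun p => ‖L p.1 (σ a) - L p.2 (σ a)‖ < 1 / 16).card)) ≤
        2 ^ n * Real.sqrt (E.card * Pbar E τ m) := hcs
    have h0 : (0 : ℝ) ≤ 30000 := by norm_num
    have h1 := mul_le_mul_of_nonneg_left this h0
    exact add_le_add (add_le_add h1 le_rfl) le_rfl
  have hcard : ((CP E τ).card : ℝ) ≤ A0.card + (A1.card + A2.card) := by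
    have h1 : (CP E τ).card ≤ A0.card + (A1.card + A2.card) :=
      (card_le_card hsub).trans ((card_union_le _ _).trans (Nat.add_le_add_left (card_union_le _ _) _))
    exact_mod_cast h1
  have hS := Real.sqrt_nonneg (E.card * Pbar E τ m)
  have hA0' : (2 : ℝ) ^ n * (E.card * 7) ≤ 7 * (2 ^ n * Real.sqrt (E.card * Pbar E τ m)) := by
    have := mul_le_mul_of_nonneg_left hsq h2n.le
    linarith
  have hX : 0 ≤ (2 : ℝ) ^ n * Real.sqrt (E.card * Pbar E τ m) := by positivity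
  have hnX : 0 ≤ (n : ℝ) * (2 ^ n * Real.sqrt (E.card * Pbar E τ m)) := by positivity
  nlinarith [hcard, hc0, hc1', hc2', hA0', hX, hnX]

end SD12
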