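import Pool.Agent.SD12.AppPre

/-!
# Windows of a set of points: definitions
-/

open Finset ComplexConjugate

namespace SD12

/-- The window (square of side `h`) of a point. -/
noncomputable def win (h : ℝ) (p : ℂ) : ℤ × ℤ := (⌊p.re / h⌋, ⌊p.im / h⌋)

/-- The pairs of points in the same window. -/
noncomputable def WP (A : Finset ℂ) (h : ℝ) : Finset (ℂ × ℂ) :=
  (A ×ˢ A).filter fun x => win h x.1 = win h x.2

/-- The balls of radius `r ≥ 1` have at most `4 K r` points of `A`. -/
def BallB (A : Finset ℂ) (K : ℝ) : Prop :=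
  ∀ (z : ℂ) (r : ℝ), 1 ≤ r → ((A.filter fun p => ‖z - p‖ ≤ r).card : ℝ) ≤ 4 * K * r

end SD12
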