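import Pool.Agent.SD12.AppPre
import Pool.Agent.SD12.WinDefs

/-!
# Points and planes have few lines
-/

open Finset ComplexConjugate

namespace SD12

/-- the first point of a line of the image -/
noncomputable def obj_p (z : ℂ × ℂ) : ℂ := (z.1 - z.2) / 2

/-- the second point of a line of the image -/
noncomputable def obj_q (z : ℂ × ℂ) : ℂ := (z.1 + z.2) / 2

lemma obj_mem {A : Finset ℂ} {z : ℂ × ℂ} (hz : z ∈ (A ×ˢ A).image (appMap 0)) :
    obj_p z ∈ A ∧ obj_q z ∈ A := by
  obtain ⟨⟨p, q⟩, hpq, rfl⟩ := mem_image.1 hz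
  rw [mem_product] at hpq
  have h1 : obj_p (appMap 0 (p, q)) = p := by
    simp only [obj_p, appMap]
    ring
  have h2 : obj_q (appMap 0 (p, q)) = q := by
    simp only [obj_q, appMap]
    ring
  rw [h1, h2]
  exact hpq

lemma obj_inj1 {t : ℝ} {P : ℂ} {z w : ℂ × ℂ} (hz : L z t = P) (hw : L w t = P)
    (h : obj_p z = obj_p w) : z = w := by
  unfold L at hz hw
  unfold obj_p at h
  have h0 : (1 : ℂ) - Complex.I * t ≠ 0 := by
    intro h1
    have h2 := congrArg Complex.re h1
    simp at h2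
  have h1 : z.1 - w.1 = z.2 - w.2 := by linear_combination 2 * h
  have h2 : z.2 - w.2 = 0 := by
    apply (mul_eq_zero.1 (_ : ((1 : ℂ) - Complex.I * t) * (z.2 - w.2) = 0)).resolve_left h0
    linear_combination hz - hw + Complex.I * t * h1
  exact Prod.ext (sub_eq_zero.1 (h1.trans h2)) (sub_eq_zero.1 h2)

lemma obj_inj2 {a c u : ℂ} (hu : u ≠ 0) {z w : ℂ × ℂ}
    (hz : Par (z.1 - a) u ∧ Par (z.2 - c) (Complex.I * u))
    (hw : Par (w.1 - a) u ∧ Par (w.2 - c) (Complex.I * u))
    (h : obj_p z = obj_p w) : z = w := by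
  unfold obj_p at h
  have h1 : z.2 - w.2 = z.1 - w.1 := by linear_combination (-2) * h
  have h2 : ((z.1 - w.1) * conj u).im = 0 := by
    have h3 := hz.1
    have h4 := hw.1
    unfold Par at h3 h4
    have h5 : (z.1 - w.1) * conj u = (z.1 - a) * conj u - (w.1 - a) * conj u := by ring
    rw [h5, Complex.sub_im, h3, h4, sub_zero]
  have h3 : ((z.1 - w.1) * conj u).re = 0 := by
    have h3 := hz.2
    have h4 := hw.2
    unfold Par at h3 h4
    have h5 : (z.2 - c) * conj (Complex.I * u) - (w.2 - c) * conj (Complex.I * u) =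
        -(Complex.I * ((z.1 - w.1) * conj u)) := by
      rw [map_mul, Complex.conj_I]
      linear_combination (-Complex.I) * conj u * h1
    have h6 := congrArg Complex.im h5
    rw [Complex.sub_im, h3, h4, sub_zero, Complex.neg_im, Complex.I_mul_im] at h6
    linarith
  have h4 : (z.1 - w.1) * conj u = 0 := Complex.ext h3 h2
  have h5 : conj u ≠ 0 := (map_ne_zero _).2 hu
  have h6 := (mul_eq_zero.1 h4).resolve_right h5
  exact Prod.ext (sub_eq_zero.1 h6) (sub_eq_zero.1 (h1.trans h6))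

open Classical in
theorem obj_top {A : Finset ℂ} {F : Finset (ℂ × ℂ)} (hF : F ⊆ (A ×ˢ A).image (appMap 0)) :
    (∀ (t : ℝ) (P : ℂ), (F.filter fun z => L z t = P).card ≤ A.card) ∧
      ∀ a c u : ℂ, u ≠ 0 →
        (F.filter fun z => Par (z.1 - a) u ∧ Par (z.2 - c) (Complex.I * u)).card ≤ A.card := by
  refine ⟨fun t P => ?_, fun a c u hu => ?_⟩
  · refine card_le_card_of_injOn obj_p ?_ ?_
    · intro z hz
      rw [mem_coe, mem_filter] at hz
      exact (obj_mem (hF hz.1)).1
    · intro z hz w hw h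
      rw [mem_coe, mem_filter] at hz hw
      exact obj_inj1 hz.2 hw.2 h
  · refine card_le_card_of_injOn obj_p ?_ ?_
    · intro z hz
      rw [mem_coe, mem_filter] at hz
      exact (obj_mem (hF hz.1)).1
    · intro z hz w hw h
      rw [mem_coe, mem_filter] at hz hw
      exact obj_inj2 hu hz.2 hw.2 h

lemma obj_ball {A : Finset ℂ} {K : ℝ} (hK : 0 ≤ K) (hb : BallB A K) {G : Finset (ℂ × ℂ)}
    (hG : G ⊆ (A ×ˢ A).image (appMap 0)) {r : ℝ} (hr : 1 ≤ r)
    (hbox : ∀ x ∈ G, ∀ y ∈ G, ‖x.1 - y.1‖ ≤ 9 * r ∧ ‖x.2 - y.2‖ ≤ 13 * r)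
    (hinj : ∀ x ∈ G, ∀ y ∈ G, obj_p x = obj_p y → x = y) : (G.card : ℝ) ≤ 400 * K * r := by
  rcases G.eq_empty_or_nonempty with rfl | ⟨x, hx⟩
  · rw [card_empty, Nat.cast_zero]
    positivity
  · have h1 : G.card ≤ (A.filter fun p => ‖obj_p x - p‖ ≤ 11 * r).card := by
      refine card_le_card_of_injOn obj_p ?_ ?_
      · intro y hy
        rw [mem_coe] at hy
        rw [mem_coe, mem_filter]
        refine ⟨(obj_mem (hG hy)).1, ?_⟩
        have h2 := hbox x hx y hy
        have h3 : obj_p x - obj_p y = ((x.1 - y.1) - (x.2 - y.2)) / 2 := by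
          simp only [obj_p]
          ring
        rw [h3, norm_div]
        have h4 := norm_sub_le (x.1 - y.1) (x.2 - y.2)
        have h5 : ‖(2 : ℂ)‖ = 2 := by simp
        rw [h5]
        linarith
      · intro y hy w hw h
        exact hinj y hy w hw h
    have h2 := hb (obj_p x) (11 * r) (by linarith)
    have h3 : (G.card : ℝ) ≤ ((A.filter fun p => ‖obj_p x - p‖ ≤ 11 * r).card : ℝ) := by
      exact_mod_cast h1
    have h4 : 0 ≤ K * r := mul_nonneg hK (by linarith)
    nlinarith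

open Classical in
theorem obj_box {A : Finset ℂ} {K : ℝ} (hK : 0 ≤ K) (hb : BallB A K) {F : Finset (ℂ × ℂ)}
    (hF : F ⊆ (A ×ˢ A).image (appMap 0)) {r : ℝ} (hr : 1 ≤ r)
    (hbox : ∀ x ∈ F, ∀ y ∈ F, ‖x.1 - y.1‖ ≤ 9 * r ∧ ‖x.2 - y.2‖ ≤ 13 * r) :
    (∀ (t : ℝ) (P : ℂ), ((F.filter fun z => L z t = P).card : ℝ) ≤ 400 * K * r) ∧
      ∀ a c u : ℂ, u ≠ 0 → ((F.filter fun z =>
        Par (z.1 - a) u ∧ Par (z.2 - c) (Complex.I * u)).card : ℝ) ≤ 400 * K * r := by
  refine ⟨fun t P => ?_, fun a c u hu => ?_⟩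
  · refine obj_ball hK hb ((filter_subset _ _).trans hF) hr ?_ ?_
    · intro x hx y hy
      rw [mem_filter] at hx hy
      exact hbox x hx.1 y hy.1
    · intro x hx y hy h
      rw [mem_filter] at hx hy
      exact obj_inj1 hx.2 hy.2 h
  · refine obj_ball hK hb ((filter_subset _ _).trans hF) hr ?_ ?_
    · intro x hx y hy
      rw [mem_filter] at hx hy
      exact hbox x hx.1 y hy.1
    · intro x hx y hy h
      rw [mem_filter] at hx hy
      exact obj_inj2 hu hx.2 hy.2 h

/-- A disk of radius `2` has at most `81` points. -/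
lemma obj_disk {A : Finset ℂ} (hA : AppSep A) (c : ℂ) :
    (A.filter fun q => ‖q - c‖ ≤ 2).card ≤ 81 := by
  have h1 : (A.filter fun q => ‖q - c‖ ≤ 2).card ≤
      ((Finset.Icc (-4 : ℤ) 4) ×ˢ (Finset.Icc (-4 : ℤ) 4)).card := by
    refine card_le_card_of_injOn (fun q => (⌊2 * (q - c).re⌋, ⌊2 * (q - c).im⌋)) ?_ ?_
    · intro q hq
      rw [mem_coe, mem_filter] at hq
      rw [mem_coe, mem_product, mem_Icc, mem_Icc]
      have hre := abs_le.1 ((Complex.abs_re_le_norm (q - c)).trans hq.2)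
      have him := abs_le.1 ((Complex.abs_im_le_norm (q - c)).trans hq.2)
      refine ⟨⟨Int.le_floor.2 ?_, ?_⟩, Int.le_floor.2 ?_, ?_⟩
      · push_cast
        linarith
      · have h3 : ⌊2 * (q - c).re⌋ ≤ ⌊(4 : ℝ)⌋ := Int.floor_le_floor (by linarith)
        have h4 : ⌊(4 : ℝ)⌋ = 4 := by norm_num
        rw [h4] at h3
        exact h3
      · push_cast
        linarith
      · have h3 : ⌊2 * (q - c).im⌋ ≤ ⌊(4 : ℝ)⌋ := Int.floor_le_floor (by linarith)
        have h4 : ⌊(4 : ℝ)⌋ = 4 := by norm_num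
        rw [h4] at h3
        exact h3
    · intro q hq q' hq' h
      rw [mem_coe, mem_filter] at hq hq'
      by_contra hne
      have h2 := app_one hA hq.1 hq'.1 hne
      simp only [Prod.mk.injEq] at h
      have h3 := Int.abs_sub_lt_one_of_floor_eq_floor h.1
      have h4 := Int.abs_sub_lt_one_of_floor_eq_floor h.2
      have h5 : |(q - q').re| < 1 / 2 := by
        have : (q - q').re = (2 * (q - c).re - 2 * (q' - c).re) / 2 := by
          simp only [Complex.sub_re]
          ring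
        rw [this, abs_div, abs_of_pos (by norm_num : (0 : ℝ) < 2)]
        linarith
      have h6 : |(q - q').im| < 1 / 2 := by
        have : (q - q').im = (2 * (q - c).im - 2 * (q' - c).im) / 2 := by
          simp only [Complex.sub_im]
          ring
        rw [this, abs_div, abs_of_pos (by norm_num : (0 : ℝ) < 2)]
        linarith
      have h7 := Complex.norm_le_abs_re_add_abs_im (q - q')
      linarith
  refine h1.trans (le_of_eq ?_)
  rw [card_product]
  rfl

open Classical in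
theorem obj_loc {A : Finset ℂ} {K : ℝ} (hA : AppSep A) (hK : 0 ≤ K) (hb : BallB A K) {w : ℝ}
    (hw : 2 ≤ w) : ∀ x ∈ (A ×ˢ A).image (appMap 0), ((((A ×ˢ A).image (appMap 0)).filter fun y =>
      ‖x.1 - y.1‖ ≤ w ∧ ‖x.2 - y.2‖ ≤ 2).card : ℝ) ≤ 400 * K * w := by
  intro x _
  have h1 : (((A ×ˢ A).image (appMap 0)).filter fun y =>
      ‖x.1 - y.1‖ ≤ w ∧ ‖x.2 - y.2‖ ≤ 2).card ≤
      81 * (A.filter fun p => ‖obj_p x - p‖ ≤ w).card := by
    refine card_le_mul_card_image_of_maps_to (f := obj_p) ?_ 81 ?_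
    · intro y hy
      rw [mem_filter] at hy
      rw [mem_filter]
      refine ⟨(obj_mem hy.1).1, ?_⟩
      have h3 : obj_p x - obj_p y = ((x.1 - y.1) - (x.2 - y.2)) / 2 := by
        simp only [obj_p]
        ring
      rw [h3, norm_div]
      have h4 := norm_sub_le (x.1 - y.1) (x.2 - y.2)
      have h5 : ‖(2 : ℂ)‖ = 2 := by simp
      rw [h5]
      linarith [hy.2.1, hy.2.2]
    · intro p _
      refine le_trans ?_ (obj_disk hA (x.2 + p))
      refine card_le_card_of_injOn obj_q ?_ ?_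
      · intro y hy
        rw [mem_coe, mem_filter, mem_filter] at hy
        rw [mem_coe, mem_filter]
        refine ⟨(obj_mem hy.1.1).2, ?_⟩
        have h3 : obj_q y - (x.2 + p) = -(x.2 - y.2) := by
          rw [← hy.2]
          simp only [obj_p, obj_q]
          ring
        rw [h3, norm_neg]
        exact hy.1.2.2
      · intro y hy y' hy' h
        rw [mem_coe, mem_filter] at hy hy'
        have h3 : obj_p y = obj_p y' := hy.2.trans hy'.2.symm
        unfold obj_p at h3
        unfold obj_q at h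
        refine Prod.ext ?_ ?_
        · linear_combination h + h3
        · linear_combination h - h3
  have h2 := hb (obj_p x) w (by linarith)
  have h3 : ((((A ×ˢ A).image (appMap 0)).filter fun y =>
      ‖x.1 - y.1‖ ≤ w ∧ ‖x.2 - y.2‖ ≤ 2).card : ℝ) ≤
      81 * ((A.filter fun p => ‖obj_p x - p‖ ≤ w).card : ℝ) := by
    exact_mod_cast h1
  have h4 : 0 ≤ K * w := mul_nonneg hK (by linarith)
  nlinarith

end SD12
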