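import Pool.Agent.SD12.WinDefs

/-! # Equal distances between far windows -/

open Finset ComplexConjugate

namespace SD12

lemma winb_near {h a b : ℝ} (hh : 0 < h) {ρ : ℕ} (he : |⌊a / h⌋ - ⌊b / h⌋| < (ρ : ℤ)) :
    |a - b| < ρ * h := by
  have h1 := Int.floor_le (a / h)
  have h2 := Int.lt_floor_add_one (a / h)
  have h3 := Int.floor_le (b / h)
  have h4 := Int.lt_floor_add_one (b / h)
  have he' : |⌊a / h⌋ - ⌊b / h⌋| ≤ (ρ : ℤ) - 1 := by omega
  have h0 : |(⌊a / h⌋ : ℝ) - ⌊b / h⌋| ≤ ρ - 1 := by exact_mod_cast he'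
  rw [abs_le] at h0
  have h5 : |a / h - b / h| < ρ := by
    rw [abs_lt]
    constructor <;> linarith [h0.1, h0.2]
  rw [← sub_div, abs_div, abs_of_pos hh, div_lt_iff₀ hh] at h5
  exact h5

lemma winb_norm {z : ℂ} {d : ℝ} (h1 : |z.re| ≤ d) (h2 : |z.im| ≤ d) : ‖z‖ ≤ 3 / 2 * d := by
  have hd : 0 ≤ d := (abs_nonneg _).trans h1
  have h3 : ‖z‖ ^ 2 ≤ (3 / 2 * d) ^ 2 := by
    rw [← Complex.normSq_eq_norm_sq, Complex.normSq_apply]
    have h4 : z.re * z.re ≤ d * d := by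
      rw [← abs_mul_abs_self z.re]
      exact mul_self_le_mul_self (abs_nonneg _) h1
    have h5 : z.im * z.im ≤ d * d := by
      rw [← abs_mul_abs_self z.im]
      exact mul_self_le_mul_self (abs_nonneg _) h2
    nlinarith [mul_self_nonneg d]
  exact (pow_le_pow_iff_left₀ (norm_nonneg _) (by positivity) (by norm_num)).1 h3

/-- Points in near windows. -/
lemma winb_dist {h : ℝ} (hh : 0 < h) {ρ : ℕ} {p q : ℂ}
    (h1 : |(win h p).1 - (win h q).1| < (ρ : ℤ)) (h2 : |(win h p).2 - (win h q).2| < (ρ : ℤ)) :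
    ‖p - q‖ ≤ 3 / 2 * (ρ * h) := by
  refine winb_norm ?_ ?_
  · rw [Complex.sub_re]
    exact (winb_near hh h1).le
  · rw [Complex.sub_im]
    exact (winb_near hh h2).le

/-- The number of values of a function whose values are 1-separated in an interval. -/
lemma winb_image {α : Type*} (S : Finset α) (f : α → ℝ) {l : ℝ} (hl : 0 ≤ l)
    (hsep : ∀ s ∈ S, ∀ t ∈ S, f s ≠ f t → 1 ≤ |f s - f t|)
    (hd : ∀ s ∈ S, ∀ t ∈ S, |f s - f t| ≤ l) : ((S.image f).card : ℝ) ≤ l + 1 := by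
  by_cases hS : S.Nonempty
  · have hD : (S.image f).Nonempty := hS.image f
    obtain ⟨s0, hs0, hm⟩ := mem_image.1 ((S.image f).min'_mem hD)
    have hcard : (S.image f).card ≤ (range (⌊l⌋₊ + 1)).card := by
      refine card_le_card_of_injOn (fun d => ⌊d - (S.image f).min' hD⌋₊) ?_ ?_
      · intro d hd'
        rw [mem_coe] at hd'
        obtain ⟨s, hs, rfl⟩ := mem_image.1 hd'
        rw [mem_coe, mem_range]
        refine Nat.lt_succ_of_le (Nat.floor_le_floor ?_)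
        rw [← hm]
        exact (le_abs_self _).trans (hd s hs s0 hs0)
      · intro a ha b hb hab
        simp only at hab
        rw [mem_coe] at ha hb
        have ha0 : 0 ≤ a - (S.image f).min' hD := sub_nonneg.2 (min'_le _ _ ha)
        have hb0 : 0 ≤ b - (S.image f).min' hD := sub_nonneg.2 (min'_le _ _ hb)
        have a1 := Nat.floor_le ha0
        have a2 := Nat.lt_floor_add_one (a - (S.image f).min' hD)
        have b1 := Nat.floor_le hb0
        have b2 := Nat.lt_floor_add_one (b - (S.image f).min' hD)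
        rw [hab] at a1 a2
        obtain ⟨s, hs, rfl⟩ := mem_image.1 ha
        obtain ⟨t, ht, rfl⟩ := mem_image.1 hb
        by_contra hne
        have h1 := hsep s hs t ht hne
        have h2 : |f s - f t| < 1 := by
          rw [abs_lt]
          constructor <;> linarith
        linarith
    rw [card_range] at hcard
    have h1 : ((S.image f).card : ℝ) ≤ ((⌊l⌋₊ + 1 : ℕ) : ℝ) := Nat.cast_le.2 hcard
    push_cast at h1
    linarith [Nat.floor_le hl]
  · rw [not_nonempty_iff_eq_empty] at hS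
    rw [hS, image_empty, card_empty, Nat.cast_zero]
    linarith

/-- Cauchy–Schwarz for coincidences. -/
lemma winb_cs {α : Type*} (S : Finset α) (f : α → ℝ) :
    (S.card : ℝ) ^ 2 ≤ (S.image f).card * ((S ×ˢ S).filter fun p => f p.1 = f p.2).card := by
  have h1 : (S.card : ℝ) = ∑ d ∈ S.image f, ((S.filter fun s => f s = d).card : ℝ) := by
    rw [card_eq_sum_card_image f S, Nat.cast_sum]
  have h2 : (((S ×ˢ S).filter fun p => f p.1 = f p.2).card : ℝ) =
      ∑ d ∈ S.image f, ((S.filter fun s => f s = d).card : ℝ) ^ 2 := by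
    rw [card_eq_sum_card_fiberwise (f := fun p => f p.1) (t := S.image f), Nat.cast_sum]
    · refine sum_congr rfl fun d _ => ?_
      have h3 : (((S ×ˢ S).filter fun p => f p.1 = f p.2).filter fun p => f p.1 = d) =
          (S.filter fun s => f s = d) ×ˢ (S.filter fun s => f s = d) := by
        ext ⟨x, y⟩
        simp only [mem_filter, mem_product]
        constructor
        · rintro ⟨⟨⟨hx, hy⟩, hxy⟩, hd⟩
          exact ⟨⟨hx, hd⟩, hy, by rw [← hxy, hd]⟩
        · rintro ⟨⟨hx, hd⟩, hy, hd'⟩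
          exact ⟨⟨⟨hx, hy⟩, by rw [hd, hd']⟩, hd⟩
      rw [h3, card_product]
      push_cast
      ring
    · intro p hp
      rw [mem_coe, mem_filter, mem_product] at hp
      exact mem_coe.2 (mem_image_of_mem f hp.1.1)
  rw [h2, h1]
  exact sq_sum_le_card_mul_sum_sq

/-- The coincidences between two windows. -/
lemma winb_pair {A : Finset ℂ} {h : ℝ} (hA : AppSep A) (hh : 1 ≤ h) (c c' : ℤ × ℤ) :
    ((A.filter fun p => win h p = c).card : ℝ) ^ 2 * ((A.filter fun p => win h p = c').card : ℝ) ^ 2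
      ≤ 4 * h * (((WP A h ×ˢ WP A h).filter fun p =>
        ‖p.1.1 - p.2.1‖ = ‖p.1.2 - p.2.2‖).filter fun p =>
          (win h p.1.1, win h p.2.1) = (c, c')).card := by
  have hh0 : 0 < h := by linarith
  set S := (A.filter fun p => win h p = c) ×ˢ (A.filter fun p => win h p = c') with hS
  have hmem : ∀ s ∈ S, (s.1 ∈ A ∧ win h s.1 = c) ∧ (s.2 ∈ A ∧ win h s.2 = c') := by
    intro s hs
    rw [hS, mem_product, mem_filter, mem_filter] at hs
    exact hs
  have h1 := winb_cs S (fun s => ‖s.1 - s.2‖)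
  have h2 : ((S.image (fun s => ‖s.1 - s.2‖)).card : ℝ) ≤ 3 * h + 1 := by
    refine winb_image S _ (by linarith) ?_ ?_
    · intro s hs t ht hne
      obtain ⟨⟨hs1, -⟩, hs2, -⟩ := hmem s hs
      obtain ⟨⟨ht1, -⟩, ht2, -⟩ := hmem t ht
      have h3 := hA s.1 hs1 s.2 hs2 t.1 ht1 t.2 ht2
      rw [dist_eq_norm, dist_eq_norm] at h3
      exact h3 hne
    · intro s hs t ht
      obtain ⟨⟨-, hs1⟩, -, hs2⟩ := hmem s hs
      obtain ⟨⟨-, ht1⟩, -, ht2⟩ := hmem t ht
      refine (abs_norm_sub_norm_le _ _).trans ?_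
      have e1 : (s.1 - s.2) - (t.1 - t.2) = (s.1 - t.1) - (s.2 - t.2) := by ring
      rw [e1]
      refine (norm_sub_le _ _).trans ?_
      have e2 : ‖s.1 - t.1‖ ≤ 3 / 2 * (((1 : ℕ) : ℝ) * h) := by
        refine winb_dist hh0 ?_ ?_ <;> rw [hs1, ht1] <;> simp
      have e3 : ‖s.2 - t.2‖ ≤ 3 / 2 * (((1 : ℕ) : ℝ) * h) := by
        refine winb_dist hh0 ?_ ?_ <;> rw [hs2, ht2] <;> simp
      push_cast at e2 e3
      linarith
  have h3 : ((S ×ˢ S).filter fun p => ‖p.1.1 - p.1.2‖ = ‖p.2.1 - p.2.2‖).card ≤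
      (((WP A h ×ˢ WP A h).filter fun p =>
        ‖p.1.1 - p.2.1‖ = ‖p.1.2 - p.2.2‖).filter fun p =>
          (win h p.1.1, win h p.2.1) = (c, c')).card := by
    refine card_le_card_of_injOn (fun p => ((p.1.1, p.2.1), (p.1.2, p.2.2))) ?_ ?_
    · intro p hp
      rw [mem_coe, mem_filter, mem_product] at hp
      obtain ⟨⟨hp1, hp2⟩, he⟩ := hp
      obtain ⟨⟨a1, a2⟩, a3, a4⟩ := hmem _ hp1
      obtain ⟨⟨b1, b2⟩, b3, b4⟩ := hmem _ hp2
      rw [mem_coe, mem_filter, mem_filter, mem_product]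
      unfold WP
      rw [mem_filter, mem_filter, mem_product, mem_product]
      exact ⟨⟨⟨⟨⟨a1, b1⟩, by rw [a2, b2]⟩, ⟨a3, b3⟩, by rw [a4, b4]⟩, he⟩, by rw [a2, a4]⟩
    · rintro ⟨⟨a, b⟩, c, d⟩ _ ⟨⟨a', b'⟩, c', d'⟩ _ hpq
      simp only [Prod.mk.injEq] at hpq ⊢
      obtain ⟨⟨e1, e2⟩, e3, e4⟩ := hpq
      exact ⟨⟨e1, e3⟩, e2, e4⟩
  have h3' : ((((S ×ˢ S).filter fun p => ‖p.1.1 - p.1.2‖ = ‖p.2.1 - p.2.2‖).card : ℕ) : ℝ) ≤
      ((((WP A h ×ˢ WP A h).filter fun p =>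
        ‖p.1.1 - p.2.1‖ = ‖p.1.2 - p.2.2‖).filter fun p =>
          (win h p.1.1, win h p.2.1) = (c, c')).card : ℝ) := Nat.cast_le.2 h3
  have h4 : (S.card : ℝ) ^ 2 = ((A.filter fun p => win h p = c).card : ℝ) ^ 2 *
      ((A.filter fun p => win h p = c').card : ℝ) ^ 2 := by
    rw [hS, card_product]
    push_cast
    ring
  rw [← h4]
  refine h1.trans ?_
  refine mul_le_mul ?_ h3' (Nat.cast_nonneg _) (by linarith)
  linarith

/-- The number of pairs in a common window. -/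
lemma winb_WP (A : Finset ℂ) (h : ℝ) :
    ((WP A h).card : ℝ) = ∑ c ∈ A.image (win h), ((A.filter fun p => win h p = c).card : ℝ) ^ 2 := by
  rw [card_eq_sum_card_fiberwise (f := fun p => win h p.1) (t := A.image (win h)), Nat.cast_sum]
  · refine sum_congr rfl fun c _ => ?_
    have h3 : ((WP A h).filter fun p => win h p.1 = c) =
        (A.filter fun s => win h s = c) ×ˢ (A.filter fun s => win h s = c) := by
      ext ⟨x, y⟩
      unfold WP
      simp only [mem_filter, mem_product]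
      constructor
      · rintro ⟨⟨⟨hx, hy⟩, hxy⟩, hd⟩
        exact ⟨⟨hx, hd⟩, hy, by rw [← hxy, hd]⟩
      · rintro ⟨⟨hx, hd⟩, hy, hd'⟩
        exact ⟨⟨⟨hx, hy⟩, by rw [hd, hd']⟩, hd⟩
    rw [h3, card_product]
    push_cast
    ring
  · intro p hp
    unfold WP at hp
    rw [mem_coe, mem_filter, mem_product] at hp
    exact mem_coe.2 (mem_image_of_mem _ hp.1.1)

/-- The near windows. -/
lemma winb_row {A : Finset ℂ} {K h : ℝ} {ρ : ℕ} (hK : 0 ≤ K) (hb : BallB A K)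
    (hh : 1 ≤ h) (hρ : 1 ≤ ρ) {c : ℤ × ℤ} (hc : c ∈ A.image (win h)) :
    ∑ c' ∈ (A.image (win h)).filter (fun c' =>
      ¬ ((ρ : ℤ) ≤ |c.1 - c'.1| ∨ (ρ : ℤ) ≤ |c.2 - c'.2|)),
        ((A.filter fun p => win h p = c').card : ℝ) ^ 2 ≤ 36 * K ^ 2 * ρ * h ^ 2 := by
  have hh0 : 0 < h := by linarith
  have hρ' : (1 : ℝ) ≤ ρ := by exact_mod_cast hρ
  have hone : ∀ c' ∈ A.image (win h), ((A.filter fun p => win h p = c').card : ℝ) ≤ 6 * K * h := by
    intro c' hc'
    obtain ⟨p0, hp0, rfl⟩ := mem_image.1 hc'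
    have h1 := hb p0 (3 / 2 * h) (by linarith)
    have h2 : (A.filter fun p => win h p = win h p0) ⊆ (A.filter fun p => ‖p0 - p‖ ≤ 3 / 2 * h) := by
      intro p hp
      rw [mem_filter] at hp ⊢
      refine ⟨hp.1, ?_⟩
      have e2 : ‖p0 - p‖ ≤ 3 / 2 * (((1 : ℕ) : ℝ) * h) := by
        refine winb_dist hh0 ?_ ?_ <;> rw [hp.2] <;> simp
      push_cast at e2
      linarith
    have h3 : ((A.filter fun p => win h p = win h p0).card : ℝ) ≤
        ((A.filter fun p => ‖p0 - p‖ ≤ 3 / 2 * h).card : ℝ) := Nat.cast_le.2 (card_le_card h2)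
    linarith
  obtain ⟨p0, hp0, rfl⟩ := mem_image.1 hc
  set T := (A.image (win h)).filter (fun c' =>
      ¬ ((ρ : ℤ) ≤ |(win h p0).1 - c'.1| ∨ (ρ : ℤ) ≤ |(win h p0).2 - c'.2|)) with hT
  have h1 : ∀ c' ∈ T, ((A.filter fun p => win h p = c').card : ℝ) ^ 2 ≤
      6 * K * h * (A.filter fun p => win h p = c').card := by
    intro c' hc'
    rw [hT, mem_filter] at hc'
    rw [sq]
    exact mul_le_mul_of_nonneg_right (hone c' hc'.1) (Nat.cast_nonneg _)
  refine (sum_le_sum h1).trans ?_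
  rw [← mul_sum, ← Nat.cast_sum]
  have h2 : ∑ c' ∈ T, (A.filter fun p => win h p = c').card ≤
      (A.filter fun p => ‖p0 - p‖ ≤ 3 / 2 * (ρ * h)).card := by
    rw [← card_biUnion]
    · refine card_le_card ?_
      intro p hp
      rw [mem_biUnion] at hp
      obtain ⟨c', hc', hp⟩ := hp
      rw [mem_filter] at hp ⊢
      refine ⟨hp.1, ?_⟩
      rw [hT, mem_filter, not_or, not_le, not_le] at hc'
      refine winb_dist hh0 ?_ ?_
      · rw [hp.2]
        exact hc'.2.1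
      · rw [hp.2]
        exact hc'.2.2
    · intro x _ y _ hxy
      rw [Function.onFun, disjoint_left]
      intro p hp hp'
      rw [mem_filter] at hp hp'
      exact hxy (by rw [← hp.2, hp'.2])
  have h3 := hb p0 (3 / 2 * (ρ * h)) (by nlinarith)
  have h4 : ((∑ c' ∈ T, (A.filter fun p => win h p = c').card : ℕ) : ℝ) ≤ 6 * K * (ρ * h) := by
    have h5 : ((∑ c' ∈ T, (A.filter fun p => win h p = c').card : ℕ) : ℝ) ≤
      ((A.filter fun p => ‖p0 - p‖ ≤ 3 / 2 * (ρ * h)).card : ℝ) := Nat.cast_le.2 h2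
    linarith
  calc 6 * K * h * ((∑ c' ∈ T, (A.filter fun p => win h p = c').card : ℕ) : ℝ) ≤
      6 * K * h * (6 * K * (ρ * h)) := mul_le_mul_of_nonneg_left h4 (by positivity)
    _ = 36 * K ^ 2 * ρ * h ^ 2 := by ring

theorem far_lower {A : Finset ℂ} {K h : ℝ} {ρ : ℕ} (hA : AppSep A) (hK : 0 ≤ K) (hb : BallB A K)
    (hh : 1 ≤ h) (hρ : 1 ≤ ρ) (hN : 72 * K ^ 2 * ρ * h ^ 2 ≤ (WP A h).card) :
    ((WP A h).card : ℝ) ^ 2 / (8 * h) ≤ (((WP A h ×ˢ WP A h).filter fun p =>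
      ((ρ : ℤ) ≤ |(win h p.1.1).1 - (win h p.2.1).1| ∨
        (ρ : ℤ) ≤ |(win h p.1.1).2 - (win h p.2.1).2|) ∧
      ‖p.1.1 - p.2.1‖ = ‖p.1.2 - p.2.2‖).card : ℝ) := by
  have hh0 : 0 < h := by linarith
  set W := A.image (win h) with hW
  set k : ℤ × ℤ → ℝ := fun c => ((A.filter fun p => win h p = c).card : ℝ) with hk
  set N : ℝ := ((WP A h).card : ℝ) with hNdef
  set far : (ℤ × ℤ) × (ℤ × ℤ) → Prop := fun c =>
    (ρ : ℤ) ≤ |c.1.1 - c.2.1| ∨ (ρ : ℤ) ≤ |c.1.2 - c.2.2| with hfar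
  have hNk : N = ∑ c ∈ W, k c ^ 2 := winb_WP A h
  have hN0 : 0 ≤ N := Nat.cast_nonneg _
  classical
  -- the near part
  have hnear : ∑ c ∈ (W ×ˢ W).filter (fun c => ¬ far c), k c.1 ^ 2 * k c.2 ^ 2 ≤ N ^ 2 / 2 := by
    rw [sum_filter, sum_product]
    have h1 : ∀ c ∈ W, ∑ c' ∈ W, (if ¬ far (c, c') then k c ^ 2 * k c' ^ 2 else 0) ≤
        k c ^ 2 * (N / 2) := by
      intro c hc
      rw [← sum_filter, ← mul_sum]
      refine mul_le_mul_of_nonneg_left ?_ (sq_nonneg _)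
      have h2 := winb_row hK hb hh hρ (hW ▸ hc)
      refine le_trans (le_of_eq ?_) (h2.trans (by linarith))
      refine sum_congr ?_ fun _ _ => rfl
      refine filter_congr fun c' _ => ?_
      rfl
    refine (sum_le_sum h1).trans ?_
    rw [← sum_mul, ← hNk]
    nlinarith
  have htot : ∑ c ∈ W ×ˢ W, k c.1 ^ 2 * k c.2 ^ 2 = N ^ 2 := by
    rw [sum_product, hNk, sq, sum_mul_sum]
  have hfarS : N ^ 2 / 2 ≤ ∑ c ∈ (W ×ˢ W).filter (fun c => far c), k c.1 ^ 2 * k c.2 ^ 2 := by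
    have h1 := sum_filter_add_sum_filter_not (W ×ˢ W) (fun c => far c)
      (fun c => k c.1 ^ 2 * k c.2 ^ 2)
    rw [htot] at h1
    linarith
  -- the coincidences
  set F := ((WP A h ×ˢ WP A h).filter fun p =>
      ((ρ : ℤ) ≤ |(win h p.1.1).1 - (win h p.2.1).1| ∨
        (ρ : ℤ) ≤ |(win h p.1.1).2 - (win h p.2.1).2|) ∧
      ‖p.1.1 - p.2.1‖ = ‖p.1.2 - p.2.2‖) with hF
  have hFc : ∑ c ∈ (W ×ˢ W).filter (fun c => far c),
      (F.filter fun p => (win h p.1.1, win h p.2.1) = c).card ≤ F.card := by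
    rw [← card_biUnion]
    · refine card_le_card ?_
      intro p hp
      rw [mem_biUnion] at hp
      obtain ⟨c', hc', hp⟩ := hp
      exact (mem_filter.1 hp).1
    · intro x _ y _ hxy
      rw [Function.onFun, disjoint_left]
      intro p hp hp'
      rw [mem_filter] at hp hp'
      exact hxy (by rw [← hp.2, hp'.2])
  have hpair : ∀ c ∈ (W ×ˢ W).filter (fun c => far c), k c.1 ^ 2 * k c.2 ^ 2 ≤
      4 * h * ((F.filter fun p => (win h p.1.1, win h p.2.1) = c).card : ℝ) := by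
    rintro ⟨c, c'⟩ hc
    rw [mem_filter] at hc
    refine (winb_pair hA hh c c').trans ?_
    refine mul_le_mul_of_nonneg_left ?_ (by linarith)
    rw [Nat.cast_le]
    refine card_le_card ?_
    intro p hp
    rw [mem_filter, mem_filter] at hp
    obtain ⟨⟨hp1, hp2⟩, hp3⟩ := hp
    rw [mem_filter, hF, mem_filter]
    refine ⟨⟨hp1, ?_, hp2⟩, hp3⟩
    rw [Prod.mk.injEq] at hp3
    have h4 := hc.2
    rw [hfar] at h4
    simp only at h4
    rw [hp3.1, hp3.2]
    exact h4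
  have h5 := sum_le_sum hpair
  rw [← mul_sum, ← Nat.cast_sum] at h5
  have h6 : ((∑ c ∈ (W ×ˢ W).filter (fun c => far c),
      (F.filter fun p => (win h p.1.1, win h p.2.1) = c).card : ℕ) : ℝ) ≤ (F.card : ℝ) :=
    Nat.cast_le.2 hFc
  have h7 : N ^ 2 / 2 ≤ 4 * h * F.card :=
    hfarS.trans (h5.trans (mul_le_mul_of_nonneg_left h6 (by linarith)))
  rw [div_le_iff₀ (by linarith)]
  linarith

end SD12
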