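import Pool.Agent.SD12.LemG
import Pool.Agent.SD12.LGn
import Pool.Agent.SD12.WinB

/-! # Close pairs of lines with bounded difference of velocities -/

open Finset ComplexConjugate

namespace SD12

lemma pbb_fl {h a b : ℝ} (hh : 0 < h) {R : ℤ} (hab : |a - b| ≤ R * h) :
    |⌊a / h⌋ - ⌊b / h⌋| ≤ R := by
  refine lgn_floor ?_
  rw [← sub_div, abs_div, abs_of_pos hh, div_le_iff₀ hh]
  exact hab

lemma pbb_unfl {h a b : ℝ} (hh : 0 < h) {R : ℤ} (hab : |⌊a / h⌋ - ⌊b / h⌋| ≤ R) :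
    |a - b| < (R + 1) * h := by
  have h1 := lgn_unfloor hab
  rw [← sub_div, abs_div, abs_of_pos hh, div_lt_iff₀ hh] at h1
  exact h1

/-- The cell of a line. -/
noncomputable def pbbc (g h : ℝ) (x : ℂ × ℂ) : (ℤ × ℤ) × (ℤ × ℤ) :=
  ((⌊x.1.re / g⌋, ⌊x.1.im / g⌋), (⌊x.2.re / h⌋, ⌊x.2.im / h⌋))

/-- Near cells. -/
def pbbn (β γ : (ℤ × ℤ) × (ℤ × ℤ)) : Prop := nr 1 β.1 γ.1 ∧ nr 1 β.2 γ.2

open Classical in
lemma pbb_card (K : Finset ((ℤ × ℤ) × (ℤ × ℤ))) (β : (ℤ × ℤ) × (ℤ × ℤ)) :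
    (K.filter fun γ => pbbn β γ).card ≤ 81 := by
  have h1 := nr_card (K.image Prod.fst) 1 β.1
  have h2 := nr_card (K.image Prod.snd) 1 β.2
  have h3 : (K.filter fun γ => pbbn β γ) ⊆
      ((K.image Prod.fst).filter fun κ => nr (1 : ℕ) β.1 κ) ×ˢ
        ((K.image Prod.snd).filter fun κ => nr (1 : ℕ) β.2 κ) := by
    intro γ hγ
    rw [mem_filter] at hγ
    rw [mem_product, mem_filter, mem_filter]
    exact ⟨⟨mem_image_of_mem _ hγ.1, by exact_mod_cast hγ.2.1⟩,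
      mem_image_of_mem _ hγ.1, by exact_mod_cast hγ.2.2⟩
  refine (card_le_card h3).trans ?_
  rw [card_product]
  calc _ ≤ (2 * 1 + 1) ^ 2 * (2 * 1 + 1) ^ 2 := Nat.mul_le_mul h1 h2
    _ = 81 := by norm_num

open Classical in
lemma pbb_sum {α : Type*} (S : Finset α) (f : α → (ℤ × ℤ) × (ℤ × ℤ))
    (K : Finset ((ℤ × ℤ) × (ℤ × ℤ))) :
    ∑ β ∈ K, (S.filter fun z => pbbn (f z) β).card ≤ 81 * S.card := by
  have e1 : ∀ β ∈ K, (S.filter fun z => pbbn (f z) β).card =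
      ∑ z ∈ S, if pbbn (f z) β then 1 else 0 := fun β _ => card_filter _ _
  rw [sum_congr rfl e1, sum_comm]
  have e2 : ∀ z ∈ S, ∑ β ∈ K, (if pbbn (f z) β then 1 else 0) ≤ 81 := by
    intro z _
    rw [← card_filter]
    exact pbb_card K (f z)
  refine (sum_le_sum e2).trans ?_
  rw [sum_const, smul_eq_mul, mul_comm]

open Classical in
/-- The average number of close pairs of the lines near a cell, summed over the cells. -/
lemma pbb_Pbar (E : Finset (ℂ × ℂ)) (τ : ℝ) (m : ℕ) (g h : ℝ) (K : Finset ((ℤ × ℤ) × (ℤ × ℤ))) :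
    ∑ β ∈ K, Pbar (E.filter fun z => pbbn (pbbc g h z) β) τ m ≤ 81 * Pbar E τ m := by
  unfold Pbar
  rw [← sum_div, sum_comm, ← mul_div_assoc]
  refine div_le_div_of_nonneg_right ?_ (by positivity)
  rw [mul_sum]
  refine sum_le_sum fun k _ => ?_
  have h1 := pbb_sum ((E ×ˢ E).filter fun p => ‖L p.1 (tm τ m k) - L p.2 (tm τ m k)‖ < 1 / 16)
    (fun p => pbbc g h p.1) K
  have h2 : ∑ β ∈ K, ((((E.filter fun z => pbbn (pbbc g h z) β) ×ˢ
      (E.filter fun z => pbbn (pbbc g h z) β)).filter fun p =>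
        ‖L p.1 (tm τ m k) - L p.2 (tm τ m k)‖ < 1 / 16).card) ≤
      ∑ β ∈ K, (((E ×ˢ E).filter fun p => ‖L p.1 (tm τ m k) - L p.2 (tm τ m k)‖ < 1 / 16).filter
        fun p => pbbn (pbbc g h p.1) β).card := by
    refine sum_le_sum fun β _ => card_le_card ?_
    intro p hp
    rw [mem_filter, mem_product, mem_filter, mem_filter] at hp
    rw [mem_filter, mem_filter, mem_product]
    exact ⟨⟨⟨hp.1.1.1, hp.1.2.1⟩, hp.2⟩, hp.1.1.2⟩
  have h3 := h2.trans h1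
  exact_mod_cast h3

lemma pbb_nonneg (E : Finset (ℂ × ℂ)) (τ : ℝ) (m : ℕ) : 0 ≤ Pbar E τ m := by
  unfold Pbar
  exact div_nonneg (sum_nonneg fun _ _ => Nat.cast_nonneg _) (pow_nonneg (by norm_num) _)

lemma pbb_sqrt {a b : ℝ} (ha : 0 ≤ a) :
    Real.sqrt (81 * a) * Real.sqrt (81 * b) = 81 * Real.sqrt (a * b) := by
  have h9 : Real.sqrt 81 = 9 := by
    rw [show (81 : ℝ) = 9 ^ 2 by norm_num]
    exact Real.sqrt_sq (by norm_num)
  rw [Real.sqrt_mul (by norm_num : (0 : ℝ) ≤ 81), Real.sqrt_mul (by norm_num : (0 : ℝ) ≤ 81),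
    Real.sqrt_mul ha, h9]
  ring

lemma pbb_box {g h : ℝ} (hg : 0 < g) (hh : 0 < h) {x y : ℂ × ℂ} {β : (ℤ × ℤ) × (ℤ × ℤ)}
    (hx : pbbn (pbbc g h x) β) (hy : pbbn (pbbc g h y) β) :
    ‖x.1 - y.1‖ ≤ 3 / 2 * (3 * g) ∧ ‖x.2 - y.2‖ ≤ 3 / 2 * (3 * h) := by
  have h1 := nr_trans hx.1 (nr_symm hy.1)
  have h2 := nr_trans hx.2 (nr_symm hy.2)
  unfold pbbc nr at h1 h2
  simp only at h1 h2
  constructor
  · refine winb_norm ?_ ?_
    · rw [Complex.sub_re]
      have h3 := pbb_unfl hg h1.1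
      push_cast at h3
      linarith
    · rw [Complex.sub_im]
      have h3 := pbb_unfl hg h1.2
      push_cast at h3
      linarith
  · refine winb_norm ?_ ?_
    · rw [Complex.sub_re]
      have h3 := pbb_unfl hh h2.1
      push_cast at h3
      linarith
    · rw [Complex.sub_im]
      have h3 := pbb_unfl hh h2.2
      push_cast at h3
      linarith

lemma pbb_near {g h : ℝ} (hg : 0 < g) (hh : 0 < h) {x y : ℂ × ℂ}
    (h1 : ‖x.1 - y.1‖ ≤ g) (h2 : ‖x.2 - y.2‖ ≤ h) : pbbn (pbbc g h y) (pbbc g h x) := by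
  have a1 := (Complex.abs_re_le_norm (x.1 - y.1)).trans h1
  have a2 := (Complex.abs_im_le_norm (x.1 - y.1)).trans h1
  have a3 := (Complex.abs_re_le_norm (x.2 - y.2)).trans h2
  have a4 := (Complex.abs_im_le_norm (x.2 - y.2)).trans h2
  rw [Complex.sub_re, abs_sub_comm] at a1 a3
  rw [Complex.sub_im, abs_sub_comm] at a2 a4
  refine ⟨⟨?_, ?_⟩, ?_, ?_⟩
  · refine pbb_fl hg ?_
    push_cast
    linarith
  · refine pbb_fl hg ?_
    push_cast
    linarith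
  · refine pbb_fl hh ?_
    push_cast
    linarith
  · refine pbb_fl hh ?_
    push_cast
    linarith

open Classical in
theorem class_le {E : Finset (ℂ × ℂ)} (hE : Cr E) {w : ℝ} (hw : 2 ≤ w) {i m : ℕ}
    (hm : i + 11 ≤ m) {B : ℝ} (hB : 0 ≤ B)
    (hobj : ∀ F ⊆ E, ∀ r : ℝ, 1 ≤ r →
      (∀ x ∈ F, ∀ y ∈ F, ‖x.1 - y.1‖ ≤ 9 * r ∧ ‖x.2 - y.2‖ ≤ 13 * r) →
      (∀ (t : ℝ) (P : ℂ), ((F.filter fun z => L z t = P).card : ℝ) ≤ B * r) ∧
      ∀ a c u : ℂ, u ≠ 0 →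
        ((F.filter fun z => Par (z.1 - a) u ∧ Par (z.2 - c) (Complex.I * u)).card : ℝ) ≤ B * r) :
    (((CP E (1 / w)).filter fun p => ‖p.1.1 - p.2.1‖ ≤ 2 ^ (i + 1) * w).card : ℝ) ≤
      50000 * B * 2 ^ i * w * E.card +
      2 * 10 ^ 10 * (i + 12) * 2 ^ i * Real.sqrt (E.card * Pbar E (1 / w) m) := by
  have hp : (1 : ℝ) ≤ 2 ^ i := one_le_pow₀ (by norm_num)
  set r : ℝ := 2 ^ i * w with hr
  have hr2 : 2 * 2 ^ i ≤ r := by
    rw [hr]
    nlinarith
  have hr1 : 1 ≤ r := by linarith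
  set g : ℝ := 2 * r with hg
  set h : ℝ := 3 * 2 ^ i with hh
  have hg0 : 0 < g := by linarith
  have hh0 : 0 < h := by linarith
  set K := E.image (pbbc g h) with hK
  set Eb : (ℤ × ℤ) × (ℤ × ℤ) → Finset (ℂ × ℂ) := fun β =>
    E.filter fun z => pbbn (pbbc g h z) β with hEb
  have hw0 : 0 < w := by linarith
  -- each pair is in a cell
  have hcov : ((CP E (1 / w)).filter fun p => ‖p.1.1 - p.2.1‖ ≤ 2 ^ (i + 1) * w) ⊆
      K.biUnion fun β => CP (Eb β) (1 / w) := by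
    intro p hpp
    rw [mem_filter] at hpp
    obtain ⟨hp1, hp2⟩ := hpp
    unfold CP at hp1
    rw [mem_filter, mem_product] at hp1
    obtain ⟨⟨hx, hy⟩, hne, s, hs, hlt⟩ := hp1
    have h1 : ‖p.1.1 - p.2.1‖ ≤ g := by
      rw [hg, hr]
      rw [pow_succ] at hp2
      linarith
    have h2 : ‖p.1.2 - p.2.2‖ ≤ h := by
      have e1 : p.1.2 - p.2.2 = (L p.1 s - L p.2 s) + Complex.I * s * (p.1.1 - p.2.1) := by
        unfold L
        ring
      have e2 : ‖Complex.I * s * (p.1.1 - p.2.1)‖ ≤ 2 * 2 ^ i := by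
        rw [norm_mul, norm_mul, Complex.norm_I, one_mul, Complex.norm_real, Real.norm_eq_abs]
        calc |s| * ‖p.1.1 - p.2.1‖ ≤ 1 / w * (2 ^ (i + 1) * w) :=
              mul_le_mul hs hp2 (norm_nonneg _) (by positivity)
          _ = 2 * 2 ^ i := by
              field_simp
              ring
      rw [e1]
      refine (norm_add_le _ _).trans ?_
      rw [hh]
      linarith
    rw [mem_biUnion]
    refine ⟨pbbc g h p.1, mem_image_of_mem _ hx, ?_⟩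
    unfold CP
    rw [mem_filter, mem_product]
    refine ⟨⟨?_, ?_⟩, hne, s, hs, hlt⟩
    · rw [hEb]
      exact mem_filter.2 ⟨hx, nr_refl (by norm_num) _, nr_refl (by norm_num) _⟩
    · rw [hEb]
      exact mem_filter.2 ⟨hy, pbb_near hg0 hh0 h1 h2⟩
  -- one cell
  set b : ℕ := ⌊B * r⌋₊ with hb
  have hbr : (b : ℝ) ≤ B * r := Nat.floor_le (by positivity)
  have hone : ∀ β ∈ K, ((CP (Eb β) (1 / w)).card : ℝ) ≤ 500 * (B * r) * (Eb β).card +
      70000 * (i + 12) * 2 ^ (i + 11) *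
        (Real.sqrt ((Eb β).card) * Real.sqrt (Pbar (Eb β) (1 / w) m)) := by
    intro β _
    have hsub : Eb β ⊆ E := filter_subset _ _
    have hbox : ∀ x ∈ Eb β, ∀ y ∈ Eb β, ‖x.1 - y.1‖ ≤ 9 * r ∧ ‖x.2 - y.2‖ ≤ 13 * r := by
      intro x hx y hy
      have h1 := pbb_box hg0 hh0 (mem_filter.1 hx).2 (mem_filter.1 hy).2
      refine ⟨h1.1.trans ?_, h1.2.trans ?_⟩
      · rw [hg]
        linarith
      · rw [hh]
        linarith
    obtain ⟨o1, o2⟩ := hobj (Eb β) hsub r hr1 hbox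
    have key := lemG (hE.mono hsub) (V := 9 * r) (τ := 1 / w) (n := i + 11) (m := m) (b := b) hm
      (fun x hx y hy => (hbox x hx y hy).1) (by positivity)
      (by
        rw [div_le_div_iff₀ hw0 (by norm_num)]
        linarith)
      (by
        have e1 : 128 * (9 * r) * (1 / w) = 1152 * 2 ^ i := by
          rw [hr]
          field_simp
          ring
        rw [e1, pow_add]
        norm_num
        linarith)
      (fun t P => Nat.le_floor (o1 t P)) (fun a c u hu => Nat.le_floor (o2 a c u hu))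
    rw [Real.sqrt_mul (Nat.cast_nonneg _)] at key
    have e2 : ((i + 11 : ℕ) : ℝ) + 1 = i + 12 := by
      push_cast
      ring
    rw [e2] at key
    refine key.trans ?_
    have h3 : 500 * (b : ℝ) * (Eb β).card ≤ 500 * (B * r) * (Eb β).card :=
      mul_le_mul_of_nonneg_right (by linarith) (Nat.cast_nonneg _)
    linarith
  have hPb0 : ∀ F : Finset (ℂ × ℂ), 0 ≤ Pbar F (1 / w) m := fun F => pbb_nonneg F _ m
  have h1 : (((CP E (1 / w)).filter fun p => ‖p.1.1 - p.2.1‖ ≤ 2 ^ (i + 1) * w).card : ℝ) ≤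
      ∑ β ∈ K, ((CP (Eb β) (1 / w)).card : ℝ) := by
    have h2 := (card_le_card hcov).trans card_biUnion_le
    exact_mod_cast h2
  have h2 := h1.trans (sum_le_sum hone)
  rw [sum_add_distrib, ← mul_sum, ← mul_sum] at h2
  have h3 : ∑ β ∈ K, ((Eb β).card : ℝ) ≤ 81 * E.card := by
    have h4 := pbb_sum E (pbbc g h) K
    exact_mod_cast h4
  have h4 := Real.sum_sqrt_mul_sqrt_le K (f := fun β => ((Eb β).card : ℝ))
    (g := fun β => Pbar (Eb β) (1 / w) m) (fun β => Nat.cast_nonneg _) (fun β => hPb0 _)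
  have h5 : ∑ β ∈ K, Pbar (Eb β) (1 / w) m ≤ 81 * Pbar E (1 / w) m := pbb_Pbar E (1 / w) m g h K
  have h6 : Real.sqrt (∑ β ∈ K, ((Eb β).card : ℝ)) * Real.sqrt (∑ β ∈ K, Pbar (Eb β) (1 / w) m) ≤
      81 * Real.sqrt (E.card * Pbar E (1 / w) m) := by
    rw [← pbb_sqrt (Nat.cast_nonneg _)]
    exact mul_le_mul (Real.sqrt_le_sqrt h3) (Real.sqrt_le_sqrt h5) (Real.sqrt_nonneg _)
      (Real.sqrt_nonneg _)
  have h7 := h4.trans h6
  have h8 : 500 * (B * r) * ∑ β ∈ K, ((Eb β).card : ℝ) ≤ 500 * (B * r) * (81 * E.card) :=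
    mul_le_mul_of_nonneg_left h3 (by positivity)
  have h9 : 70000 * ((i : ℝ) + 12) * 2 ^ (i + 11) *
      ∑ β ∈ K, (Real.sqrt ((Eb β).card) * Real.sqrt (Pbar (Eb β) (1 / w) m)) ≤
      70000 * ((i : ℝ) + 12) * 2 ^ (i + 11) *
      (81 * Real.sqrt (E.card * Pbar E (1 / w) m)) :=
    mul_le_mul_of_nonneg_left h7 (by positivity)
  refine h2.trans ?_
  have h10 : 500 * (B * r) * (81 * (E.card : ℝ)) ≤ 50000 * B * 2 ^ i * w * E.card := by
    rw [hr]
    have e1 : 0 ≤ B * (2 ^ i * w) * (E.card : ℝ) := by positivity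
    nlinarith
  have h11 : 70000 * ((i : ℝ) + 12) * 2 ^ (i + 11) *
      (81 * Real.sqrt (E.card * Pbar E (1 / w) m)) ≤
      2 * 10 ^ 10 * (i + 12) * 2 ^ i * Real.sqrt (E.card * Pbar E (1 / w) m) := by
    have e0 : (2 : ℝ) ^ (i + 11) = 2048 * 2 ^ i := by
      rw [pow_add]
      norm_num
      ring
    have e1 : 0 ≤ ((i : ℝ) + 12) * 2 ^ i * Real.sqrt (E.card * Pbar E (1 / w) m) :=
      mul_nonneg (by positivity) (Real.sqrt_nonneg _)
    rw [e0]
    calc 70000 * ((i : ℝ) + 12) * (2048 * 2 ^ i) *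
        (81 * Real.sqrt (E.card * Pbar E (1 / w) m)) =
        11612160000 * (((i : ℝ) + 12) * 2 ^ i * Real.sqrt (E.card * Pbar E (1 / w) m)) := by ring
      _ ≤ 20000000000 * (((i : ℝ) + 12) * 2 ^ i * Real.sqrt (E.card * Pbar E (1 / w) m)) :=
        mul_le_mul_of_nonneg_right (by norm_num) e1
      _ = 2 * 10 ^ 10 * (i + 12) * 2 ^ i * Real.sqrt (E.card * Pbar E (1 / w) m) := by ring
  linarith

end SD12
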