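import Pool.Agent.SD12.LGDefs

/-!
# The average number of close pairs
-/

open Finset ComplexConjugate

namespace SD12

open Classical in
/-- The close pairs with close velocities. -/
lemma pbc_local {E : Finset (ℂ × ℂ)} {w : ℝ} (hw : 2 ≤ w) {B : ℝ}
    (hloc : ∀ x ∈ E, ((E.filter fun y => ‖x.1 - y.1‖ ≤ w ∧ ‖x.2 - y.2‖ ≤ 2).card : ℝ) ≤ B * w) :
    (((CP E (1 / w)).filter fun p => ‖p.1.1 - p.2.1‖ ≤ w).card : ℝ) ≤ B * w * E.card := by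
  have hsub : ((CP E (1 / w)).filter fun p => ‖p.1.1 - p.2.1‖ ≤ w) ⊆
      E.biUnion fun x => (E.filter fun y => ‖x.1 - y.1‖ ≤ w ∧ ‖x.2 - y.2‖ ≤ 2).image
        fun y => (x, y) := by
    intro p hp
    rw [mem_filter, CP, mem_filter, mem_product] at hp
    obtain ⟨⟨⟨h1, h2⟩, h3, s, hs, hlt⟩, h4⟩ := hp
    rw [mem_biUnion]
    refine ⟨p.1, h1, mem_image.2 ⟨p.2, mem_filter.2 ⟨h2, h4, ?_⟩, rfl⟩⟩
    have e : p.1.2 - p.2.2 = (L p.1 s - L p.2 s) + Complex.I * s * (p.1.1 - p.2.1) := by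
      unfold L
      ring
    rw [e]
    refine (norm_add_le _ _).trans ?_
    rw [norm_mul, norm_mul, Complex.norm_I, one_mul, Complex.norm_real, Real.norm_eq_abs]
    have h5 : |s| * ‖p.1.1 - p.2.1‖ ≤ 1 / w * w :=
      mul_le_mul hs h4 (norm_nonneg _) (by positivity)
    rw [one_div_mul_cancel (by positivity)] at h5
    linarith
  have h1 : ((CP E (1 / w)).filter fun p => ‖p.1.1 - p.2.1‖ ≤ w).card ≤
      ∑ x ∈ E, (E.filter fun y => ‖x.1 - y.1‖ ≤ w ∧ ‖x.2 - y.2‖ ≤ 2).card :=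
    (card_le_card hsub).trans (card_biUnion_le.trans (sum_le_sum fun x _ => card_image_le))
  calc (((CP E (1 / w)).filter fun p => ‖p.1.1 - p.2.1‖ ≤ w).card : ℝ) ≤
      ((∑ x ∈ E, (E.filter fun y => ‖x.1 - y.1‖ ≤ w ∧ ‖x.2 - y.2‖ ≤ 2).card : ℕ) : ℝ) :=
        Nat.cast_le.2 h1
    _ = ∑ x ∈ E, ((E.filter fun y => ‖x.1 - y.1‖ ≤ w ∧ ‖x.2 - y.2‖ ≤ 2).card : ℝ) := by
        push_cast
        rfl
    _ ≤ ∑ x ∈ E, B * w := sum_le_sum hloc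
    _ = B * w * E.card := by
        rw [sum_const, nsmul_eq_mul]
        ring

lemma pbc_absorb {P N a c : ℝ} (hP : 0 ≤ P) (hN : 0 ≤ N)
    (h : P ≤ a * N + c * Real.sqrt (N * P)) : P ≤ (2 * a + c ^ 2) * N := by
  have h1 : Real.sqrt (N * P) = Real.sqrt N * Real.sqrt P := Real.sqrt_mul hN P
  have h2 : Real.sqrt N ^ 2 = N := Real.sq_sqrt hN
  have h3 : Real.sqrt P ^ 2 = P := Real.sq_sqrt hP
  rw [h1] at h
  nlinarith [sq_nonneg (Real.sqrt P - c * Real.sqrt N)]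

open Classical in
theorem pbar_le_of {E : Finset (ℂ × ℂ)} {w : ℝ} (hw : 2 ≤ w) {I m : ℕ} {B : ℝ} (hB : 0 ≤ B)
    (hloc : ∀ x ∈ E, ((E.filter fun y => ‖x.1 - y.1‖ ≤ w ∧ ‖x.2 - y.2‖ ≤ 2).card : ℝ) ≤ B * w)
    (havg : Pbar E (1 / w) m ≤ E.card +
      (((CP E (1 / w)).filter fun p => ‖p.1.1 - p.2.1‖ ≤ w).card : ℝ) +
      ∑ i ∈ range I, (((CP E (1 / w)).filter fun p =>
        ‖p.1.1 - p.2.1‖ ≤ 2 ^ (i + 1) * w).card : ℝ) / 2 ^ i)
    (hcl : ∀ i < I, (((CP E (1 / w)).filter fun p =>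
      ‖p.1.1 - p.2.1‖ ≤ 2 ^ (i + 1) * w).card : ℝ) ≤
      50000 * B * 2 ^ i * w * E.card +
      2 * 10 ^ 10 * (i + 12) * 2 ^ i * Real.sqrt (E.card * Pbar E (1 / w) m)) :
    Pbar E (1 / w) m ≤ (200000 * (I + 1) * B * w + 10 ^ 21 * (I + 12) ^ 4) * E.card := by
  have hN : (0 : ℝ) ≤ E.card := Nat.cast_nonneg _
  have hP : 0 ≤ Pbar E (1 / w) m := by
    unfold Pbar
    positivity
  set P := Pbar E (1 / w) m with hPdef
  set N : ℝ := (E.card : ℝ) with hNdef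
  have h1 := pbc_local hw hloc
  rw [← hNdef] at h1
  have h2 : ∑ i ∈ range I, (((CP E (1 / w)).filter fun p =>
        ‖p.1.1 - p.2.1‖ ≤ 2 ^ (i + 1) * w).card : ℝ) / 2 ^ i ≤
      ∑ i ∈ range I, (50000 * B * w * N + 2 * 10 ^ 10 * (I + 12) * Real.sqrt (N * P)) := by
    refine sum_le_sum fun i hi => ?_
    rw [mem_range] at hi
    have h2i : (0 : ℝ) < 2 ^ i := by positivity
    rw [div_le_iff₀ h2i]
    refine (hcl i hi).trans ?_
    have hiI : (i : ℝ) ≤ I := by exact_mod_cast hi.le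
    have h3 : (i + 12 : ℝ) * (2 ^ i * Real.sqrt (N * P)) ≤
        (I + 12 : ℝ) * (2 ^ i * Real.sqrt (N * P)) :=
      mul_le_mul_of_nonneg_right (by linarith) (by positivity)
    nlinarith
  rw [sum_const, card_range, nsmul_eq_mul] at h2
  have hI : (0 : ℝ) ≤ I := Nat.cast_nonneg _
  have h3 : P ≤ (1 + B * w + 50000 * I * B * w) * N +
      (2 * 10 ^ 10 * I * (I + 12)) * Real.sqrt (N * P) := by
    refine havg.trans ?_
    calc _ ≤ N + B * w * N + (I : ℝ) * (50000 * B * w * N +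
          2 * 10 ^ 10 * (I + 12) * Real.sqrt (N * P)) := add_le_add (add_le_add le_rfl h1) h2
      _ = _ := by ring
  have h4 := pbc_absorb hP hN h3
  refine h4.trans (mul_le_mul_of_nonneg_right ?_ hN)
  have hBw : 0 ≤ B * w := mul_nonneg hB (by linarith)
  have h5 : 2 * (1 + B * w + 50000 * I * B * w) ≤ 2 + 200000 * (I + 1) * B * w := by
    nlinarith [mul_nonneg hI hBw]
  have h6 : (2 * 10 ^ 10 * (I : ℝ) * (I + 12)) ^ 2 + 2 ≤ 10 ^ 21 * ((I : ℝ) + 12) ^ 4 := by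
    have h7 : (I : ℝ) ^ 2 ≤ ((I : ℝ) + 12) ^ 2 := pow_le_pow_left₀ hI (by linarith) 2
    have h8 : (1 : ℝ) ≤ ((I : ℝ) + 12) ^ 4 := one_le_pow₀ (by linarith)
    have h9 : (I : ℝ) ^ 2 * ((I : ℝ) + 12) ^ 2 ≤ ((I : ℝ) + 12) ^ 2 * ((I : ℝ) + 12) ^ 2 :=
      mul_le_mul_of_nonneg_right h7 (by positivity)
    nlinarith
  linarith

end SD12
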