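import Pool.Agent.SD12.PbarA
import Pool.Agent.SD12.PbarB
import Pool.Agent.SD12.PbarC

/-!
# The average number of close pairs: the bound
-/

open Finset ComplexConjugate

namespace SD12

open Classical in
theorem pbar_le {E : Finset (ℂ × ℂ)} (hE : Cr E) {w : ℝ} (hw : 2 ≤ w) {I m : ℕ}
    (hV : ∀ x ∈ E, ∀ y ∈ E, ‖x.1 - y.1‖ ≤ 2 ^ I * w) (hm : I + 11 ≤ m) {B : ℝ} (hB : 0 ≤ B)
    (hloc : ∀ x ∈ E, ((E.filter fun y => ‖x.1 - y.1‖ ≤ w ∧ ‖x.2 - y.2‖ ≤ 2).card : ℝ) ≤ B * w)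
    (hobj : ∀ F ⊆ E, ∀ r : ℝ, 1 ≤ r →
      (∀ x ∈ F, ∀ y ∈ F, ‖x.1 - y.1‖ ≤ 9 * r ∧ ‖x.2 - y.2‖ ≤ 13 * r) →
      (∀ (t : ℝ) (P : ℂ), ((F.filter fun z => L z t = P).card : ℝ) ≤ B * r) ∧
      ∀ a c u : ℂ, u ≠ 0 →
        ((F.filter fun z => Par (z.1 - a) u ∧ Par (z.2 - c) (Complex.I * u)).card : ℝ) ≤ B * r) :
    Pbar E (1 / w) m ≤ (200000 * (I + 1) * B * w + 10 ^ 21 * (I + 12) ^ 4) * E.card :=
  pbar_le_of hw hB hloc (pbar_avg hE hw hV (by omega))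
    (fun i hi => class_le hE hw (by omega) hB hobj)

end SD12
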