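import Pool.Agent.SD12.LGa

/-! # Cells: common lemmas for `cell_rich` and `cell_top` -/

open Finset

namespace SD12

/-- The cell of level `i` of a point of the plane: the mesh is `2 ^ i / 64`. -/
noncomputable def cel (i : ℕ) (z : ℂ) : ℤ × ℤ := (⌊64 * z.re / 2 ^ i⌋, ⌊64 * z.im / 2 ^ i⌋)

/-- The cells `c` and `c'` differ by at most `R` in both coordinates. -/
def nr (R : ℤ) (c c' : ℤ × ℤ) : Prop := |c.1 - c'.1| ≤ R ∧ |c.2 - c'.2| ≤ R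

lemma nr_refl {R : ℤ} (hR : 0 ≤ R) (c : ℤ × ℤ) : nr R c c := by
  unfold nr
  simpa using hR

lemma nr_symm {R : ℤ} {c c' : ℤ × ℤ} (h : nr R c c') : nr R c' c := by
  unfold nr at *
  rwa [abs_sub_comm, abs_sub_comm c'.2]

lemma nr_trans {R S : ℤ} {a b c : ℤ × ℤ} (h : nr R a b) (h' : nr S b c) : nr (R + S) a c := by
  unfold nr at *
  have h1 := abs_sub_le a.1 b.1 c.1
  have h2 := abs_sub_le a.2 b.2 c.2
  exact ⟨by linarith [h.1, h'.1], by linarith [h.2, h'.2]⟩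

open Classical in
/-- The number of cells near a given cell. -/
theorem nr_card (K : Finset (ℤ × ℤ)) (R : ℕ) (c : ℤ × ℤ) :
    (K.filter fun κ => nr R c κ).card ≤ (2 * R + 1) ^ 2 := by
  have hsub : (K.filter fun κ => nr R c κ) ⊆
      Icc (c.1 - R) (c.1 + R) ×ˢ Icc (c.2 - R) (c.2 + R) := by
    intro κ hκ
    rw [mem_filter] at hκ
    obtain ⟨h1, h2⟩ := hκ.2
    rw [abs_le] at h1 h2
    rw [mem_product, mem_Icc, mem_Icc]
    exact ⟨⟨by linarith, by linarith⟩, ⟨by linarith, by linarith⟩⟩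
  refine (card_le_card hsub).trans ?_
  rw [card_product, Int.card_Icc, Int.card_Icc]
  have e1 : (c.1 + (R : ℤ) + 1 - (c.1 - R)).toNat = 2 * R + 1 := by
    have : c.1 + (R : ℤ) + 1 - (c.1 - R) = ((2 * R + 1 : ℕ) : ℤ) := by push_cast; ring
    rw [this, Int.toNat_natCast]
  have e2 : (c.2 + (R : ℤ) + 1 - (c.2 - R)).toNat = 2 * R + 1 := by
    have : c.2 + (R : ℤ) + 1 - (c.2 - R) = ((2 * R + 1 : ℕ) : ℤ) := by push_cast; ring
    rw [this, Int.toNat_natCast]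
  rw [e1, e2, sq]

open Classical in
/-- Every point is near at most `(2 R + 1) ^ 2` cells. -/
theorem cell_sum {α : Type*} (E : Finset α) (C : α → ℤ × ℤ) (R : ℕ) (K : Finset (ℤ × ℤ)) :
    ∑ κ ∈ K, (E.filter fun z => nr R (C z) κ).card ≤ (2 * R + 1) ^ 2 * E.card := by
  have e1 : ∀ κ ∈ K, (E.filter fun z => nr R (C z) κ).card =
      ∑ z ∈ E, if nr R (C z) κ then 1 else 0 := fun κ _ => card_filter _ _
  rw [sum_congr rfl e1, sum_comm]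
  have e2 : ∀ z ∈ E, ∑ κ ∈ K, (if nr R (C z) κ then 1 else 0) ≤ (2 * R + 1) ^ 2 := by
    intro z _
    rw [← card_filter]
    exact nr_card K R (C z)
  refine (sum_le_sum e2).trans ?_
  rw [sum_const, smul_eq_mul, mul_comm]

open Classical in
/-- One cell: the traces of the rich sets. -/
theorem cell_one {α : Type*} (E : Finset α) (C : α → ℤ × ℤ) (κ : ℤ × ℤ) (Ω : Finset (Finset α))
    (h1 : ∀ ω ∈ Ω, ∀ ω' ∈ Ω, ω ≠ ω' → (ω ∩ ω').card ≤ 1)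
    (h2 : ∀ ω ∈ Ω, 8 * (E.filter fun z => nr 5 (C z) κ).card ≤
      (E.filter fun z => z ∈ ω ∧ nr 5 (C z) κ).card ^ 2) :
    ∑ ω ∈ Ω, (E.filter fun z => z ∈ ω ∧ nr 5 (C z) κ).card ≤
      2 * (E.filter fun z => nr 5 (C z) κ).card := by
  refine kst_idx (E.filter fun z => nr 5 (C z) κ) Ω
    (fun ω => E.filter fun z => z ∈ ω ∧ nr 5 (C z) κ) ?_ ?_ h2
  · intro ω _ z hz
    rw [mem_filter] at hz ⊢
    exact ⟨hz.1, hz.2.2⟩
  · intro ω hω ω' hω' hne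
    refine (card_le_card ?_).trans (h1 ω hω ω' hω' hne)
    intro z hz
    rw [mem_inter, mem_filter, mem_filter] at hz
    exact mem_inter.2 ⟨hz.1.2.1, hz.2.2.1⟩

open Classical in
/-- One cell: the number of pairs with the first element in the cell. -/
theorem lgb_count {α : Type*} (E : Finset α) (C : α → ℤ × ℤ) (Ω : Finset (Finset α))
    (h1 : ∀ ω ∈ Ω, ∀ ω' ∈ Ω, ω ≠ ω' → (ω ∩ ω').card ≤ 1) (κ : ℤ × ℤ) {m : ℝ} (hm : 0 ≤ m) :
    (((E ×ˢ E).filter fun p => C p.1 = κ ∧ ∃ ω ∈ Ω, p.1 ∈ ω ∧ p.2 ∈ ω ∧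
      nr 5 (C p.2) κ ∧ 8 * (E.filter fun z => nr 5 (C z) κ).card ≤
        (E.filter fun z => z ∈ ω ∧ nr 5 (C z) κ).card ^ 2 ∧
      ((E.filter fun z => z ∈ ω ∧ nr 5 (C z) κ).card : ℝ) ≤ m).card : ℝ) ≤
      m * (2 * (E.filter fun z => nr 5 (C z) κ).card) := by
  set tr : Finset α → Finset α := fun ω => E.filter fun z => z ∈ ω ∧ nr 5 (C z) κ with htr
  set Ω' : Finset (Finset α) := Ω.filter fun ω => 8 * (E.filter fun z => nr 5 (C z) κ).card ≤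
    (tr ω).card ^ 2 ∧ ((tr ω).card : ℝ) ≤ m with hΩ'
  have hΩm : ∀ ω ∈ Ω', ω ∈ Ω ∧ 8 * (E.filter fun z => nr 5 (C z) κ).card ≤
      (tr ω).card ^ 2 ∧ ((tr ω).card : ℝ) ≤ m := fun ω hω => by
    rw [hΩ', mem_filter] at hω
    exact hω
  have hsub : ((E ×ˢ E).filter fun p => C p.1 = κ ∧ ∃ ω ∈ Ω, p.1 ∈ ω ∧ p.2 ∈ ω ∧
      nr 5 (C p.2) κ ∧ 8 * (E.filter fun z => nr 5 (C z) κ).card ≤
        (E.filter fun z => z ∈ ω ∧ nr 5 (C z) κ).card ^ 2 ∧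
      ((E.filter fun z => z ∈ ω ∧ nr 5 (C z) κ).card : ℝ) ≤ m) ⊆
      Ω'.biUnion fun ω => tr ω ×ˢ tr ω := by
    intro p hp
    rw [mem_filter, mem_product] at hp
    obtain ⟨⟨hp1, hp2⟩, hC, ω, hω, hx, hy, hn, hr, hs⟩ := hp
    rw [mem_biUnion]
    refine ⟨ω, ?_, ?_⟩
    · rw [hΩ', mem_filter]
      exact ⟨hω, hr, hs⟩
    · rw [mem_product, htr]
      simp only [mem_filter]
      exact ⟨⟨hp1, hx, by rw [hC]; exact nr_refl (by norm_num) κ⟩, hp2, hy, hn⟩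
  have hcard := (card_le_card hsub).trans card_biUnion_le
  have hcard' : (((E ×ˢ E).filter fun p => C p.1 = κ ∧ ∃ ω ∈ Ω, p.1 ∈ ω ∧ p.2 ∈ ω ∧
      nr 5 (C p.2) κ ∧ 8 * (E.filter fun z => nr 5 (C z) κ).card ≤
        (E.filter fun z => z ∈ ω ∧ nr 5 (C z) κ).card ^ 2 ∧
      ((E.filter fun z => z ∈ ω ∧ nr 5 (C z) κ).card : ℝ) ≤ m).card : ℝ) ≤
      ∑ ω ∈ Ω', ((tr ω ×ˢ tr ω).card : ℝ) := by exact_mod_cast hcard
  refine hcard'.trans ?_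
  have e1 : ∀ ω ∈ Ω', ((tr ω ×ˢ tr ω).card : ℝ) ≤ m * (tr ω).card := by
    intro ω hω
    rw [card_product]
    push_cast
    exact mul_le_mul_of_nonneg_right (hΩm ω hω).2.2 (Nat.cast_nonneg _)
  refine (sum_le_sum e1).trans ?_
  rw [← mul_sum]
  refine mul_le_mul_of_nonneg_left ?_ hm
  have h3 := cell_one E C κ Ω' (fun ω hω ω' hω' => h1 ω (hΩm ω hω).1 ω' (hΩm ω' hω').1)
    (fun ω hω => (hΩm ω hω).2.1)
  exact_mod_cast h3

open Classical in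
/-- The pairs, summed over the cells. -/
theorem cell_total {α : Type*} (E : Finset α) (C : α → ℤ × ℤ) (Ω : Finset (Finset α))
    (h1 : ∀ ω ∈ Ω, ∀ ω' ∈ Ω, ω ≠ ω' → (ω ∩ ω').card ≤ 1) {m : ℤ × ℤ → ℝ}
    (hm : ∀ κ, 0 ≤ m κ) :
    (((E ×ˢ E).filter fun p => ∃ ω ∈ Ω, p.1 ∈ ω ∧ p.2 ∈ ω ∧
      nr 5 (C p.2) (C p.1) ∧ 8 * (E.filter fun z => nr 5 (C z) (C p.1)).card ≤
        (E.filter fun z => z ∈ ω ∧ nr 5 (C z) (C p.1)).card ^ 2 ∧
      ((E.filter fun z => z ∈ ω ∧ nr 5 (C z) (C p.1)).card : ℝ) ≤ m (C p.1)).card : ℝ) ≤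
      ∑ κ ∈ E.image C, m κ * (2 * (E.filter fun z => nr 5 (C z) κ).card) := by
  have hmap : ∀ p ∈ ((E ×ˢ E).filter fun p => ∃ ω ∈ Ω, p.1 ∈ ω ∧ p.2 ∈ ω ∧
      nr 5 (C p.2) (C p.1) ∧ 8 * (E.filter fun z => nr 5 (C z) (C p.1)).card ≤
        (E.filter fun z => z ∈ ω ∧ nr 5 (C z) (C p.1)).card ^ 2 ∧
      ((E.filter fun z => z ∈ ω ∧ nr 5 (C z) (C p.1)).card : ℝ) ≤ m (C p.1)),
      C p.1 ∈ E.image C := by
    intro p hp
    rw [mem_filter, mem_product] at hp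
    exact mem_image_of_mem C hp.1.1
  rw [card_eq_sum_card_fiberwise hmap, Nat.cast_sum]
  refine sum_le_sum fun κ _ => ?_
  refine le_trans ?_ (lgb_count E C Ω h1 κ (hm κ))
  rw [Nat.cast_le]
  refine card_le_card fun p hp => ?_
  rw [mem_filter, mem_filter] at hp
  obtain ⟨⟨hp0, ω, hω, hx, hy, hn, hr, hs⟩, hC⟩ := hp
  rw [mem_filter]
  rw [hC] at hn hr hs
  exact ⟨hp0, hC, ω, hω, hx, hy, hn, hr, hs⟩

end SD12
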