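import Pool.Agent.SD12.Defs
import Pool.Agent.SD12.LGb0

/-!
# Close pairs of lines, scale by scale: definitions
-/

open Finset ComplexConjugate

namespace SD12

/-- The midpoints of the `2 ^ m` equal parts of `[-τ, τ]`. -/
noncomputable def tm (τ : ℝ) (m k : ℕ) : ℝ := τ * ((2 * k + 1) / 2 ^ m - 1)

/-- The boundaries of the `2 ^ m` equal parts of `[-τ, τ]`. -/
noncomputable def tb (τ : ℝ) (m k : ℕ) : ℝ := τ * (2 * k / 2 ^ m - 1)

open Classical in
/-- The sets of the lines of `E` through a point. -/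
noncomputable def Fam1 (E : Finset (ℂ × ℂ)) : Finset (Finset (ℂ × ℂ)) :=
  E.powerset.filter fun ω => ∃ (t : ℝ) (P : ℂ), ω = E.filter fun z => L z t = P

open Classical in
/-- The sets of the lines of `E` in a plane. -/
noncomputable def Fam2 (E : Finset (ℂ × ℂ)) : Finset (Finset (ℂ × ℂ)) :=
  E.powerset.filter fun ω => ∃ a c u : ℂ, u ≠ 0 ∧
    ω = E.filter fun z => Par (z.1 - a) u ∧ Par (z.2 - c) (Complex.I * u)

open Classical in
/-- The average number of close pairs on the grid of times. -/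
noncomputable def Pbar (E : Finset (ℂ × ℂ)) (τ : ℝ) (m : ℕ) : ℝ :=
  (∑ k ∈ range (2 ^ m), (((E ×ˢ E).filter fun p =>
    ‖L p.1 (tm τ m k) - L p.2 (tm τ m k)‖ < 1 / 16).card : ℝ)) / 2 ^ m

open Classical in
/-- The pairs which are close at some time in `[-τ, τ]`. -/
noncomputable def CP (E : Finset (ℂ × ℂ)) (τ : ℝ) : Finset ((ℂ × ℂ) × (ℂ × ℂ)) :=
  (E ×ˢ E).filter fun p => p.1 ≠ p.2 ∧ ∃ s : ℝ, |s| ≤ τ ∧ ‖L p.1 s - L p.2 s‖ < 1 / 16

end SD12
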