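import Pool.Agent.SD12.WinB
import Pool.Agent.SD12.LGDefs

/-! # Pairs in far windows meet early -/

open Finset ComplexConjugate

namespace SD12

lemma winc_same {h a b : ℝ} (hh : 0 < h) (he : ⌊a / h⌋ = ⌊b / h⌋) : |a - b| < h := by
  have h1 := Int.floor_le (a / h)
  have h2 := Int.lt_floor_add_one (a / h)
  have h3 := Int.floor_le (b / h)
  have h4 := Int.lt_floor_add_one (b / h)
  rw [he] at h1 h2
  have h5 : |a / h - b / h| < 1 := by
    rw [abs_lt]
    constructor <;> linarith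
  rw [← sub_div, abs_div, abs_of_pos hh, div_lt_one hh] at h5
  exact h5

lemma winc_far {h a b : ℝ} (hh : 0 < h) {ρ : ℕ} (he : (ρ : ℤ) ≤ |⌊a / h⌋ - ⌊b / h⌋|) :
    ((ρ : ℝ) - 1) * h < |a - b| := by
  have h1 := Int.floor_le (a / h)
  have h2 := Int.lt_floor_add_one (a / h)
  have h3 := Int.floor_le (b / h)
  have h4 := Int.lt_floor_add_one (b / h)
  have h0 : (ρ : ℝ) ≤ |(⌊a / h⌋ : ℝ) - ⌊b / h⌋| := by exact_mod_cast he
  have h5 : (ρ : ℝ) - 1 < |a / h - b / h| := by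
    rcases le_abs.1 h0 with h6 | h6
    · refine lt_of_lt_of_le ?_ (le_abs_self _)
      linarith
    · refine lt_of_lt_of_le ?_ (neg_le_abs _)
      linarith
  rw [← sub_div, abs_div, abs_of_pos hh, lt_div_iff₀ hh] at h5
  exact h5

theorem far_meet {h : ℝ} (hh : 0 < h) {ρ : ℕ} (hρ : 9 ≤ ρ) {p q p' q' : ℂ}
    (h1 : win h p = win h q) (h2 : win h p' = win h q')
    (hf : (ρ : ℤ) ≤ |(win h p).1 - (win h p').1| ∨ (ρ : ℤ) ≤ |(win h p).2 - (win h p').2|)
    (he : ‖p - p'‖ = ‖q - q'‖) :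
    appMap 0 (p, q) ≠ appMap 0 (p', q') ∧ ∃ t : ℝ, |t| ≤ 2 / ρ ∧
      L (appMap 0 (p, q)) t = L (appMap 0 (p', q')) t := by
  have hρ' : (9 : ℝ) ≤ ρ := by exact_mod_cast hρ
  unfold win at h1 h2 hf
  rw [Prod.mk.injEq] at h1 h2
  obtain ⟨h1a, h1b⟩ := h1
  obtain ⟨h2a, h2b⟩ := h2
  have d1 := winc_same hh h1a
  have d2 := winc_same hh h1b
  have d3 := winc_same hh h2a
  have d4 := winc_same hh h2b
  have hfar : (((ρ : ℝ) - 1) * h) ^ 2 < ‖p - p'‖ ^ 2 := by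
    have hpos : 0 ≤ ((ρ : ℝ) - 1) * h := mul_nonneg (by linarith) hh.le
    have h3 : ((ρ : ℝ) - 1) * h < ‖p - p'‖ := by
      rcases hf with h4 | h4
      · refine (winc_far hh h4).trans_le ?_
        rw [← Complex.sub_re]
        exact Complex.abs_re_le_norm _
      · refine (winc_far hh h4).trans_le ?_
        rw [← Complex.sub_im]
        exact Complex.abs_im_le_norm _
    exact pow_lt_pow_left₀ h3 hpos (by norm_num)
  have hba : ‖(q - q') - (p - p')‖ ^ 2 ≤ 8 * h ^ 2 := by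
    rw [← Complex.normSq_eq_norm_sq, Complex.normSq_apply]
    have e1 : ((q - q') - (p - p')).re = -(p.re - q.re) + (p'.re - q'.re) := by
      simp only [Complex.sub_re]
      ring
    have e2 : ((q - q') - (p - p')).im = -(p.im - q.im) + (p'.im - q'.im) := by
      simp only [Complex.sub_im]
      ring
    rw [e1, e2]
    rw [abs_lt] at d1 d2 d3 d4
    have f1 : (-(p.re - q.re) + (p'.re - q'.re)) * (-(p.re - q.re) + (p'.re - q'.re)) ≤
        4 * h ^ 2 := by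
      have g1 : -(p.re - q.re) + (p'.re - q'.re) ≤ 2 * h := by linarith [d1.1, d3.2]
      have g2 : -(2 * h) ≤ -(p.re - q.re) + (p'.re - q'.re) := by linarith [d1.2, d3.1]
      nlinarith
    have f2 : (-(p.im - q.im) + (p'.im - q'.im)) * (-(p.im - q.im) + (p'.im - q'.im)) ≤
        4 * h ^ 2 := by
      have g1 : -(p.im - q.im) + (p'.im - q'.im) ≤ 2 * h := by linarith [d2.1, d4.2]
      have g2 : -(2 * h) ≤ -(p.im - q.im) + (p'.im - q'.im) := by linarith [d2.2, d4.1]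
      nlinarith
    linarith
  have hpar := app_par (p - p') (q - q')
  rw [← he] at hpar
  -- the key inequality
  have hkey : (ρ : ℝ) ^ 2 * ‖(q - q') - (p - p')‖ ^ 2 ≤ 4 * ‖(p - p') + (q - q')‖ ^ 2 := by
    have g1 : (ρ : ℝ) ^ 2 * ‖(q - q') - (p - p')‖ ^ 2 ≤ ρ ^ 2 * (8 * h ^ 2) :=
      mul_le_mul_of_nonneg_left hba (by positivity)
    have g2 : 4 * ‖(p - p') + (q - q')‖ ^ 2 ≥
        4 * (4 * (((ρ : ℝ) - 1) * h) ^ 2 - 8 * h ^ 2) := by
      nlinarith [hpar, hfar, hba]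
    have g3 : (ρ : ℝ) ^ 2 * (8 * h ^ 2) ≤ 4 * (4 * (((ρ : ℝ) - 1) * h) ^ 2 - 8 * h ^ 2) := by
      have g4 : 0 ≤ (8 * (ρ : ℝ) ^ 2 - 32 * ρ - 16) * h ^ 2 := by
        refine mul_nonneg ?_ (sq_nonneg h)
        nlinarith
      nlinarith [g4]
    linarith
  have hpos : 0 < ‖(p - p') + (q - q')‖ ^ 2 := by
    have g1 : 0 < (((ρ : ℝ) - 1) * h) ^ 2 - 2 * h ^ 2 := by
      have g2 : (((ρ : ℝ) - 1) * h) ^ 2 - 2 * h ^ 2 = (((ρ : ℝ) - 1) ^ 2 - 2) * h ^ 2 := by ring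
      rw [g2]
      refine mul_pos ?_ (by positivity)
      nlinarith
    nlinarith [hpar, hfar, hba]
  have hne : (p - p') + (q - q') ≠ 0 := by
    intro h0
    rw [h0, norm_zero] at hpos
    norm_num at hpos
  refine ⟨?_, ?_⟩
  · intro h0
    have h3 := app_inj 0 h0
    rw [Prod.mk.injEq] at h3
    rw [h3.1, sub_self, norm_zero] at hfar
    nlinarith [sq_nonneg (((ρ : ℝ) - 1) * h)]
  · obtain ⟨t, ht⟩ := app_perp he hne
    refine ⟨t, ?_, ?_⟩
    · have h3 : ‖(q - q') - (p - p')‖ = |t| * ‖(p - p') + (q - q')‖ := by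
        rw [ht, norm_mul, norm_mul, Complex.norm_I, one_mul, Complex.norm_real,
          Real.norm_eq_abs]
      rw [h3, mul_pow, ← mul_assoc] at hkey
      have h4 : (ρ : ℝ) ^ 2 * |t| ^ 2 ≤ 4 := le_of_mul_le_mul_right hkey hpos
      have h5 : ρ * |t| ≤ 2 := by
        have h6 : (ρ * |t|) ^ 2 ≤ 2 ^ 2 := by
          rw [mul_pow]
          linarith
        exact (pow_le_pow_iff_left₀ (by positivity) (by norm_num) (by norm_num)).1 h6
      rw [le_div_iff₀ (by linarith)]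
      linarith
    · rw [← sub_eq_zero, app_diff]
      linear_combination ht

/-- The far pairs give close pairs of lines. -/
theorem winc_card {A : Finset ℂ} {h : ℝ} {ρ : ℕ} (hh : 0 < h) (hρ : 9 ≤ ρ) :
    ((WP A h ×ˢ WP A h).filter fun p =>
      ((ρ : ℤ) ≤ |(win h p.1.1).1 - (win h p.2.1).1| ∨
        (ρ : ℤ) ≤ |(win h p.1.1).2 - (win h p.2.1).2|) ∧
      ‖p.1.1 - p.2.1‖ = ‖p.1.2 - p.2.2‖).card ≤
      (CP ((WP A h).image (appMap 0)) (2 / ρ)).card := by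
  refine card_le_card_of_injOn (fun p => (appMap 0 p.1, appMap 0 p.2)) ?_ ?_
  · intro p hp
    rw [mem_coe, mem_filter, mem_product] at hp
    obtain ⟨⟨hp1, hp2⟩, hf, he⟩ := hp
    have hw1 : win h p.1.1 = win h p.1.2 := (mem_filter.1 hp1).2
    have hw2 : win h p.2.1 = win h p.2.2 := (mem_filter.1 hp2).2
    obtain ⟨hne, t, ht1, ht2⟩ := far_meet hh hρ hw1 hw2 hf he
    unfold CP
    classical
    rw [mem_coe, mem_filter, mem_product]
    refine ⟨⟨mem_image_of_mem _ hp1, mem_image_of_mem _ hp2⟩, hne, t, ht1, ?_⟩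
    have h3 : L (appMap 0 p.1) t - L (appMap 0 p.2) t = 0 := sub_eq_zero.2 ht2
    simp only
    rw [h3, norm_zero]
    norm_num
  · intro p _ q _ hpq
    simp only [Prod.mk.injEq] at hpq
    exact Prod.ext (app_inj 0 hpq.1) (app_inj 0 hpq.2)

/-- Far pairs of pairs in the windows are close pairs of lines. -/
theorem far_cp {A : Finset ℂ} {K h : ℝ} {ρ : ℕ} (hA : AppSep A) (hK : 0 ≤ K) (hb : BallB A K)
    (hh : 1 ≤ h) (hρ : 9 ≤ ρ) (hN : 72 * K ^ 2 * ρ * h ^ 2 ≤ (WP A h).card) :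
    ((WP A h).card : ℝ) ^ 2 / (8 * h) ≤ (CP ((WP A h).image (appMap 0)) (2 / ρ)).card :=
  (far_lower hA hK hb hh (by omega) hN).trans
    (Nat.cast_le.2 (winc_card (by linarith) hρ))

end SD12
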