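import Pool.Agent.SD12.WinA
import Pool.Agent.SD12.WinC
import Pool.Agent.SD12.Obj
import Pool.Agent.SD12.LemG
import Pool.Agent.SD12.PbarD

/-! # The star inequality -/

open Finset ComplexConjugate

namespace SD12

/-- The numerical part. -/
lemma star_num {n D K h N ρ J q s X : ℝ} (hK : 1 ≤ K) (hh : 1 ≤ h) (hD : 0 < D)
    (hn : n = K * D) (hN : 8000 * n * h < N) (hρ : 9 ≤ ρ) (hρN : N < 144 * K ^ 2 * h ^ 2 * ρ)
    (hJ : 1 ≤ J) (hCJ : 10 ^ 30 * J ^ 3 * h ≤ D) (hq : q ≤ 12 * J) (hs0 : 0 ≤ s)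
    (hs : s * ρ ≤ 1024 * D) (hX : X = 40000000 * (J + 2) * K * ρ + 10 ^ 21 * (J + 13) ^ 4)
    (hmain : N / (8 * h) ≤ 500 * n + 70000 * q * s * Real.sqrt X) : False := by
  have hρ0 : 0 < ρ := by linarith
  have hK0 : 0 < K := by linarith
  have hh0 : 0 < h := by linarith
  have hn0 : 0 < n := by rw [hn]; positivity
  have hJ0 : 0 < J := by linarith
  -- v = J ^ 3 / ρ
  set v : ℝ := J ^ 3 / ρ with hv
  have hv0 : 0 ≤ v := by positivity
  have hv1 : v ≤ 144 * K / 10 ^ 30 := by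
    rw [hv, div_le_div_iff₀ hρ0 (by positivity)]
    have h1 : K * D * h < 144 * K ^ 2 * h ^ 2 * ρ := by nlinarith
    have h2 : D < 144 * K * h * ρ := by
      have : K * h * D < K * h * (144 * K * h * ρ) := by nlinarith
      exact lt_of_mul_lt_mul_left this (by positivity)
    have h3 : h * (J ^ 3 * 10 ^ 30) ≤ h * (144 * K * ρ) := by nlinarith
    exact le_of_mul_le_mul_left h3 hh0
  -- Y = sqrt (J K ρ), t = J Y / ρ
  set Y : ℝ := Real.sqrt (J * K * ρ) with hY
  have hY0 : 0 ≤ Y := Real.sqrt_nonneg _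
  have hY2 : Y ^ 2 = J * K * ρ := Real.sq_sqrt (by positivity)
  have hX1 : Real.sqrt X ≤ 11000 * Y + 6200000000000 * J ^ 2 := by
    rw [Real.sqrt_le_left (by positivity), hX]
    have h1 : J + 2 ≤ 3 * J := by linarith
    have h2 : (J + 13) ^ 4 ≤ (14 * J) ^ 4 := pow_le_pow_left₀ (by linarith) (by linarith) 4
    have h3 : 40000000 * (J + 2) * K * ρ ≤ 120000000 * Y ^ 2 := by
      rw [hY2]
      have : 0 ≤ K * ρ := by positivity
      nlinarith
    have h4 : 0 ≤ Y * J ^ 2 := by positivity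
    have h5 : 0 ≤ Y ^ 2 := sq_nonneg _
    have h6 : 0 ≤ J ^ 4 := by positivity
    nlinarith
  set t : ℝ := J * Y / ρ with ht
  have ht0 : 0 ≤ t := by positivity
  have ht2 : t ^ 2 = K * v := by
    rw [ht, div_pow, mul_pow, hY2, hv]
    field_simp
  have ht1 : t ≤ 12 * K / 10 ^ 15 := by
    refine le_of_sq_le_sq ?_ (by positivity)
    rw [ht2]
    have : K * v ≤ K * (144 * K / 10 ^ 30) := mul_le_mul_of_nonneg_left hv1 hK0.le
    refine this.trans (le_of_eq ?_)
    ring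
  -- the main inequality
  have h1 : q * s ≤ 12 * J * (1024 * D / ρ) := by
    have hs' : s ≤ 1024 * D / ρ := by rw [le_div_iff₀ hρ0]; exact hs
    exact mul_le_mul hq hs' hs0 (by positivity)
  have h2 : 70000 * q * s * Real.sqrt X ≤
      70000 * (12 * J * (1024 * D / ρ)) * (11000 * Y + 6200000000000 * J ^ 2) := by
    have h3 : 70000 * q * s ≤ 70000 * (12 * J * (1024 * D / ρ)) := by
      rw [mul_assoc]
      exact mul_le_mul_of_nonneg_left h1 (by norm_num)
    exact mul_le_mul h3 hX1 (Real.sqrt_nonneg _) (by positivity)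
  have h3 : 70000 * (12 * J * (1024 * D / ρ)) * (11000 * Y + 6200000000000 * J ^ 2) =
      860160000 * D * (11000 * t + 6200000000000 * v) := by
    rw [ht, hv]
    field_simp
    ring
  have h4 : 11000 * t + 6200000000000 * v ≤ K / 10 ^ 9 := by
    have e1 : 11000 * t ≤ 11000 * (12 * K / 10 ^ 15) := mul_le_mul_of_nonneg_left ht1 (by norm_num)
    have e2 : 6200000000000 * v ≤ 6200000000000 * (144 * K / 10 ^ 30) :=
      mul_le_mul_of_nonneg_left hv1 (by norm_num)
    have e3 : 11000 * (12 * K / 10 ^ 15) + 6200000000000 * (144 * K / 10 ^ 30) ≤ K / 10 ^ 9 := by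
      have : 11000 * (12 * K / 10 ^ 15) + 6200000000000 * (144 * K / 10 ^ 30) =
          K * (132000 / 10 ^ 15 + 892800000000000 / 10 ^ 30) := by ring
      rw [this, div_eq_mul_inv K]
      exact mul_le_mul_of_nonneg_left (by norm_num) hK0.le
    linarith
  have h5 : 860160000 * D * (11000 * t + 6200000000000 * v) ≤ n := by
    have : 860160000 * D * (11000 * t + 6200000000000 * v) ≤ 860160000 * D * (K / 10 ^ 9) :=
      mul_le_mul_of_nonneg_left h4 (by positivity)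
    refine this.trans ?_
    rw [hn]
    have : 860160000 * D * (K / 10 ^ 9) = K * D * (860160000 / 10 ^ 9) := by ring
    rw [this]
    have h6 : 0 < K * D := by positivity
    nlinarith
  have h6 : N / (8 * h) ≤ 501 * n := by linarith
  rw [div_le_iff₀ (by positivity)] at h6
  nlinarith [mul_pos hn0 hh0]

lemma star_diam {A : Finset ℂ} {D : ℝ} (hD : ∀ p ∈ A, ∀ q ∈ A, dist p q ≤ D)
    {E : Finset (ℂ × ℂ)} (hE : E ⊆ (A ×ˢ A).image (appMap 0)) :
    ∀ x ∈ E, ∀ y ∈ E, ‖x.1 - y.1‖ ≤ 2 * D := by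
  intro x hx y hy
  obtain ⟨⟨p, q⟩, hp, rfl⟩ := mem_image.1 (hE hx)
  obtain ⟨⟨p', q'⟩, hp', rfl⟩ := mem_image.1 (hE hy)
  rw [mem_product] at hp hp'
  have h1 := hD p hp.1 p' hp'.1
  have h2 := hD q hp.2 q' hp'.2
  rw [dist_eq_norm] at h1 h2
  have h3 : (appMap 0 (p, q)).1 - (appMap 0 (p', q')).1 = (p - p') + (q - q') := by
    simp only [appMap]
    ring
  rw [h3]
  exact (norm_add_le _ _).trans (by linarith)

theorem star_key (A : Finset ℂ) (D K h : ℝ) (J : ℕ) (hA : AppSep A)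
    (hD : ∀ p ∈ A, ∀ q ∈ A, dist p q ≤ D) (hJ : 1 ≤ J) (hDJ : D ≤ 2 ^ J) (hK : 1 ≤ K)
    (hcard : (A.card : ℝ) = K * D) (hb : BallB A K) (hh : 1 ≤ h) (hKh : 1000 * K * h ≤ D)
    (hCJ : 10 ^ 30 * (J : ℝ) ^ 3 * h ≤ D) : ((WP A h).card : ℝ) ≤ 8000 * A.card * h := by
  classical
  by_contra hcon
  push Not at hcon
  set N : ℝ := ((WP A h).card : ℝ) with hN
  have hK0 : 0 < K := by linarith
  have hh0 : 0 < h := by linarith
  have hKh1 : 1 ≤ K * h := by nlinarith
  have hD0 : 0 < D := by nlinarith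
  have hn0 : 0 < (A.card : ℝ) := by rw [hcard]; positivity
  have hKh2 : 0 < K ^ 2 * h ^ 2 := by positivity
  have hNbig : 8000000 * (K ^ 2 * h ^ 2) ≤ N := by
    have h1 : 8000 * (A.card : ℝ) * h = 8000 * (K * h) * D := by rw [hcard]; ring
    rw [h1] at hcon
    have h2 : 8000 * (K * h) * (1000 * K * h) ≤ 8000 * (K * h) * D :=
      mul_le_mul_of_nonneg_left hKh (by positivity)
    nlinarith
  have hN0 : 0 < N := by nlinarith
  -- the number ρ
  set x : ℝ := N / (72 * K ^ 2 * h ^ 2) with hx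
  have hx9 : 9 ≤ x := by
    rw [hx, le_div_iff₀ (by positivity)]
    nlinarith
  set ρ : ℕ := ⌊x⌋₊ with hρ
  have hρ9 : 9 ≤ ρ := Nat.le_floor (by exact_mod_cast hx9)
  have hρ9' : (9 : ℝ) ≤ ρ := by exact_mod_cast hρ9
  have hρ0 : (0 : ℝ) < ρ := by linarith
  have hρx : (ρ : ℝ) ≤ x := Nat.floor_le (by linarith)
  have hxρ : x < ρ + 1 := Nat.lt_floor_add_one x
  have hρN : 72 * K ^ 2 * ρ * h ^ 2 ≤ N := by
    have h1 : (ρ : ℝ) * (72 * K ^ 2 * h ^ 2) ≤ N := by
      rwa [hx, le_div_iff₀ (by positivity)] at hρx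
    linarith
  have hρN2 : N < 144 * K ^ 2 * h ^ 2 * ρ := by
    have h1 : N < (ρ + 1) * (72 * K ^ 2 * h ^ 2) := by
      rwa [hx, div_lt_iff₀ (by positivity)] at hxρ
    nlinarith
  -- the set E
  set E : Finset (ℂ × ℂ) := (WP A h).image (appMap 0) with hE
  have hEsub : E ⊆ (A ×ˢ A).image (appMap 0) := image_subset_image (filter_subset _ _)
  have hEcard : (E.card : ℝ) = N := by
    rw [hE, card_image_of_injective _ (app_inj 0)]
  have hCr : Cr E := (app_cr hA 0).mono hEsub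
  have hdiam := star_diam hD hEsub
  have h1 := far_cp hA hK0.le hb hh hρ9 hρN
  -- the exponent
  have hDρ : 1 ≤ 512 * D / ρ := by
    rw [le_div_iff₀ hρ0, one_mul]
    -- ρ ≤ D
    have h2 : (ρ : ℝ) ≤ x := hρx
    have h3 : N ≤ 6 * K * h * A.card := by
      have h4 : (WP A h).card ≤ ∑ p ∈ A, (A.filter fun q => ‖p - q‖ ≤ 3 / 2 * h).card := by
        unfold WP
        have h5 : ((A ×ˢ A).filter fun x => win h x.1 = win h x.2).card ≤
            ((A ×ˢ A).filter fun x => ‖x.1 - x.2‖ ≤ 3 / 2 * h).card := by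
          refine card_le_card fun p hp => ?_
          rw [mem_filter] at hp ⊢
          refine ⟨hp.1, ?_⟩
          have h6 := hp.2
          unfold win at h6
          rw [Prod.mk.injEq] at h6
          have h7 := Int.abs_sub_lt_one_of_floor_eq_floor h6.1
          have h8 := Int.abs_sub_lt_one_of_floor_eq_floor h6.2
          rw [← sub_div, abs_div, abs_of_pos hh0, div_lt_one hh0] at h7 h8
          rw [← Complex.sub_re] at h7
          rw [← Complex.sub_im] at h8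
          have h9 : ‖p.1 - p.2‖ ^ 2 ≤ (3 / 2 * h) ^ 2 := by
            rw [Complex.sq_norm, Complex.normSq_apply, ← sq, ← sq, ← sq_abs (p.1 - p.2).re,
              ← sq_abs (p.1 - p.2).im]
            have e1 := pow_le_pow_left₀ (abs_nonneg _) h7.le 2
            have e2 := pow_le_pow_left₀ (abs_nonneg _) h8.le 2
            nlinarith
          exact le_of_sq_le_sq h9 (by positivity)
        refine h5.trans (le_of_eq ?_)
        rw [card_filter, sum_product]
        exact sum_congr rfl fun p _ => (card_filter _ _).symm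
      have h5 : (((WP A h).card : ℕ) : ℝ) ≤
          ∑ p ∈ A, ((A.filter fun q => ‖p - q‖ ≤ 3 / 2 * h).card : ℝ) := by exact_mod_cast h4
      refine h5.trans ?_
      have h6 : ∀ p ∈ A, ((A.filter fun q => ‖p - q‖ ≤ 3 / 2 * h).card : ℝ) ≤ 6 * K * h := by
        intro p _
        refine (hb p (3 / 2 * h) (by linarith)).trans (le_of_eq (by ring))
      refine (sum_le_sum h6).trans (le_of_eq ?_)
      rw [sum_const, nsmul_eq_mul]
      ring
    have h4 : x ≤ D := by
      rw [hx, div_le_iff₀ (by positivity)]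
      rw [hcard] at h3
      have : 6 * K * h * (K * D) ≤ D * (72 * K ^ 2 * h ^ 2) := by
        have h5 : 0 < K ^ 2 * D * h := by positivity
        nlinarith
      linarith
    linarith
  obtain ⟨n0, hn1, hn2⟩ := exists_nat_pow_near hDρ (by norm_num : (1 : ℝ) < 2)
  set n' : ℕ := n0 + 1 with hn'
  have hpow : (2 : ℝ) ^ n' ≤ 1024 * D / ρ := by
    rw [hn', pow_succ]
    have : 1024 * D / (ρ : ℝ) = 512 * D / ρ * 2 := by ring
    rw [this]
    exact mul_le_mul_of_nonneg_right hn1 (by norm_num)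
  have hnJ : n' ≤ J + 10 := by
    have h2 : (2 : ℝ) ^ n' ≤ 2 ^ (J + 10) := by
      refine hpow.trans ?_
      rw [div_le_iff₀ hρ0, pow_add]
      have h3 : (0 : ℝ) < 2 ^ J := by positivity
      nlinarith
    exact (pow_le_pow_iff_right₀ (by norm_num)).1 h2
  have hτ0 : (0 : ℝ) < 2 / ρ := by positivity
  have hτ1 : (2 : ℝ) / ρ ≤ 1 / 2 := by
    rw [div_le_div_iff₀ hρ0 (by norm_num)]
    linarith
  have hobj := obj_top hEsub
  have h2 := lemG hCr (n := n') (m := J + 12) (by omega) hdiam hτ0 hτ1 (by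
    have : 128 * (2 * D) * (2 / (ρ : ℝ)) = 512 * D / ρ := by ring
    rw [this]
    exact hn2.le) hobj.1 hobj.2
  -- the average
  have hw2 : (2 : ℝ) ≤ (ρ : ℝ) / 2 := by linarith
  have hwe : (1 : ℝ) / ((ρ : ℝ) / 2) = 2 / ρ := by
    field_simp
  have h3 := pbar_le hCr hw2 (I := J + 1) (m := J + 12) (by
    intro y hy z hz
    refine (hdiam y hy z hz).trans ?_
    rw [pow_succ]
    have h3 : (0 : ℝ) < 2 ^ J := by positivity
    nlinarith) (by omega) (B := 400 * K) (by positivity) (by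
    intro y hy
    refine le_trans ?_ (obj_loc hA hK0.le hb hw2 y (hEsub hy))
    rw [Nat.cast_le]
    exact card_le_card (filter_subset_filter _ hEsub)) (by
    intro F hF r hr hbox
    exact obj_box hK0.le hb (hF.trans hEsub) hr hbox)
  rw [hwe, hEcard] at h3
  rw [hEcard] at h2
  set X : ℝ := 40000000 * ((J : ℝ) + 2) * K * ρ + 10 ^ 21 * ((J : ℝ) + 13) ^ 4 with hX
  have hXe : (200000 * (((J + 1 : ℕ) : ℝ) + 1) * (400 * K) * ((ρ : ℝ) / 2) +
      10 ^ 21 * (((J + 1 : ℕ) : ℝ) + 12) ^ 4) * N = X * N := by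
    rw [hX]
    push_cast
    ring
  rw [hXe] at h3
  have hX0 : 0 ≤ X := by positivity
  have hsq : Real.sqrt (N * Pbar E (2 / ρ) (J + 12)) ≤ N * Real.sqrt X := by
    have h4 : N * Pbar E (2 / ρ) (J + 12) ≤ N ^ 2 * X := by nlinarith
    refine (Real.sqrt_le_sqrt h4).trans (le_of_eq ?_)
    rw [Real.sqrt_mul (sq_nonneg N), Real.sqrt_sq hN0.le]
  have hs0 : (0 : ℝ) ≤ 2 ^ n' := by positivity
  have h4 : N ^ 2 / (8 * h) ≤ 500 * A.card * N +
      70000 * ((n' : ℝ) + 1) * 2 ^ n' * (N * Real.sqrt X) := by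
    refine h1.trans (h2.trans ?_)
    exact add_le_add_right (mul_le_mul_of_nonneg_left hsq (by positivity)) _
  have hmain : N / (8 * h) ≤ 500 * A.card +
      70000 * ((n' : ℝ) + 1) * 2 ^ n' * Real.sqrt X := by
    have h5 : N * (N / (8 * h)) ≤ N * (500 * A.card +
        70000 * ((n' : ℝ) + 1) * 2 ^ n' * Real.sqrt X) := by
      have e1 : N * (N / (8 * h)) = N ^ 2 / (8 * h) := by ring
      rw [e1]
      refine h4.trans (le_of_eq (by ring))
    exact le_of_mul_le_mul_left h5 hN0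
  have hJ1 : (1 : ℝ) ≤ J := by exact_mod_cast hJ
  refine star_num (n := A.card) (D := D) (K := K) (h := h) (N := N) (ρ := ρ) (J := J)
    (q := (n' : ℝ) + 1) (s := 2 ^ n') (X := X) hK hh hD0 hcard hcon hρ9' hρN2 hJ1 hCJ ?_ hs0 ?_
    hX hmain
  · have : ((n' : ℕ) : ℝ) ≤ ((J + 10 : ℕ) : ℝ) := by exact_mod_cast hnJ
    push_cast at this
    linarith
  · rwa [le_div_iff₀ hρ0] at hpow

theorem star : ∃ C : ℝ, 1 ≤ C ∧ ∀ (A : Finset ℂ) (D K h : ℝ) (J : ℕ), AppSep A →
    (∀ p ∈ A, ∀ q ∈ A, dist p q ≤ D) → 1 ≤ J → D ≤ 2 ^ J → 1 ≤ K → (A.card : ℝ) = K * D →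
    BallB A K → 1 ≤ h → 1000 * K * h ≤ D → C * J ^ 3 * h ≤ D →
    (((A ×ˢ A).filter fun x => ‖x.1 - x.2‖ ≤ h).card : ℝ) ≤ C * A.card * h := by
  refine ⟨10 ^ 30, by norm_num, ?_⟩
  intro A D K h J hA hD hJ hDJ hK hcard hb hh hKh hCJ
  have h1 := star_key A D K h J hA hD hJ hDJ hK hcard hb hh hKh hCJ
  have h2 := near_le A (lt_of_lt_of_le one_pos hh)
  have h3 : (((A ×ˢ A).filter fun x => ‖x.1 - x.2‖ ≤ h).card : ℝ) ≤ 9 * ((WP A h).card : ℝ) := by
    exact_mod_cast h2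
  have h4 : (0 : ℝ) ≤ (A.card : ℝ) * h := by positivity
  nlinarith

end SD12
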