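import Pool.Agent.SD12.WinDefs

/-!
# The energy of a regular set

The pairs at distance about `2 ^ i` are counted by the star inequality when `2 ^ i` is small
compared to the diameter, and trivially otherwise.
-/

open Finset ComplexConjugate

namespace SD12

/-- The number of pairs at distance at most `h`. -/
noncomputable def sumN (A : Finset ℂ) (h : ℝ) : ℝ :=
  (((A ×ˢ A).filter fun x => ‖x.1 - x.2‖ ≤ h).card : ℝ)

lemma sum_scale {J : ℕ} (hJ : 1 ≤ J) {d : ℝ} (h1 : 1 ≤ d) (hd : d ≤ 2 ^ J) :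
    ∃ i < J, (2 : ℝ) ^ i ≤ d ∧ d ≤ 2 ^ (i + 1) := by
  by_cases h2 : d ≤ 2
  · exact ⟨0, hJ, by simpa using h1, by simpa using h2⟩
  · push Not at h2
    have hex : ∃ i : ℕ, d ≤ (2 : ℝ) ^ (i + 1) := ⟨J, hd.trans (pow_le_pow_right₀ (by norm_num)
      (by omega))⟩
    classical
    set i := Nat.find hex with hi
    have hi1 : d ≤ (2 : ℝ) ^ (i + 1) := Nat.find_spec hex
    have hi0 : i ≠ 0 := by
      intro h0
      rw [h0] at hi1
      norm_num at hi1
      linarith
    have hlt : ¬ d ≤ (2 : ℝ) ^ ((i - 1) + 1) := Nat.find_min hex (by omega)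
    have e : i - 1 + 1 = i := by omega
    rw [e, not_le] at hlt
    refine ⟨i, ?_, hlt.le, hi1⟩
    by_contra hc
    push Not at hc
    have : (2 : ℝ) ^ J ≤ 2 ^ i := pow_le_pow_right₀ (by norm_num) hc
    linarith

open Classical in
/-- The energy is a sum over the scales `2 ^ i ≤ D`. -/
lemma sum_decomp {A : Finset ℂ} {D : ℝ} {J : ℕ} (hA : AppSep A)
    (hD : ∀ p ∈ A, ∀ q ∈ A, dist p q ≤ D) (hJ : 1 ≤ J) (hDJ : D ≤ 2 ^ J) :
    ∑ p ∈ A, ∑ q ∈ A, (dist p q)⁻¹ ≤
      ∑ i ∈ (range J).filter (fun i => (2 : ℝ) ^ i ≤ D), sumN A (2 ^ (i + 1)) / 2 ^ i := by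
  have h1 : ∑ p ∈ A, ∑ q ∈ A, (dist p q)⁻¹ ≤ ∑ x ∈ A ×ˢ A,
      ∑ i ∈ (range J).filter (fun i => (2 : ℝ) ^ i ≤ D),
        if ‖x.1 - x.2‖ ≤ 2 ^ (i + 1) then (1 : ℝ) / 2 ^ i else 0 := by
    rw [Finset.sum_product]
    refine Finset.sum_le_sum fun p hp => Finset.sum_le_sum fun q hq => ?_
    by_cases hpq : p = q
    · rw [hpq, dist_self, inv_zero]
      refine Finset.sum_nonneg fun i _ => ?_
      split_ifs <;> positivity
    · have hd1 := app_one hA hp hq hpq
      have hd2 := hD p hp q hq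
      rw [dist_eq_norm] at hd2
      obtain ⟨i, hi, h3, h4⟩ := sum_scale hJ hd1 (hd2.trans hDJ)
      have hmem : i ∈ (range J).filter (fun i => (2 : ℝ) ^ i ≤ D) :=
        Finset.mem_filter.2 ⟨Finset.mem_range.2 hi, h3.trans hd2⟩
      have hs := Finset.single_le_sum
        (f := fun i => if ‖p - q‖ ≤ 2 ^ (i + 1) then (1 : ℝ) / 2 ^ i else 0)
        (fun i _ => by split_ifs <;> positivity) hmem
      refine le_trans ?_ hs
      simp only [if_pos h4]
      rw [dist_eq_norm, one_div]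
      exact inv_anti₀ (by positivity) h3
  refine h1.trans (le_of_eq ?_)
  rw [Finset.sum_comm]
  refine Finset.sum_congr rfl fun i _ => ?_
  rw [← Finset.sum_filter, Finset.sum_const, nsmul_eq_mul]
  unfold sumN
  ring

lemma sum_ball {A : Finset ℂ} {K : ℝ} (hb : BallB A K) {h : ℝ} (hh : 1 ≤ h) :
    sumN A h ≤ A.card * (4 * K * h) := by
  classical
  unfold sumN
  have h1 : (((A ×ˢ A).filter fun x => ‖x.1 - x.2‖ ≤ h).card : ℝ) =
      ∑ p ∈ A, ((A.filter fun q => ‖p - q‖ ≤ h).card : ℝ) := by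
    rw [Finset.card_filter]
    push_cast
    rw [Finset.sum_product]
    refine Finset.sum_congr rfl fun p _ => ?_
    rw [Finset.card_filter]
    push_cast
    rfl
  rw [h1, ← nsmul_eq_mul, ← Finset.sum_const]
  exact Finset.sum_le_sum fun p _ => hb p h hh

/-- The trivial bound. -/
theorem energy_triv {A : Finset ℂ} {D K : ℝ} {J : ℕ} (hA : AppSep A) (h2 : 2 ≤ A.card)
    (hD : ∀ p ∈ A, ∀ q ∈ A, dist p q ≤ D) (hJ : 1 ≤ J) (hDJ : D ≤ 2 ^ J) (hK : 0 ≤ K)
    (hb : BallB A K) : (∑ p ∈ A, ∑ q ∈ A, (dist p q)⁻¹) / A.card ≤ 16 * K * J := by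
  classical
  have hn : (0 : ℝ) < A.card := by
    have : 0 < A.card := by omega
    exact_mod_cast this
  rw [div_le_iff₀ hn]
  refine (sum_decomp hA hD hJ hDJ).trans ?_
  have h1 : ∀ i ∈ (range J).filter (fun i => (2 : ℝ) ^ i ≤ D), sumN A (2 ^ (i + 1)) / 2 ^ i ≤
      8 * K * A.card := by
    intro i _
    have hp : (0 : ℝ) < 2 ^ i := by positivity
    rw [div_le_iff₀ hp]
    refine (sum_ball hb (one_le_pow₀ (by norm_num))).trans (le_of_eq ?_)
    rw [pow_succ]
    ring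
  refine (Finset.sum_le_sum h1).trans ?_
  rw [Finset.sum_const, nsmul_eq_mul]
  have h3 : (((range J).filter (fun i => (2 : ℝ) ^ i ≤ D)).card : ℝ) ≤ J := by
    have := Finset.card_filter_le (range J) (fun i => (2 : ℝ) ^ i ≤ D)
    rw [Finset.card_range] at this
    exact_mod_cast this
  have h4 : 0 ≤ K * A.card * J := by positivity
  calc _ ≤ (J : ℝ) * (8 * K * A.card) := mul_le_mul_of_nonneg_right h3 (by positivity)
    _ ≤ _ := by nlinarith

open Classical in
/-- The number of the scales between `D / (2 L)` and `D`. -/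
lemma sum_bad {D L : ℝ} (hL : 1 ≤ L) (J : ℕ) :
    (((range J).filter fun i => (2 : ℝ) ^ i ≤ D ∧ D < L * 2 ^ (i + 1)).card : ℝ) ≤
      2 * Real.log (2 * L) + 1 := by
  have hl0 : 0 < Real.log (2 * L) := Real.log_pos (by linarith)
  have hl2 : 0 < Real.log 2 := Real.log_pos (by norm_num)
  set S := (range J).filter fun i => (2 : ℝ) ^ i ≤ D ∧ D < L * 2 ^ (i + 1) with hS
  rcases Finset.eq_empty_or_nonempty S with h0 | h0
  · rw [h0, Finset.card_empty, Nat.cast_zero]
    positivity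
  set m := ⌈Real.log (2 * L) / Real.log 2⌉₊ with hm
  have hm1 : Real.log (2 * L) ≤ m * Real.log 2 := by
    rw [← div_le_iff₀ hl2]
    exact Nat.le_ceil _
  have hm2 : 2 * L ≤ 2 ^ m := by
    calc 2 * L = Real.exp (Real.log (2 * L)) := (Real.exp_log (by linarith)).symm
      _ ≤ Real.exp (m * Real.log 2) := Real.exp_le_exp.2 hm1
      _ = 2 ^ m := by rw [Real.exp_nat_mul, Real.exp_log (by norm_num)]
  have hm3 : (m : ℝ) ≤ 2 * Real.log (2 * L) + 1 := by
    have h1 := Nat.ceil_lt_add_one (div_nonneg hl0.le hl2.le)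
    have h2 : Real.log (2 * L) / Real.log 2 ≤ 2 * Real.log (2 * L) := by
      rw [div_le_iff₀ hl2]
      have := Real.log_two_gt_d9
      nlinarith
    linarith
  have hsub : S ⊆ Finset.Ico (S.min' h0) (S.min' h0 + m) := by
    intro i hi
    rw [Finset.mem_Ico]
    refine ⟨Finset.min'_le _ _ hi, ?_⟩
    have h1 := Finset.min'_mem S h0
    obtain ⟨_, _, h2⟩ := Finset.mem_filter.1 h1
    obtain ⟨_, h3, _⟩ := Finset.mem_filter.1 hi
    have h4 : (2 : ℝ) ^ i < 2 ^ (S.min' h0 + m) := by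
      calc (2 : ℝ) ^ i ≤ D := h3
        _ < L * 2 ^ (S.min' h0 + 1) := h2
        _ = (2 * L) * 2 ^ (S.min' h0) := by rw [pow_succ]; ring
        _ ≤ 2 ^ m * 2 ^ (S.min' h0) := by gcongr
        _ = 2 ^ (S.min' h0 + m) := by rw [pow_add]; ring
    exact (pow_lt_pow_iff_right₀ (by norm_num)).1 h4
  have hcard := Finset.card_le_card hsub
  rw [Nat.card_Ico] at hcard
  have : (S.card : ℝ) ≤ m := by
    have : S.card ≤ m := by omega
    exact_mod_cast this
  exact this.trans hm3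

/-- The energy of a regular set, from the star inequality. -/
theorem energy_sum_of (hs : ∃ C : ℝ, 1 ≤ C ∧ ∀ (A : Finset ℂ) (D K h : ℝ) (J : ℕ), AppSep A →
    (∀ p ∈ A, ∀ q ∈ A, dist p q ≤ D) → 1 ≤ J → D ≤ 2 ^ J → 1 ≤ K → (A.card : ℝ) = K * D →
    BallB A K → 1 ≤ h → 1000 * K * h ≤ D → C * J ^ 3 * h ≤ D →
    (((A ×ˢ A).filter fun x => ‖x.1 - x.2‖ ≤ h).card : ℝ) ≤ C * A.card * h)
    {M : ℝ} (hM : 1 ≤ M) : ∃ C : ℝ, 1 ≤ C ∧
    ∀ (A : Finset ℂ) (D K : ℝ) (J : ℕ), AppSep A →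
    2 ≤ A.card → (∀ p ∈ A, ∀ q ∈ A, dist p q ≤ D) → 1 ≤ J → D ≤ 2 ^ J → 1 ≤ K →
    (A.card : ℝ) = K * D → BallB A K → K ≤ M * J ^ 3 →
    (∑ p ∈ A, ∑ q ∈ A, (dist p q)⁻¹) / A.card ≤ C * (J + K * (1 + Real.log J)) := by
  classical
  obtain ⟨Cs, hCs, hstar⟩ := hs
  set c1 : ℝ := 2 * Real.log (2 * (Cs + 1000 * M)) + 7 with hc1
  have hlog : 0 < Real.log (2 * (Cs + 1000 * M)) := Real.log_pos (by linarith)
  have hc10 : 0 < c1 := by positivity
  refine ⟨2 * Cs + 8 * c1, by linarith, ?_⟩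
  intro A D K J hA h2 hD hJ hDJ hK hKD hb hKM
  have hn : (0 : ℝ) < A.card := by
    have : 0 < A.card := by omega
    exact_mod_cast this
  have hJ1 : (1 : ℝ) ≤ J := by exact_mod_cast hJ
  have hJ3 : (1 : ℝ) ≤ (J : ℝ) ^ 3 := one_le_pow₀ hJ1
  have hlJ : 0 ≤ Real.log J := Real.log_nonneg hJ1
  set L : ℝ := Cs * J ^ 3 + 1000 * K with hL
  have hL1 : 1 ≤ L := by nlinarith
  rw [div_le_iff₀ hn]
  refine (sum_decomp hA hD hJ hDJ).trans ?_
  -- every scale
  have h1 : ∀ i ∈ (range J).filter (fun i => (2 : ℝ) ^ i ≤ D), sumN A (2 ^ (i + 1)) / 2 ^ i ≤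
      2 * Cs * A.card + if D < L * 2 ^ (i + 1) then 8 * K * A.card else 0 := by
    intro i _
    have hp : (0 : ℝ) < 2 ^ i := by positivity
    split_ifs with hc
    · have h3 : sumN A (2 ^ (i + 1)) / 2 ^ i ≤ 8 * K * A.card := by
        rw [div_le_iff₀ hp]
        refine (sum_ball hb (one_le_pow₀ (by norm_num))).trans (le_of_eq ?_)
        rw [pow_succ]
        ring
      have : 0 ≤ 2 * Cs * A.card := by positivity
      linarith
    · rw [not_lt] at hc
      rw [add_zero, div_le_iff₀ hp]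
      have hq : (0 : ℝ) < 2 ^ (i + 1) := by positivity
      have h3 : 1000 * K * 2 ^ (i + 1) ≤ D := by
        refine le_trans ?_ hc
        refine mul_le_mul_of_nonneg_right ?_ hq.le
        have : 0 ≤ Cs * (J : ℝ) ^ 3 := by positivity
        linarith
      have h4 : Cs * J ^ 3 * 2 ^ (i + 1) ≤ D := by
        refine le_trans ?_ hc
        refine mul_le_mul_of_nonneg_right ?_ hq.le
        linarith
      have h5 := hstar A D K (2 ^ (i + 1)) J hA hD hJ hDJ hK hKD hb
        (one_le_pow₀ (by norm_num)) h3 h4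
      refine le_trans h5 (le_of_eq ?_)
      rw [pow_succ]
      ring
  refine (Finset.sum_le_sum h1).trans ?_
  rw [Finset.sum_add_distrib, Finset.sum_const, nsmul_eq_mul, ← Finset.sum_filter,
    Finset.filter_filter, Finset.sum_const, nsmul_eq_mul]
  have h3 : (((range J).filter (fun i => (2 : ℝ) ^ i ≤ D)).card : ℝ) ≤ J := by
    have := Finset.card_filter_le (range J) (fun i => (2 : ℝ) ^ i ≤ D)
    rw [Finset.card_range] at this
    exact_mod_cast this
  have h4 := sum_bad (D := D) hL1 J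
  have h5 : 2 * Real.log (2 * L) + 1 ≤ c1 * (1 + Real.log J) := by
    have h6 : 2 * L ≤ (2 * (Cs + 1000 * M)) * (J : ℝ) ^ 3 := by
      rw [hL]
      nlinarith
    have h7 : Real.log (2 * L) ≤ Real.log (2 * (Cs + 1000 * M)) + 3 * Real.log J := by
      refine (Real.log_le_log (by linarith) h6).trans (le_of_eq ?_)
      rw [Real.log_mul (by positivity) (by positivity), Real.log_pow]
      norm_num
    rw [hc1]
    nlinarith
  have h6 : 0 ≤ 8 * K * A.card := by positivity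
  calc _ ≤ (J : ℝ) * (2 * Cs * A.card) + c1 * (1 + Real.log J) * (8 * K * A.card) := by
        refine add_le_add (mul_le_mul_of_nonneg_right h3 (by positivity))
          (mul_le_mul_of_nonneg_right (h4.trans h5) h6)
    _ ≤ _ := by
        have a1 : 0 ≤ (J : ℝ) * A.card * c1 := by positivity
        have a2 : 0 ≤ Cs * (K * (1 + Real.log J)) * A.card := by positivity
        nlinarith

end SD12
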