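import Pool.Agent.SD12.FinalA
import Pool.Agent.SD12.SumA
import Pool.Agent.SD12.Star

/-!
# The diameter of a distance-separated set
-/

open Finset ComplexConjugate

namespace SD12

theorem regular_bound {Ce : ℝ} (hCe : 1 ≤ Ce) (he : ∀ (A : Finset ℂ) (D : ℝ), AppSep A →
    2 ≤ A.card → (∀ p ∈ A, ∀ q ∈ A, dist p q ≤ D) →
    ((A.card : ℝ) / D) ^ 2 ≤ Ce * ((∑ p ∈ A, ∑ q ∈ A, (dist p q)⁻¹) / A.card)) :
    ∃ C : ℝ, 1 ≤ C ∧ ∀ (A : Finset ℂ) (D K : ℝ) (J : ℕ), AppSep A → 2 ≤ A.card →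
    (∀ p ∈ A, ∀ q ∈ A, dist p q ≤ D) → 1 ≤ J → D ≤ 2 ^ J → 1 ≤ K → (A.card : ℝ) = K * D →
    BallB A K → K ≤ C * Real.sqrt J :=
  regular_bound_of (fun _ hM => energy_sum_of star hM)
    (fun _ _ _ _ hA h2 hD hJ hDJ hK hb => energy_triv hA h2 hD hJ hDJ hK hb) hCe he

/-- The result (minimal counterexample). -/
theorem diam_bound {Ce : ℝ} (hCe : 1 ≤ Ce) (he : ∀ (A : Finset ℂ) (D : ℝ), AppSep A →
    2 ≤ A.card → (∀ p ∈ A, ∀ q ∈ A, dist p q ≤ D) →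
    ((A.card : ℝ) / D) ^ 2 ≤ Ce * ((∑ p ∈ A, ∑ q ∈ A, (dist p q)⁻¹) / A.card)) :
    ∃ C : ℝ, 1 ≤ C ∧ ∀ (A : Finset ℂ) (D : ℝ), AppSep A → 2 ≤ A.card →
    (∀ p ∈ A, ∀ q ∈ A, dist p q ≤ D) → (A.card : ℝ) ≤ C * D * Real.sqrt (1 + Real.log D) :=
  diam_bound_all (fun _ hM => energy_sum_of star hM)
    (fun _ _ _ _ hA h2 hD hJ hDJ hK hb => energy_triv hA h2 hD hJ hDJ hK hb) hCe he

end SD12
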