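import Pool.Agent.SD12.Main2
import Pool.Agent.SD12.AppPre2
import Pool.Agent.SD12.Final

/-!
# The diameter of a distance-separated set: the final statements
-/

open Finset

namespace SD12

/-- The energy theorem: the square of the mean density is at most a constant times the mean
energy. -/
theorem energy2 : ∃ C : ℝ, 1 ≤ C ∧ ∀ (A : Finset ℂ) (D : ℝ), AppSep A → 2 ≤ A.card →
    (∀ p ∈ A, ∀ q ∈ A, dist p q ≤ D) →
    ((A.card : ℝ) / D) ^ 2 ≤ C * ((∑ p ∈ A, ∑ q ∈ A, (dist p q)⁻¹) / A.card) := by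
  obtain ⟨C, hC, h⟩ := main2
  exact ⟨4000 * C, by linarith, fun A D hA h2 hD => app_core2 hC h A D hA h2 hD⟩

/-- The diameter of a distance-separated set of `n` points is at least a constant times
`n / √(log n)`. -/
theorem diam_log : ∃ C : ℝ, 1 ≤ C ∧ ∀ (A : Finset ℂ) (D : ℝ), AppSep A → 2 ≤ A.card →
    (∀ p ∈ A, ∀ q ∈ A, dist p q ≤ D) →
    (A.card : ℝ) ≤ C * D * Real.sqrt (1 + Real.log D) := by
  obtain ⟨C, hC, h⟩ := energy2
  exact diam_bound hC h

end SD12
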