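import Pool.Agent.SD12.WinDefs

/-!
# The final assembly: from the energy bounds to the diameter
-/

open Finset ComplexConjugate

namespace SD12

/-- The statement of `energy_sum`. -/
def EnergySum : Prop := ∀ M : ℝ, 1 ≤ M → ∃ C : ℝ, 1 ≤ C ∧
    ∀ (A : Finset ℂ) (D K : ℝ) (J : ℕ), AppSep A →
    2 ≤ A.card → (∀ p ∈ A, ∀ q ∈ A, dist p q ≤ D) → 1 ≤ J → D ≤ 2 ^ J → 1 ≤ K →
    (A.card : ℝ) = K * D → BallB A K → K ≤ M * J ^ 3 →
    (∑ p ∈ A, ∑ q ∈ A, (dist p q)⁻¹) / A.card ≤ C * (J + K * (1 + Real.log J))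

/-- The statement of `energy_triv`. -/
def EnergyTriv : Prop := ∀ (A : Finset ℂ) (D K : ℝ) (J : ℕ), AppSep A → 2 ≤ A.card →
    (∀ p ∈ A, ∀ q ∈ A, dist p q ≤ D) → 1 ≤ J → D ≤ 2 ^ J → 0 ≤ K →
    BallB A K → (∑ p ∈ A, ∑ q ∈ A, (dist p q)⁻¹) / A.card ≤ 16 * K * J

lemma final_log {J : ℕ} (hJ : 1 ≤ J) : 1 + Real.log J ≤ 2 * Real.sqrt J := by
  have hJ' : (1 : ℝ) ≤ J := by exact_mod_cast hJ
  have h0 : 0 < Real.sqrt J := Real.sqrt_pos.2 (by linarith)
  have h1 : Real.log J = 2 * Real.log (Real.sqrt J) := by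
    rw [Real.log_sqrt (by linarith)]
    ring
  have h2 := Real.log_le_sub_one_of_pos h0
  rw [h1]
  linarith

lemma final_quad {G K y : ℝ} (hG : 1 ≤ G) (hK : 0 < K) (hy : 0 < y)
    (h : K ^ 2 ≤ G * (y ^ 2 + K * (2 * y))) : K ≤ 3 * G * y := by
  by_contra hc
  push Not at hc
  have hG0 : 0 < G := by linarith
  have h1 : 3 * G * y * K < K ^ 2 := by nlinarith
  have h2 : G * y ^ 2 < G * y * K := by
    have h3 : y < K := by nlinarith
    have h4 : 0 < G * y := by positivity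
    nlinarith
  nlinarith

theorem regular_bound_of (hes : EnergySum) (het : EnergyTriv) {Ce : ℝ} (hCe : 1 ≤ Ce)
    (he : ∀ (A : Finset ℂ) (D : ℝ), AppSep A →
    2 ≤ A.card → (∀ p ∈ A, ∀ q ∈ A, dist p q ≤ D) →
    ((A.card : ℝ) / D) ^ 2 ≤ Ce * ((∑ p ∈ A, ∑ q ∈ A, (dist p q)⁻¹) / A.card)) :
    ∃ C : ℝ, 1 ≤ C ∧ ∀ (A : Finset ℂ) (D K : ℝ) (J : ℕ), AppSep A → 2 ≤ A.card →
    (∀ p ∈ A, ∀ q ∈ A, dist p q ≤ D) → 1 ≤ J → D ≤ 2 ^ J → 1 ≤ K → (A.card : ℝ) = K * D →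
    BallB A K → K ≤ C * Real.sqrt J := by
  obtain ⟨Cs, hCs, hs⟩ := hes (16 * Ce) (by linarith)
  have hG : 1 ≤ Ce * Cs := one_le_mul_of_one_le_of_one_le hCe hCs
  refine ⟨3 * (Ce * Cs), by linarith, ?_⟩
  intro A D K J hA h2 hD hJ hDJ hK hKD hB
  have hK0 : 0 < K := by linarith
  have hJ' : (1 : ℝ) ≤ J := by exact_mod_cast hJ
  have hn : (2 : ℝ) ≤ A.card := by exact_mod_cast h2
  have hD0 : 0 < D := by
    by_contra hc
    push Not at hc
    nlinarith
  have hKe : (A.card : ℝ) / D = K := by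
    rw [hKD]
    field_simp
  have h3 := he A D hA h2 hD
  rw [hKe] at h3
  have h4 := het A D K J hA h2 hD hJ hDJ hK0.le hB
  have h5 : K ≤ 16 * Ce * J := by
    have h6 : K ^ 2 ≤ Ce * (16 * K * J) :=
      h3.trans (mul_le_mul_of_nonneg_left h4 (by linarith))
    have h7 : K * K ≤ (16 * Ce * J) * K := by nlinarith
    exact le_of_mul_le_mul_right h7 hK0
  have h6 : K ≤ 16 * Ce * (J : ℝ) ^ 3 := by
    refine h5.trans (mul_le_mul_of_nonneg_left ?_ (by linarith))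
    calc (J : ℝ) = (J : ℝ) ^ 1 := (pow_one _).symm
      _ ≤ (J : ℝ) ^ 3 := pow_le_pow_right₀ hJ' (by norm_num)
  have h7 := hs A D K J hA h2 hD hJ hDJ hK hKD hB h6
  have h8 : K ^ 2 ≤ Ce * (Cs * (J + K * (1 + Real.log J))) :=
    h3.trans (mul_le_mul_of_nonneg_left h7 (by linarith))
  have h9 : K ^ 2 ≤ (Ce * Cs) * (Real.sqrt J ^ 2 + K * (2 * Real.sqrt J)) := by
    rw [Real.sq_sqrt (by linarith)]
    refine h8.trans ?_
    rw [mul_assoc]
    refine mul_le_mul_of_nonneg_left (mul_le_mul_of_nonneg_left ?_ (by linarith)) (by linarith)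
    have := mul_le_mul_of_nonneg_left (final_log hJ) hK0.le
    linarith
  exact final_quad hG hK0 (Real.sqrt_pos.2 (by linarith)) h9

lemma final_J {D : ℝ} (hD : 1 ≤ D) : ∃ J : ℕ, 1 ≤ J ∧ D ≤ 2 ^ J ∧
    Real.sqrt J ≤ 2 * Real.sqrt (1 + Real.log D) := by
  have hl : 0 ≤ Real.log D := Real.log_nonneg hD
  have h2 : 0 < Real.log 2 := Real.log_pos (by norm_num)
  refine ⟨⌈Real.log D / Real.log 2⌉₊ + 1, Nat.le_add_left _ _, ?_, ?_⟩
  · have h1 : Real.log D / Real.log 2 ≤ (⌈Real.log D / Real.log 2⌉₊ : ℝ) := Nat.le_ceil _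
    rw [div_le_iff₀ h2, ← Real.log_pow] at h1
    have h3 : D ≤ 2 ^ ⌈Real.log D / Real.log 2⌉₊ :=
      (Real.log_le_log_iff (by linarith) (by positivity)).1 h1
    refine h3.trans (pow_le_pow_right₀ (by norm_num) (Nat.le_succ _))
  · have h4 : (2 : ℝ) * Real.sqrt (1 + Real.log D) = Real.sqrt (4 * (1 + Real.log D)) := by
      rw [Real.sqrt_mul (by norm_num)]
      congr 1
      rw [show (4 : ℝ) = 2 ^ 2 by norm_num, Real.sqrt_sq (by norm_num)]
    rw [h4]
    refine Real.sqrt_le_sqrt ?_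
    have h5 := Nat.ceil_lt_add_one (a := Real.log D / Real.log 2) (by positivity)
    push_cast
    have h6 : Real.log D / Real.log 2 ≤ 2 * Real.log D := by
      rw [div_le_iff₀ h2]
      have := Real.log_two_gt_d9
      nlinarith
    linarith

lemma AppSep.mono {A F : Finset ℂ} (h : AppSep A) (hF : F ⊆ A) : AppSep F :=
  fun p hp q hq p' hp' q' hq' => h p (hF hp) q (hF hq) p' (hF hp') q' (hF hq')

/-- The result (minimal counterexample). -/
theorem diam_bound_of {C1 : ℝ} (hC1 : 1 ≤ C1)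
    (hr : ∀ (A : Finset ℂ) (D K : ℝ) (J : ℕ), AppSep A → 2 ≤ A.card →
    (∀ p ∈ A, ∀ q ∈ A, dist p q ≤ D) → 1 ≤ J → D ≤ 2 ^ J → 1 ≤ K → (A.card : ℝ) = K * D →
    BallB A K → K ≤ C1 * Real.sqrt J) :
    ∀ (N : ℕ) (A : Finset ℂ) (D : ℝ), A.card = N → AppSep A → 2 ≤ A.card →
    (∀ p ∈ A, ∀ q ∈ A, dist p q ≤ D) →
    (A.card : ℝ) ≤ 2 * C1 * D * Real.sqrt (1 + Real.log D) := by
  intro N
  induction N using Nat.strong_induction_on with
  | _ N ih =>
  intro A D hN hA h2 hD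
  -- the exact diameter
  have hne : A.Nonempty := card_pos.1 (by omega)
  obtain ⟨⟨a, b⟩, hab, hmax⟩ := exists_max_image (A ×ˢ A) (fun x => dist x.1 x.2)
    (hne.product hne)
  rw [mem_product] at hab
  obtain ⟨ha, hb⟩ := hab
  simp only at ha hb hmax
  set D0 := dist a b with hD0
  have hmax' : ∀ p ∈ A, ∀ q ∈ A, dist p q ≤ D0 := fun p hp q hq =>
    hmax (p, q) (mem_product.2 ⟨hp, hq⟩)
  have hD1 : 1 ≤ D0 := by
    obtain ⟨c, hc, d, hd, hcd⟩ := one_lt_card.1 (by omega : 1 < A.card)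
    have h1 := app_one hA hc hd hcd
    have h3 := hmax' c hc d hd
    rw [dist_eq_norm] at h3
    linarith
  have hDD : D0 ≤ D := hD a ha b hb
  have mono : ∀ x y : ℝ, 1 ≤ x → x ≤ y →
      Real.sqrt (1 + Real.log x) ≤ Real.sqrt (1 + Real.log y) := by
    intro x y hx hxy
    refine Real.sqrt_le_sqrt ?_
    have := Real.log_le_log (by linarith) hxy
    linarith
  have hone : 1 ≤ Real.sqrt (1 + Real.log D0) := by
    rw [Real.one_le_sqrt]
    have := Real.log_nonneg hD1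
    linarith
  by_contra hcon
  push Not at hcon
  have hlt : 2 * C1 * D0 * Real.sqrt (1 + Real.log D0) < (A.card : ℝ) := by
    refine lt_of_le_of_lt ?_ hcon
    exact mul_le_mul (mul_le_mul_of_nonneg_left hDD (by linarith)) (mono _ _ hD1 hDD)
      (Real.sqrt_nonneg _) (mul_nonneg (by linarith) (by linarith))
  set K : ℝ := (A.card : ℝ) / D0 with hKdef
  have hD00 : 0 < D0 := by linarith
  have hKD : (A.card : ℝ) = K * D0 := by
    rw [hKdef]
    field_simp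
  have hKlt : 2 * C1 * Real.sqrt (1 + Real.log D0) < K := by
    rw [hKdef, lt_div_iff₀ hD00]
    linarith
  have hK1 : 1 ≤ K := by nlinarith
  have hB : BallB A K := by
    intro z r hr1
    set F := A.filter fun p => ‖z - p‖ ≤ r with hF
    have hFA : F ⊆ A := filter_subset _ _
    have hKr : 1 ≤ K * r := one_le_mul_of_one_le_of_one_le hK1 hr1
    by_cases hc : D0 ≤ 2 * r
    · have h3 : (F.card : ℝ) ≤ A.card := by exact_mod_cast card_le_card hFA
      have h4 : K * D0 ≤ K * (2 * r) := mul_le_mul_of_nonneg_left hc (by linarith)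
      linarith
    · push Not at hc
      have hFd : ∀ p ∈ F, ∀ q ∈ F, dist p q ≤ 2 * r := by
        intro p hp q hq
        rw [hF, mem_filter] at hp hq
        have h3 := dist_triangle p z q
        rw [dist_comm p z, dist_eq_norm z p, dist_eq_norm z q] at h3
        linarith [hp.2, hq.2]
      by_cases hF1 : F.card ≤ 1
      · have h3 : (F.card : ℝ) ≤ 1 := by exact_mod_cast hF1
        linarith
      · push Not at hF1
        have hss : F ⊂ A := by
          rw [Finset.ssubset_iff_subset_ne]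
          refine ⟨hFA, fun heq => ?_⟩
          have h3 := hFd a (heq ▸ ha) b (heq ▸ hb)
          linarith
        have h3 := ih F.card (by
          rw [← hN]
          exact card_lt_card hss) F (2 * r) rfl (hA.mono hFA) (by omega) hFd
        have h4 := mono (2 * r) D0 (by linarith) hc.le
        have h5 : 2 * C1 * (2 * r) * Real.sqrt (1 + Real.log (2 * r)) ≤ (2 * r) * K := by
          have h6 : 2 * C1 * Real.sqrt (1 + Real.log (2 * r)) ≤ K := by
            refine le_trans ?_ hKlt.le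
            exact mul_le_mul_of_nonneg_left h4 (by linarith)
          have h7 := mul_le_mul_of_nonneg_left h6 (by linarith : (0 : ℝ) ≤ 2 * r)
          linarith
        linarith
  obtain ⟨J, hJ1, hJD, hJs⟩ := final_J hD1
  have h8 := hr A D0 K J hA h2 hmax' hJ1 hJD hK1 hKD hB
  have h9 := mul_le_mul_of_nonneg_left hJs (by linarith : (0 : ℝ) ≤ C1)
  linarith

theorem diam_bound_all (hes : EnergySum) (het : EnergyTriv) {Ce : ℝ} (hCe : 1 ≤ Ce)
    (he : ∀ (A : Finset ℂ) (D : ℝ), AppSep A →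
    2 ≤ A.card → (∀ p ∈ A, ∀ q ∈ A, dist p q ≤ D) →
    ((A.card : ℝ) / D) ^ 2 ≤ Ce * ((∑ p ∈ A, ∑ q ∈ A, (dist p q)⁻¹) / A.card)) :
    ∃ C : ℝ, 1 ≤ C ∧ ∀ (A : Finset ℂ) (D : ℝ), AppSep A → 2 ≤ A.card →
    (∀ p ∈ A, ∀ q ∈ A, dist p q ≤ D) → (A.card : ℝ) ≤ C * D * Real.sqrt (1 + Real.log D) := by
  obtain ⟨C1, hC1, hr⟩ := regular_bound_of hes het hCe he
  exact ⟨2 * C1, by linarith, fun A D hA h2 hD => diam_bound_of hC1 hr A.card A D rfl hA h2 hD⟩

end SD12
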