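import Pool.Agent.SD12.Defs

/-!
# Counting with squares of a fixed size
-/

open Finset ComplexConjugate

namespace SD12

/-- The square of side `r / 2` which contains `z`. -/
private noncomputable def fixCell (r : ℝ) (z : ℂ) : ℤ × ℤ := (⌊2 * z.re / r⌋, ⌊2 * z.im / r⌋)

private lemma fix_close {r : ℝ} (hr : 0 < r) {z w : ℂ} (h : fixCell r z = fixCell r w) :
    ‖z - w‖ < r := by
  unfold fixCell at h
  rw [Prod.mk.injEq] at h
  have key : ∀ a b : ℝ, ⌊2 * a / r⌋ = ⌊2 * b / r⌋ → |a - b| < r / 2 := by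
    intro a b hab
    have h1 := Int.abs_sub_lt_one_of_floor_eq_floor hab
    have h2 : 2 * a / r - 2 * b / r = 2 * (a - b) / r := by ring
    rw [h2, abs_div, abs_of_pos hr, div_lt_one hr, abs_mul,
      abs_of_pos (by norm_num : (0 : ℝ) < 2)] at h1
    linarith
  have h1 := key _ _ h.1
  have h2 := key _ _ h.2
  rw [← Complex.sub_re] at h1
  rw [← Complex.sub_im] at h2
  have h3 := Complex.norm_le_abs_re_add_abs_im (z - w)
  linarith

open Classical in
theorem small_count {ι : Type*} (E : Finset ι) (P : ι → ℂ) {h r M : ℝ} (hh1 : 1 ≤ h)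
    (hP : ∀ x ∈ E, ‖P x‖ ≤ 2 * h) (hr0 : 0 < r) (hr1 : r ≤ 1) (hM : 0 ≤ M) :
    ((E.filter fun x => ((E.filter fun y => ‖P x - P y‖ < r).card : ℝ) < M).card : ℝ) ≤
      100 * (h / r) ^ 2 * M := by
  set B := E.filter fun x => ((E.filter fun y => ‖P x - P y‖ < r).card : ℝ) < M with hB
  set cell : ι → ℤ × ℤ := fun x => fixCell r (P x) with hcell
  have hhr : 1 ≤ h / r := by
    rw [le_div_iff₀ hr0]; linarith
  -- the cells used
  have hI : ((B.image cell).card : ℝ) ≤ (10 * (h / r)) ^ 2 := by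
    have hsub : B.image cell ⊆ Icc ⌊-(4 * (h / r))⌋ ⌊4 * (h / r)⌋ ×ˢ
        Icc ⌊-(4 * (h / r))⌋ ⌊4 * (h / r)⌋ := by
      intro u hu
      obtain ⟨x, hx, rfl⟩ := mem_image.mp hu
      have hxE : x ∈ E := (mem_filter.mp hx).1
      have h1 := hP x hxE
      have key : ∀ a : ℝ, |a| ≤ 2 * h → ⌊2 * a / r⌋ ∈ Icc ⌊-(4 * (h / r))⌋ ⌊4 * (h / r)⌋ := by
        intro a ha
        have h2 : 2 * a / r = 2 * (a / r) := by ring
        have h3 : a / r ≤ 2 * (h / r) := by
          rw [← mul_div_assoc]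
          exact div_le_div_of_nonneg_right (abs_le.mp ha).2 hr0.le
        have h4 : -(2 * (h / r)) ≤ a / r := by
          rw [← mul_div_assoc, ← neg_div]
          exact div_le_div_of_nonneg_right (abs_le.mp ha).1 hr0.le
        rw [mem_Icc, h2]
        exact ⟨Int.floor_le_floor (by linarith), Int.floor_le_floor (by linarith)⟩
      rw [mem_product]
      exact ⟨key _ (le_trans (Complex.abs_re_le_norm _) h1),
        key _ (le_trans (Complex.abs_im_le_norm _) h1)⟩
    have h5 := card_le_card hsub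
    rw [card_product, Int.card_Icc] at h5
    have h6 : (((⌊4 * (h / r)⌋ + 1 - ⌊-(4 * (h / r))⌋).toNat : ℕ) : ℝ) ≤ 10 * (h / r) := by
      have h7 : (⌊4 * (h / r)⌋ : ℝ) ≤ 4 * (h / r) := Int.floor_le _
      have h8 : -(4 * (h / r)) < (⌊-(4 * (h / r))⌋ : ℝ) + 1 := Int.lt_floor_add_one _
      have h9 : 0 ≤ ⌊4 * (h / r)⌋ + 1 - ⌊-(4 * (h / r))⌋ := by
        have : ⌊-(4 * (h / r))⌋ ≤ ⌊4 * (h / r)⌋ := Int.floor_le_floor (by linarith)
        omega
      have h10 : (((⌊4 * (h / r)⌋ + 1 - ⌊-(4 * (h / r))⌋).toNat : ℕ) : ℝ) =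
          ((⌊4 * (h / r)⌋ + 1 - ⌊-(4 * (h / r))⌋ : ℤ) : ℝ) := by
        exact_mod_cast Int.toNat_of_nonneg h9
      rw [h10]
      push_cast
      linarith
    calc ((B.image cell).card : ℝ)
        ≤ ((⌊4 * (h / r)⌋ + 1 - ⌊-(4 * (h / r))⌋).toNat : ℝ) *
            ((⌊4 * (h / r)⌋ + 1 - ⌊-(4 * (h / r))⌋).toNat : ℝ) := by exact_mod_cast h5
      _ ≤ (10 * (h / r)) * (10 * (h / r)) := by
          apply mul_le_mul h6 h6 (by positivity) (by positivity)
      _ = (10 * (h / r)) ^ 2 := by ring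
  -- each cell
  have hfib : ∀ u ∈ B.image cell, ((B.filter fun x => cell x = u).card : ℝ) ≤ M := by
    intro u hu
    obtain ⟨x, hx, rfl⟩ := mem_image.mp hu
    have h1 : (B.filter fun y => cell y = cell x).card ≤
        (E.filter fun y => ‖P x - P y‖ < r).card := by
      apply card_le_card
      intro y hy
      rw [mem_filter] at hy ⊢
      exact ⟨(mem_filter.mp hy.1).1, fix_close hr0 hy.2.symm⟩
    have h2 : ((E.filter fun y => ‖P x - P y‖ < r).card : ℝ) < M := (mem_filter.mp hx).2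
    exact le_trans (by exact_mod_cast h1) h2.le
  have hcard := card_eq_sum_card_image cell B
  calc (B.card : ℝ) = ∑ u ∈ B.image cell, ((B.filter fun x => cell x = u).card : ℝ) := by
        rw [hcard]; push_cast; rfl
    _ ≤ ∑ _u ∈ B.image cell, M := sum_le_sum hfib
    _ = (B.image cell).card * M := by rw [sum_const, nsmul_eq_mul]
    _ ≤ (10 * (h / r)) ^ 2 * M := mul_le_mul_of_nonneg_right hI hM
    _ = 100 * (h / r) ^ 2 * M := by ring

open Classical in
theorem doubling_count {ι : Type*} (E : Finset ι) (P : ι → ℂ) {r : ℝ} (hr : 0 < r) {q : ℕ}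
    {c : ℝ} (hc : 0 ≤ c) :
    ((E.filter fun x => ((E.filter fun y => ‖P x - P y‖ < r).card : ℝ) <
      c * ((E.filter fun y => ‖P x - P y‖ < q * r).card : ℝ)).card : ℝ) ≤
      c * (4 * q + 3) ^ 2 * E.card := by
  set B := E.filter fun x => ((E.filter fun y => ‖P x - P y‖ < r).card : ℝ) <
      c * ((E.filter fun y => ‖P x - P y‖ < q * r).card : ℝ) with hB
  set cell : ι → ℤ × ℤ := fun x => fixCell r (P x) with hcell
  set N : ℤ × ℤ → ℕ := fun u => (E.filter fun y => cell y = u).card with hN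
  set D : Finset (ℤ × ℤ) := Icc (-(2 * q : ℤ)) (2 * q) ×ˢ Icc (-(2 * q : ℤ)) (2 * q) with hD
  have hDc : (D.card : ℝ) ≤ (4 * q + 3) ^ 2 := by
    rw [hD, card_product, Int.card_Icc]
    have h1 : ((2 * q : ℤ) + 1 - -(2 * q : ℤ)).toNat = 4 * q + 1 := by omega
    rw [h1]
    push_cast
    have : (0 : ℝ) ≤ q := Nat.cast_nonneg q
    nlinarith
  -- the ball of radius `q * r` is covered by the cells of `D`
  have hball : ∀ x, (E.filter fun y => ‖P x - P y‖ < q * r).card ≤ ∑ d ∈ D, N (cell x + d) := by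
    intro x
    have hsub : (E.filter fun y => ‖P x - P y‖ < q * r) ⊆
        D.biUnion fun d => E.filter fun y => cell y = cell x + d := by
      intro y hy
      rw [mem_filter] at hy
      rw [mem_biUnion]
      refine ⟨cell y - cell x, ?_, ?_⟩
      · have key : ∀ a b : ℝ, |a - b| < q * r → ⌊2 * b / r⌋ - ⌊2 * a / r⌋ ∈
            Icc (-(2 * q : ℤ)) (2 * q) := by
          intro a b hab
          have h2 : |2 * a / r - 2 * b / r| < 2 * q := by
            have h3 : 2 * a / r - 2 * b / r = 2 * (a - b) / r := by ring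
            rw [h3, abs_div, abs_of_pos hr, div_lt_iff₀ hr, abs_mul,
              abs_of_pos (by norm_num : (0 : ℝ) < 2)]
            linarith
          rw [abs_lt] at h2
          have h4 := Int.floor_le (2 * a / r)
          have h5 := Int.lt_floor_add_one (2 * a / r)
          have h6 := Int.floor_le (2 * b / r)
          have h7 := Int.lt_floor_add_one (2 * b / r)
          have h8 : (-(2 * q : ℤ) - 1 : ℝ) < ((⌊2 * b / r⌋ - ⌊2 * a / r⌋ : ℤ) : ℝ) := by
            push_cast; linarith [h2.1, h2.2]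
          have h9 : ((⌊2 * b / r⌋ - ⌊2 * a / r⌋ : ℤ) : ℝ) < ((2 * q : ℤ) + 1 : ℝ) := by
            push_cast; linarith [h2.1, h2.2]
          have h10 : -(2 * q : ℤ) - 1 < ⌊2 * b / r⌋ - ⌊2 * a / r⌋ := by exact_mod_cast h8
          have h11 : ⌊2 * b / r⌋ - ⌊2 * a / r⌋ < (2 * q : ℤ) + 1 := by exact_mod_cast h9
          rw [mem_Icc]
          omega
        rw [hD, mem_product]
        refine ⟨?_, ?_⟩
        · exact key _ _ (lt_of_le_of_lt (by
            rw [← Complex.sub_re]; exact Complex.abs_re_le_norm _) hy.2)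
        · exact key _ _ (lt_of_le_of_lt (by
            rw [← Complex.sub_im]; exact Complex.abs_im_le_norm _) hy.2)
      · rw [mem_filter]
        exact ⟨hy.1, by abel⟩
    exact le_trans (card_le_card hsub) card_biUnion_le
  -- sums over shifted cells
  have hshift : ∀ d, ∑ u ∈ B.image cell, N (u + d) ≤ E.card := by
    intro d
    have h1 := card_eq_sum_card_fiberwise (f := fun y => cell y - d)
      (s := E.filter fun y => cell y - d ∈ B.image cell) (t := B.image cell)
      (fun y hy => by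
        simp only [coe_filter, Set.mem_ofPred_eq] at hy
        exact hy.2)
    have h2 : ∀ u ∈ B.image cell, N (u + d) =
        ((E.filter fun y => cell y - d ∈ B.image cell).filter fun y => cell y - d = u).card := by
      intro u hu
      show (E.filter fun y => cell y = u + d).card = _
      congr 1
      ext y
      simp only [mem_filter]
      constructor
      · rintro ⟨h3, h4⟩
        have h5 : cell y - d = u := by rw [h4]; abel
        exact ⟨⟨h3, by rw [h5]; exact hu⟩, h5⟩
      · rintro ⟨⟨h3, _⟩, h4⟩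
        exact ⟨h3, by rw [← h4]; abel⟩
    rw [sum_congr rfl h2, ← h1]
    exact card_le_card (filter_subset _ _)
  have hfib : ∀ u ∈ B.image cell, ((B.filter fun x => cell x = u).card : ℝ) ≤
      c * ∑ d ∈ D, (N (u + d) : ℝ) := by
    intro u hu
    obtain ⟨x, hx, rfl⟩ := mem_image.mp hu
    have h1 : (B.filter fun y => cell y = cell x).card ≤
        (E.filter fun y => ‖P x - P y‖ < r).card := by
      apply card_le_card
      intro y hy
      rw [mem_filter] at hy ⊢
      exact ⟨(mem_filter.mp hy.1).1, fix_close hr hy.2.symm⟩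
    have h2 := (mem_filter.mp hx).2
    have h3 : ((E.filter fun y => ‖P x - P y‖ < q * r).card : ℝ) ≤
        ∑ d ∈ D, (N (cell x + d) : ℝ) := by exact_mod_cast hball x
    calc ((B.filter fun y => cell y = cell x).card : ℝ)
        ≤ ((E.filter fun y => ‖P x - P y‖ < r).card : ℝ) := by exact_mod_cast h1
      _ ≤ c * ((E.filter fun y => ‖P x - P y‖ < q * r).card : ℝ) := h2.le
      _ ≤ c * ∑ d ∈ D, (N (cell x + d) : ℝ) := mul_le_mul_of_nonneg_left h3 hc
  have hcard := card_eq_sum_card_image cell B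
  calc (B.card : ℝ) = ∑ u ∈ B.image cell, ((B.filter fun x => cell x = u).card : ℝ) := by
        rw [hcard]; push_cast; rfl
    _ ≤ ∑ u ∈ B.image cell, c * ∑ d ∈ D, (N (u + d) : ℝ) := sum_le_sum hfib
    _ = c * ∑ d ∈ D, ∑ u ∈ B.image cell, (N (u + d) : ℝ) := by
        rw [← mul_sum, sum_comm]
    _ ≤ c * ∑ _d ∈ D, (E.card : ℝ) := by
        apply mul_le_mul_of_nonneg_left _ hc
        exact sum_le_sum fun d _ => by exact_mod_cast hshift d
    _ = c * (D.card * E.card) := by rw [sum_const, nsmul_eq_mul]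
    _ ≤ c * ((4 * q + 3) ^ 2 * E.card) := by
        apply mul_le_mul_of_nonneg_left _ hc
        exact mul_le_mul_of_nonneg_right hDc (Nat.cast_nonneg _)
    _ = c * (4 * q + 3) ^ 2 * E.card := by ring

end SD12
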