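import Pool.Agent.SD12.Defs

/-!
# The grids
-/

open Finset ComplexConjugate

namespace SD12

private lemma grid_half {X Y : ℝ} {m : ℤ} (h : ⌊X⌋ = ⌊Y⌋) : ⌊(X - m) / 2⌋ = ⌊(Y - m) / 2⌋ := by
  have key : ∀ Z : ℝ, ⌊(Z - m) / 2⌋ = (⌊Z⌋ - m) / 2 := by
    intro Z
    rw [Int.floor_eq_iff]
    have h1 := Int.floor_le Z
    have h2 := Int.lt_floor_add_one Z
    have h3 : 2 * ((⌊Z⌋ - m) / 2) ≤ ⌊Z⌋ - m := by omega
    have h4 : ⌊Z⌋ - m ≤ 2 * ((⌊Z⌋ - m) / 2) + 1 := by omega
    have h3' : (2 : ℝ) * (((⌊Z⌋ - m) / 2 : ℤ) : ℝ) ≤ (⌊Z⌋ : ℝ) - m := by exact_mod_cast h3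
    have h4' : (⌊Z⌋ : ℝ) - m ≤ 2 * (((⌊Z⌋ - m) / 2 : ℤ) : ℝ) + 1 := by exact_mod_cast h4
    constructor <;> linarith
  rw [key, key, h]

private lemma grid_fl_succ {a : Bool} {k : ℕ} {v w : ℝ} (h : fl a k v = fl a k w) :
    fl a (k + 1) v = fl a (k + 1) w := by
  unfold fl at h ⊢
  cases a with
  | false =>
    simp only [Bool.false_eq_true, if_false, add_zero] at h ⊢
    have h1 := grid_half (m := 0) h
    rw [show v / 2 ^ (k + 1) = (v / 2 ^ k - ((0 : ℤ) : ℝ)) / 2 by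
        rw [pow_succ, Int.cast_zero, sub_zero, div_div],
      show w / 2 ^ (k + 1) = (w / 2 ^ k - ((0 : ℤ) : ℝ)) / 2 by
        rw [pow_succ, Int.cast_zero, sub_zero, div_div]]
    exact h1
  | true =>
    simp only [if_true] at h ⊢
    have h1 := grid_half (m := (-1) ^ k) h
    have h2 : ∀ z : ℝ, z / 2 ^ (k + 1) + (-1) ^ (k + 1) / 3 =
        (z / 2 ^ k + (-1) ^ k / 3 - (((-1) ^ k : ℤ) : ℝ)) / 2 := by
      intro z
      push_cast
      rw [pow_succ, pow_succ, ← div_div]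
      ring
    rw [h2, h2]
    exact h1

private lemma grid_fl_abs {a : Bool} {k : ℕ} {v w : ℝ} (h : fl a k v = fl a k w) :
    |v - w| < 2 ^ k := by
  have h1 := Int.abs_sub_lt_one_of_floor_eq_floor h
  have hp : (0 : ℝ) < 2 ^ k := by positivity
  have h2 : v / 2 ^ k + (if a then (-1) ^ k / 3 else 0) -
      (w / 2 ^ k + (if a then (-1) ^ k / 3 else 0)) = (v - w) / 2 ^ k := by
    rw [sub_div]; ring
  rw [h2, abs_div, abs_of_pos hp, div_lt_one hp] at h1
  exact h1

theorem lab_succ {j : ℕ} {a : Bool × Bool × Bool × Bool} {k : ℕ} {x y : ℂ × ℂ}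
    (h : lab j a k x = lab j a k y) : lab j a (k + 1) x = lab j a (k + 1) y := by
  unfold lab at h ⊢
  simp only [Prod.mk.injEq] at h ⊢
  obtain ⟨h1, h2, h3, h4⟩ := h
  refine ⟨grid_fl_succ h1, grid_fl_succ h2, ?_, ?_⟩
  · by_cases hk : j + 2 ≤ k
    · rw [show k + 1 - (j + 2) = (k - (j + 2)) + 1 by omega]
      exact grid_fl_succ h3
    · rw [show k + 1 - (j + 2) = k - (j + 2) by omega]
      exact h3
  · by_cases hk : j + 2 ≤ k
    · rw [show k + 1 - (j + 2) = (k - (j + 2)) + 1 by omega]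
      exact grid_fl_succ h4
    · rw [show k + 1 - (j + 2) = k - (j + 2) by omega]
      exact h4

private lemma grid_norm_lt {z : ℂ} {M c : ℝ} (hc : 0 < c) (hc2 : 2 * M ^ 2 ≤ c ^ 2)
    (h1 : |z.re| < M) (h2 : |z.im| < M) : ‖z‖ < c := by
  have h3 : ‖z‖ ^ 2 = z.re ^ 2 + z.im ^ 2 := by
    rw [Complex.sq_norm, Complex.normSq_apply]; ring
  have h4 : z.re ^ 2 < M ^ 2 := by
    have := sq_lt_sq' (by linarith [(abs_lt.mp h1).1]) (abs_lt.mp h1).2
    exact this
  have h5 : z.im ^ 2 < M ^ 2 := by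
    have := sq_lt_sq' (by linarith [(abs_lt.mp h2).1]) (abs_lt.mp h2).2
    exact this
  have h6 : ‖z‖ ^ 2 < c ^ 2 := by rw [h3]; linarith
  exact lt_of_pow_lt_pow_left₀ 2 hc.le h6

theorem lab_close {j : ℕ} {a : Bool × Bool × Bool × Bool} {k : ℕ} {x y : ℂ × ℂ}
    (h : lab j a k x = lab j a k y) :
    ‖x.1 - y.1‖ < 3 / 8 * 2 ^ k ∧ ‖x.2 - y.2‖ < 3 / 2 * 2 ^ (k - (j + 2)) := by
  unfold lab at h
  simp only [Prod.mk.injEq] at h
  obtain ⟨h1, h2, h3, h4⟩ := h
  have hp : (0 : ℝ) < 2 ^ k := by positivity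
  have hq : (0 : ℝ) < 2 ^ (k - (j + 2)) := by positivity
  constructor
  · apply grid_norm_lt (M := 2 ^ k / 4) (by positivity)
    · nlinarith [sq_nonneg ((2 : ℝ) ^ k)]
    · have := grid_fl_abs h1
      rw [← mul_sub, abs_mul, abs_of_pos (by norm_num : (0 : ℝ) < 4)] at this
      rw [Complex.sub_re]; linarith
    · have := grid_fl_abs h2
      rw [← mul_sub, abs_mul, abs_of_pos (by norm_num : (0 : ℝ) < 4)] at this
      rw [Complex.sub_im]; linarith
  · apply grid_norm_lt (M := 2 ^ (k - (j + 2))) (by positivity)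
    · nlinarith [sq_nonneg ((2 : ℝ) ^ (k - (j + 2)))]
    · rw [Complex.sub_re]; exact grid_fl_abs h3
    · rw [Complex.sub_im]; exact grid_fl_abs h4

/-- One third trick, ordered version. -/
private lemma grid_third_aux {k : ℕ} {v w : ℝ} (hvw : v ≤ w) (h : w - v < 2 ^ k / 3) :
    ∃ a : Bool, fl a k v = fl a k w := by
  have hp : (0 : ℝ) < 2 ^ k := by positivity
  by_contra hcon
  push Not at hcon
  have hf := hcon false
  have ht := hcon true
  unfold fl at hf ht
  simp only [Bool.false_eq_true, if_false, add_zero, if_true] at hf ht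
  set V := v / 2 ^ k with hV
  set W := w / 2 ^ k with hW
  have hVW : V ≤ W := by rw [hV, hW]; gcongr
  have hd : W - V < 1 / 3 := by
    rw [hV, hW, ← sub_div, div_lt_iff₀ hp]; linarith
  -- integers in the two intervals
  have key : ∀ e : ℝ, ⌊V + e⌋ ≠ ⌊W + e⌋ → V + e < ⌊W + e⌋ ∧ (⌊W + e⌋ : ℝ) ≤ W + e := by
    intro e he
    refine ⟨?_, Int.floor_le _⟩
    by_contra hlt
    push Not at hlt
    apply he
    apply le_antisymm (Int.floor_le_floor (by linarith))
    exact Int.le_floor.mpr hlt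
  have k1 := key 0 (by simpa using hf)
  have k2 := key ((-1) ^ k / 3) ht
  set n := ⌊W + 0⌋
  set n' := ⌊W + (-1) ^ k / 3⌋
  rcases neg_one_pow_eq_or ℝ k with he | he
  · rw [he] at k2
    have h1 : -(1 : ℝ) / 3 < (n' : ℝ) - n - 1 / 3 := by linarith [k1.2, k2.1]
    have h2 : (n' : ℝ) - n - 1 / 3 < 1 / 3 := by linarith [k1.1, k2.2]
    have h3 : (0 : ℝ) < ((n' - n : ℤ) : ℝ) := by push_cast; linarith
    have h4 : ((n' - n : ℤ) : ℝ) < 1 := by push_cast; linarith
    have h5 : 0 < n' - n := by exact_mod_cast h3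
    have h6 : n' - n < 1 := by exact_mod_cast h4
    omega
  · rw [he] at k2
    have h1 : -(1 : ℝ) / 3 < (n' : ℝ) - n + 1 / 3 := by linarith [k1.2, k2.1]
    have h2 : (n' : ℝ) - n + 1 / 3 < 1 / 3 := by linarith [k1.1, k2.2]
    have h3 : (-1 : ℝ) < ((n' - n : ℤ) : ℝ) := by push_cast; linarith
    have h4 : ((n' - n : ℤ) : ℝ) < 0 := by push_cast; linarith
    have h5 : -1 < n' - n := by exact_mod_cast h3
    have h6 : n' - n < 0 := by exact_mod_cast h4
    omega

private lemma grid_third {k : ℕ} {v w : ℝ} (h : |v - w| < 2 ^ k / 3) :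
    ∃ a : Bool, fl a k v = fl a k w := by
  rcases le_total v w with h1 | h1
  · apply grid_third_aux h1
    rw [abs_sub_comm, abs_of_nonneg (by linarith)] at h
    exact h
  · obtain ⟨a, ha⟩ := grid_third_aux (k := k) h1 (by
      rw [abs_of_nonneg (by linarith)] at h
      exact h)
    exact ⟨a, ha.symm⟩

/-- A pair of lines which are close at a time `s` with `|s| ≤ 1 / 2 ^ (j + 1)` is split at a
level comparable with its distance, in one of the grids. -/
theorem lab_split {j : ℕ} {x y : ℂ × ℂ} (hne : x ≠ y)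
    (h0 : 3 / 8 ≤ ‖x.1 - y.1‖ ∨ 3 / 2 ≤ ‖x.2 - y.2‖) (h1 : 1 ≤ ‖x.1 - y.1‖)
    (h2 : ‖x.2 - y.2‖ ≤ ‖x.1 - y.1‖ / 2 ^ (j + 1) + 1 / 16) :
    ∃ (a : Bool × Bool × Bool × Bool) (k : ℕ), lab j a (k + 1) x = lab j a (k + 1) y ∧
      lab j a k x ≠ lab j a k y ∧ 2 ^ (k + 1) ≤ 26 * ‖x.1 - y.1‖ := by
  classical
  set ρ := ‖x.1 - y.1‖ with hρ
  have hex : ∃ k : ℕ, 13 * ρ ≤ 2 ^ k := by
    obtain ⟨k, hk⟩ := pow_unbounded_of_one_lt (13 * ρ) (by norm_num : (1 : ℝ) < 2)
    exact ⟨k, hk.le⟩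
  set k0 := Nat.find hex with hk0
  have hk0s : 13 * ρ ≤ 2 ^ k0 := Nat.find_spec hex
  have hk0pos : 0 < k0 := by
    rcases Nat.eq_zero_or_pos k0 with h | h
    · rw [h, pow_zero] at hk0s; linarith
    · exact h
  have hk0m : (2 : ℝ) ^ k0 < 26 * ρ := by
    have h3 := Nat.find_min hex (show k0 - 1 < Nat.find hex by rw [← hk0]; omega)
    push Not at h3
    have h4 : (2 : ℝ) ^ k0 = 2 ^ (k0 - 1) * 2 := by
      rw [← pow_succ]; congr 1; omega
    rw [h4]; linarith
  -- first coordinates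
  have hre : |4 * x.1.re - 4 * y.1.re| < 2 ^ k0 / 3 := by
    rw [← mul_sub, abs_mul, abs_of_pos (by norm_num : (0 : ℝ) < 4), ← Complex.sub_re]
    have := Complex.abs_re_le_norm (x.1 - y.1)
    rw [← hρ] at this
    linarith
  have him : |4 * x.1.im - 4 * y.1.im| < 2 ^ k0 / 3 := by
    rw [← mul_sub, abs_mul, abs_of_pos (by norm_num : (0 : ℝ) < 4), ← Complex.sub_im]
    have := Complex.abs_im_le_norm (x.1 - y.1)
    rw [← hρ] at this
    linarith
  -- second coordinates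
  have hsec : ‖x.2 - y.2‖ < 2 ^ (k0 - (j + 2)) / 3 := by
    set A := ρ / 2 ^ (j + 1) with hA
    have hjp : (0 : ℝ) < 2 ^ (j + 1) := by positivity
    have hA0 : 0 ≤ A := by positivity
    by_cases hk : j + 2 ≤ k0
    · have hM1 : (1 : ℝ) ≤ 2 ^ (k0 - (j + 2)) := one_le_pow₀ (by norm_num)
      have hM : 13 / 2 * A ≤ 2 ^ (k0 - (j + 2)) := by
        have h5 : (2 : ℝ) ^ k0 = 2 ^ (k0 - (j + 2)) * (2 ^ (j + 1) * 2) := by
          rw [← pow_succ, ← pow_add]; congr 1; omega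
        rw [h5] at hk0s
        have h6 : ρ = A * 2 ^ (j + 1) := by rw [hA]; field_simp
        rw [h6] at hk0s
        have h7 : 13 * A * 2 ^ (j + 1) ≤ 2 * 2 ^ (k0 - (j + 2)) * 2 ^ (j + 1) := by
          calc 13 * A * 2 ^ (j + 1) = 13 * (A * 2 ^ (j + 1)) := by ring
            _ ≤ _ := hk0s
            _ = _ := by ring
        have h8 := le_of_mul_le_mul_right h7 hjp
        linarith
      rcases le_or_gt A (1 / 4) with h5 | h5
      · linarith
      · linarith
    · rw [show k0 - (j + 2) = 0 by omega, pow_zero]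
      have h5 : (2 : ℝ) ^ k0 ≤ 2 ^ (j + 1) := pow_le_pow_right₀ (by norm_num) (by omega)
      have h6 : A ≤ 1 / 13 := by
        rw [hA, div_le_iff₀ hjp]; linarith
      linarith
  have hre2 : |x.2.re - y.2.re| < 2 ^ (k0 - (j + 2)) / 3 := by
    rw [← Complex.sub_re]
    exact lt_of_le_of_lt (Complex.abs_re_le_norm _) hsec
  have him2 : |x.2.im - y.2.im| < 2 ^ (k0 - (j + 2)) / 3 := by
    rw [← Complex.sub_im]
    exact lt_of_le_of_lt (Complex.abs_im_le_norm _) hsec
  obtain ⟨a1, ha1⟩ := grid_third hre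
  obtain ⟨a2, ha2⟩ := grid_third him
  obtain ⟨a3, ha3⟩ := grid_third hre2
  obtain ⟨a4, ha4⟩ := grid_third him2
  set a : Bool × Bool × Bool × Bool := (a1, a2, a3, a4) with ha
  have hlab : lab j a k0 x = lab j a k0 y := by
    unfold lab
    simp only [ha, ha1, ha2, ha3, ha4]
  have hex2 : ∃ m : ℕ, lab j a m x = lab j a m y := ⟨k0, hlab⟩
  set m := Nat.find hex2 with hm
  have hms : lab j a m x = lab j a m y := Nat.find_spec hex2
  have hmle : m ≤ k0 := Nat.find_min' hex2 hlab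
  have hmpos : 0 < m := by
    rcases Nat.eq_zero_or_pos m with h | h
    · rw [h] at hms
      have h5 := lab_close hms
      rw [Nat.zero_sub, pow_zero, mul_one, mul_one, ← hρ] at h5
      rcases h0 with h6 | h6
      · linarith [h5.1]
      · linarith [h5.2]
    · exact h
  refine ⟨a, m - 1, ?_, ?_, ?_⟩
  · rw [Nat.sub_add_cancel hmpos]; exact hms
  · exact Nat.find_min hex2 (show m - 1 < Nat.find hex2 by rw [← hm]; omega)
  · rw [Nat.sub_add_cancel hmpos]
    exact le_trans (pow_le_pow_right₀ (by norm_num) hmle) hk0m.le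

/-- One step of the count of the branching cells. -/
private lemma grid_branch_step {α β γ : Type*} [DecidableEq α] [DecidableEq β] [DecidableEq γ]
    (U : Finset α) (f : α → β) (g : α → γ) (hfg : ∀ x ∈ U, ∀ y ∈ U, f x = f y → g x = g y)
    (p : γ → Prop) [DecidablePred p]
    (hp : ∀ c, p c → ∃ x ∈ U, ∃ y ∈ U, g x = c ∧ g y = c ∧ f x ≠ f y) :
    (U.image g).card + ((U.image g).filter p).card ≤ (U.image f).card := by
  classical
  rcases U.eq_empty_or_nonempty with hU | ⟨u, _⟩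
  · subst hU
    simp
  have : Nonempty α := ⟨u⟩
  have h1 : ∀ c ∈ U.image g, ∃ x ∈ U, g x = c := fun c hc => by
    obtain ⟨x, hx, h⟩ := mem_image.mp hc
    exact ⟨x, hx, h⟩
  choose! X hXU hXg using h1
  have h2 : ∀ c ∈ (U.image g).filter p, ∃ y ∈ U, g y = c ∧ f y ≠ f (X c) := by
    intro c hc
    rw [mem_filter] at hc
    obtain ⟨x, hx, y, hy, hgx, hgy, hne⟩ := hp c hc.2
    by_cases h : f x = f (X c)
    · exact ⟨y, hy, hgy, fun h' => hne (h.trans h'.symm)⟩
    · exact ⟨x, hx, hgx, h⟩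
  choose! Y hYU hYg hYf using h2
  have hA : ((U.image g).image fun c => f (X c)).card = (U.image g).card := by
    apply card_image_of_injOn
    intro c hc c' hc' h
    have := hfg _ (hXU c hc) _ (hXU c' hc') h
    rwa [hXg c hc, hXg c' hc'] at this
  have hB : (((U.image g).filter p).image fun c => f (Y c)).card =
      ((U.image g).filter p).card := by
    apply card_image_of_injOn
    intro c hc c' hc' h
    have := hfg _ (hYU c hc) _ (hYU c' hc') h
    rwa [hYg c hc, hYg c' hc'] at this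
  have hdisj : Disjoint ((U.image g).image fun c => f (X c))
      (((U.image g).filter p).image fun c => f (Y c)) := by
    rw [disjoint_left]
    intro b hb hb'
    obtain ⟨c, hc, rfl⟩ := mem_image.mp hb
    obtain ⟨c', hc', h⟩ := mem_image.mp hb'
    have h3 := hfg _ (hYU c' hc') _ (hXU c hc) h
    rw [hYg c' hc', hXg c hc] at h3
    subst h3
    exact hYf c' hc' h
  rw [← hA, ← hB, ← card_union_of_disjoint hdisj]
  apply card_le_card
  intro b hb
  rcases mem_union.mp hb with h | h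
  · obtain ⟨c, hc, rfl⟩ := mem_image.mp h
    exact mem_image_of_mem _ (hXU c hc)
  · obtain ⟨c, hc, rfl⟩ := mem_image.mp h
    exact mem_image_of_mem _ (hYU c hc)

/-- The number of branching cells. -/
theorem branching (U : Finset (ℂ × ℂ)) (j : ℕ) (a : Bool × Bool × Bool × Bool) (K : ℕ) :
    ∑ k ∈ range K, ((U.image (lab j a (k + 1))).filter fun c =>
      ∃ x ∈ U, ∃ y ∈ U, lab j a (k + 1) x = c ∧ lab j a (k + 1) y = c ∧
        lab j a k x ≠ lab j a k y).card ≤ U.card := by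
  have h : ∀ K : ℕ, (U.image (lab j a K)).card +
      ∑ k ∈ range K, ((U.image (lab j a (k + 1))).filter fun c =>
      ∃ x ∈ U, ∃ y ∈ U, lab j a (k + 1) x = c ∧ lab j a (k + 1) y = c ∧
        lab j a k x ≠ lab j a k y).card ≤ U.card := by
    intro K
    induction K with
    | zero =>
      rw [sum_range_zero, add_zero]
      exact card_image_le
    | succ K ih =>
      rw [sum_range_succ]
      have h1 := grid_branch_step U (lab j a K) (lab j a (K + 1))
        (fun x _ y _ h => lab_succ h)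
        (fun c => ∃ x ∈ U, ∃ y ∈ U, lab j a (K + 1) x = c ∧ lab j a (K + 1) y = c ∧
          lab j a K x ≠ lab j a K y) (fun c hc => hc)
      omega
  have := h K
  omega

end SD12
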