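import Pool.Agent.SD12.Defs

/-!
# If most pairs of lines are on rich points, then one point is on most lines
-/

open Finset ComplexConjugate

namespace SD12

/-- Two different points are on at most one common line. -/
lemma k22_unique {p q : ℝ × ℂ} (hpq : p ≠ q) {v w : ℂ × ℂ} (h1 : L v p.1 = p.2)
    (h2 : L v q.1 = q.2) (h3 : L w p.1 = p.2) (h4 : L w q.1 = q.2) : v = w := by
  by_contra hvw
  have m1 : Meet v w p.1 := h1.trans h3.symm
  have m2 : Meet v w q.1 := h2.trans h4.symm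
  have h5 : p.1 = q.1 := m1.unique m2 hvw
  apply hpq
  refine Prod.ext h5 ?_
  rw [← h1, ← h2, h5]

open Classical in
/-- Bonferroni's inequality for the sets of the lines through the points of `I`. -/
lemma k22_bonf (T : Finset (ℂ × ℂ)) (I : Finset (ℝ × ℂ)) :
    ∑ p ∈ I, ((T.filter fun v => L v p.1 = p.2).card : ℝ) ≤ T.card + (I.card : ℝ) ^ 2 := by
  have e1 : ∑ p ∈ I, ((T.filter fun v => L v p.1 = p.2).card : ℝ) =
      ∑ v ∈ T, ((I.filter fun p => L v p.1 = p.2).card : ℝ) := by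
    simp only [Finset.card_filter, Nat.cast_sum, Nat.cast_ite, Nat.cast_one, Nat.cast_zero]
    rw [Finset.sum_comm]
  have e2 : ∑ v ∈ T, ((I.filter fun p => L v p.1 = p.2).card : ℝ) ^ 2 ≤
      ∑ p ∈ I, ((T.filter fun v => L v p.1 = p.2).card : ℝ) + (I.card : ℝ) ^ 2 := by
    have e3 : ∀ v ∈ T, ((I.filter fun p => L v p.1 = p.2).card : ℝ) ^ 2 =
        ∑ p ∈ I, ∑ q ∈ I, (if L v p.1 = p.2 ∧ L v q.1 = q.2 then (1 : ℝ) else 0) := by
      intro v _
      rw [sq, Finset.card_filter, Nat.cast_sum, Finset.sum_mul_sum]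
      refine Finset.sum_congr rfl fun p _ => Finset.sum_congr rfl fun q _ => ?_
      by_cases h1 : L v p.1 = p.2 <;> by_cases h2 : L v q.1 = q.2 <;> simp [h1, h2]
    rw [Finset.sum_congr rfl e3, Finset.sum_comm]
    have e4 : ∀ p ∈ I, ∑ v ∈ T, ∑ q ∈ I,
        (if L v p.1 = p.2 ∧ L v q.1 = q.2 then (1 : ℝ) else 0) ≤
        ((T.filter fun v => L v p.1 = p.2).card : ℝ) + I.card := by
      intro p hp
      rw [Finset.sum_comm]
      have e5 : ∀ q ∈ I, ∑ v ∈ T, (if L v p.1 = p.2 ∧ L v q.1 = q.2 then (1 : ℝ) else 0) ≤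
          (if q = p then ((T.filter fun v => L v p.1 = p.2).card : ℝ) else 0) + 1 := by
        intro q _
        have e6 : ∑ v ∈ T, (if L v p.1 = p.2 ∧ L v q.1 = q.2 then (1 : ℝ) else 0) =
            ((T.filter fun v => L v p.1 = p.2 ∧ L v q.1 = q.2).card : ℝ) := by
          simp only [Finset.card_filter, Nat.cast_sum, Nat.cast_ite, Nat.cast_one, Nat.cast_zero]
        rw [e6]
        by_cases hq : q = p
        · subst hq
          simp
        · rw [if_neg hq, zero_add]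
          have : (T.filter fun v => L v p.1 = p.2 ∧ L v q.1 = q.2).card ≤ 1 := by
            rw [Finset.card_le_one]
            intro v hv w hw
            rw [Finset.mem_filter] at hv hw
            exact k22_unique (fun h => hq h.symm) hv.2.1 hv.2.2 hw.2.1 hw.2.2
          exact_mod_cast this
      refine (Finset.sum_le_sum e5).trans ?_
      rw [Finset.sum_add_distrib, Finset.sum_ite_eq' I p, if_pos hp]
      simp
    refine (Finset.sum_le_sum e4).trans ?_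
    rw [Finset.sum_add_distrib]
    simp [sq]
  have e7 : ∑ v ∈ T, (2 * ((I.filter fun p => L v p.1 = p.2).card : ℝ)) ≤
      ∑ v ∈ T, (1 + ((I.filter fun p => L v p.1 = p.2).card : ℝ) ^ 2) := by
    refine Finset.sum_le_sum fun v _ => ?_
    nlinarith [sq_nonneg (((I.filter fun p => L v p.1 = p.2).card : ℝ) - 1)]
  rw [← Finset.mul_sum, Finset.sum_add_distrib, ← e1] at e7
  simp only [Finset.sum_const, nsmul_eq_mul, mul_one] at e7
  linarith

open Classical in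
/-- If most of the pairs of `Q` are on rich points then one point is on most lines of `Q`. -/
theorem k22 {Q Q' : Finset (ℂ × ℂ)} (hQ : Q ⊆ Q')
    (hm : ∀ x ∈ Q', ∀ y ∈ Q', x ≠ y → ∃ t : ℝ, Meet x y t) {A θ ζ : ℝ} (hA : 1 ≤ A)
    (hθ0 : 0 < θ) (hθ1 : θ ≤ 1) (hζ0 : 0 < ζ) (hζ1 : ζ ≤ 1 / 4)
    (hQ' : (Q'.card : ℝ) ≤ A * Q.card) (hbig : 16 * A ^ 2 / (θ ^ 2 * ζ) ≤ Q.card)
    (hpoor : (((Q ×ˢ Q).filter fun p => p.1 ≠ p.2 ∧ ¬ ∃ t : ℝ, Meet p.1 p.2 t ∧
      θ * Q.card ≤ ((Q'.filter fun v => Meet p.1 v t).card : ℝ)).card : ℝ) ≤ ζ * Q.card ^ 2) :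
    ∃ (t : ℝ) (P : ℂ), ((Q.filter fun v => L v t ≠ P).card : ℝ) ≤ 3 * ζ * Q.card := by
  by_contra hcon
  push Not at hcon
  set n : ℝ := (Q.card : ℝ) with hn
  have hA0 : 0 < A := by linarith
  have hθ2 : 0 < θ ^ 2 := by positivity
  have hbig' : 16 * A ^ 2 ≤ n * (θ ^ 2 * ζ) := by
    rw [div_le_iff₀ (by positivity)] at hbig
    exact hbig
  have hn0 : 0 < n := by
    by_contra h
    have h1 : n * (θ ^ 2 * ζ) ≤ 0 := mul_nonpos_of_nonpos_of_nonneg (not_lt.1 h) (by positivity)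
    nlinarith
  choose! τ hτ using hm
  -- the rich points
  set I : Finset (ℝ × ℂ) := ((Q'.offDiag.image fun p => (τ p.1 p.2, L p.1 (τ p.1 p.2))).filter
    fun p => θ * n ≤ ((Q'.filter fun v => L v p.1 = p.2).card : ℝ)) with hI
  -- few rich points
  have hIcard : (I.card : ℝ) ≤ 2 * A / θ := by
    by_contra hc
    push Not at hc
    have hc1 : ⌈2 * A / θ⌉₊ ≤ I.card := Nat.ceil_le.2 hc.le
    obtain ⟨J, hJI, hJc⟩ := Finset.exists_subset_card_eq hc1
    have hJ1 : (2 * A / θ : ℝ) ≤ J.card := by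
      rw [hJc]; exact Nat.le_ceil _
    have hJ2 : (J.card : ℝ) ≤ 2 * A / θ + 1 := by
      rw [hJc]; exact (Nat.ceil_lt_add_one (by positivity)).le
    have hJ3 : (J.card : ℝ) * θ ≤ 3 * A := by
      have : (J.card : ℝ) * θ ≤ (2 * A / θ + 1) * θ := mul_le_mul_of_nonneg_right hJ2 hθ0.le
      rw [add_mul, div_mul_cancel₀ _ hθ0.ne'] at this
      linarith
    have hJ4 : 2 * A ≤ (J.card : ℝ) * θ := by
      rw [div_le_iff₀ hθ0] at hJ1
      exact hJ1
    have h1 := k22_bonf Q' J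
    have h2 : ∑ p ∈ J, (θ * n) ≤ ∑ p ∈ J, ((Q'.filter fun v => L v p.1 = p.2).card : ℝ) :=
      Finset.sum_le_sum fun p hp => (Finset.mem_filter.1 (hJI hp)).2
    rw [Finset.sum_const, nsmul_eq_mul] at h2
    have h3 : 2 * A * n ≤ A * n + (J.card : ℝ) ^ 2 := by nlinarith
    have h4 : A * n * θ ^ 2 ≤ (3 * A) ^ 2 := by
      have h5 : A * n ≤ (J.card : ℝ) ^ 2 := by linarith
      calc A * n * θ ^ 2 ≤ (J.card : ℝ) ^ 2 * θ ^ 2 := mul_le_mul_of_nonneg_right h5 hθ2.le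
        _ = ((J.card : ℝ) * θ) ^ 2 := by ring
        _ ≤ (3 * A) ^ 2 := by
            apply pow_le_pow_left₀ (by positivity) hJ3
    have h6 : 64 * A ^ 2 ≤ n * θ ^ 2 := by
      have : n * (θ ^ 2 * ζ) ≤ n * (θ ^ 2 * (1 / 4)) := by
        apply mul_le_mul_of_nonneg_left _ hn0.le
        exact mul_le_mul_of_nonneg_left hζ1 hθ2.le
      nlinarith
    have h7 : A * (64 * A ^ 2) ≤ A * (n * θ ^ 2) := mul_le_mul_of_nonneg_left h6 hA0.le
    nlinarith [mul_pos hA0 hA0, mul_pos (mul_pos hA0 hA0) hA0,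
      mul_le_mul_of_nonneg_left hA (mul_pos hA0 hA0).le]
  have hI2 : (I.card : ℝ) ^ 2 ≤ ζ / 4 * n := by
    have h1 : (I.card : ℝ) ^ 2 ≤ (2 * A / θ) ^ 2 := pow_le_pow_left₀ (by positivity) hIcard 2
    have h2 : (2 * A / θ) ^ 2 = 4 * A ^ 2 / θ ^ 2 := by
      rw [div_pow]; ring
    rw [h2] at h1
    refine h1.trans ?_
    rw [div_le_iff₀ hθ2]
    nlinarith
  -- the pairs of lines of `Q` on rich points
  set a : ℝ × ℂ → ℕ := fun p => (Q.filter fun v => L v p.1 = p.2).card with ha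
  have h1 : ∑ p ∈ I, (a p : ℝ) ≤ n + ζ / 4 * n := by
    have := k22_bonf Q I
    linarith
  have h2 : ∀ p ∈ I, (a p : ℝ) ≤ (1 - 3 * ζ) * n := by
    intro p _
    have h3 := hcon p.1 p.2
    have h4 : (a p : ℝ) + ((Q.filter fun v => L v p.1 ≠ p.2).card : ℝ) = n := by
      rw [hn, ← Finset.card_filter_add_card_filter_not (s := Q) (fun v => L v p.1 = p.2)]
      push_cast
      rfl
    nlinarith
  have h3 : (((Q.offDiag).filter fun p => ∃ t : ℝ, Meet p.1 p.2 t ∧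
      θ * n ≤ ((Q'.filter fun v => Meet p.1 v t).card : ℝ)).card : ℝ) ≤
      ∑ p ∈ I, (a p : ℝ) * a p := by
    have h4 : ((Q.offDiag).filter fun p => ∃ t : ℝ, Meet p.1 p.2 t ∧
        θ * n ≤ ((Q'.filter fun v => Meet p.1 v t).card : ℝ)) ⊆
        I.biUnion fun p => (Q.filter fun v => L v p.1 = p.2) ×ˢ
          (Q.filter fun v => L v p.1 = p.2) := by
      intro p hp
      rw [Finset.mem_filter, Finset.mem_offDiag] at hp
      obtain ⟨⟨hp1, hp2, hp3⟩, t, ht1, ht2⟩ := hp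
      rw [Finset.mem_biUnion]
      have ht3 : τ p.1 p.2 = t := (hτ p.1 (hQ hp1) p.2 (hQ hp2) hp3).unique ht1 hp3
      refine ⟨(t, L p.1 t), ?_, ?_⟩
      · rw [hI, Finset.mem_filter]
        refine ⟨Finset.mem_image.2 ⟨p, Finset.mem_offDiag.2 ⟨hQ hp1, hQ hp2, hp3⟩, by rw [ht3]⟩, ?_⟩
        refine ht2.trans (le_of_eq ?_)
        have : (Q'.filter fun v => Meet p.1 v t) =
            Q'.filter fun v => L v t = L p.1 t :=
          Finset.filter_congr fun v _ => ⟨fun h => Eq.symm h, fun h => Eq.symm h⟩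
        rw [this]
      · rw [Finset.mem_product, Finset.mem_filter, Finset.mem_filter]
        exact ⟨⟨hp1, rfl⟩, hp2, ht1.symm⟩
    have h5 := (Finset.card_le_card h4).trans Finset.card_biUnion_le
    refine (Nat.cast_le.2 h5).trans (le_of_eq ?_)
    push_cast [Finset.card_product]
    rfl
  have h4 : ((Q.offDiag.card : ℕ) : ℝ) = n ^ 2 - n := by
    have h5 : Q.offDiag.card + Q.card = Q.card * Q.card := by
      rw [Finset.offDiag_card]
      exact Nat.sub_add_cancel (Nat.le_mul_self _)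
    have h6 : ((Q.offDiag.card : ℕ) : ℝ) + n = n * n := by
      rw [hn]; exact_mod_cast h5
    nlinarith
  have h5 : (Q.offDiag.card : ℝ) ≤ ∑ p ∈ I, (a p : ℝ) * a p + ζ * n ^ 2 := by
    rw [← Finset.card_filter_add_card_filter_not (s := Q.offDiag) (fun p => ∃ t : ℝ, Meet p.1 p.2 t ∧
      θ * n ≤ ((Q'.filter fun v => Meet p.1 v t).card : ℝ))]
    push_cast
    refine add_le_add h3 (le_trans (Nat.cast_le.2 (Finset.card_le_card ?_)) hpoor)
    intro p hp
    rw [Finset.mem_filter, Finset.mem_offDiag] at hp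
    rw [Finset.mem_filter, Finset.mem_product]
    exact ⟨⟨hp.1.1, hp.1.2.1⟩, hp.1.2.2, hp.2⟩
  have h6 : ∑ p ∈ I, (a p : ℝ) * a p ≤ (1 - 3 * ζ) * n * (n + ζ / 4 * n) := by
    calc ∑ p ∈ I, (a p : ℝ) * a p ≤ ∑ p ∈ I, (1 - 3 * ζ) * n * (a p : ℝ) :=
          Finset.sum_le_sum fun p hp => mul_le_mul_of_nonneg_right (h2 p hp) (by positivity)
      _ = (1 - 3 * ζ) * n * ∑ p ∈ I, (a p : ℝ) := by rw [Finset.mul_sum]
      _ ≤ (1 - 3 * ζ) * n * (n + ζ / 4 * n) := by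
          apply mul_le_mul_of_nonneg_left h1
          have : 0 ≤ 1 - 3 * ζ := by linarith
          positivity
  rw [h4] at h5
  have h7 : n ^ 2 - n ≤ (1 - 3 * ζ) * n * (n + ζ / 4 * n) + ζ * n ^ 2 := h5.trans (by linarith)
  have h8 : n * (7 / 4 * ζ * n) ≤ n * 1 := by
    have h81 : 0 ≤ (n * ζ) ^ 2 := sq_nonneg _
    have h82 : 0 ≤ n ^ 2 * ζ := by positivity
    nlinarith
  have h9 : 7 / 4 * ζ * n ≤ 1 := le_of_mul_le_mul_left h8 hn0
  have h10 : 16 ≤ n * ζ := by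
    have h11 : n * (θ ^ 2 * ζ) ≤ n * (1 * ζ) := by
      apply mul_le_mul_of_nonneg_left _ hn0.le
      apply mul_le_mul_of_nonneg_right _ hζ0.le
      exact pow_le_one₀ hθ0.le hθ1
    nlinarith
  nlinarith

end SD12
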