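import Pool.Agent.SD12.Plane2a

/-!
# The number of the points on many lines (Szemerédi and Trotter)
-/

open Finset

namespace SD12

open Classical in
/-- Counting the pairs of lines through the points. -/
lemma pl2_pairs (Ls Ps : Finset (ℝ × ℝ)) {k : ℝ} (hk : 2 ≤ k)
    (h : ∀ p ∈ Ps, k ≤ ((Ls.filter fun l => p.2 = l.1 * p.1 + l.2).card : ℝ)) :
    (Ps.card : ℝ) * (k * (k - 1)) ≤ (Ls.card : ℝ) ^ 2 := by
  have h1 : ∀ p ∈ Ps, k * (k - 1) ≤
      (((Ls.filter fun l => p.2 = l.1 * p.1 + l.2).offDiag.card : ℕ) : ℝ) := by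
    intro p hp
    have h2 := h p hp
    rw [Finset.offDiag_card, Nat.cast_sub (Nat.le_mul_self _), Nat.cast_mul]
    nlinarith
  have h2 : (Ps.biUnion fun p => (Ls.filter fun l => p.2 = l.1 * p.1 + l.2).offDiag).card ≤
      Ls.card ^ 2 := by
    rw [pow_two, ← Finset.card_product]
    refine Finset.card_le_card fun q hq => ?_
    obtain ⟨p, _, hp⟩ := Finset.mem_biUnion.1 hq
    obtain ⟨h3, h4, _⟩ := Finset.mem_offDiag.1 hp
    exact Finset.mem_product.2 ⟨(Finset.mem_filter.1 h3).1, (Finset.mem_filter.1 h4).1⟩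
  rw [Finset.card_biUnion] at h2
  · have h3 : ((∑ p ∈ Ps, (Ls.filter fun l => p.2 = l.1 * p.1 + l.2).offDiag.card : ℕ) : ℝ) ≤
        (Ls.card : ℝ) ^ 2 := by exact_mod_cast h2
    rw [Nat.cast_sum] at h3
    refine le_trans ?_ h3
    have h4 := Finset.sum_le_sum h1
    rw [Finset.sum_const, nsmul_eq_mul] at h4
    exact h4
  · intro p hp p' hp' hne
    refine Finset.disjoint_left.2 fun q hq hq' => ?_
    obtain ⟨h3, h4, h5⟩ := Finset.mem_offDiag.1 hq
    obtain ⟨g3, g4, _⟩ := Finset.mem_offDiag.1 hq'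
    have e1 := (Finset.mem_filter.1 h3).2
    have e2 := (Finset.mem_filter.1 h4).2
    have e3 := (Finset.mem_filter.1 g3).2
    have e4 := (Finset.mem_filter.1 g4).2
    by_cases hx : p.1 = p'.1
    · refine hne (Prod.ext hx ?_)
      rw [e1, e3, hx]
    · exact h5 (pl2_line e1 e3 e2 e4 hx)

/-- Elementary: the final inequality. -/
lemma pl2_final {n l k I : ℝ} (hn : 0 ≤ n) (hl : 0 ≤ l) (hk : 100 ≤ k) (hI : k * n ≤ I)
    (hcr : 4 * n + l ≤ I → (I - l) ^ 3 ≤ 64 * n ^ 2 * l ^ 2) :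
    n ≤ 200 * l ^ 2 / k ^ 3 + 2 * l / k := by
  have hk0 : 0 < k := by linarith
  by_contra hcon
  push Not at hcon
  have h1 : 200 * l ^ 2 + 2 * l * k ^ 2 < n * k ^ 3 := by
    have h2 : 200 * l ^ 2 / k ^ 3 + 2 * l / k = (200 * l ^ 2 + 2 * l * k ^ 2) / k ^ 3 := by
      field_simp
    rw [h2, div_lt_iff₀ (by positivity)] at hcon
    exact hcon
  have hm : 200 * l ^ 2 < k ^ 2 * (k * n - 2 * l) := by nlinarith
  have hm2 : 0 < k * n - 2 * l := by
    by_contra h3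
    have h4 : k ^ 2 * (k * n - 2 * l) ≤ 0 := mul_nonpos_of_nonneg_of_nonpos (by positivity)
      (by linarith)
    nlinarith [sq_nonneg l]
  have hn0 : 0 < n := by
    rcases hn.lt_or_eq with h3 | h3
    · exact h3
    · rw [← h3] at hm2
      linarith
  have h4 : 4 * n + l ≤ I := by nlinarith
  have h5 := hcr h4
  have h6 : (k * n - l) ^ 3 ≤ (I - l) ^ 3 :=
    pow_le_pow_left₀ (by linarith) (by linarith) 3
  set m : ℝ := k * n with hm'
  have h7 : m ^ 2 * (m - 2 * l) ≤ 2 * (m - l) ^ 3 := by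
    have a1 : m * (m - 2 * l) ≤ (m - l) ^ 2 := by nlinarith [sq_nonneg l]
    have a2 : m ≤ 2 * (m - l) := by linarith
    have a3 : 0 ≤ m * (m - 2 * l) := by
      have : 0 < m := by linarith
      positivity
    calc m ^ 2 * (m - 2 * l) = m * (m * (m - 2 * l)) := by ring
      _ ≤ (2 * (m - l)) * (m * (m - 2 * l)) := mul_le_mul_of_nonneg_right a2 a3
      _ ≤ (2 * (m - l)) * (m - l) ^ 2 := mul_le_mul_of_nonneg_left a1 (by linarith)
      _ = 2 * (m - l) ^ 3 := by ring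
  have h8 : n ^ 2 * (k ^ 2 * (m - 2 * l)) ≤ n ^ 2 * (128 * l ^ 2) := by
    calc n ^ 2 * (k ^ 2 * (m - 2 * l)) = m ^ 2 * (m - 2 * l) := by rw [hm']; ring
      _ ≤ 2 * (m - l) ^ 3 := h7
      _ ≤ 2 * (64 * n ^ 2 * l ^ 2) := by linarith
      _ = n ^ 2 * (128 * l ^ 2) := by ring
  have h9 := le_of_mul_le_mul_left h8 (by positivity)
  nlinarith [sq_nonneg l]

open Classical in
/-- `rich_points` if the points have different abscissae. -/
lemma pl2_distinct (Ls Ps : Finset (ℝ × ℝ)) {k : ℝ} (hk : 2 ≤ k)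
    (hx : ∀ u ∈ Ps, ∀ v ∈ Ps, u.1 = v.1 → u = v)
    (h : ∀ p ∈ Ps, k ≤ ((Ls.filter fun l => p.2 = l.1 * p.1 + l.2).card : ℝ)) :
    (Ps.card : ℝ) ≤ 200 * Ls.card ^ 2 / k ^ 3 + 2 * Ls.card / k := by
  have hk0 : 0 < k := by linarith
  rcases le_total k 100 with hk1 | hk1
  · have h1 := pl2_pairs Ls Ps hk h
    have h2 : (Ps.card : ℝ) ≤ 200 * Ls.card ^ 2 / k ^ 3 := by
      rw [le_div_iff₀ (by positivity)]
      have h3 : k ^ 2 ≤ 200 * (k - 1) := by nlinarith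
      calc (Ps.card : ℝ) * k ^ 3 = (Ps.card : ℝ) * k * k ^ 2 := by ring
        _ ≤ (Ps.card : ℝ) * k * (200 * (k - 1)) := by gcongr
        _ = 200 * ((Ps.card : ℝ) * (k * (k - 1))) := by ring
        _ ≤ 200 * (Ls.card : ℝ) ^ 2 := by linarith
    have h4 : 0 ≤ 2 * (Ls.card : ℝ) / k := by positivity
    linarith
  · refine pl2_final (Nat.cast_nonneg _) (Nat.cast_nonneg _) hk1
      (I := (((Ls ×ˢ Ps).filter fun q => q.2.2 = q.1.1 * q.2.1 + q.1.2).card : ℝ)) ?_ ?_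
    · have h1 : ((Ls ×ˢ Ps).filter fun q => q.2.2 = q.1.1 * q.2.1 + q.1.2).card =
          ∑ p ∈ Ps, (Ls.filter fun l => p.2 = l.1 * p.1 + l.2).card := by
        rw [Finset.card_filter, Finset.sum_product_right]
        refine Finset.sum_congr rfl fun p _ => ?_
        rw [Finset.card_filter]
      rw [h1, Nat.cast_sum]
      have h2 := Finset.sum_le_sum h
      rw [Finset.sum_const, nsmul_eq_mul, mul_comm] at h2
      exact h2
    · intro hb
      refine pl2_core Ls Ps hx ?_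
      exact_mod_cast hb

/-- A generic shear. -/
lemma pl2_shear (Ls Ps : Finset (ℝ × ℝ)) : ∃ ε : ℝ,
    (∀ u ∈ Ps, ∀ v ∈ Ps, u.1 + ε * u.2 = v.1 + ε * v.2 → u = v) ∧
      ∀ l ∈ Ls, 1 + ε * l.1 ≠ 0 := by
  classical
  obtain ⟨ε, hε⟩ := Infinite.exists_notMem_finset
    (((Ps ×ˢ Ps).image fun q => (q.1.1 - q.2.1) / (q.2.2 - q.1.2)) ∪ Ls.image fun l => -1 / l.1)
  rw [Finset.mem_union, not_or] at hε
  obtain ⟨h1, h2⟩ := hε
  refine ⟨ε, ?_, ?_⟩
  · intro u hu v hv huv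
    by_cases h3 : u.2 = v.2
    · refine Prod.ext ?_ h3
      rw [h3] at huv
      linarith
    · exfalso
      refine h1 (Finset.mem_image.2 ⟨(u, v), Finset.mem_product.2 ⟨hu, hv⟩, ?_⟩)
      have h4 : v.2 - u.2 ≠ 0 := fun h => h3 (by linarith)
      rw [div_eq_iff h4]
      linarith
  · intro l hl h3
    refine h2 (Finset.mem_image.2 ⟨l, hl, ?_⟩)
    have h4 : l.1 ≠ 0 := by
      intro h
      rw [h] at h3
      norm_num at h3
    rw [div_eq_iff h4]
    linarith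

open Classical in
/-- The number of the points on at least `k` lines `y = m x + c` of a finite set `Ls` of pairs
`(m, c)`. -/
theorem rich_points (Ls Ps : Finset (ℝ × ℝ)) {k : ℝ} (hk : 2 ≤ k)
    (h : ∀ p ∈ Ps, k ≤ ((Ls.filter fun l => p.2 = l.1 * p.1 + l.2).card : ℝ)) :
    (Ps.card : ℝ) ≤ 200 * Ls.card ^ 2 / k ^ 3 + 2 * Ls.card / k := by
  obtain ⟨ε, hσ, hτ⟩ := pl2_shear Ls Ps
  have hk0 : 0 < k := by linarith
  have hon : ∀ l ∈ Ls, ∀ p : ℝ × ℝ, p.2 = l.1 * p.1 + l.2 →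
      p.2 = l.1 / (1 + ε * l.1) * (p.1 + ε * p.2) + l.2 / (1 + ε * l.1) := by
    intro l hl p hp
    have h1 := hτ l hl
    rw [div_mul_eq_mul_div, ← add_div, eq_div_iff h1]
    linarith
  have hinj : ∀ l ∈ Ls, ∀ l' ∈ Ls, (l.1 / (1 + ε * l.1), l.2 / (1 + ε * l.1)) =
      (l'.1 / (1 + ε * l'.1), l'.2 / (1 + ε * l'.1)) → l = l' := by
    intro l hl l' hl' he
    obtain ⟨e1, e2⟩ := Prod.mk.inj he
    have h1 := hτ l hl
    have h2 := hτ l' hl'
    rw [div_eq_div_iff h1 h2] at e1 e2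
    have e3 : l.1 = l'.1 := by linarith
    refine Prod.ext e3 ?_
    rw [e3] at e2
    exact mul_right_cancel₀ h2 e2
  have hP : (Ps.image fun p => (p.1 + ε * p.2, p.2)).card = Ps.card := by
    refine Finset.card_image_of_injOn fun u hu v hv huv => ?_
    exact hσ u hu v hv (Prod.mk.inj huv).1
  have hL : ((Ls.image fun l => (l.1 / (1 + ε * l.1), l.2 / (1 + ε * l.1))).card : ℝ) ≤
      Ls.card := by exact_mod_cast Finset.card_image_le
  have key := pl2_distinct (Ls.image fun l => (l.1 / (1 + ε * l.1), l.2 / (1 + ε * l.1)))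
    (Ps.image fun p => (p.1 + ε * p.2, p.2)) hk ?_ ?_
  · rw [hP] at key
    refine key.trans ?_
    gcongr
  · intro u hu v hv huv
    obtain ⟨p, hp, rfl⟩ := Finset.mem_image.1 hu
    obtain ⟨q, hq, rfl⟩ := Finset.mem_image.1 hv
    rw [hσ p hp q hq huv]
  · intro u hu
    obtain ⟨p, hp, rfl⟩ := Finset.mem_image.1 hu
    refine (h p hp).trans ?_
    rw [Nat.cast_le]
    refine Finset.card_le_card_of_injOn (fun l => (l.1 / (1 + ε * l.1), l.2 / (1 + ε * l.1))) ?_ ?_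
    · intro l hl
      obtain ⟨h1, h2⟩ := Finset.mem_filter.1 (Finset.mem_coe.1 hl)
      exact Finset.mem_coe.2 (Finset.mem_filter.2 ⟨Finset.mem_image_of_mem _ h1, hon l h1 p h2⟩)
    · intro l hl l' hl' he
      exact hinj l (Finset.mem_filter.1 (Finset.mem_coe.1 hl)).1 l'
        (Finset.mem_filter.1 (Finset.mem_coe.1 hl')).1 he

end SD12
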