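import Pool.Agent.SD12.K22bA
import Pool.Agent.SD12.Plane2
import Pool.Agent.SD12.MeetFam

/-!
# If most of the pairs of a family are on rich points then one point is on most lines
-/

open Finset ComplexConjugate

namespace SD12

open Classical in
/-- If most of the pairs of `Q` are on rich points then one point is on most lines of `Q`. -/
theorem k22b {Q Q' : Finset (ℂ × ℂ)} (hQ : Q ⊆ Q')
    (hm : ∀ x ∈ Q', ∀ y ∈ Q', x ≠ y → ∃ t : ℝ, Meet x y t) {A θ ζ : ℝ} (hA : 1 ≤ A)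
    (hθ0 : 0 < θ) (hθ1 : θ ≤ 1) (hζ0 : 0 < ζ) (hζ1 : ζ ≤ 1 / 8)
    (hQ' : (Q'.card : ℝ) ≤ A * Q.card) (hbig : 10000 * A ^ 4 / (θ * ζ ^ 3) ≤ Q.card)
    (hpoor : (((Q ×ˢ Q).filter fun p => p.1 ≠ p.2 ∧ ¬ ∃ t : ℝ, Meet p.1 p.2 t ∧
      θ * Q.card ≤ ((Q'.filter fun v => Meet p.1 v t).card : ℝ)).card : ℝ) ≤ ζ * Q.card ^ 2) :
    ∃ (t : ℝ) (P : ℂ), ((Q.filter fun v => L v t ≠ P).card : ℝ) ≤ 6 * ζ * Q.card :=
  k22b_of (fun Ls Ps {_} hk h => rich_points Ls Ps hk h) (fun h => meet_family h)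
    (fun hu h => plane_coord hu h) hQ hm hA hθ0 hθ1 hζ0 hζ1 hQ' hbig hpoor

end SD12
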