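import Pool.Agent.SD12.K22

set_option autoImplicit false

/-!
# `k22b` from the Szemerédi–Trotter theorem and the plane coordinates
-/

open Finset ComplexConjugate

namespace SD12

open Classical in
/-- Statement of `rich_points`. -/
def RichPoints : Prop := ∀ (Ls Ps : Finset (ℝ × ℝ)) {k : ℝ} (_ : 2 ≤ k)
    (_ : ∀ p ∈ Ps, k ≤ ((Ls.filter fun l => p.2 = l.1 * p.1 + l.2).card : ℝ)),
    (Ps.card : ℝ) ≤ 200 * Ls.card ^ 2 / k ^ 3 + 2 * Ls.card / k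

open Classical in
/-- The pairs at the meeting points with between `k` and `2k` lines. -/
lemma k22b_level (hR : RichPoints) {Q Q' : Finset (ℂ × ℂ)} (hQ : Q ⊆ Q')
    {Φ : ℂ × ℂ → ℝ × ℝ} (hinj : ∀ x ∈ Q', ∀ y ∈ Q', Φ x = Φ y → x = y)
    (hΦ : ∀ x ∈ Q', ∀ y ∈ Q', ∀ t : ℝ, Meet x y t ↔
      (Φ x).1 * t + (Φ x).2 = (Φ y).1 * t + (Φ y).2) {k : ℝ} (hk : 2 ≤ k) :
    (((Q ×ˢ Q).filter fun p => p.1 ≠ p.2 ∧ ∃ t : ℝ, Meet p.1 p.2 t ∧
      k ≤ ((Q'.filter fun v => Meet p.1 v t).card : ℝ) ∧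
      ((Q'.filter fun v => Meet p.1 v t).card : ℝ) < 2 * k).card : ℝ) ≤
      800 * Q'.card ^ 2 / k + 8 * Q'.card * k := by
  set T := (Q ×ˢ Q).filter fun p => p.1 ≠ p.2 ∧ ∃ t : ℝ, Meet p.1 p.2 t ∧
      k ≤ ((Q'.filter fun v => Meet p.1 v t).card : ℝ) ∧
      ((Q'.filter fun v => Meet p.1 v t).card : ℝ) < 2 * k with hT
  have hk0 : 0 < k := by linarith
  have hTmem : ∀ p ∈ T, ∃ t : ℝ, p.1 ∈ Q' ∧ p.2 ∈ Q' ∧ p.1 ≠ p.2 ∧ Meet p.1 p.2 t ∧
      k ≤ ((Q'.filter fun v => Meet p.1 v t).card : ℝ) ∧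
      ((Q'.filter fun v => Meet p.1 v t).card : ℝ) < 2 * k := by
    intro p hp
    rw [hT, Finset.mem_filter, Finset.mem_product] at hp
    obtain ⟨⟨h1, h2⟩, h3, t, h4, h5, h6⟩ := hp
    exact ⟨t, hQ h1, hQ h2, h3, h4, h5, h6⟩
  choose! τ hτ using hTmem
  set f : (ℂ × ℂ) × (ℂ × ℂ) → ℝ × ℝ := fun p =>
    (τ p, (Φ p.1).1 * τ p + (Φ p.1).2) with hf
  set Ls : Finset (ℝ × ℝ) := Q'.image Φ with hLs
  have hLcard : Ls.card = Q'.card := Finset.card_image_of_injOn fun x hx y hy h => hinj x hx y hy h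
  -- the number of the lines through a point
  have hthrough : ∀ x ∈ Q', ∀ t : ℝ,
      (Ls.filter fun l => (Φ x).1 * t + (Φ x).2 = l.1 * t + l.2).card =
        (Q'.filter fun v => Meet x v t).card := by
    intro x hx t
    have h1 : (Ls.filter fun l => (Φ x).1 * t + (Φ x).2 = l.1 * t + l.2) =
        (Q'.filter fun v => Meet x v t).image Φ := by
      ext l
      rw [Finset.mem_filter, hLs, Finset.mem_image, Finset.mem_image]
      constructor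
      · rintro ⟨⟨v, hv, rfl⟩, h⟩
        exact ⟨v, Finset.mem_filter.2 ⟨hv, (hΦ x hx v hv t).2 h⟩, rfl⟩
      · rintro ⟨v, hv, rfl⟩
        rw [Finset.mem_filter] at hv
        exact ⟨⟨v, hv.1, rfl⟩, (hΦ x hx v hv.1 t).1 hv.2⟩
    rw [h1]
    apply Finset.card_image_of_injOn
    intro v hv w hw h
    rw [Finset.mem_coe, Finset.mem_filter] at hv hw
    exact hinj v hv.1 w hw.1 h
  have hP : ((T.image f).card : ℝ) ≤ 200 * Q'.card ^ 2 / k ^ 3 + 2 * Q'.card / k := by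
    rw [← hLcard]
    apply hR Ls (T.image f) hk
    intro q hq
    rw [Finset.mem_image] at hq
    obtain ⟨p, hp, rfl⟩ := hq
    obtain ⟨h1, -, -, -, h5, -⟩ := hτ p hp
    have h7 := hthrough p.1 h1 (τ p)
    rw [← h7] at h5
    exact h5
  -- the fibres
  have hfib : ∀ q ∈ T.image f, ((T.filter fun p => f p = q).card : ℝ) ≤ 4 * k ^ 2 := by
    intro q hq
    rw [Finset.mem_image] at hq
    obtain ⟨p, hp, rfl⟩ := hq
    obtain ⟨h1, h2, h3, h4, h5, h6⟩ := hτ p hp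
    set S := Q'.filter fun v => Meet p.1 v (τ p) with hS
    have hsub : (T.filter fun p' => f p' = f p) ⊆ S ×ˢ S := by
      intro p' hp'
      rw [Finset.mem_filter] at hp'
      obtain ⟨g1, g2, g3, g4, g5, g6⟩ := hτ p' hp'.1
      have e1 : τ p' = τ p := congrArg Prod.fst hp'.2
      have e2 : (Φ p'.1).1 * τ p' + (Φ p'.1).2 = (Φ p.1).1 * τ p + (Φ p.1).2 :=
        congrArg Prod.snd hp'.2
      have e3 : Meet p.1 p'.1 (τ p) := by
        rw [hΦ p.1 h1 p'.1 g1, ← e2, e1]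
      rw [Finset.mem_product, hS, Finset.mem_filter, Finset.mem_filter]
      refine ⟨⟨g1, e3⟩, g2, ?_⟩
      exact e3.trans (e1 ▸ g4)
    have h7 : ((T.filter fun p' => f p' = f p).card : ℝ) ≤ (S.card : ℝ) * S.card := by
      have h8 := Finset.card_le_card hsub
      rw [Finset.card_product] at h8
      exact_mod_cast h8
    have h8 : (0 : ℝ) ≤ S.card := Nat.cast_nonneg _
    nlinarith
  have hsum : (T.card : ℝ) = ∑ q ∈ T.image f, ((T.filter fun p => f p = q).card : ℝ) := by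
    have h1 := Finset.card_eq_sum_card_fiberwise (s := T) (t := T.image f) (f := f)
      (fun p hp => Finset.mem_coe.2 (Finset.mem_image_of_mem f hp))
    exact_mod_cast h1
  have h1 : (T.card : ℝ) ≤ (T.image f).card * (4 * k ^ 2) := by
    rw [hsum]
    calc ∑ q ∈ T.image f, ((T.filter fun p => f p = q).card : ℝ)
        ≤ ∑ q ∈ T.image f, 4 * k ^ 2 := Finset.sum_le_sum hfib
      _ = _ := by rw [Finset.sum_const, nsmul_eq_mul]
  refine h1.trans ?_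
  calc ((T.image f).card : ℝ) * (4 * k ^ 2)
      ≤ (200 * Q'.card ^ 2 / k ^ 3 + 2 * Q'.card / k) * (4 * k ^ 2) :=
        mul_le_mul_of_nonneg_right hP (by positivity)
    _ = 800 * Q'.card ^ 2 / k + 8 * Q'.card * k := by
        field_simp
        ring

open Classical in
/-- The case of a plane. -/
lemma k22b_plane (hR : RichPoints) {Q Q' : Finset (ℂ × ℂ)} (hQ : Q ⊆ Q')
    {Φ : ℂ × ℂ → ℝ × ℝ} (hinj : ∀ x ∈ Q', ∀ y ∈ Q', Φ x = Φ y → x = y)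
    (hΦ : ∀ x ∈ Q', ∀ y ∈ Q', ∀ t : ℝ, Meet x y t ↔
      (Φ x).1 * t + (Φ x).2 = (Φ y).1 * t + (Φ y).2)
    {A θ ζ : ℝ} (hA : 1 ≤ A)
    (hθ0 : 0 < θ) (_ : θ ≤ 1) (hζ0 : 0 < ζ) (hζ1 : ζ ≤ 1 / 8)
    (hQ' : (Q'.card : ℝ) ≤ A * Q.card) (hbig : 10000 * A ^ 4 / (θ * ζ ^ 3) ≤ Q.card) :
    (((Q ×ˢ Q).filter fun p => p.1 ≠ p.2 ∧ ∃ t : ℝ, Meet p.1 p.2 t ∧
      θ * Q.card ≤ ((Q'.filter fun v => Meet p.1 v t).card : ℝ) ∧
      ((Q'.filter fun v => Meet p.1 v t).card : ℝ) < ζ / (32 * A) * Q.card).card : ℝ) ≤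
      ζ * Q.card ^ 2 := by
  set n : ℝ := (Q.card : ℝ) with hn
  set η : ℝ := ζ / (32 * A) with hη
  have hA0 : 0 < A := by linarith
  have hη0 : 0 < η := by positivity
  have hζ3 : 0 < ζ ^ 3 := by positivity
  have hbig' : 10000 * A ^ 4 ≤ n * (θ * ζ ^ 3) := by
    rw [div_le_iff₀ (by positivity)] at hbig
    exact hbig
  have hA4 : 1 ≤ A ^ 4 := one_le_pow₀ hA
  have hn0 : 0 < n := by
    by_contra h
    have h1 : n * (θ * ζ ^ 3) ≤ 0 := mul_nonpos_of_nonpos_of_nonneg (not_lt.1 h) (by positivity)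
    nlinarith
  -- θ n is large
  have hθn : 10000 ≤ θ * n := by
    have h1 : ζ ^ 3 ≤ 1 := pow_le_one₀ hζ0.le (by linarith)
    have h2 : n * (θ * ζ ^ 3) ≤ n * θ := by
      have : n * θ * ζ ^ 3 ≤ n * θ * 1 := mul_le_mul_of_nonneg_left h1 (by positivity)
      linarith
    nlinarith
  have hθn0 : 0 < θ * n := by linarith
  have hN'0 : (0 : ℝ) ≤ Q'.card := Nat.cast_nonneg _
  by_cases hcase : θ ≤ η
  swap
  · -- no such pairs
    rw [Finset.filter_false_of_mem, Finset.card_empty]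
    · simp only [Nat.cast_zero]; positivity
    · rintro p - ⟨-, t, -, h1, h2⟩
      have h3 : θ * n < η * n := lt_of_le_of_lt h1 h2
      exact hcase (le_of_mul_le_mul_right h3.le hn0)
  obtain ⟨J, hJ1, hJ2⟩ := exists_nat_pow_near (x := η / θ) (y := 2)
    (by rw [le_div_iff₀ hθ0]; linarith) (by norm_num)
  rw [le_div_iff₀ hθ0] at hJ1
  rw [div_lt_iff₀ hθ0] at hJ2
  set T : ℕ → Finset ((ℂ × ℂ) × (ℂ × ℂ)) := fun i =>
    (Q ×ˢ Q).filter fun p => p.1 ≠ p.2 ∧ ∃ t : ℝ, Meet p.1 p.2 t ∧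
      2 ^ i * (θ * n) ≤ ((Q'.filter fun v => Meet p.1 v t).card : ℝ) ∧
      ((Q'.filter fun v => Meet p.1 v t).card : ℝ) < 2 * (2 ^ i * (θ * n)) with hT
  have hsub : ((Q ×ˢ Q).filter fun p => p.1 ≠ p.2 ∧ ∃ t : ℝ, Meet p.1 p.2 t ∧
      θ * n ≤ ((Q'.filter fun v => Meet p.1 v t).card : ℝ) ∧
      ((Q'.filter fun v => Meet p.1 v t).card : ℝ) < η * n) ⊆
      (Finset.range (J + 1)).biUnion T := by
    intro p hp
    rw [Finset.mem_filter] at hp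
    obtain ⟨h1, h2, t, h3, h4, h5⟩ := hp
    set m : ℝ := ((Q'.filter fun v => Meet p.1 v t).card : ℝ) with hm
    obtain ⟨i, hi1, hi2⟩ := exists_nat_pow_near (x := m / (θ * n)) (y := 2)
      (by rw [le_div_iff₀ hθn0]; linarith) (by norm_num)
    rw [le_div_iff₀ hθn0] at hi1
    rw [div_lt_iff₀ hθn0] at hi2
    rw [Finset.mem_biUnion]
    refine ⟨i, ?_, ?_⟩
    · rw [Finset.mem_range]
      have h6 : (2 : ℝ) ^ i * (θ * n) < 2 ^ (J + 1) * (θ * n) := by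
        calc (2 : ℝ) ^ i * (θ * n) ≤ m := hi1
          _ < η * n := h5
          _ ≤ 2 ^ (J + 1) * θ * n := mul_le_mul_of_nonneg_right hJ2.le hn0.le
          _ = _ := by ring
      have h7 : (2 : ℝ) ^ i < 2 ^ (J + 1) := lt_of_mul_lt_mul_right h6 hθn0.le
      exact (pow_lt_pow_iff_right₀ (by norm_num)).1 h7
    · rw [hT, Finset.mem_filter]
      refine ⟨h1, h2, t, h3, hi1, ?_⟩
      calc m < 2 ^ (i + 1) * (θ * n) := hi2
        _ = _ := by rw [pow_succ]; ring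
  have hTi : ∀ i, ((T i).card : ℝ) ≤ 800 * Q'.card ^ 2 / (θ * n) * (1 / 2) ^ i +
      8 * Q'.card * (θ * n) * 2 ^ i := by
    intro i
    have h2i : (1 : ℝ) ≤ 2 ^ i := one_le_pow₀ (by norm_num)
    have h1 : (2 : ℝ) ≤ 2 ^ i * (θ * n) := by nlinarith
    refine (k22b_level hR hQ hinj hΦ h1).trans (le_of_eq ?_)
    rw [one_div, inv_pow]
    field_simp
  have hcard : (((Q ×ˢ Q).filter fun p => p.1 ≠ p.2 ∧ ∃ t : ℝ, Meet p.1 p.2 t ∧
      θ * n ≤ ((Q'.filter fun v => Meet p.1 v t).card : ℝ) ∧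
      ((Q'.filter fun v => Meet p.1 v t).card : ℝ) < η * n).card : ℝ) ≤
      ∑ i ∈ Finset.range (J + 1), ((T i).card : ℝ) := by
    have h1 := (Finset.card_le_card hsub).trans Finset.card_biUnion_le
    exact_mod_cast h1
  refine hcard.trans ?_
  have hgeo1 : ∑ i ∈ Finset.range (J + 1), ((1 : ℝ) / 2) ^ i ≤ 2 := by
    have h1 := geom_sum_eq (x := (1 : ℝ) / 2) (by norm_num) (J + 1)
    rw [h1]
    have h2 : (0 : ℝ) < (1 / 2) ^ (J + 1) := by positivity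
    have h3 : ((1 / 2 : ℝ) ^ (J + 1) - 1) / (1 / 2 - 1) = 2 - 2 * (1 / 2) ^ (J + 1) := by
      ring
    rw [h3]
    linarith
  have hgeo2 : ∑ i ∈ Finset.range (J + 1), (2 : ℝ) ^ i ≤ 2 * 2 ^ J := by
    have h1 := geom_sum_eq (x := (2 : ℝ)) (by norm_num) (J + 1)
    rw [h1, pow_succ]
    have h3 : ((2 : ℝ) ^ J * 2 - 1) / (2 - 1) = 2 * 2 ^ J - 1 := by ring
    rw [h3]
    linarith
  calc ∑ i ∈ Finset.range (J + 1), ((T i).card : ℝ)
      ≤ ∑ i ∈ Finset.range (J + 1), (800 * Q'.card ^ 2 / (θ * n) * (1 / 2) ^ i +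
        8 * Q'.card * (θ * n) * 2 ^ i) := Finset.sum_le_sum fun i _ => hTi i
    _ = 800 * Q'.card ^ 2 / (θ * n) * ∑ i ∈ Finset.range (J + 1), (1 / 2 : ℝ) ^ i +
        8 * Q'.card * (θ * n) * ∑ i ∈ Finset.range (J + 1), (2 : ℝ) ^ i := by
        rw [Finset.sum_add_distrib, Finset.mul_sum, Finset.mul_sum]
    _ ≤ 800 * Q'.card ^ 2 / (θ * n) * 2 + 8 * Q'.card * (θ * n) * (2 * 2 ^ J) := by
        gcongr
    _ ≤ 800 * (A * n) ^ 2 / (θ * n) * 2 + 16 * (A * n) * (η * n) := by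
        have h1 : 8 * (Q'.card : ℝ) * (θ * n) * (2 * 2 ^ J) =
            16 * Q'.card * ((2 ^ J * θ) * n) := by ring
        rw [h1]
        gcongr
    _ ≤ ζ * n ^ 2 := by
        have h1 : 800 * (A * n) ^ 2 / (θ * n) * 2 = 1600 * A ^ 2 * n / θ := by
          field_simp
          ring
        have h2 : 16 * (A * n) * (η * n) = ζ / 2 * n ^ 2 := by
          rw [hη]
          field_simp
          ring
        rw [h1, h2]
        have h3 : 1600 * A ^ 2 * n / θ ≤ ζ / 2 * n ^ 2 := by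
          rw [div_le_iff₀ hθ0]
          have h4 : 3200 * A ^ 2 ≤ n * (θ * ζ) := by
            have h5 : A ^ 2 ≤ A ^ 4 := pow_le_pow_right₀ hA (by norm_num)
            have h6 : ζ ^ 2 ≤ 1 := pow_le_one₀ hζ0.le (by linarith)
            have h7 : n * (θ * ζ ^ 3) ≤ n * (θ * ζ) := by
              have h8 : n * (θ * ζ) * ζ ^ 2 ≤ n * (θ * ζ) * 1 :=
                mul_le_mul_of_nonneg_left h6 (by positivity)
              nlinarith
            nlinarith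
          nlinarith
        linarith

open Classical in
/-- If most of the pairs of `Q` are on rich points then one point is on most lines of `Q`. -/
theorem k22b_of (hR : RichPoints)
    (hMF : ∀ {Q : Finset (ℂ × ℂ)} (_ : ∀ x ∈ Q, ∀ y ∈ Q, x ≠ y → ∃ t : ℝ, Meet x y t),
      (∃ (t : ℝ) (P : ℂ), ∀ z ∈ Q, L z t = P) ∨
        ∃ a c u : ℂ, u ≠ 0 ∧ ∀ z ∈ Q, Par (z.1 - a) u ∧ Par (z.2 - c) (Complex.I * u))
    (hPC : ∀ {Q : Finset (ℂ × ℂ)} {a c u : ℂ} (_ : u ≠ 0)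
      (_ : ∀ z ∈ Q, Par (z.1 - a) u ∧ Par (z.2 - c) (Complex.I * u)),
      ∃ Φ : ℂ × ℂ → ℝ × ℝ, (∀ x ∈ Q, ∀ y ∈ Q, Φ x = Φ y → x = y) ∧
        ∀ x ∈ Q, ∀ y ∈ Q, ∀ t : ℝ, Meet x y t ↔ (Φ x).1 * t + (Φ x).2 = (Φ y).1 * t + (Φ y).2)
    {Q Q' : Finset (ℂ × ℂ)} (hQ : Q ⊆ Q')
    (hm : ∀ x ∈ Q', ∀ y ∈ Q', x ≠ y → ∃ t : ℝ, Meet x y t) {A θ ζ : ℝ} (hA : 1 ≤ A)
    (hθ0 : 0 < θ) (hθ1 : θ ≤ 1) (hζ0 : 0 < ζ) (hζ1 : ζ ≤ 1 / 8)
    (hQ' : (Q'.card : ℝ) ≤ A * Q.card) (hbig : 10000 * A ^ 4 / (θ * ζ ^ 3) ≤ Q.card)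
    (hpoor : (((Q ×ˢ Q).filter fun p => p.1 ≠ p.2 ∧ ¬ ∃ t : ℝ, Meet p.1 p.2 t ∧
      θ * Q.card ≤ ((Q'.filter fun v => Meet p.1 v t).card : ℝ)).card : ℝ) ≤ ζ * Q.card ^ 2) :
    ∃ (t : ℝ) (P : ℂ), ((Q.filter fun v => L v t ≠ P).card : ℝ) ≤ 6 * ζ * Q.card := by
  rcases hMF hm with ⟨t, P, hP⟩ | ⟨a, c, u, hu, h⟩
  · refine ⟨t, P, ?_⟩
    rw [Finset.filter_false_of_mem fun z hz => not_not.2 (hP z (hQ hz)), Finset.card_empty]
    simp only [Nat.cast_zero]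
    positivity
  obtain ⟨Φ, hinj, hΦ⟩ := hPC hu h
  have hA0 : 0 < A := by linarith
  set η : ℝ := ζ / (32 * A) with hη
  have hη0 : 0 < η := by positivity
  have hη1 : η ≤ 1 := by
    rw [hη, div_le_one (by positivity)]
    linarith
  have hmid := k22b_plane hR hQ hinj hΦ hA hθ0 hθ1 hζ0 hζ1 hQ' hbig
  rw [← hη] at hmid
  have hbig2 : 16 * A ^ 2 / (η ^ 2 * (2 * ζ)) ≤ Q.card := by
    refine le_trans ?_ hbig
    have h1 : 16 * A ^ 2 / (η ^ 2 * (2 * ζ)) = 8192 * A ^ 4 / ζ ^ 3 := by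
      rw [hη]
      field_simp
      ring
    rw [h1, div_le_div_iff₀ (by positivity) (by positivity)]
    have h2 : 0 < A ^ 4 * ζ ^ 3 := by positivity
    nlinarith
  obtain ⟨t, P, hP⟩ := k22 hQ hm hA hη0 hη1 (ζ := 2 * ζ) (by linarith) (by linarith) hQ' hbig2 (by
    have hsub : ((Q ×ˢ Q).filter fun p => p.1 ≠ p.2 ∧ ¬ ∃ t : ℝ, Meet p.1 p.2 t ∧
        η * Q.card ≤ ((Q'.filter fun v => Meet p.1 v t).card : ℝ)) ⊆
        ((Q ×ˢ Q).filter fun p => p.1 ≠ p.2 ∧ ¬ ∃ t : ℝ, Meet p.1 p.2 t ∧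
        θ * Q.card ≤ ((Q'.filter fun v => Meet p.1 v t).card : ℝ)) ∪
        ((Q ×ˢ Q).filter fun p => p.1 ≠ p.2 ∧ ∃ t : ℝ, Meet p.1 p.2 t ∧
        θ * Q.card ≤ ((Q'.filter fun v => Meet p.1 v t).card : ℝ) ∧
        ((Q'.filter fun v => Meet p.1 v t).card : ℝ) < η * Q.card) := by
      intro p hp
      rw [Finset.mem_filter] at hp
      rw [Finset.mem_union, Finset.mem_filter, Finset.mem_filter]
      by_cases h1 : ∃ t : ℝ, Meet p.1 p.2 t ∧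
        θ * Q.card ≤ ((Q'.filter fun v => Meet p.1 v t).card : ℝ)
      · right
        obtain ⟨t, h2, h3⟩ := h1
        refine ⟨hp.1, hp.2.1, t, h2, h3, ?_⟩
        by_contra h4
        exact hp.2.2 ⟨t, h2, not_lt.1 h4⟩
      · left
        exact ⟨hp.1, hp.2.1, h1⟩
    have h1 := (Finset.card_le_card hsub).trans (Finset.card_union_le _ _)
    have h2 : ((((Q ×ˢ Q).filter fun p => p.1 ≠ p.2 ∧ ¬ ∃ t : ℝ, Meet p.1 p.2 t ∧
        η * Q.card ≤ ((Q'.filter fun v => Meet p.1 v t).card : ℝ)).card : ℕ) : ℝ) ≤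
        ((((Q ×ˢ Q).filter fun p => p.1 ≠ p.2 ∧ ¬ ∃ t : ℝ, Meet p.1 p.2 t ∧
        θ * Q.card ≤ ((Q'.filter fun v => Meet p.1 v t).card : ℝ)).card : ℕ) : ℝ) +
        ((((Q ×ˢ Q).filter fun p => p.1 ≠ p.2 ∧ ∃ t : ℝ, Meet p.1 p.2 t ∧
        θ * Q.card ≤ ((Q'.filter fun v => Meet p.1 v t).card : ℝ) ∧
        ((Q'.filter fun v => Meet p.1 v t).card : ℝ) < η * Q.card).card : ℕ) : ℝ) := by
      exact_mod_cast h1
    linarith)
  exact ⟨t, P, by linarith⟩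

end SD12
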