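import Pool.Agent.SD12.Defs

/-! # Large sets which pairwise have at most one common element -/

open Finset

namespace SD12

/-- Large sets (an indexed family) which pairwise have at most one common element. -/
theorem kst_idx {ι α : Type*} [DecidableEq ι] [DecidableEq α] (B : Finset α) (Ω : Finset ι)
    (tr : ι → Finset α) (hB : ∀ ω ∈ Ω, tr ω ⊆ B)
    (h1 : ∀ ω ∈ Ω, ∀ ω' ∈ Ω, ω ≠ ω' → (tr ω ∩ tr ω').card ≤ 1)
    (h2 : ∀ ω ∈ Ω, 8 * B.card ≤ (tr ω).card ^ 2) :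
    ∑ ω ∈ Ω, (tr ω).card ≤ 2 * B.card := by
  have hcard : ∀ ω ∈ Ω, ((tr ω).card : ℝ) = ∑ x ∈ B, (if x ∈ tr ω then (1 : ℝ) else 0) := by
    intro ω hω
    rw [sum_boole, filter_mem_eq_inter, inter_eq_right.2 (hB ω hω)]
  have hcard2 : ∀ ω ∈ Ω, ∀ ω' ∈ Ω, (((tr ω ∩ tr ω').card : ℕ) : ℝ) =
      ∑ x ∈ B, (if x ∈ tr ω then (1 : ℝ) else 0) * (if x ∈ tr ω' then (1 : ℝ) else 0) := by
    intro ω hω ω' _
    have : ∀ x ∈ B, (if x ∈ tr ω then (1 : ℝ) else 0) * (if x ∈ tr ω' then (1 : ℝ) else 0) =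
        if x ∈ tr ω ∩ tr ω' then (1 : ℝ) else 0 := by
      intro x _
      by_cases ha : x ∈ tr ω <;> by_cases hb : x ∈ tr ω' <;> simp [ha, hb]
    rw [sum_congr rfl this, sum_boole, filter_mem_eq_inter,
      inter_eq_right.2 (inter_subset_left.trans (hB ω hω))]
  set S : ℝ := ∑ ω ∈ Ω, ((tr ω).card : ℝ) with hS
  set b : ℝ := (B.card : ℝ) with hb
  set k : ℝ := (Ω.card : ℝ) with hk
  have hb0 : 0 ≤ b := Nat.cast_nonneg _
  have hk0 : 0 ≤ k := Nat.cast_nonneg _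
  have hS0 : 0 ≤ S := sum_nonneg fun _ _ => Nat.cast_nonneg _
  have hS1 : S = ∑ x ∈ B, ∑ ω ∈ Ω, (if x ∈ tr ω then (1 : ℝ) else 0) := by
    rw [hS, sum_congr rfl hcard, sum_comm]
  have hCS : S ^ 2 ≤ b * ∑ x ∈ B, (∑ ω ∈ Ω, (if x ∈ tr ω then (1 : ℝ) else 0)) ^ 2 := by
    rw [hS1]
    exact sq_sum_le_card_mul_sum_sq
  have hsq : ∑ x ∈ B, (∑ ω ∈ Ω, (if x ∈ tr ω then (1 : ℝ) else 0)) ^ 2 =
      ∑ ω ∈ Ω, ∑ ω' ∈ Ω, (((tr ω ∩ tr ω').card : ℕ) : ℝ) := by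
    have e1 : ∀ x ∈ B, (∑ ω ∈ Ω, (if x ∈ tr ω then (1 : ℝ) else 0)) ^ 2 =
        ∑ ω ∈ Ω, ∑ ω' ∈ Ω,
          (if x ∈ tr ω then (1 : ℝ) else 0) * (if x ∈ tr ω' then (1 : ℝ) else 0) := by
      intro x _
      rw [sq, sum_mul_sum]
    rw [sum_congr rfl e1, sum_comm]
    refine sum_congr rfl fun ω hω => ?_
    rw [sum_comm]
    exact sum_congr rfl fun ω' hω' => (hcard2 ω hω ω' hω').symm
  have hbd : ∑ ω ∈ Ω, ∑ ω' ∈ Ω, (((tr ω ∩ tr ω').card : ℕ) : ℝ) ≤ S + k ^ 2 := by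
    have e1 : ∀ ω ∈ Ω, ∑ ω' ∈ Ω, (((tr ω ∩ tr ω').card : ℕ) : ℝ) ≤ (tr ω).card + k := by
      intro ω hω
      have e2 : ∀ ω' ∈ Ω, (((tr ω ∩ tr ω').card : ℕ) : ℝ) ≤
          (if ω = ω' then ((tr ω).card : ℝ) else 0) + 1 := by
        intro ω' hω'
        by_cases h : ω = ω'
        · rw [if_pos h, ← h, inter_self]
          linarith
        · rw [if_neg h, zero_add]
          exact_mod_cast h1 ω hω ω' hω' h
      refine (sum_le_sum e2).trans ?_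
      rw [sum_add_distrib, sum_ite_eq, if_pos hω, sum_const, nsmul_eq_mul, mul_one]
    refine (sum_le_sum e1).trans ?_
    rw [sum_add_distrib, sum_const, nsmul_eq_mul, sq]
  have hlow : 8 * b * k ^ 2 ≤ S ^ 2 := by
    have e1 : ∀ ω ∈ Ω, Real.sqrt (8 * b) ≤ ((tr ω).card : ℝ) := by
      intro ω hω
      rw [Real.sqrt_le_left (Nat.cast_nonneg _)]
      have := h2 ω hω
      rw [hb]
      exact_mod_cast this
    have e2 : k * Real.sqrt (8 * b) ≤ S := by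
      have := sum_le_sum e1
      rwa [sum_const, nsmul_eq_mul] at this
    have e3 : (k * Real.sqrt (8 * b)) ^ 2 ≤ S ^ 2 := pow_le_pow_left₀ (by positivity) e2 2
    rw [mul_pow, Real.sq_sqrt (by positivity)] at e3
    linarith
  have hfin : S ≤ 2 * b := by
    have h3 : S ^ 2 ≤ b * (S + k ^ 2) := hCS.trans (by
      rw [hsq]
      exact mul_le_mul_of_nonneg_left hbd hb0)
    by_contra hcon
    push Not at hcon
    nlinarith
  have : ((∑ ω ∈ Ω, (tr ω).card : ℕ) : ℝ) ≤ ((2 * B.card : ℕ) : ℝ) := by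
    push_cast
    exact hfin
  exact_mod_cast this

/-- Large sets which pairwise have at most one common element. -/
theorem kst {α : Type*} [DecidableEq α] (B : Finset α) (Ω : Finset (Finset α))
    (hB : ∀ ω ∈ Ω, ω ⊆ B) (h1 : ∀ ω ∈ Ω, ∀ ω' ∈ Ω, ω ≠ ω' → (ω ∩ ω').card ≤ 1)
    (h2 : ∀ ω ∈ Ω, 8 * B.card ≤ ω.card ^ 2) :
    ∑ ω ∈ Ω, ω.card ≤ 2 * B.card :=
  kst_idx B Ω (fun ω => ω) hB h1 h2

end SD12
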