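import Pool.Agent.SD12.Main
import Pool.Agent.SD12.Main2B

/-!
# The main theorem, version with the square
-/

open Finset ComplexConjugate

namespace SD12

/-- The numbers in the class bound. -/
lemma main_num2 {n h T T2 N X lam0 ST SB Nr : ℝ} (hn : 0 < n) (hh : 1 ≤ h) (hT : 0 ≤ T)
    (hT2 : 0 ≤ T2) (hN : 0 ≤ N) (hST : ST / n * (h / Real.sqrt n) = T) (hSB : SB / n = T2)
    (hNr : Nr / n ≤ N) (hX : X = n / h ^ 2) (hlam : lam0 = X / 2 ^ 30)
    (hbig : (10 ^ 200 * 10 ^ 161) * ((1 + T) ^ 2 + T2 + N) < X) (i : ℕ) :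
    4 * 10 ^ 14 / (1 / (10 ^ 46 * 4 ^ i)) * (ST / (10 ^ 67 * (1 + T) * 4 ^ i *
        Real.sqrt (lam0 * 4096 ^ i)) + SB / (lam0 * 4096 ^ i) +
        n / (10 ^ 67 * (1 + T) * 4 ^ i) ^ 2) +
      4 * 10 ^ 21 * Real.sqrt (1 / (10 ^ 46 * 4 ^ i)) * n +
      1650 * Nr / (1 / (10 ^ 46 * 4 ^ i) * (lam0 * 4096 ^ i)) ≤ n / 4 * (1 / 2) ^ i := by
  have h0 : 0 < h := by linarith
  have hT1 : 1 ≤ (1 + T) ^ 2 := one_le_pow₀ (by linarith)
  have hX0 : 0 < X := by rw [hX]; positivity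
  have hlam0 : 0 < lam0 := by rw [hlam]; positivity
  have hl1 : (10 ^ 200 * 10 ^ 151) * (1 + T) ^ 2 ≤ lam0 := by
    rw [hlam, le_div_iff₀ (by positivity)]
    nlinarith
  have hl2 : (10 ^ 200 * 10 ^ 151) * T2 ≤ lam0 := by
    rw [hlam, le_div_iff₀ (by positivity)]
    nlinarith
  have hl3 : (10 ^ 200 * 10 ^ 151) * N ≤ lam0 := by
    rw [hlam, le_div_iff₀ (by positivity)]
    nlinarith
  have hSTn : ST = T * n * Real.sqrt n / h := by
    have : 0 < Real.sqrt n := Real.sqrt_pos.2 hn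
    rw [← hST]
    field_simp
  have hSBn : SB = T2 * n := by
    rw [← hSB]
    field_simp
  have hsq : Real.sqrt (lam0 * 4096 ^ i) = Real.sqrt n / h / 2 ^ 15 * 64 ^ i := by
    have e : lam0 * 4096 ^ i = (Real.sqrt n / h / 2 ^ 15 * 64 ^ i) ^ 2 := by
      have e3 : ((64 : ℝ) ^ i) ^ 2 = 4096 ^ i := by
        rw [← pow_mul, mul_comm, pow_mul]
        norm_num
      rw [mul_pow, div_pow, div_pow, Real.sq_sqrt hn.le, hlam, hX, e3]
      norm_num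
    rw [e, Real.sqrt_sq (by positivity)]
  have hsz : Real.sqrt (1 / (10 ^ 46 * 4 ^ i)) = 1 / (10 ^ 23 * 2 ^ i) := by
    have e : (1 : ℝ) / (10 ^ 46 * 4 ^ i) = (1 / (10 ^ 23 * 2 ^ i)) ^ 2 := by
      have e3 : ((2 : ℝ) ^ i) ^ 2 = 4 ^ i := by
        rw [← pow_mul, mul_comm, pow_mul]
        norm_num
      rw [div_pow, mul_pow, e3]
      norm_num
    rw [e, Real.sqrt_sq (by positivity)]
  have hsn : 0 < Real.sqrt n := Real.sqrt_pos.2 hn
  -- the five terms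
  have t1 : 4 * 10 ^ 14 / (1 / (10 ^ 46 * 4 ^ i)) * (ST / (10 ^ 67 * (1 + T) * 4 ^ i *
        Real.sqrt (lam0 * 4096 ^ i))) ≤ n / 16 * (1 / 2) ^ i := by
    rw [hsq, hSTn]
    have e : 4 * 10 ^ 14 / (1 / (10 ^ 46 * 4 ^ i)) * (T * n * Real.sqrt n / h /
        (10 ^ 67 * (1 + T) * 4 ^ i * (Real.sqrt n / h / 2 ^ 15 * 64 ^ i))) =
        (4 * 2 ^ 15 / 10 ^ 7) * (T / (1 + T)) * n * (1 / 64) ^ i := by
      have : (1 + T) ≠ 0 := by linarith
      rw [one_div_pow]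
      field_simp
    rw [e]
    have h1 : T / (1 + T) ≤ 1 := by
      rw [div_le_one (by linarith)]
      linarith
    have h2 : ((1 : ℝ) / 64) ^ i ≤ (1 / 2) ^ i := pow_le_pow_left₀ (by norm_num) (by norm_num) i
    have h3 : 0 ≤ T / (1 + T) := by positivity
    calc (4 * 2 ^ 15 / 10 ^ 7) * (T / (1 + T)) * n * (1 / 64) ^ i
        ≤ (4 * 2 ^ 15 / 10 ^ 7) * 1 * n * (1 / 2) ^ i := by gcongr
      _ ≤ n / 16 * (1 / 2) ^ i := by
        apply mul_le_mul_of_nonneg_right _ (by positivity)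
        nlinarith
  have t2 : 4 * 10 ^ 14 / (1 / (10 ^ 46 * 4 ^ i)) * (SB / (lam0 * 4096 ^ i)) ≤
      n / 32 * (1 / 2) ^ i := by
    rw [hSBn]
    have e : 4 * 10 ^ 14 / (1 / (10 ^ 46 * 4 ^ i)) * (T2 * n / (lam0 * 4096 ^ i)) =
        (4 * 10 ^ 60) * (T2 / lam0) * n * (1 / 1024) ^ i := by
      rw [one_div_pow]
      have e2 : (4096 : ℝ) ^ i = 4 ^ i * 1024 ^ i := by
        rw [← mul_pow]; norm_num
      rw [e2]
      field_simp
    rw [e]
    have h1 : T2 / lam0 ≤ 1 / (10 ^ 200 * 10 ^ 151) := by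
      rw [div_le_div_iff₀ hlam0 (by positivity)]
      linarith
    have h2 : ((1 : ℝ) / 1024) ^ i ≤ (1 / 2) ^ i :=
      pow_le_pow_left₀ (by norm_num) (by norm_num) i
    have h3 : 0 ≤ T2 / lam0 := by positivity
    calc (4 * 10 ^ 60) * (T2 / lam0) * n * (1 / 1024) ^ i
        ≤ (4 * 10 ^ 60) * (1 / (10 ^ 200 * 10 ^ 151)) * n * (1 / 2) ^ i := by gcongr
      _ ≤ n / 32 * (1 / 2) ^ i := by
        apply mul_le_mul_of_nonneg_right _ (by positivity)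
        nlinarith
  have t3 : 4 * 10 ^ 14 / (1 / (10 ^ 46 * 4 ^ i)) * (n / (10 ^ 67 * (1 + T) * 4 ^ i) ^ 2) ≤
      n / 32 * (1 / 2) ^ i := by
    have e : 4 * 10 ^ 14 / (1 / (10 ^ 46 * 4 ^ i)) * (n / (10 ^ 67 * (1 + T) * 4 ^ i) ^ 2) =
        (4 / 10 ^ 74) * (1 / (1 + T) ^ 2) * n * (1 / 4) ^ i := by
      rw [one_div_pow]
      have : (1 + T) ≠ 0 := by linarith
      field_simp
    rw [e]
    have h1 : 1 / (1 + T) ^ 2 ≤ 1 := by
      rw [div_le_one (by positivity)]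
      exact one_le_pow₀ (by linarith)
    have h2 : ((1 : ℝ) / 4) ^ i ≤ (1 / 2) ^ i :=
      pow_le_pow_left₀ (by norm_num) (by norm_num) i
    have h3 : 0 ≤ 1 / (1 + T) ^ 2 := by positivity
    calc (4 / 10 ^ 74) * (1 / (1 + T) ^ 2) * n * (1 / 4) ^ i
        ≤ (4 / 10 ^ 74) * 1 * n * (1 / 2) ^ i := by gcongr
      _ ≤ n / 32 * (1 / 2) ^ i := by
        apply mul_le_mul_of_nonneg_right _ (by positivity)
        nlinarith
  have t4 : 4 * 10 ^ 21 * Real.sqrt (1 / (10 ^ 46 * 4 ^ i)) * n ≤ n / 16 * (1 / 2) ^ i := by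
    rw [hsz]
    have e : 4 * 10 ^ 21 * (1 / (10 ^ 23 * 2 ^ i)) * n = 4 / 100 * n * (1 / 2) ^ i := by
      rw [one_div_pow]
      field_simp
      norm_num
    rw [e]
    apply mul_le_mul_of_nonneg_right _ (by positivity)
    nlinarith
  have t5 : 1650 * Nr / (1 / (10 ^ 46 * 4 ^ i) * (lam0 * 4096 ^ i)) ≤ n / 16 * (1 / 2) ^ i := by
    have e : 1650 * Nr / (1 / (10 ^ 46 * 4 ^ i) * (lam0 * 4096 ^ i)) =
        (1650 * 10 ^ 46) * ((Nr / n) / lam0) * n * (1 / 1024) ^ i := by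
      rw [one_div_pow]
      have e2 : (4096 : ℝ) ^ i = 4 ^ i * 1024 ^ i := by
        rw [← mul_pow]; norm_num
      rw [e2]
      field_simp
    rw [e]
    have h1 : (Nr / n) / lam0 ≤ 1 / (10 ^ 200 * 10 ^ 151) := by
      rw [div_le_div_iff₀ hlam0 (by positivity)]
      nlinarith
    have h2 : ((1 : ℝ) / 1024) ^ i ≤ (1 / 2) ^ i :=
      pow_le_pow_left₀ (by norm_num) (by norm_num) i
    calc (1650 * 10 ^ 46) * ((Nr / n) / lam0) * n * (1 / 1024) ^ i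
        ≤ (1650 * 10 ^ 46) * (1 / (10 ^ 200 * 10 ^ 151)) * n * (1 / 1024) ^ i := by gcongr
      _ ≤ (1650 * 10 ^ 46) * (1 / (10 ^ 200 * 10 ^ 151)) * n * (1 / 2) ^ i := by gcongr
      _ ≤ n / 16 * (1 / 2) ^ i := by
        apply mul_le_mul_of_nonneg_right _ (by positivity)
        nlinarith
  have hp : (0 : ℝ) ≤ n * (1 / 2) ^ i := by positivity
  rw [mul_add, mul_add]
  linarith

open Classical in
theorem main2 : ∃ C : ℝ, 1 ≤ C ∧ ∀ (E : Finset (ℂ × ℂ)) (j K : ℕ) (h : ℝ), 1 ≤ h → E.Nonempty →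
    Cr E → Fn E → (∀ x ∈ E, ‖x.2‖ ≤ h ∧ ‖x.1‖ ≤ 2 * h * 2 ^ j) →
    (∀ x ∈ E, ∀ y ∈ E, 26 * ‖x.1 - y.1‖ < 2 ^ K) →
    ∀ Bh : ℂ × ℂ → ℝ → ℝ, (∀ x r, 0 ≤ Bh x r) → (∀ x r r', r ≤ r' → Bh x r ≤ Bh x r') →
    (∀ x ∈ E, ∀ y ∈ E, (npl E j x y : ℝ) ≤ Bh x ‖x.1 - y.1‖) →
    E.card / h ^ 2 ≤ C * ((1 + (∑ k ∈ range K, om j k * ∑ x ∈ E, Real.sqrt (Nk E j k x)) /
        E.card * (h / Real.sqrt E.card)) ^ 2 +
      (∑ k ∈ range K, om j k * ∑ x ∈ E, Bh x (2 ^ k)) / E.card +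
      ((E ×ˢ E).filter fun p => p.1 ≠ p.2 ∧ ‖p.1.1 - p.2.1‖ ≤ 2 ^ j / 512 ∧
        ∃ s : ℝ, |s| ≤ 1 / 2 ∧ ‖L p.1 s - L p.2 s‖ < 1 / 512).card / E.card) := by
  refine ⟨(10 ^ 200 * 10 ^ 161), by norm_num, ?_⟩
  intro E j K h hh hne hE hf hsize hK Bh hB0 hBm hB
  by_contra hcon
  rw [not_le] at hcon
  set ST := ∑ k ∈ range K, om j k * ∑ x ∈ E, Real.sqrt (Nk E j k x) with hST
  set SB := ∑ k ∈ range K, om j k * ∑ x ∈ E, Bh x (2 ^ k) with hSB
  set N' := ((E ×ˢ E).filter fun p => p.1 ≠ p.2 ∧ ‖p.1.1 - p.2.1‖ ≤ 2 ^ j / 512 ∧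
        ∃ s : ℝ, |s| ≤ 1 / 2 ∧ ‖L p.1 s - L p.2 s‖ < 1 / 512).card with hN'
  have hn : (0 : ℝ) < E.card := by exact_mod_cast card_pos.2 hne
  have h0 : 0 < h := by linarith
  have hom : ∀ k, 0 ≤ om j k := by
    intro k
    unfold om
    positivity
  have hST0 : 0 ≤ ST := Finset.sum_nonneg fun k _ => mul_nonneg (hom k)
    (Finset.sum_nonneg fun x _ => Real.sqrt_nonneg _)
  have hSB0 : 0 ≤ SB := Finset.sum_nonneg fun k _ => mul_nonneg (hom k)
    (Finset.sum_nonneg fun x _ => hB0 _ _)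
  set T := ST / E.card * (h / Real.sqrt E.card) with hT
  set T2 := SB / E.card with hT2
  have hT0 : 0 ≤ T := by positivity
  have hT20 : 0 ≤ T2 := by positivity
  have hN0 : 0 ≤ (N' : ℝ) / E.card := by positivity
  set lam0 : ℝ := E.card / h ^ 2 / 2 ^ 30 with hlam
  have hlam0 : 0 < lam0 := by positivity
  obtain ⟨I, hI⟩ := pow_unbounded_of_one_lt ((E.card : ℝ) / lam0) (by norm_num : (1 : ℝ) < 4096)
  rw [div_lt_iff₀ hlam0, mul_comm] at hI
  obtain ⟨κ, S, hκ0, hS⟩ := exists_times j (2 ^ (K + 1) * (1 + 10 ^ 46 * 4 ^ I))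
  have hκ : 2 ^ (K + 1) ≤ κ := by
    refine le_trans ?_ hκ0
    have : (0 : ℝ) ≤ 2 ^ (K + 1) * (10 ^ 46 * 4 ^ I) := by positivity
    linarith
  have hS2 : ∀ s ∈ S, |s| ≤ 1 / 2 := by
    intro s hs
    refine (hS.abs_le s hs).trans ?_
    apply div_le_div_of_nonneg_left zero_le_one (by norm_num)
    rw [pow_succ]
    have : (1 : ℝ) ≤ 2 ^ j := one_le_pow₀ (by norm_num)
    linarith
  have hSc : (0 : ℝ) < S.card := by
    by_contra hc
    have h1 := hS.le_card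
    have h2 := hS.pos
    have h3 : (0 : ℝ) < 2 ^ j := by positivity
    nlinarith
  have hnear : ((near E S j (1 / 512)).card : ℝ) / E.card ≤ N' / E.card := by
    apply div_le_div_of_nonneg_right _ hn.le
    rw [hN']
    refine Nat.cast_le.2 (card_le_card ?_)
    intro p hp
    simp only [near, mem_filter] at hp ⊢
    obtain ⟨h1, h2, ⟨s, hs1, hs2⟩, h3⟩ := hp
    refine ⟨h1, h2, ?_, s, hS2 s hs1, hs2⟩
    rw [div_mul_eq_mul_div, one_mul] at h3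
    exact h3
  -- the bound for one class
  have hcl : ∀ i ∈ range I, ∑ s ∈ S, ((Cl E (lam0 * 4096 ^ i) s).card : ℝ) ≤
      S.card * (E.card / 4 * (1 / 2) ^ i) := by
    intro i hi
    have hi' := mem_range.1 hi
    have h1 := class_bound2 hE hf hS K hK hκ Bh hB0 hBm hB (lam := lam0 * 4096 ^ i)
      (C1 := 10 ^ 67 * (1 + T) * 4 ^ i) (ζ := 1 / (10 ^ 46 * 4 ^ i)) ?_ ?_ ?_ ?_ ?_
    · refine h1.trans (mul_le_mul_of_nonneg_left ?_ hSc.le)
      exact main_num2 hn hh hT0 hT20 hN0 rfl rfl hnear rfl rfl hcon i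
    · have g1 : (1 : ℝ) ≤ 4 ^ i := one_le_pow₀ (by norm_num)
      have g2 : 1 ≤ 10 ^ 67 * (1 + T) := by nlinarith
      nlinarith
    · positivity
    · apply div_le_div_of_nonneg_left zero_le_one (by positivity)
      have g1 : (1 : ℝ) ≤ 4 ^ i := one_le_pow₀ (by norm_num)
      nlinarith
    · have hT1 : 1 ≤ (1 + T) ^ 2 := one_le_pow₀ (by linarith)
      have hl1 : (10 ^ 200 * 10 ^ 151) * (1 + T) ^ 2 ≤ lam0 := by
        rw [hlam, le_div_iff₀ (by positivity)]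
        nlinarith
      have e : 10 ^ 42 * (10 ^ 67 * (1 + T) * 4 ^ i) ^ 2 / (1 / (10 ^ 46 * 4 ^ i)) ^ 3 =
          (10 ^ 200 * 10 ^ 114) * (1 + T) ^ 2 * 1024 ^ i := by
        have e2 : (1024 : ℝ) ^ i = (4 ^ i) ^ 2 * (4 ^ i) ^ 3 := by
          rw [← pow_add, ← pow_mul, mul_comm i, pow_mul]
          norm_num
        rw [e2]
        field_simp
      rw [e]
      have hl1' : (10 ^ 200 * 10 ^ 114) * (1 + T) ^ 2 ≤ lam0 := by
        refine le_trans ?_ hl1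
        apply mul_le_mul_of_nonneg_right _ (by positivity)
        norm_num
      have g2 : (1024 : ℝ) ^ i ≤ 4096 ^ i := pow_le_pow_left₀ (by norm_num) (by norm_num) i
      exact mul_le_mul hl1' g2 (by positivity) hlam0.le
    · intro m hm1 hm2 x hx y hy
      have g1 : (m : ℝ) ≤ 10 ^ 46 * 4 ^ I := by
        refine hm2.trans ?_
        rw [div_le_iff₀ (by positivity)]
        have e : 10 ^ 46 * 4 ^ I * (32 * 10 ^ 11 * (1 / (10 ^ 46 * 4 ^ i))) =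
            (32 : ℝ) * 10 ^ 11 * (4 ^ I / 4 ^ i) := by
          field_simp
        rw [e]
        have g2 : (1 : ℝ) ≤ 4 ^ I / 4 ^ i := by
          rw [one_le_div (by positivity)]
          exact pow_le_pow_right₀ (by norm_num) hi'.le
        nlinarith
      have hm1' : (1 : ℝ) ≤ m := by exact_mod_cast hm1
      have g2 : Real.sqrt m ≤ m := by
        rw [Real.sqrt_le_left (by linarith)]
        nlinarith
      have g3 : 0 < Real.sqrt m := Real.sqrt_pos.2 (by linarith)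
      have g4 : Real.sqrt m ≤ 1 + 10 ^ 46 * 4 ^ I := by linarith
      have g5 := hK x hx y hy
      rw [← mul_div_assoc, le_div_iff₀ g3]
      have g6 : 2 ^ (K + 1) * Real.sqrt m ≤ κ := by
        refine le_trans ?_ hκ0
        exact mul_le_mul_of_nonneg_left g4 (by positivity)
      have g7 : ‖x.1 - y.1‖ * Real.sqrt m ≤ 2 ^ K / 26 * Real.sqrt m := by
        apply mul_le_mul_of_nonneg_right _ g3.le
        linarith
      rw [pow_succ] at g6
      have g8 : (2 : ℝ) ^ K * Real.sqrt m ≤ κ / 2 := by linarith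
      have g9 : ‖x.1 - y.1‖ * Real.sqrt m ≤ 2 ^ K * Real.sqrt m / 26 := by linarith
      have g10 : (0 : ℝ) ≤ 2 ^ K * Real.sqrt m := by positivity
      linarith
  -- the sum over the classes
  have hsum : ∑ s ∈ S, (3 / 4 * (E.card : ℝ)) ≤
      ∑ s ∈ S, ∑ i ∈ range I, ((Cl E (lam0 * 4096 ^ i) s).card : ℝ) :=
    Finset.sum_le_sum fun s hs => main_cover hh hsize (hS.abs_le s hs) hlam I hI
  rw [Finset.sum_comm] at hsum
  have hsum2 : ∑ i ∈ range I, ∑ s ∈ S, ((Cl E (lam0 * 4096 ^ i) s).card : ℝ) ≤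
      S.card * (E.card / 4) * 2 := by
    calc ∑ i ∈ range I, ∑ s ∈ S, ((Cl E (lam0 * 4096 ^ i) s).card : ℝ)
        ≤ ∑ i ∈ range I, (S.card : ℝ) * ((E.card : ℝ) / 4 * (1 / 2) ^ i) := Finset.sum_le_sum hcl
      _ = (S.card : ℝ) * ((E.card : ℝ) / 4) * ∑ i ∈ range I, (1 / 2 : ℝ) ^ i := by
          rw [Finset.mul_sum]
          apply Finset.sum_congr rfl
          intro i _
          ring
      _ ≤ S.card * (E.card / 4) * 2 :=
          mul_le_mul_of_nonneg_left (main_geom I) (by positivity)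
  rw [Finset.sum_const, nsmul_eq_mul] at hsum
  have hpos : (0 : ℝ) < S.card * E.card := by positivity
  linarith

end SD12
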