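import Pool.Agent.SD12.MainA
import Pool.Agent.SD12.K22b

/-!
# Double counting in one class of lines, with the Szemerédi–Trotter theorem
-/

open Finset ComplexConjugate

namespace SD12

/-- The lines of the class which are not poor are near lines of a dominating pencil. -/
lemma rich_dom2 {E : Finset (ℂ × ℂ)} (hE : Cr E) {lam C1 ζ s : ℝ} (hs : |s| ≤ 1 / 2)
    (hC1 : 1 ≤ C1) (hζ0 : 0 < ζ) (hζ1 : ζ ≤ 1 / 10 ^ 20) (hbig : 10 ^ 42 * C1 ^ 2 / ζ ^ 3 ≤ lam)
    {x : ℂ × ℂ} (hx : x ∈ Rich E lam (lam / (8 * C1 ^ 2)) ζ s) :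
    ∃ V ⊆ ball E s (1 / 1024) x, 3 / 4 * lam ≤ (V.card : ℝ) ∧
      ∀ y ∈ V, Dom E (1 / 512) (10 ^ 11 * ζ * lam) (lam / 2) s y := by
  classical
  have hx' := (mem_filter.1 hx).1
  have hxr := (mem_filter.1 hx).2
  have h1 := mem_Cl.1 hx'
  obtain ⟨hxE, hv1, hv2, hv3⟩ := h1
  set Q := ball E s (1 / 128) x with hQ
  set Q' := ball E s (21 / 128) x with hQ'
  set V0 := ball E s (1 / 1024) x with hV0
  have hVQ : V0 ⊆ Q := ball_mono (by norm_num) x
  have hQQ : Q ⊆ Q' := ball_mono (by norm_num) x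
  have hVQc : (V0.card : ℝ) ≤ Q.card := by exact_mod_cast card_le_card hVQ
  have hQQc : (Q.card : ℝ) ≤ Q'.card := by exact_mod_cast card_le_card hQQ
  have hC12' : 1 ≤ C1 ^ 2 := one_le_pow₀ hC1
  have hζ3 : ζ ^ 3 ≤ 1 := pow_le_one₀ hζ0.le (hζ1.trans (by norm_num))
  have hlam : 10 ^ 42 ≤ lam := by
    refine le_trans ?_ hbig
    rw [le_div_iff₀ (by positivity)]
    nlinarith
  have hlampos : 0 < lam := by linarith
  have hC12 : 0 < C1 ^ 2 := by positivity
  -- the lines of `Q'` meet pairwise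
  have hmeet : ∀ y ∈ Q', ∀ z ∈ Q', y ≠ z → ∃ t : ℝ, Meet y z t := by
    intro y hy z hz hyz
    have h2 := mem_ball.1 hy
    have h3 := mem_ball.1 hz
    have h4 := dist3 (L y s) (L x s) (L z s)
    rw [norm_sub_rev (L y s) (L x s)] at h4
    exact (hE y h2.1 z h3.1 hyz s (by linarith) (by linarith [h2.2, h3.2])).2
  obtain ⟨t, P, hP⟩ := k22b (A := 4 * 10 ^ 6) (θ := 1 / (32768 * (4 * 10 ^ 6) * C1 ^ 2)) (ζ := ζ)
    hQQ hmeet (by norm_num) (by positivity) (by
      rw [div_le_one (by positivity)]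
      nlinarith) hζ0 (by
      refine hζ1.trans ?_
      norm_num) (by nlinarith) (by
      refine le_trans ?_ ((hbig.trans hv1).trans hVQc)
      have e : 10000 * (4 * 10 ^ 6) ^ 4 / (1 / (32768 * (4 * 10 ^ 6) * C1 ^ 2) * ζ ^ 3) =
          (10000 * (4 * 10 ^ 6) ^ 4 * (32768 * (4 * 10 ^ 6))) * C1 ^ 2 / ζ ^ 3 := by
        field_simp
      rw [e]
      apply div_le_div_of_nonneg_right _ (by positivity)
      apply mul_le_mul_of_nonneg_right _ (by positivity)
      norm_num) (by
      have hxr2 := not_lt.1 hxr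
      refine le_trans (Nat.cast_le.2 (card_le_card ?_)) hxr2
      intro p hp
      simp only [mem_filter, mem_product] at hp
      obtain ⟨⟨hp1, hp2⟩, hp3, hp4⟩ := hp
      have h2 := mem_ball.1 hp1
      have h3 := mem_ball.1 hp2
      have h4 := dist3 (L p.1 s) (L x s) (L p.2 s)
      rw [norm_sub_rev (L p.1 s) (L x s)] at h4
      have h5 : ‖L p.1 s - L p.2 s‖ < 1 / 64 := by linarith [h2.2, h3.2]
      obtain ⟨t, ht⟩ := hmeet p.1 (hQQ hp1) p.2 (hQQ hp2) hp3
      have hθ : 1 / (32768 * (4 * 10 ^ 6) * C1 ^ 2) * (Q.card : ℝ) ≤ lam / (8 * C1 ^ 2) := by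
        rw [div_mul_eq_mul_div, div_le_div_iff₀ (by positivity) (by positivity)]
        have : (Q.card : ℝ) ≤ 4 * 10 ^ 6 * (4096 * lam) := by nlinarith
        nlinarith
      have key : ∀ a b : ℂ × ℂ, a ∈ Q → b ∈ Q → Meet a b t →
          lam / (8 * C1 ^ 2) ≤ (hh E a b : ℝ) → lam / (8 * C1 ^ 2) ≤
            ((Q'.filter fun v => Meet a v t).card : ℝ) := by
        intro a b ha hb hab hhab
        refine hhab.trans ?_
        unfold hh
        norm_cast
        apply card_le_card
        intro z hz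
        simp only [mem_filter] at hz ⊢
        obtain ⟨hzE, hza, hzb, ⟨t', ht1, ht2⟩, hz3⟩ := hz
        have hab' : a ≠ b := by
          rintro rfl
          rw [sub_self, norm_zero, mul_zero] at hz3
          have := norm_le_zero_iff.1 hz3
          exact ht2.ne (Ne.symm hza) (sub_eq_zero.1 this)
        have htt : t' = t := ht1.unique hab hab'
        rw [htt] at ht2
        refine ⟨mem_ball.2 ⟨hzE, ?_⟩, ht2⟩
        have g1 := ht2.norm_sub s
        have g2 := hab.norm_sub s
        have ha' := mem_ball.1 ha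
        have hb' := mem_ball.1 hb
        have g3 := dist3 (L a s) (L x s) (L b s)
        rw [norm_sub_rev (L a s) (L x s)] at g3
        have g4 := dist3 (L x s) (L a s) (L z s)
        have g5 : ‖L a s - L z s‖ ≤ 10 * ‖L a s - L b s‖ := by
          rw [g1, g2]
          nlinarith [abs_nonneg (t - s)]
        linarith [ha'.2, hb'.2]
      simp only [mem_filter, Zp, mem_product]
      refine ⟨⟨⟨h2.1, h3.1⟩, hp3, h5.le, ?_, ?_⟩, hp1, hp2⟩
      · by_contra hc
        exact hp4 ⟨t, ht, hθ.trans (key p.1 p.2 hp1 hp2 ht (not_lt.1 hc))⟩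
      · by_contra hc
        refine hp4 ⟨t, ht, hθ.trans ?_⟩
        have g := key p.2 p.1 hp2 hp1 ht.symm (not_lt.1 hc)
        have e : (Q'.filter fun v => Meet p.2 v t) = Q'.filter fun v => Meet p.1 v t := by
          apply filter_congr
          intro v _
          exact ⟨fun h => ht.trans h, fun h => ht.symm.trans h⟩
        rwa [e] at g)
  -- the lines of the pencil near `x`
  have hζQ : 6 * ζ * (Q.card : ℝ) ≤ V0.card / 4 := by
    have : (Q.card : ℝ) ≤ 4 * 10 ^ 6 * V0.card := hQQc.trans hv3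
    have h2 : ζ * (Q.card : ℝ) ≤ 1 / 10 ^ 20 * (4 * 10 ^ 6 * V0.card) :=
      mul_le_mul hζ1 this (by positivity) (by positivity)
    have h3 : (0 : ℝ) ≤ V0.card := by positivity
    nlinarith
  have hζQ2 : 6 * ζ * (Q.card : ℝ) ≤ 10 ^ 11 * ζ * lam := by
    have : (Q.card : ℝ) ≤ 4 * 10 ^ 6 * (4096 * lam) := by nlinarith
    have h2 : ζ * (Q.card : ℝ) ≤ ζ * (4 * 10 ^ 6 * (4096 * lam)) :=
      mul_le_mul_of_nonneg_left this hζ0.le
    nlinarith [mul_pos hζ0 hlampos]
  refine ⟨V0.filter fun v => L v t = P, filter_subset _ _, ?_, ?_⟩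
  · have h2 : (V0.card : ℝ) = (V0.filter fun v => L v t = P).card +
        (V0.filter fun v => L v t ≠ P).card := by
      have := Finset.card_filter_add_card_filter_not (s := V0) (fun v => L v t = P)
      exact_mod_cast this.symm
    have h3 : ((V0.filter fun v => L v t ≠ P).card : ℝ) ≤ (Q.filter fun v => L v t ≠ P).card := by
      exact_mod_cast card_le_card (filter_subset_filter _ hVQ)
    linarith
  · intro y hy
    rw [mem_filter] at hy
    have hy1 := mem_ball.1 hy.1
    refine ⟨t, ?_, (V0.filter fun v => L v t = P).erase y, ?_, ?_, ?_, ?_⟩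
    · intro T hT hT2
      refine le_trans ?_ (hP.trans hζQ2)
      norm_cast
      apply card_le_card
      intro v hv
      have g1 := hT2 v hv
      rw [mem_filter]
      refine ⟨mem_ball.2 ⟨hT hv, ?_⟩, fun h => g1.2 ?_⟩
      · have g2 := dist3 (L x s) (L y s) (L v s)
        linarith [g1.1, hy1.2]
      · unfold Meet
        rw [hy.2, h]
    · intro v hv
      exact (mem_ball.1 (mem_filter.1 (mem_of_mem_erase hv)).1).1
    · exact notMem_erase y _
    · intro v hv
      have g1 := mem_filter.1 (mem_of_mem_erase hv)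
      refine ⟨?_, ?_⟩
      · have g2 := dist3 (L y s) (L x s) (L v s)
        rw [norm_sub_rev (L y s) (L x s)] at g2
        linarith [(mem_ball.1 g1.1).2, hy1.2]
      · unfold Meet
        rw [hy.2, g1.2]
    · have hmem : y ∈ V0.filter fun v => L v t = P := mem_filter.2 hy
      have g1 : (((V0.filter fun v => L v t = P).erase y).card : ℝ) =
          (V0.filter fun v => L v t = P).card - 1 := by
        rw [card_erase_of_mem hmem, Nat.cast_sub (card_pos.2 ⟨y, hmem⟩)]
        simp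
      have h2 : (V0.card : ℝ) = (V0.filter fun v => L v t = P).card +
          (V0.filter fun v => L v t ≠ P).card := by
        have := Finset.card_filter_add_card_filter_not (s := V0) (fun v => L v t = P)
        exact_mod_cast this.symm
      have h3 : ((V0.filter fun v => L v t ≠ P).card : ℝ) ≤
          (Q.filter fun v => L v t ≠ P).card := by
        exact_mod_cast card_le_card (filter_subset_filter _ hVQ)
      rw [g1]
      linarith

open Classical in
lemma rich_card2 {E : Finset (ℂ × ℂ)} (hE : Cr E) {lam C1 ζ s : ℝ} (hs : |s| ≤ 1 / 2)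
    (hC1 : 1 ≤ C1) (hζ0 : 0 < ζ) (hζ1 : ζ ≤ 1 / 10 ^ 20) (hbig : 10 ^ 42 * C1 ^ 2 / ζ ^ 3 ≤ lam) :
    ((Rich E lam (lam / (8 * C1 ^ 2)) ζ s).card : ℝ) ≤ 22 * 10 ^ 9 *
      (E.filter fun y => Dom E (1 / 512) (10 ^ 11 * ζ * lam) (lam / 2) s y).card := by
  have hlampos : 0 < lam := by
    refine lt_of_lt_of_le ?_ hbig
    positivity
  have h := mainA_dc (Rich E lam (lam / (8 * C1 ^ 2)) ζ s)
    (E.filter fun y => Dom E (1 / 512) (10 ^ 11 * ζ * lam) (lam / 2) s y)
    (fun x y => y ∈ ball E s (1 / 1024) x) (3 / 4 * lam) (4096 * lam * (4 * 10 ^ 6)) ?_ ?_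
  · have h2 : ((Rich E lam (lam / (8 * C1 ^ 2)) ζ s).card : ℝ) * (3 / 4 * lam) ≤
        22 * 10 ^ 9 * (E.filter fun y => Dom E (1 / 512) (10 ^ 11 * ζ * lam) (lam / 2) s y).card
        * (3 / 4 * lam) := by
      refine h.trans ?_
      have h3 : (0 : ℝ) ≤ (E.filter fun y =>
        Dom E (1 / 512) (10 ^ 11 * ζ * lam) (lam / 2) s y).card := by positivity
      nlinarith [mul_nonneg h3 hlampos.le]
    exact le_of_mul_le_mul_right h2 (by positivity)
  · intro x hx
    obtain ⟨V, hV1, hV2, hV3⟩ := rich_dom2 hE hs hC1 hζ0 hζ1 hbig hx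
    refine hV2.trans ?_
    norm_cast
    apply card_le_card
    intro y hy
    rw [mem_filter, mem_filter]
    exact ⟨⟨(mem_ball.1 (hV1 hy)).1, hV3 y hy⟩, hV1 hy⟩
  · intro y hy
    apply cl_near hlampos.le
    · intro x hx
      exact (mem_filter.1 (mem_filter.1 hx).1).1
    · intro x hx x' hx'
      have h1 := (mem_ball.1 (mem_filter.1 hx).2).2
      have h2 := (mem_ball.1 (mem_filter.1 hx').2).2
      have h3 := dist3 (L x s) (L y s) (L x' s)
      rw [norm_sub_rev (L y s) (L x' s)] at h3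
      linarith

end SD12
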