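import Pool.Agent.SD12.Defs

/-!
# Definitions for the robust statements
-/

open Finset ComplexConjugate

namespace SD12

/-- All lines of `E` near `x` at time `s` meet `x` at the same time, and one of them is very
near. -/
def Good (E : Finset (ℂ × ℂ)) (τ σ s : ℝ) (x : ℂ × ℂ) : Prop :=
  (∃ t : ℝ, ∀ y ∈ E, y ≠ x → ‖L x s - L y s‖ < τ → Meet x y t) ∧
    ∃ z ∈ E, z ≠ x ∧ ‖L x s - L z s‖ < σ

/-- All lines of `E` near `x` at time `s` meet `x` at the same time, and there are many. -/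
def Big (E : Finset (ℂ × ℂ)) (τ : ℝ) (m : ℕ) (s : ℝ) (x : ℂ × ℂ) : Prop :=
  (∃ t : ℝ, ∀ y ∈ E, y ≠ x → ‖L x s - L y s‖ < 2 * τ → Meet x y t) ∧
    ∃ Q ⊆ E, m ≤ Q.card ∧ ∀ y ∈ Q, ‖L x s - L y s‖ < τ

open Classical in
/-- The lines of `E` which are near `x` at time `s` for some `s`, and near in the space of
lines. -/
noncomputable def near (E : Finset (ℂ × ℂ)) (S : Finset ℝ) (j : ℕ) (τ : ℝ) :
    Finset ((ℂ × ℂ) × (ℂ × ℂ)) :=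
  (E ×ˢ E).filter fun p => p.1 ≠ p.2 ∧ (∃ s ∈ S, ‖L p.1 s - L p.2 s‖ < τ) ∧
    ‖p.1.1 - p.2.1‖ ≤ τ * 2 ^ j

/-- `y` belongs to a dominating pencil. -/
def Dom (E : Finset (ℂ × ℂ)) (τ μ₁ μ₂ s : ℝ) (y : ℂ × ℂ) : Prop :=
  ∃ t : ℝ, (∀ T ⊆ E, (∀ v ∈ T, ‖L y s - L v s‖ < 2 * τ ∧ ¬ Meet y v t) → (T.card : ℝ) ≤ μ₁) ∧
    ∃ V ⊆ E, y ∉ V ∧ (∀ v ∈ V, ‖L y s - L v s‖ < τ ∧ Meet y v t) ∧ μ₂ ≤ V.card

end SD12
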