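import Pool.Agent.SD12.Defs
import Pool.Agent.SD12.RobDefs

/-!
# The good lines are at least a fixed proportion of the big ones
-/

open Finset ComplexConjugate

namespace SD12

/-- The square of side `s`, with corner at `p` modulo `s`, which contains `q`. -/
noncomputable def robACell (s : ℝ) (p q : ℂ) : ℤ × ℤ := (⌊(q - p).re / s⌋, ⌊(q - p).im / s⌋)

lemma robA_abs_sub_lt {s u v : ℝ} (hs : 0 < s) (h : ⌊u / s⌋ = ⌊v / s⌋) : |u - v| < s := by
  have h1 := Int.floor_le (u / s)
  have h2 := Int.lt_floor_add_one (u / s)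
  have h3 := Int.floor_le (v / s)
  have h4 := Int.lt_floor_add_one (v / s)
  rw [h] at h1 h2
  have h5 : |u / s - v / s| < 1 := by
    rw [abs_lt]
    constructor <;> linarith
  rwa [← sub_div, abs_div, abs_of_pos hs, div_lt_one hs] at h5

lemma robA_norm_lt {s : ℝ} (hs : 0 < s) {p q q' : ℂ} (h : robACell s p q = robACell s p q') :
    ‖q - q'‖ < 2 * s := by
  unfold robACell at h
  have h1 := robA_abs_sub_lt hs (Prod.mk.inj h).1
  have h2 := robA_abs_sub_lt hs (Prod.mk.inj h).2
  have e : q - q' = (q - p) - (q' - p) := by ring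
  rw [e]
  refine lt_of_le_of_lt (Complex.norm_le_abs_re_add_abs_im _) ?_
  rw [Complex.sub_re, Complex.sub_im]
  linarith

lemma robA_mem {s R : ℝ} (hs : 0 < s) {p q : ℂ} (h : ‖q - p‖ ≤ R) :
    robACell s p q ∈ (Icc (-⌈R / s⌉) ⌈R / s⌉) ×ˢ (Icc (-⌈R / s⌉) ⌈R / s⌉) := by
  have key : ∀ u : ℝ, |u| ≤ R → ⌊u / s⌋ ∈ Icc (-⌈R / s⌉) ⌈R / s⌉ := by
    intro u hu
    rw [abs_le] at hu
    rw [mem_Icc]
    constructor
    · rw [Int.le_floor]
      have h1 := Int.le_ceil (R / s)
      have h2 : -(R / s) ≤ u / s := by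
        rw [← neg_div]
        exact div_le_div_of_nonneg_right hu.1 hs.le
      push_cast
      linarith
    · have h1 := Int.le_ceil (R / s)
      have h2 : u / s ≤ R / s := div_le_div_of_nonneg_right hu.2 hs.le
      have h3 := Int.floor_le (u / s)
      have h4 : ((⌊u / s⌋ : ℤ) : ℝ) ≤ ((⌈R / s⌉ : ℤ) : ℝ) := by linarith
      exact_mod_cast h4
  rw [mem_product]
  exact ⟨key _ ((Complex.abs_re_le_norm _).trans h), key _ ((Complex.abs_im_le_norm _).trans h)⟩

open Classical in
/-- The lines near `x` at time `s`, `x` included. -/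
noncomputable def robANear (E : Finset (ℂ × ℂ)) (τ s : ℝ) (x : ℂ × ℂ) : Finset (ℂ × ℂ) :=
  E.filter fun y => ‖L x s - L y s‖ < τ

lemma robA_mem_near {E : Finset (ℂ × ℂ)} {τ s : ℝ} {x y : ℂ × ℂ} :
    y ∈ robANear E τ s x ↔ y ∈ E ∧ ‖L x s - L y s‖ < τ := mem_filter

open Classical in
/-- Half of the lines near a big line are good. -/
lemma robA_half {E : Finset (ℂ × ℂ)} {τ : ℝ} (hτ : 0 < τ) {m : ℕ} (hm : 8100 ≤ m) {s : ℝ}
    {x : ℂ × ℂ} (hx : Big E τ m s x) :
    (robANear E τ s x).card ≤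
      2 * ((robANear E τ s x).filter fun y => Good E τ (15 * τ / Real.sqrt m) s y).card := by
  obtain ⟨⟨t, ht⟩, Q0, hQ0, hQ0m, hQ0n⟩ := hx
  set Q := robANear E τ s x with hQ
  have hQm : m ≤ Q.card :=
    hQ0m.trans (card_le_card fun y hy => robA_mem_near.2 ⟨hQ0 hy, hQ0n y hy⟩)
  have hm' : (8100 : ℝ) ≤ m := by exact_mod_cast hm
  set r := Real.sqrt m with hr
  have hr2 : r ^ 2 = m := Real.sq_sqrt (by positivity)
  have hr90 : 90 ≤ r := Real.le_sqrt_of_sq_le (by linarith)
  set w := 5 * τ / r with hw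
  have hrpos : 0 < r := by linarith
  have hwpos : 0 < w := by positivity
  have hτw : τ / w = r / 5 := by
    rw [hw]
    field_simp
  set T := (Icc (-⌈τ / w⌉) ⌈τ / w⌉) ×ˢ (Icc (-⌈τ / w⌉) ⌈τ / w⌉) with hT
  have hceil : 0 ≤ ⌈τ / w⌉ := Int.ceil_nonneg (by positivity)
  have hTcard : (T.card : ℤ) = (2 * ⌈τ / w⌉ + 1) ^ 2 := by
    rw [hT, card_product, Int.card_Icc]
    push_cast
    rw [Int.toNat_of_nonneg (by omega)]
    ring
  have hTm : 2 * T.card ≤ Q.card := by
    refine le_trans ?_ hQm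
    have h1 : (T.card : ℝ) = (2 * (⌈τ / w⌉ : ℝ) + 1) ^ 2 := by exact_mod_cast hTcard
    have h2 : (⌈τ / w⌉ : ℝ) ≤ r / 5 + 1 := by
      rw [← hτw]
      exact (Int.ceil_lt_add_one _).le
    have h3 : (0 : ℝ) ≤ ⌈τ / w⌉ := by exact_mod_cast hceil
    have h4 : (2 * T.card : ℝ) ≤ m := by
      rw [h1, ← hr2]
      nlinarith
    exact_mod_cast h4
  set A1 := Q.filter fun y => ∀ z ∈ Q, robACell w (L x s) (L z s) = robACell w (L x s) (L y s) →
    z = y with hA1
  have hA1card : A1.card ≤ T.card := by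
    refine card_le_card_of_injOn (fun y => robACell w (L x s) (L y s)) ?_ ?_
    · intro y hy
      rw [mem_coe, hA1, mem_filter, hQ, robA_mem_near] at hy
      refine robA_mem hwpos ?_
      rw [norm_sub_rev]
      exact hy.1.2.le
    · intro y hy z hz hyz
      rw [mem_coe, hA1, mem_filter] at hy hz
      exact hz.2 y hy.1 hyz
  have hsplit := card_filter_add_card_filter_not (s := Q)
    (fun y => ∀ z ∈ Q, robACell w (L x s) (L z s) = robACell w (L x s) (L y s) → z = y)
  rw [← hA1] at hsplit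
  have hsub : (Q.filter fun y => ¬ ∀ z ∈ Q, robACell w (L x s) (L z s) =
      robACell w (L x s) (L y s) → z = y).card ≤
      (Q.filter fun y => Good E τ (15 * τ / r) s y).card := by
    refine card_le_card fun y hy => ?_
    rw [mem_filter] at hy ⊢
    obtain ⟨hyQ, hy2⟩ := hy
    have hyQ' := robA_mem_near.1 hyQ
    refine ⟨hyQ, ⟨t, fun z hz hzy hyz => ?_⟩, ?_⟩
    · have hxz : ‖L x s - L z s‖ < 2 * τ := by
        have e : L x s - L z s = (L x s - L y s) + (L y s - L z s) := by ring
        rw [e]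
        refine lt_of_le_of_lt (norm_add_le _ _) ?_
        linarith [hyQ'.2]
      by_cases hyx : y = x
      · rw [hyx]
        exact ht z hz (fun h => hzy (h.trans hyx.symm)) hxz
      · have h1 : Meet x y t := ht y hyQ'.1 hyx (by linarith [hyQ'.2])
        by_cases hzx : z = x
        · rw [hzx]
          exact h1.symm
        · exact h1.symm.trans (ht z hz hzx hxz)
    · push Not at hy2
      obtain ⟨z, hz, hzy, hne⟩ := hy2
      refine ⟨z, (robA_mem_near.1 hz).1, hne, ?_⟩
      rw [norm_sub_rev]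
      refine lt_trans (robA_norm_lt hwpos hzy) ?_
      have : 15 * τ / r = 3 * w := by rw [hw]; ring
      rw [this]
      linarith
  omega

open Classical in
theorem big_count (E : Finset (ℂ × ℂ)) {τ : ℝ} (hτ : 0 < τ) {m : ℕ} (hm : 8100 ≤ m) (s : ℝ) :
    (E.filter fun x => Big E τ m s x).card ≤
      162 * (E.filter fun x => Good E τ (15 * τ / Real.sqrt m) s x).card := by
  set X := E.filter fun x => Big E τ m s x with hX
  set G := E.filter fun y => Good E τ (15 * τ / Real.sqrt m) s y with hG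
  set w := τ / 4 with hw
  have hwpos : 0 < w := by positivity
  set f : ℂ × ℂ → ℤ × ℤ := fun y => robACell w 0 (L y s) with hf
  set N : ℤ × ℤ → ℤ × ℤ → Prop := fun u v => |u.1 - v.1| ≤ 4 ∧ |u.2 - v.2| ≤ 4 with hN
  have hfl : ∀ u v : ℝ, |u - v| < τ → |⌊u / w⌋ - ⌊v / w⌋| ≤ 4 := by
    intro u v huv
    have h1 := Int.floor_le (u / w)
    have h2 := Int.lt_floor_add_one (u / w)
    have h3 := Int.floor_le (v / w)
    have h4 := Int.lt_floor_add_one (v / w)
    have h5 : |u / w - v / w| < 4 := by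
      rw [← sub_div, abs_div, abs_of_pos hwpos, div_lt_iff₀ hwpos, hw]
      linarith
    rw [abs_lt] at h5
    have h6 : |((⌊u / w⌋ - ⌊v / w⌋ : ℤ) : ℝ)| < 5 := by
      push_cast
      rw [abs_lt]
      constructor <;> linarith [h5.1, h5.2]
    have h7 : |⌊u / w⌋ - ⌊v / w⌋| < 5 := by exact_mod_cast h6
    omega
  have hnear : ∀ x y : ℂ × ℂ, y ∈ robANear E τ s x → N (f y) (f x) := by
    intro x y hy
    have hy2 := (robA_mem_near.1 hy).2
    rw [norm_sub_rev] at hy2
    rw [hN, hf]
    unfold robACell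
    simp only [sub_zero]
    refine ⟨hfl _ _ ?_, hfl _ _ ?_⟩
    · rw [← Complex.sub_re]
      exact lt_of_le_of_lt (Complex.abs_re_le_norm _) hy2
    · rw [← Complex.sub_im]
      exact lt_of_le_of_lt (Complex.abs_im_le_norm _) hy2
  have hfib : ∀ c ∈ X.image f, (X.filter fun x => f x = c).card ≤
      2 * (G.filter fun y => N (f y) c).card := by
    intro c hc
    rw [mem_image] at hc
    obtain ⟨x, hx, rfl⟩ := hc
    have hx' := hx
    rw [hX, mem_filter] at hx'
    have h1 : (X.filter fun z => f z = f x).card ≤ (robANear E τ s x).card := by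
      refine card_le_card fun z hz => ?_
      rw [mem_filter] at hz
      rw [robA_mem_near]
      refine ⟨(mem_filter.1 hz.1).1, ?_⟩
      refine lt_trans (robA_norm_lt hwpos hz.2.symm) ?_
      rw [hw]
      linarith
    have h2 := robA_half hτ hm hx'.2
    have h3 : ((robANear E τ s x).filter fun y => Good E τ (15 * τ / Real.sqrt m) s y).card ≤
        (G.filter fun y => N (f y) (f x)).card := by
      refine card_le_card fun y hy => ?_
      rw [mem_filter] at hy
      rw [mem_filter, hG, mem_filter]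
      exact ⟨⟨(robA_mem_near.1 hy.1).1, hy.2⟩, hnear x y hy.1⟩
    omega
  have hcount : ∀ y ∈ G, ((X.image f).filter fun c => N (f y) c).card ≤ 81 := by
    intro y _
    have h1 : (X.image f).filter (fun c => N (f y) c) ⊆
        (Icc ((f y).1 - 4) ((f y).1 + 4)) ×ˢ (Icc ((f y).2 - 4) ((f y).2 + 4)) := by
      intro c hc
      rw [mem_filter] at hc
      obtain ⟨-, h1, h2⟩ := hc
      rw [abs_le] at h1 h2
      rw [mem_product, mem_Icc, mem_Icc]
      constructor <;> constructor <;> linarith [h1.1, h1.2, h2.1, h2.2]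
    refine (card_le_card h1).trans (le_of_eq ?_)
    rw [card_product, Int.card_Icc, Int.card_Icc]
    have e1 : (f y).1 + 4 + 1 - ((f y).1 - 4) = 9 := by ring
    have e2 : (f y).2 + 4 + 1 - ((f y).2 - 4) = 9 := by ring
    rw [e1, e2]
    rfl
  calc X.card = ∑ c ∈ X.image f, (X.filter fun x => f x = c).card :=
        card_eq_sum_card_image f X
    _ ≤ ∑ c ∈ X.image f, 2 * (G.filter fun y => N (f y) c).card := sum_le_sum hfib
    _ = 2 * ∑ c ∈ X.image f, (G.filter fun y => N (f y) c).card := by rw [mul_sum]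
    _ = 2 * ∑ y ∈ G, ((X.image f).filter fun c => N (f y) c).card := by
        congr 1
        simp only [card_filter]
        rw [sum_comm]
    _ ≤ 2 * ∑ _y ∈ G, 81 := by
        gcongr with y hy
        exact hcount y hy
    _ = 162 * G.card := by rw [sum_const, smul_eq_mul]; ring

end SD12
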