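import Pool.Agent.SD12.Defs
import Pool.Agent.SD12.RobDefs

/-!
# There are few times at which a line is good

The times at which all lines near `x` meet `x` at the same time `t`, and one of them is very near,
are close to `t`, and different times `t` are far apart.
-/

open Finset ComplexConjugate

namespace SD12

/-- Disjoint intervals in an interval. -/
lemma robB_sum_le (r : ℝ → ℝ) (a : ℝ) (C : Finset ℝ) :
    (∀ t ∈ C, ∀ t' ∈ C, t' < t → t' + r t' ≤ t - r t) → (∀ t ∈ C, a ≤ t - r t) →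
    ∀ b : ℝ, a ≤ b → (∀ t ∈ C, t + r t ≤ b) → 2 * ∑ t ∈ C, r t ≤ b - a := by
  induction C using Finset.induction_on_max with
  | empty =>
    intro _ _ b hab _
    rw [sum_empty]
    linarith
  | insert t C hmax ih =>
    intro h1 h2 b hab h3
    have ht : t ∉ C := fun h => lt_irrefl _ (hmax t h)
    rw [sum_insert ht]
    have h4 := ih (fun u hu v hv => h1 u (mem_insert_of_mem hu) v (mem_insert_of_mem hv))
      (fun u hu => h2 u (mem_insert_of_mem hu)) (t - r t) (h2 t (mem_insert_self _ _))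
      (fun u hu => h1 t (mem_insert_self _ _) u (mem_insert_of_mem hu) (hmax u hu))
    have h5 := h3 t (mem_insert_self _ _)
    linarith

open Classical in
theorem good_times {E : Finset (ℂ × ℂ)} (hE : Cr E) {j : ℕ} {κ : ℝ} {S : Finset ℝ}
    (hS : Times j κ S) {τ σ : ℝ} (hτ0 : 0 < τ) (hτ : τ ≤ 1 / 4) (hσ0 : 0 < σ) (hσ : σ ≤ τ / 6)
    {x : ℂ × ℂ} (hx : x ∈ E) (hκ : ∀ y ∈ E, ‖x.1 - y.1‖ ≤ κ * σ)
    (hfar : ∀ y ∈ E, y ≠ x → (∃ s ∈ S, ‖L x s - L y s‖ < τ) → τ * 2 ^ j < ‖x.1 - y.1‖) :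
    ((S.filter fun s => Good E τ σ s x).card : ℝ) ≤ 11 * (σ / τ) * S.card := by
  set G := S.filter fun s => Good E τ σ s x with hG
  have hp : (0 : ℝ) < 2 ^ j := by positivity
  have hκ0 := hS.pos
  -- the centre of a good time
  have hcen : ∀ s : ℝ, ∃ t : ℝ, s ∈ G →
      ∀ y ∈ E, y ≠ x → ‖L x s - L y s‖ < τ → Meet x y t := by
    intro s
    by_cases hs : s ∈ G
    · obtain ⟨t, ht⟩ := (mem_filter.1 hs).2.1
      exact ⟨t, fun _ => ht⟩
    · exact ⟨0, fun h => absurd h hs⟩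
  choose c hc using hcen
  -- the slowest line through a centre
  have hmin : ∀ t : ℝ, ∃ y : ℂ × ℂ, t ∈ G.image c →
      y ∈ E ∧ y ≠ x ∧ Meet x y t ∧ τ * 2 ^ j < ‖x.1 - y.1‖ ∧
        ∀ z ∈ E, z ≠ x → Meet x z t → (∃ s ∈ S, ‖L x s - L z s‖ < τ) →
          ‖x.1 - y.1‖ ≤ ‖x.1 - z.1‖ := by
    intro t
    by_cases ht : t ∈ G.image c
    · obtain ⟨s, hs, rfl⟩ := mem_image.1 ht
      obtain ⟨hsS, -, z, hz, hzx, hzs⟩ := mem_filter.1 hs
      have hzτ : ‖L x s - L z s‖ < τ := by linarith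
      obtain ⟨y, hy, hymin⟩ := exists_min_image
        (E.filter fun y => y ≠ x ∧ Meet x y (c s) ∧ ∃ s ∈ S, ‖L x s - L y s‖ < τ)
        (fun y => ‖x.1 - y.1‖)
        ⟨z, mem_filter.2 ⟨hz, hzx, hc s hs z hz hzx hzτ, s, hsS, hzτ⟩⟩
      obtain ⟨hyE, hyx, hyt, hys⟩ := mem_filter.1 hy
      exact ⟨y, fun _ => ⟨hyE, hyx, hyt, hfar y hyE hyx hys, fun w hw hwx hwt hws =>
        hymin w (mem_filter.2 ⟨hw, hwx, hwt, hws⟩)⟩⟩
    · exact ⟨x, fun h => absurd h ht⟩
  choose m hm using hmin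
  have hlam : ∀ t ∈ G.image c, τ * 2 ^ j < ‖x.1 - (m t).1‖ := fun t ht => (hm t ht).2.2.2.1
  have hlam0 : ∀ t ∈ G.image c, 0 < ‖x.1 - (m t).1‖ := fun t ht =>
    lt_trans (by positivity) (hlam t ht)
  -- good times are near the centre
  have hnear : ∀ s ∈ G, |c s - s| * ‖x.1 - (m (c s)).1‖ < σ := by
    intro s hs
    obtain ⟨hsS, -, z, hz, hzx, hzs⟩ := mem_filter.1 hs
    have hzτ : ‖L x s - L z s‖ < τ := by linarith
    have hzm := hc s hs z hz hzx hzτ
    have h1 := (hm (c s) (mem_image_of_mem c hs)).2.2.2.2 z hz hzx hzm ⟨s, hsS, hzτ⟩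
    rw [hzm.norm_sub] at hzs
    exact lt_of_le_of_lt (mul_le_mul_of_nonneg_left h1 (abs_nonneg _)) hzs
  -- different centres are far apart
  have hsep : ∀ t ∈ G.image c, ∀ s' ∈ G, t ≠ c s' →
      ‖x.1 - (m t).1‖ ≤ ‖x.1 - (m (c s')).1‖ →
      2 * (τ / (3 * ‖x.1 - (m t).1‖)) ≤ |t - c s'| := by
    intro t ht s' hs' hne hle
    by_contra hlt
    push Not at hlt
    obtain ⟨hyE, hyx, hyt, -, -⟩ := hm t ht
    have h0 := hlam0 t ht
    have h1 := hnear s' hs'
    have h2 : |c s' - s'| * ‖x.1 - (m t).1‖ < σ :=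
      lt_of_le_of_lt (mul_le_mul_of_nonneg_left hle (abs_nonneg _)) h1
    have h3 : |t - c s'| * ‖x.1 - (m t).1‖ < 2 * τ / 3 := by
      have := mul_lt_mul_of_pos_right hlt h0
      have e : 2 * (τ / (3 * ‖x.1 - (m t).1‖)) * ‖x.1 - (m t).1‖ = 2 * τ / 3 := by
        field_simp
      rwa [e] at this
    have h4 : |t - s'| ≤ |t - c s'| + |c s' - s'| := abs_sub_le _ _ _
    have h5 : ‖L x s' - L (m t) s'‖ < τ := by
      rw [hyt.norm_sub]
      have := mul_le_mul_of_nonneg_right h4 h0.le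
      linarith
    exact hne (hyt.unique (hc s' hs' _ hyE hyx h5) hyx.symm)
  have hsep' : ∀ t ∈ G.image c, ∀ t' ∈ G.image c, t' < t →
      t' + τ / (3 * ‖x.1 - (m t').1‖) ≤ t - τ / (3 * ‖x.1 - (m t).1‖) := by
    intro t ht t' ht' hlt
    have h0 := hlam0 t ht
    have h0' := hlam0 t' ht'
    rcases le_total ‖x.1 - (m t).1‖ ‖x.1 - (m t').1‖ with hle | hle
    · obtain ⟨s', hs', rfl⟩ := mem_image.1 ht'
      have h1 := hsep t ht s' hs' hlt.ne' hle
      rw [abs_of_pos (sub_pos.2 hlt)] at h1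
      have h2 : τ / (3 * ‖x.1 - (m (c s')).1‖) ≤ τ / (3 * ‖x.1 - (m t).1‖) := by gcongr
      linarith
    · obtain ⟨s, hs, rfl⟩ := mem_image.1 ht
      have h1 := hsep t' ht' s hs hlt.ne hle
      rw [abs_of_neg (sub_neg.2 hlt)] at h1
      have h2 : τ / (3 * ‖x.1 - (m (c s)).1‖) ≤ τ / (3 * ‖x.1 - (m t').1‖) := by gcongr
      linarith
  -- the centres are in a short interval
  have hbd : ∀ t ∈ G.image c, |t| + τ / (3 * ‖x.1 - (m t).1‖) ≤ 1 / 2 ^ j := by
    intro t ht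
    have h0 := hlam0 t ht
    have h1 := hlam t ht
    obtain ⟨s, hs, rfl⟩ := mem_image.1 ht
    have h2 := hnear s hs
    have h3 := hS.abs_le s (mem_filter.1 hs).1
    have h4 : |c s| ≤ |c s - s| + |s| := by
      have := abs_add_le (c s - s) s
      rwa [sub_add_cancel] at this
    have h5 : |c s - s| ≤ τ / (6 * ‖x.1 - (m (c s)).1‖) := by
      rw [le_div_iff₀ (by positivity)]
      nlinarith
    have h6 : τ / (6 * ‖x.1 - (m (c s)).1‖) + τ / (3 * ‖x.1 - (m (c s)).1‖) ≤ 1 / 2 ^ (j + 1) := by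
      have e : τ / (6 * ‖x.1 - (m (c s)).1‖) + τ / (3 * ‖x.1 - (m (c s)).1‖) =
          τ / (2 * ‖x.1 - (m (c s)).1‖) := by
        field_simp
        norm_num
      rw [e, div_le_div_iff₀ (by positivity) (by positivity), pow_succ]
      linarith
    have h7 : (1 : ℝ) / 2 ^ (j + 1) + 1 / 2 ^ (j + 1) = 1 / 2 ^ j := by
      rw [pow_succ]
      field_simp
      norm_num
    linarith
  have hsum : ∑ t ∈ G.image c, τ / (3 * ‖x.1 - (m t).1‖) ≤ 1 / 2 ^ j := by
    have h1 := robB_sum_le (fun t => τ / (3 * ‖x.1 - (m t).1‖)) (-(1 / 2 ^ j)) (G.image c) hsep'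
      (fun t ht => by
        have := hbd t ht
        have := neg_abs_le t
        linarith) (1 / 2 ^ j) (by
        have : (0 : ℝ) < 1 / 2 ^ j := by positivity
        linarith)
      (fun t ht => by
        have := hbd t ht
        have := le_abs_self t
        linarith)
    linarith
  -- the number of good times with a given centre
  have hcount : ∀ t ∈ G.image c, ((G.filter fun s => c s = t).card : ℝ) ≤
      3 * κ * σ / ‖x.1 - (m t).1‖ := by
    intro t ht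
    have h0 := hlam0 t ht
    have h1 : ((S.filter fun s => t - σ / ‖x.1 - (m t).1‖ ≤ s ∧
        s ≤ t + σ / ‖x.1 - (m t).1‖).card : ℝ) ≤
        κ * (t + σ / ‖x.1 - (m t).1‖ - (t - σ / ‖x.1 - (m t).1‖)) + 1 := by
      refine hS.count _ _ ?_
      have : 0 < σ / ‖x.1 - (m t).1‖ := by positivity
      linarith
    have h2 : (G.filter fun s => c s = t) ⊆ S.filter fun s => t - σ / ‖x.1 - (m t).1‖ ≤ s ∧
        s ≤ t + σ / ‖x.1 - (m t).1‖ := by
      intro s hs
      obtain ⟨hsG, rfl⟩ := mem_filter.1 hs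
      have h3 := hnear s hsG
      rw [← lt_div_iff₀ h0, abs_lt] at h3
      rw [mem_filter]
      refine ⟨(mem_filter.1 hsG).1, ?_, ?_⟩ <;> linarith [h3.1, h3.2]
    have h3 : ((G.filter fun s => c s = t).card : ℝ) ≤
        ((S.filter fun s => t - σ / ‖x.1 - (m t).1‖ ≤ s ∧
        s ≤ t + σ / ‖x.1 - (m t).1‖).card : ℝ) := by
      exact_mod_cast card_le_card h2
    have h4 : 1 ≤ κ * σ / ‖x.1 - (m t).1‖ := by
      rw [le_div_iff₀ h0, one_mul]
      exact hκ _ (hm t ht).1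
    have e1 : 3 * κ * σ / ‖x.1 - (m t).1‖ =
        2 * (κ * σ / ‖x.1 - (m t).1‖) + κ * σ / ‖x.1 - (m t).1‖ := by ring
    have e2 : κ * (t + σ / ‖x.1 - (m t).1‖ - (t - σ / ‖x.1 - (m t).1‖)) =
        2 * (κ * σ / ‖x.1 - (m t).1‖) := by ring
    rw [e1]
    rw [e2] at h1
    linarith
  -- the sum over the centres
  have hcard : (G.card : ℝ) = ∑ t ∈ G.image c, ((G.filter fun s => c s = t).card : ℝ) := by
    exact_mod_cast card_eq_sum_card_image c G
  have htot : (G.card : ℝ) ≤ 9 * κ * σ / τ * (1 / 2 ^ j) := by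
    calc (G.card : ℝ) ≤ ∑ t ∈ G.image c, 3 * κ * σ / ‖x.1 - (m t).1‖ := by
          rw [hcard]
          exact sum_le_sum hcount
      _ = 9 * κ * σ / τ * ∑ t ∈ G.image c, τ / (3 * ‖x.1 - (m t).1‖) := by
          rw [mul_sum]
          refine sum_congr rfl fun t ht => ?_
          have h0 := hlam0 t ht
          field_simp
          norm_num
      _ ≤ 9 * κ * σ / τ * (1 / 2 ^ j) := mul_le_mul_of_nonneg_left hsum (by positivity)
  have hk : κ * (1 / 2 ^ j) ≤ S.card := by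
    rw [mul_one_div, div_le_iff₀ hp]
    exact hS.le_card
  have e3 : 9 * κ * σ / τ * (1 / 2 ^ j) = 9 * (σ / τ) * (κ * (1 / 2 ^ j)) := by ring
  rw [e3] at htot
  have hst : 0 < σ / τ := by positivity
  have h8 : 9 * (σ / τ) * (κ * (1 / 2 ^ j)) ≤ 9 * (σ / τ) * S.card :=
    mul_le_mul_of_nonneg_left hk (by positivity)
  have h9 : 9 * (σ / τ) * (S.card : ℝ) ≤ 11 * (σ / τ) * S.card := by
    have : (0 : ℝ) ≤ S.card := Nat.cast_nonneg _
    nlinarith [mul_nonneg hst.le this]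
  linarith

end SD12
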