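import Pool.Agent.SD12.Defs

/-!
# Random subsets

The expectation `Ex E π f` of `f` at a random subset of `E`: linearity, the probability that a
given set is sampled, and Chebyshev's inequality.
-/

open Finset

namespace SD12

section
variable {α : Type*} [DecidableEq α] {E : Finset α} {π : ℝ}

theorem Ex_add (f g : Finset α → ℝ) : Ex E π (fun T => f T + g T) = Ex E π f + Ex E π g := by
  unfold Ex
  rw [← Finset.sum_add_distrib]
  exact Finset.sum_congr rfl fun T _ => by ring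

theorem Ex_mul_left (c : ℝ) (f : Finset α → ℝ) : Ex E π (fun T => c * f T) = c * Ex E π f := by
  unfold Ex
  rw [Finset.mul_sum]
  exact Finset.sum_congr rfl fun T _ => by ring

theorem Ex_sum {β : Type*} (I : Finset β) (f : β → Finset α → ℝ) :
    Ex E π (fun T => ∑ i ∈ I, f i T) = ∑ i ∈ I, Ex E π (f i) := by
  unfold Ex
  rw [Finset.sum_comm]
  exact Finset.sum_congr rfl fun T _ => by rw [Finset.mul_sum]

theorem Ex_mono (h0 : 0 ≤ π) (h1 : π ≤ 1) {f g : Finset α → ℝ} (h : ∀ T ⊆ E, f T ≤ g T) :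
    Ex E π f ≤ Ex E π g := by
  unfold Ex
  refine Finset.sum_le_sum fun T hT => ?_
  have h2 : 0 ≤ π ^ T.card * (1 - π) ^ (E \ T).card :=
    mul_nonneg (pow_nonneg h0 _) (pow_nonneg (by linarith) _)
  exact mul_le_mul_of_nonneg_left (h T (Finset.mem_powerset.1 hT)) h2

theorem Ex_ind (X : Finset α) (hX : X ⊆ E) :
    Ex E π (fun T => if X ⊆ T then (1 : ℝ) else 0) = π ^ X.card := by
  have h := Finset.prod_add (fun _ : α => π) (fun i : α => if i ∈ X then (0 : ℝ) else 1 - π) E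
  have h1 : ∏ i ∈ E, (π + if i ∈ X then (0 : ℝ) else 1 - π) = π ^ X.card := by
    have h2 : ∀ i ∈ E, (π + if i ∈ X then (0 : ℝ) else 1 - π) = if i ∈ X then π else 1 := by
      intro i _
      split_ifs <;> ring
    rw [Finset.prod_congr rfl h2, Finset.prod_ite_mem, Finset.inter_eq_right.2 hX,
      Finset.prod_const]
  rw [h1] at h
  rw [h]
  unfold Ex
  refine Finset.sum_congr rfl fun T hT => ?_
  rw [Finset.prod_const]
  beta_reduce
  by_cases hXT : X ⊆ T
  · rw [if_pos hXT, mul_one]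
    congr 1
    rw [Finset.prod_congr rfl (g := fun _ => 1 - π), Finset.prod_const]
    intro i hi
    rw [if_neg]
    intro hiX
    exact (Finset.mem_sdiff.1 hi).2 (hXT hiX)
  · rw [if_neg hXT, mul_zero]
    obtain ⟨i, hiX, hiT⟩ := Finset.not_subset.1 hXT
    have hz : ∏ i ∈ E \ T, (if i ∈ X then (0 : ℝ) else 1 - π) = 0 :=
      Finset.prod_eq_zero (Finset.mem_sdiff.2 ⟨hX hiX, hiT⟩) (if_pos hiX)
    rw [hz, mul_zero]

theorem Ex_const (c : ℝ) : Ex E π (fun _ => c) = c := by
  have h := Ex_ind (E := E) (π := π) ∅ (Finset.empty_subset E)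
  have h2 : Ex E π (fun _ => c) = Ex E π (fun T => c * if ∅ ⊆ T then (1 : ℝ) else 0) := by
    congr 1
    funext T
    rw [if_pos (Finset.empty_subset T), mul_one]
  rw [h2, Ex_mul_left, h, Finset.card_empty, pow_zero, mul_one]

lemma samp_card (V T : Finset α) : ((V ∩ T).card : ℝ) = ∑ v ∈ V, if v ∈ T then (1 : ℝ) else 0 := by
  rw [Finset.sum_boole, Finset.filter_mem_eq_inter]

/-- Chebyshev's inequality: a set `V` of at least `2 m / π` elements which does not contain `y`
has at least `m` sampled elements, except for a small proportion of the cases in which `y` is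
sampled. -/
theorem Ex_cheb (h0 : 0 ≤ π) (h1 : π ≤ 1) {y : α} (hy : y ∈ E) {V : Finset α} (hV : V ⊆ E)
    (hyV : y ∉ V) {m : ℕ} (hm : 1 ≤ m) (hm2 : (2 * m : ℝ) ≤ π * V.card) :
    Ex E π (fun T => if y ∈ T ∧ (V ∩ T).card < m then (1 : ℝ) else 0) ≤ π * (2 / m) := by
  set μ : ℝ := π * V.card with hμ
  have hm' : (1 : ℝ) ≤ m := by exact_mod_cast hm
  have hμ0 : 0 < μ := by linarith
  -- the second moment, as a combination of indicators
  have hpt : ∀ T ⊆ E, (if y ∈ T ∧ (V ∩ T).card < m then (1 : ℝ) else 0) ≤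
      4 / μ ^ 2 * ((∑ v ∈ V, ∑ w ∈ V, if {y, v, w} ⊆ T then (1 : ℝ) else 0) +
        (-2 * μ) * (∑ v ∈ V, if {y, v} ⊆ T then (1 : ℝ) else 0) +
        μ ^ 2 * (if {y} ⊆ T then (1 : ℝ) else 0)) := by
    intro T _
    have key : (∑ v ∈ V, ∑ w ∈ V, if {y, v, w} ⊆ T then (1 : ℝ) else 0) +
        (-2 * μ) * (∑ v ∈ V, if {y, v} ⊆ T then (1 : ℝ) else 0) +
        μ ^ 2 * (if {y} ⊆ T then (1 : ℝ) else 0) =
        (if y ∈ T then (1 : ℝ) else 0) * (((V ∩ T).card : ℝ) - μ) ^ 2 := by
      by_cases hyT : y ∈ T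
      · have e1 : ∀ v w : α, (if {y, v, w} ⊆ T then (1 : ℝ) else 0) =
            (if v ∈ T then (1 : ℝ) else 0) * (if w ∈ T then (1 : ℝ) else 0) := by
          intro v w
          by_cases hv : v ∈ T <;> by_cases hw : w ∈ T <;>
            simp [Finset.insert_subset_iff, hyT, hv, hw]
        have e2 : ∀ v : α, (if {y, v} ⊆ T then (1 : ℝ) else 0) =
            (if v ∈ T then (1 : ℝ) else 0) := by
          intro v
          by_cases hv : v ∈ T <;> simp [Finset.insert_subset_iff, hyT, hv]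
        have e3 : ({y} ⊆ T) := by simpa using hyT
        simp only [e1, e2]
        rw [if_pos e3, if_pos hyT]
        have e4 : (∑ v ∈ V, ∑ w ∈ V, (if v ∈ T then (1 : ℝ) else 0) *
            (if w ∈ T then (1 : ℝ) else 0)) = ((V ∩ T).card : ℝ) * ((V ∩ T).card : ℝ) := by
          rw [samp_card, Finset.sum_mul_sum]
        rw [e4, ← samp_card]
        ring
      · have e1 : ∀ v w : α, ¬ ({y, v, w} ⊆ T) := by
          intro v w h
          exact hyT (h (by simp))
        have e2 : ∀ v : α, ¬ ({y, v} ⊆ T) := by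
          intro v h
          exact hyT (h (by simp))
        have e3 : ¬ ({y} ⊆ T) := by
          intro h
          exact hyT (h (by simp))
        simp [e1, e2, e3, hyT]
    rw [key]
    by_cases h : y ∈ T ∧ (V ∩ T).card < m
    · rw [if_pos h, if_pos h.1, one_mul]
      have h3 : ((V ∩ T).card : ℝ) < m := by exact_mod_cast h.2
      have h4 : (μ / 2) ^ 2 ≤ (((V ∩ T).card : ℝ) - μ) ^ 2 := by
        rw [← neg_sq (((V ∩ T).card : ℝ) - μ)]
        exact pow_le_pow_left₀ (by positivity) (by linarith) 2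
      have h5 : (1 : ℝ) = 4 / μ ^ 2 * (μ / 2) ^ 2 := by
        field_simp
        norm_num
      calc (1 : ℝ) = 4 / μ ^ 2 * (μ / 2) ^ 2 := h5
        _ ≤ _ := mul_le_mul_of_nonneg_left h4 (by positivity)
    · rw [if_neg h]
      have : 0 ≤ (if y ∈ T then (1 : ℝ) else 0) := by split_ifs <;> norm_num
      positivity
  have hE := Ex_mono h0 h1 hpt
  refine hE.trans ?_
  rw [Ex_mul_left, Ex_add, Ex_add, Ex_mul_left, Ex_mul_left, Ex_sum, Ex_sum]
  have hsub1 : ({y} : Finset α) ⊆ E := by simpa using hy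
  have a1 : Ex E π (fun T => if {y} ⊆ T then (1 : ℝ) else 0) = π := by
    rw [Ex_ind _ hsub1, Finset.card_singleton, pow_one]
  have a2 : ∀ v ∈ V, Ex E π (fun T => if {y, v} ⊆ T then (1 : ℝ) else 0) = π ^ 2 := by
    intro v hv
    have hne : y ≠ v := fun h => hyV (h ▸ hv)
    rw [Ex_ind _ (Finset.insert_subset_iff.2 ⟨hy, by simpa using hV hv⟩),
      Finset.card_pair hne]
  have a3 : ∀ v ∈ V, ∀ w ∈ V, Ex E π (fun T => if {y, v, w} ⊆ T then (1 : ℝ) else 0) =
      π ^ 3 + (if v = w then π ^ 2 - π ^ 3 else 0) := by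
    intro v hv w hw
    have hne : y ≠ v := fun h => hyV (h ▸ hv)
    have hne' : y ≠ w := fun h => hyV (h ▸ hw)
    rw [Ex_ind _ (Finset.insert_subset_iff.2 ⟨hy, Finset.insert_subset_iff.2
      ⟨hV hv, by simpa using hV hw⟩⟩)]
    by_cases hvw : v = w
    · subst hvw
      rw [if_pos rfl]
      have : ({y, v, v} : Finset α) = {y, v} := by simp
      rw [this, Finset.card_pair hne]
      ring
    · rw [if_neg hvw, add_zero]
      congr 1
      rw [Finset.card_insert_of_notMem (by simp [hne, hne']), Finset.card_pair hvw]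
  have b2 : ∑ v ∈ V, Ex E π (fun T => if {y, v} ⊆ T then (1 : ℝ) else 0) = V.card * π ^ 2 := by
    rw [Finset.sum_congr rfl a2, Finset.sum_const, nsmul_eq_mul]
  have b3 : ∑ v ∈ V, Ex E π (fun T => ∑ w ∈ V, if {y, v, w} ⊆ T then (1 : ℝ) else 0) =
      V.card * (V.card * π ^ 3 + (π ^ 2 - π ^ 3)) := by
    have c1 : ∀ v ∈ V, Ex E π (fun T => ∑ w ∈ V, if {y, v, w} ⊆ T then (1 : ℝ) else 0) =
        V.card * π ^ 3 + (π ^ 2 - π ^ 3) := by
      intro v hv
      rw [Ex_sum, Finset.sum_congr rfl (a3 v hv), Finset.sum_add_distrib, Finset.sum_const,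
        nsmul_eq_mul, Finset.sum_ite_eq, if_pos hv]
    rw [Finset.sum_congr rfl c1, Finset.sum_const, nsmul_eq_mul]
  rw [a1, b2, b3]
  have e : (V.card : ℝ) * (V.card * π ^ 3 + (π ^ 2 - π ^ 3)) + -2 * μ * (V.card * π ^ 2) +
      μ ^ 2 * π = π * μ * (1 - π) := by
    rw [hμ]
    ring
  rw [e]
  have e2 : 4 / μ ^ 2 * (π * μ * (1 - π)) = π * (4 * (1 - π) / μ) := by
    field_simp
  rw [e2]
  refine mul_le_mul_of_nonneg_left ?_ h0
  rw [div_le_div_iff₀ hμ0 (by linarith)]
  nlinarith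
end

end SD12
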