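import Pool.Agent.SD12.RobDefs
import Pool.Agent.SD12.Samp
import Pool.Agent.SD12.RobA
import Pool.Agent.SD12.RobB

/-!
# Few dominated lines

A dominated line which belongs to a random sample is usually big for the sample, and there are
few big lines.
-/

open Finset ComplexConjugate

namespace SD12

open Classical in
/-- A dominated line which belongs to the random sample is usually big for the sample. -/
theorem robSamp_dom {E : Finset (ℂ × ℂ)} {τ s : ℝ} {m : ℕ} (hm : 8100 ≤ m) {π μ₁ μ₂ : ℝ}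
    (h0 : 0 < π) (h1 : π ≤ 1) (hμ₁ : π * μ₁ ≤ 1 / 8) (hμ₂ : 2 * m ≤ π * μ₂)
    {y : ℂ × ℂ} (hy : y ∈ E) (hd : Dom E τ μ₁ μ₂ s y) :
    π * (6 / 7) ≤ Ex E π (fun T => if y ∈ T ∧ Big T τ m s y then (1 : ℝ) else 0) := by
  obtain ⟨t, hbad, V, hVE, hyV, hV, hVc⟩ := hd
  set W := E.filter (fun v => ‖L y s - L v s‖ < 2 * τ ∧ ¬ Meet y v t) with hW
  have hWE : W ⊆ E := Finset.filter_subset _ _
  have hWc : (W.card : ℝ) ≤ μ₁ := hbad W hWE (fun v hv => (Finset.mem_filter.1 hv).2)
  have hyW : y ∉ W := fun h => (Finset.mem_filter.1 h).2.2 (meet_self y t)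
  have hm' : (8100 : ℝ) ≤ m := by exact_mod_cast hm
  have hmono := Ex_mono (E := E) (π := π) h0.le h1
    (f := fun T => if {y} ⊆ T then (1 : ℝ) else 0)
    (g := fun T => ((if y ∈ T ∧ Big T τ m s y then (1 : ℝ) else 0) +
      ∑ v ∈ W, if {y, v} ⊆ T then (1 : ℝ) else 0) +
      if y ∈ T ∧ (V ∩ T).card < m then (1 : ℝ) else 0) (by
    intro T hT
    have n1 : (0 : ℝ) ≤ if y ∈ T ∧ Big T τ m s y then (1 : ℝ) else 0 := by
      split_ifs <;> norm_num
    have n2 : (0 : ℝ) ≤ ∑ v ∈ W, if {y, v} ⊆ T then (1 : ℝ) else 0 := by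
      refine Finset.sum_nonneg fun v _ => ?_
      split_ifs <;> norm_num
    have n3 : (0 : ℝ) ≤ if y ∈ T ∧ (V ∩ T).card < m then (1 : ℝ) else 0 := by
      split_ifs <;> norm_num
    by_cases hyT : y ∈ T
    · rw [if_pos (by simpa using hyT)]
      by_cases hc : (V ∩ T).card < m
      · rw [if_pos (⟨hyT, hc⟩ : y ∈ T ∧ (V ∩ T).card < m)]
        linarith
      by_cases hw : ∃ v ∈ W, v ∈ T
      · obtain ⟨v, hvW, hvT⟩ := hw
        have hv1 : (1 : ℝ) ≤ ∑ v ∈ W, if {y, v} ⊆ T then (1 : ℝ) else 0 := by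
          have hle := Finset.single_le_sum (s := W)
            (f := fun v => if {y, v} ⊆ T then (1 : ℝ) else 0)
            (fun v _ => by split_ifs <;> norm_num) hvW
          have he : (if {y, v} ⊆ T then (1 : ℝ) else 0) = 1 := by
            rw [if_pos]
            intro w hw
            rcases Finset.mem_insert.1 hw with rfl | hw
            · exact hyT
            · rw [Finset.mem_singleton.1 hw]
              exact hvT
          calc (1 : ℝ) = _ := he.symm
            _ ≤ _ := hle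
        linarith
      · have hbig : Big T τ m s y := by
          refine ⟨⟨t, fun v hvT _ hvd => ?_⟩, V ∩ T, Finset.inter_subset_right, ?_, ?_⟩
          · by_contra hmeet
            exact hw ⟨v, Finset.mem_filter.2 ⟨hT hvT, hvd, hmeet⟩, hvT⟩
          · omega
          · intro v hv
            exact (hV v (Finset.mem_inter.1 hv).1).1
        rw [if_pos (⟨hyT, hbig⟩ : y ∈ T ∧ Big T τ m s y)]
        linarith
    · rw [if_neg (by simpa using hyT)]
      linarith)
  rw [Ex_add, Ex_add, Ex_sum] at hmono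
  have e1 : Ex E π (fun T => if {y} ⊆ T then (1 : ℝ) else 0) = π := by
    rw [Ex_ind _ (by simpa using hy), Finset.card_singleton, pow_one]
  have e2 : ∑ v ∈ W, Ex E π (fun T => if {y, v} ⊆ T then (1 : ℝ) else 0) = W.card * π ^ 2 := by
    rw [Finset.sum_congr rfl (g := fun _ => π ^ 2), Finset.sum_const, nsmul_eq_mul]
    intro v hv
    have hne : y ≠ v := fun h => hyW (h ▸ hv)
    rw [Ex_ind _ (Finset.insert_subset_iff.2 ⟨hy, by simpa using hWE hv⟩), Finset.card_pair hne]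
  have hVc' : (2 * m : ℝ) ≤ π * V.card :=
    hμ₂.trans (mul_le_mul_of_nonneg_left hVc h0.le)
  have e3 := Ex_cheb h0.le h1 hy hVE hyV (m := m) (by omega) hVc'
  rw [e1, e2] at hmono
  have e4 : (W.card : ℝ) * π ^ 2 ≤ π * (1 / 8) := by
    have h4 : π * (W.card : ℝ) ≤ 1 / 8 :=
      (mul_le_mul_of_nonneg_left hWc h0.le).trans hμ₁
    calc (W.card : ℝ) * π ^ 2 = π * (π * W.card) := by ring
      _ ≤ π * (1 / 8) := mul_le_mul_of_nonneg_left h4 h0.le
  have e5 : π * (2 / m) ≤ π * (1 / 4050) := by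
    refine mul_le_mul_of_nonneg_left ?_ h0.le
    rw [div_le_div_iff₀ (by linarith) (by norm_num)]
    linarith
  linarith

open Classical in
/-- The good lines of a sample, counted with the times. -/
theorem robSamp_good {E : Finset (ℂ × ℂ)} (hE : Cr E) {j : ℕ} {κ : ℝ} {S : Finset ℝ}
    (hS : Times j κ S) {τ : ℝ} (hτ0 : 0 < τ) (hτ : τ ≤ 1 / 4) {m : ℕ} (hm : 8100 ≤ m)
    (hκ : ∀ x ∈ E, ∀ y ∈ E, ‖x.1 - y.1‖ ≤ κ * (15 * τ / Real.sqrt m))
    {T : Finset (ℂ × ℂ)} (hT : T ⊆ E) :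
    ∑ s ∈ S, ((T.filter fun x => Good T τ (15 * τ / Real.sqrt m) s x).card : ℝ) ≤
      165 / Real.sqrt m * S.card * (∑ x ∈ E, if {x} ⊆ T then (1 : ℝ) else 0) +
      S.card * ∑ p ∈ near E S j τ, if {p.1, p.2} ⊆ T then (1 : ℝ) else 0 := by
  have hm' : (8100 : ℝ) ≤ m := by exact_mod_cast hm
  have hsq : (90 : ℝ) ≤ Real.sqrt m := by
    refine Real.le_sqrt_of_sq_le ?_
    linarith
  have hsq0 : (0 : ℝ) < Real.sqrt m := by linarith
  set σ : ℝ := 15 * τ / Real.sqrt m with hσ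
  have hσ0 : 0 < σ := by positivity
  have hσ6 : σ ≤ τ / 6 := by
    rw [hσ, div_le_div_iff₀ hsq0 (by norm_num)]
    nlinarith
  have hστ : 11 * (σ / τ) = 165 / Real.sqrt m := by
    rw [hσ]
    field_simp
    norm_num
  -- exchange the order of summation
  have hex : ∑ s ∈ S, ((T.filter fun x => Good T τ σ s x).card : ℝ) =
      ∑ x ∈ T, ((S.filter fun s => Good T τ σ s x).card : ℝ) := by
    simp only [← Finset.sum_boole]
    exact Finset.sum_comm
  rw [hex]
  have hx : ∀ x ∈ T, ((S.filter fun s => Good T τ σ s x).card : ℝ) ≤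
      165 / Real.sqrt m * S.card +
      S.card * ∑ p ∈ near E S j τ, if p.1 = x ∧ {p.1, p.2} ⊆ T then (1 : ℝ) else 0 := by
    intro x hx
    have n0 : (0 : ℝ) ≤ 165 / Real.sqrt m * S.card := by positivity
    have nn : ∀ p ∈ near E S j τ, (0 : ℝ) ≤ if p.1 = x ∧ {p.1, p.2} ⊆ T then (1 : ℝ) else 0 := by
      intro p _
      split_ifs <;> norm_num
    by_cases hfar : ∀ y ∈ T, y ≠ x → (∃ s ∈ S, ‖L x s - L y s‖ < τ) → τ * 2 ^ j < ‖x.1 - y.1‖
    · have hg := good_times (hE.mono hT) hS hτ0 hτ hσ0 hσ6 hx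
        (fun y hy => hκ x (hT hx) y (hT hy)) hfar
      rw [hστ] at hg
      have n1 : (0 : ℝ) ≤ S.card * ∑ p ∈ near E S j τ,
          if p.1 = x ∧ {p.1, p.2} ⊆ T then (1 : ℝ) else 0 :=
        mul_nonneg (by positivity) (Finset.sum_nonneg nn)
      linarith
    · push Not at hfar
      obtain ⟨y, hyT, hyx, hs, hd⟩ := hfar
      have hmem : (x, y) ∈ near E S j τ := by
        unfold near
        refine Finset.mem_filter.2 ⟨Finset.mem_product.2 ⟨hT hx, hT hyT⟩, ?_, hs, hd⟩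
        exact fun h => hyx h.symm
      have h1 : (1 : ℝ) ≤ ∑ p ∈ near E S j τ,
          if p.1 = x ∧ {p.1, p.2} ⊆ T then (1 : ℝ) else 0 := by
        have hle := Finset.single_le_sum (s := near E S j τ)
          (f := fun p => if p.1 = x ∧ {p.1, p.2} ⊆ T then (1 : ℝ) else 0) nn hmem
        have he : (if (x, y).1 = x ∧ {(x, y).1, (x, y).2} ⊆ T then (1 : ℝ) else 0) = 1 := by
          rw [if_pos]
          refine ⟨rfl, fun w hw => ?_⟩
          rcases Finset.mem_insert.1 hw with rfl | hw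
          · exact hx
          · rw [Finset.mem_singleton.1 hw]
            exact hyT
        calc (1 : ℝ) = _ := he.symm
          _ ≤ _ := hle
      have h2 : ((S.filter fun s => Good T τ σ s x).card : ℝ) ≤ S.card := by
        exact_mod_cast Finset.card_filter_le _ _
      have h3 : (S.card : ℝ) * 1 ≤ S.card * ∑ p ∈ near E S j τ,
          if p.1 = x ∧ {p.1, p.2} ⊆ T then (1 : ℝ) else 0 :=
        mul_le_mul_of_nonneg_left h1 (by positivity)
      linarith
  refine (Finset.sum_le_sum hx).trans ?_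
  rw [Finset.sum_add_distrib, Finset.sum_const, nsmul_eq_mul, ← Finset.mul_sum]
  have e1 : (T.card : ℝ) = ∑ x ∈ E, if {x} ⊆ T then (1 : ℝ) else 0 := by
    have := samp_card E T
    rw [Finset.inter_eq_right.2 hT] at this
    simpa [Finset.singleton_subset_iff] using this
  have e2 : ∑ x ∈ T, ∑ p ∈ near E S j τ, (if p.1 = x ∧ {p.1, p.2} ⊆ T then (1 : ℝ) else 0) ≤
      ∑ p ∈ near E S j τ, if {p.1, p.2} ⊆ T then (1 : ℝ) else 0 := by
    rw [Finset.sum_comm]
    refine Finset.sum_le_sum fun p _ => ?_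
    by_cases hp : {p.1, p.2} ⊆ T
    · rw [if_pos hp]
      have : ∀ x ∈ T, (if p.1 = x ∧ {p.1, p.2} ⊆ T then (1 : ℝ) else 0) =
          if p.1 = x then (1 : ℝ) else 0 := by
        intro x _
        by_cases h : p.1 = x
        · rw [if_pos ⟨h, hp⟩, if_pos h]
        · rw [if_neg (fun h' => h h'.1), if_neg h]
      rw [Finset.sum_congr rfl this, Finset.sum_ite_eq]
      split_ifs <;> norm_num
    · rw [if_neg hp]
      refine le_of_eq (Finset.sum_eq_zero fun x _ => ?_)
      rw [if_neg (fun h => hp h.2)]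
  rw [e1]
  have e3 := mul_le_mul_of_nonneg_left e2 (show (0 : ℝ) ≤ S.card by positivity)
  have e4 : (∑ x ∈ E, if {x} ⊆ T then (1 : ℝ) else 0) * (165 / Real.sqrt m * S.card) =
      165 / Real.sqrt m * S.card * ∑ x ∈ E, if {x} ⊆ T then (1 : ℝ) else 0 := by ring
  rw [e4]
  linarith

open Classical in
/-- There are few dominated lines. -/
theorem dom_bound {E : Finset (ℂ × ℂ)} (hE : Cr E) {j : ℕ} {κ : ℝ} {S : Finset ℝ}
    (hS : Times j κ S) {τ : ℝ} (hτ0 : 0 < τ) (hτ : τ ≤ 1 / 4) {m : ℕ} (hm : 8100 ≤ m)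
    (hκ : ∀ x ∈ E, ∀ y ∈ E, ‖x.1 - y.1‖ ≤ κ * (15 * τ / Real.sqrt m))
    {π μ₁ μ₂ : ℝ} (h0 : 0 < π) (h1 : π ≤ 1) (hμ₁ : π * μ₁ ≤ 1 / 8) (hμ₂ : 2 * m ≤ π * μ₂) :
    ∑ s ∈ S, ((E.filter fun y => Dom E τ μ₁ μ₂ s y).card : ℝ) ≤
      60000 * S.card * (E.card / Real.sqrt m + π * (near E S j τ).card) := by
  set σ : ℝ := 15 * τ / Real.sqrt m with hσ
  -- the dominated lines are big for the sample
  have hA : ∀ s ∈ S, ((E.filter fun y => Dom E τ μ₁ μ₂ s y).card : ℝ) * (π * (6 / 7)) ≤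
      Ex E π (fun T => ((T.filter fun x => Big T τ m s x).card : ℝ)) := by
    intro s _
    have h2 : Ex E π (fun T => ∑ y ∈ E.filter fun y => Dom E τ μ₁ μ₂ s y,
        if y ∈ T ∧ Big T τ m s y then (1 : ℝ) else 0) ≤
        Ex E π (fun T => ((T.filter fun x => Big T τ m s x).card : ℝ)) := by
      refine Ex_mono h0.le h1 fun T hT => ?_
      rw [Finset.sum_boole]
      exact_mod_cast Finset.card_le_card (fun y hy => by
        obtain ⟨_, h3, h4⟩ := Finset.mem_filter.1 hy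
        exact Finset.mem_filter.2 ⟨h3, h4⟩)
    refine le_trans ?_ h2
    rw [Ex_sum, ← nsmul_eq_mul, ← Finset.sum_const]
    refine Finset.sum_le_sum fun y hy => ?_
    obtain ⟨hyE, hd⟩ := Finset.mem_filter.1 hy
    exact robSamp_dom hm h0 h1 hμ₁ hμ₂ hyE hd
  have hB : ∑ s ∈ S, ((E.filter fun y => Dom E τ μ₁ μ₂ s y).card : ℝ) * (π * (6 / 7)) ≤
      Ex E π (fun T => ∑ s ∈ S, ((T.filter fun x => Big T τ m s x).card : ℝ)) := by
    rw [Ex_sum]
    exact Finset.sum_le_sum hA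
  have hC : Ex E π (fun T => ∑ s ∈ S, ((T.filter fun x => Big T τ m s x).card : ℝ)) ≤
      Ex E π (fun T => 162 * (165 / Real.sqrt m * S.card *
        (∑ x ∈ E, if {x} ⊆ T then (1 : ℝ) else 0) +
        S.card * ∑ p ∈ near E S j τ, if {p.1, p.2} ⊆ T then (1 : ℝ) else 0)) := by
    refine Ex_mono h0.le h1 fun T hT => ?_
    refine le_trans ?_ (mul_le_mul_of_nonneg_left (robSamp_good hE hS hτ0 hτ hm hκ hT)
      (show (0 : ℝ) ≤ 162 by norm_num))
    rw [Finset.mul_sum]
    refine Finset.sum_le_sum fun s _ => ?_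
    exact_mod_cast big_count T hτ0 hm s
  have hD : Ex E π (fun T => 162 * (165 / Real.sqrt m * S.card *
        (∑ x ∈ E, if {x} ⊆ T then (1 : ℝ) else 0) +
        S.card * ∑ p ∈ near E S j τ, if {p.1, p.2} ⊆ T then (1 : ℝ) else 0)) =
      162 * (165 / Real.sqrt m * S.card * (E.card * π) +
        S.card * ((near E S j τ).card * π ^ 2)) := by
    rw [Ex_mul_left, Ex_add, Ex_mul_left, Ex_mul_left, Ex_sum, Ex_sum]
    have d1 : ∑ x ∈ E, Ex E π (fun T => if {x} ⊆ T then (1 : ℝ) else 0) = E.card * π := by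
      rw [Finset.sum_congr rfl (g := fun _ => π), Finset.sum_const, nsmul_eq_mul]
      intro x hx
      rw [Ex_ind _ (by simpa using hx), Finset.card_singleton, pow_one]
    have d2 : ∑ p ∈ near E S j τ, Ex E π (fun T => if {p.1, p.2} ⊆ T then (1 : ℝ) else 0) =
        (near E S j τ).card * π ^ 2 := by
      rw [Finset.sum_congr rfl (g := fun _ => π ^ 2), Finset.sum_const, nsmul_eq_mul]
      intro p hp
      unfold near at hp
      obtain ⟨hpE, hne, _⟩ := Finset.mem_filter.1 hp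
      obtain ⟨hp1, hp2⟩ := Finset.mem_product.1 hpE
      rw [Ex_ind _ (Finset.insert_subset_iff.2 ⟨hp1, by simpa using hp2⟩), Finset.card_pair hne]
    rw [d1, d2]
  rw [hD] at hC
  have hE1 := hB.trans hC
  rw [← Finset.sum_mul] at hE1
  set X : ℝ := ∑ s ∈ S, ((E.filter fun y => Dom E τ μ₁ μ₂ s y).card : ℝ) with hX
  set N : ℝ := ((near E S j τ).card : ℝ) with hN
  have hN0 : 0 ≤ N := by positivity
  have hm' : (8100 : ℝ) ≤ m := by exact_mod_cast hm
  have hsq0 : (0 : ℝ) < Real.sqrt m := Real.sqrt_pos.2 (by linarith)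
  have hS0 : (0 : ℝ) ≤ S.card := by positivity
  have hE0 : (0 : ℝ) ≤ E.card := by positivity
  have hF : X * (6 / 7) ≤ 162 * (165 / Real.sqrt m * S.card * E.card + S.card * (N * π)) := by
    have h5 : (X * (6 / 7)) * π ≤
        (162 * (165 / Real.sqrt m * S.card * E.card + S.card * (N * π))) * π := by
      calc (X * (6 / 7)) * π = X * (π * (6 / 7)) := by ring
        _ ≤ _ := hE1
        _ = _ := by ring
    exact le_of_mul_le_mul_right h5 h0
  have g1 : (0 : ℝ) ≤ S.card * (E.card / Real.sqrt m) := by positivity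
  have g2 : (0 : ℝ) ≤ S.card * (π * N) := by positivity
  have g3 : 165 / Real.sqrt m * S.card * E.card = 165 * (S.card * (E.card / Real.sqrt m)) := by
    ring
  rw [g3] at hF
  have g4 : S.card * (N * π) = S.card * (π * N) := by ring
  rw [g4] at hF
  have g5 : 60000 * S.card * (E.card / Real.sqrt m + π * N) =
      60000 * (S.card * (E.card / Real.sqrt m)) + 60000 * (S.card * (π * N)) := by ring
  rw [g5]
  linarith

end SD12
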