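import Pool.Agent.SD12.Defs

/-!
# Evenly spaced times
-/

open Finset

namespace SD12

theorem exists_times (j : ℕ) (κ0 : ℝ) : ∃ (κ : ℝ) (S : Finset ℝ), κ0 ≤ κ ∧ Times j κ S := by
  classical
  obtain ⟨M, hM⟩ := exists_nat_ge (max κ0 1)
  have hM0 : κ0 ≤ M := le_trans (le_max_left _ _) hM
  have hM1 : (1 : ℝ) ≤ M := le_trans (le_max_right _ _) hM
  have hp : (0 : ℝ) < 2 ^ (j + 1) := by positivity
  have hp1 : (1 : ℝ) ≤ 2 ^ (j + 1) := one_le_pow₀ (by norm_num)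
  set κ : ℝ := M * 2 ^ (j + 1) with hκ
  have hκM : (M : ℝ) ≤ κ := by rw [hκ]; nlinarith
  have hκ0 : 0 < κ := by linarith
  have hinj : Function.Injective fun i : ℤ => (i : ℝ) / κ := by
    intro i i' h
    have h1 : (i : ℝ) = i' := by
      have h2 : (i : ℝ) / κ = (i' : ℝ) / κ := h
      field_simp at h2
      exact h2
    exact_mod_cast h1
  refine ⟨κ, (Icc (-(M : ℤ)) M).image fun i : ℤ => (i : ℝ) / κ, by linarith, ⟨hκ0, ?_, ?_, ?_⟩⟩
  · intro s hs
    obtain ⟨i, hi, rfl⟩ := mem_image.mp hs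
    rw [mem_Icc] at hi
    have h1 : |(i : ℝ)| ≤ M := by
      rw [abs_le]
      exact ⟨by exact_mod_cast hi.1, by exact_mod_cast hi.2⟩
    rw [abs_div, abs_of_pos hκ0, div_le_div_iff₀ hκ0 hp, one_mul, hκ]
    nlinarith
  · rw [card_image_of_injective _ hinj, Int.card_Icc]
    have h1 : ((M : ℤ) + 1 - -(M : ℤ)).toNat = 2 * M + 1 := by omega
    rw [h1, hκ, pow_succ]
    push_cast
    have : (0 : ℝ) < 2 ^ j := by positivity
    nlinarith
  · intro u v huv
    have h1 : (((Icc (-(M : ℤ)) M).image fun i : ℤ => (i : ℝ) / κ).filter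
        fun s => u ≤ s ∧ s ≤ v).card ≤ (Icc ⌈κ * u⌉ ⌊κ * v⌋).card := by
      have h2 : ((Icc (-(M : ℤ)) M).image fun i : ℤ => (i : ℝ) / κ).filter
          (fun s => u ≤ s ∧ s ≤ v) ⊆ (Icc ⌈κ * u⌉ ⌊κ * v⌋).image fun i : ℤ => (i : ℝ) / κ := by
        intro s hs
        rw [mem_filter] at hs
        obtain ⟨i, _, rfl⟩ := mem_image.mp hs.1
        refine mem_image_of_mem _ ?_
        rw [mem_Icc]
        have h3 : u ≤ (i : ℝ) / κ := hs.2.1
        have h4 : (i : ℝ) / κ ≤ v := hs.2.2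
        rw [le_div_iff₀ hκ0] at h3
        rw [div_le_iff₀ hκ0] at h4
        exact ⟨Int.ceil_le.mpr (by linarith), Int.le_floor.mpr (by linarith)⟩
      exact le_trans (card_le_card h2) card_image_le
    have h5 : ((Icc ⌈κ * u⌉ ⌊κ * v⌋).card : ℝ) ≤ κ * (v - u) + 1 := by
      rw [Int.card_Icc]
      have h6 : (⌊κ * v⌋ : ℝ) ≤ κ * v := Int.floor_le _
      have h7 : κ * u ≤ (⌈κ * u⌉ : ℝ) := Int.le_ceil _
      have h8 : 0 ≤ κ * (v - u) := mul_nonneg hκ0.le (by linarith)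
      rcases le_total 0 (⌊κ * v⌋ + 1 - ⌈κ * u⌉) with h9 | h9
      · have h10 : (((⌊κ * v⌋ + 1 - ⌈κ * u⌉).toNat : ℕ) : ℝ) =
            ((⌊κ * v⌋ + 1 - ⌈κ * u⌉ : ℤ) : ℝ) := by
          have := Int.toNat_of_nonneg h9
          exact_mod_cast this
        rw [h10]
        push_cast
        linarith
      · rw [Int.toNat_of_nonpos h9]
        push_cast
        linarith
    exact le_trans (by exact_mod_cast h1) h5

end SD12
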