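import Pool.Agent.SD12.Poor
import Pool.Agent.SD12.RobSamp
import Pool.Agent.SD12.K22
import Pool.Agent.SD12.Fixed
import Pool.Agent.SD12.TimesEx

/-!
# Double counting in one class of lines
-/

open Finset ComplexConjugate

namespace SD12

open Classical in
/-- The lines of `E` which are at distance less than `r` from `x` at time `s`. -/
noncomputable def ball (E : Finset (ℂ × ℂ)) (s r : ℝ) (x : ℂ × ℂ) : Finset (ℂ × ℂ) :=
  E.filter fun y => ‖L x s - L y s‖ < r

lemma mem_ball {E : Finset (ℂ × ℂ)} {s r : ℝ} {x y : ℂ × ℂ} :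
    y ∈ ball E s r x ↔ y ∈ E ∧ ‖L x s - L y s‖ < r := by
  classical
  simp [ball]

lemma dist3 (a b c : ℂ) : ‖a - c‖ ≤ ‖a - b‖ + ‖b - c‖ := by
  have : a - c = (a - b) + (b - c) := by ring
  rw [this]
  exact norm_add_le _ _

lemma ball_sub {E : Finset (ℂ × ℂ)} {s r r' d : ℝ} {x y : ℂ × ℂ} (h : ‖L x s - L y s‖ < d)
    (hr : d + r ≤ r') : ball E s r y ⊆ ball E s r' x := by
  intro z hz
  rw [mem_ball] at hz ⊢
  refine ⟨hz.1, ?_⟩
  have := dist3 (L x s) (L y s) (L z s)
  linarith [hz.2]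

lemma mainA_dc {α β : Type*} (X : Finset α) (Y : Finset β) (r : α → β → Prop)
    [∀ x y, Decidable (r x y)] (a b : ℝ)
    (h1 : ∀ x ∈ X, a ≤ ((Y.filter fun y => r x y).card : ℝ))
    (h2 : ∀ y ∈ Y, ((X.filter fun x => r x y).card : ℝ) ≤ b) :
    (X.card : ℝ) * a ≤ Y.card * b := by
  have e : (∑ x ∈ X, ((Y.filter fun y => r x y).card : ℝ)) =
      ∑ y ∈ Y, ((X.filter fun x => r x y).card : ℝ) := by
    simp only [Finset.card_filter, Nat.cast_sum]
    exact Finset.sum_comm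
  calc (X.card : ℝ) * a = ∑ x ∈ X, a := by simp
    _ ≤ ∑ x ∈ X, ((Y.filter fun y => r x y).card : ℝ) := Finset.sum_le_sum h1
    _ = ∑ y ∈ Y, ((X.filter fun x => r x y).card : ℝ) := e
    _ ≤ ∑ y ∈ Y, b := Finset.sum_le_sum h2
    _ = Y.card * b := by simp

open Classical in
/-- The class of the lines with about `lam` lines near them at time `s`. -/
noncomputable def Cl (E : Finset (ℂ × ℂ)) (lam s : ℝ) : Finset (ℂ × ℂ) :=
  E.filter fun x => lam ≤ (ball E s (1 / 1024) x).card ∧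
    ((ball E s (1 / 1024) x).card : ℝ) < 4096 * lam ∧
    ((ball E s (21 / 128) x).card : ℝ) ≤ 4 * 10 ^ 6 * (ball E s (1 / 1024) x).card

open Classical in
/-- The poor pairs at time `s`. -/
noncomputable def Zp (E : Finset (ℂ × ℂ)) (H s : ℝ) : Finset ((ℂ × ℂ) × (ℂ × ℂ)) :=
  (E ×ˢ E).filter fun p => p.1 ≠ p.2 ∧ ‖L p.1 s - L p.2 s‖ ≤ 1 / 64 ∧
    (hh E p.1 p.2 : ℝ) < H ∧ (hh E p.2 p.1 : ℝ) < H

lemma mem_Cl {E : Finset (ℂ × ℂ)} {lam s : ℝ} {x : ℂ × ℂ} : x ∈ Cl E lam s ↔ x ∈ E ∧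
    lam ≤ (ball E s (1 / 1024) x).card ∧ ((ball E s (1 / 1024) x).card : ℝ) < 4096 * lam ∧
    ((ball E s (21 / 128) x).card : ℝ) ≤ 4 * 10 ^ 6 * (ball E s (1 / 1024) x).card := by
  classical
  simp [Cl]

lemma ball_mono {E : Finset (ℂ × ℂ)} {s r r' : ℝ} (h : r ≤ r') (x : ℂ × ℂ) :
    ball E s r x ⊆ ball E s r' x := by
  intro z hz
  rw [mem_ball] at hz ⊢
  exact ⟨hz.1, hz.2.trans_le h⟩

/-- There are few lines of the class near a given point. -/
lemma cl_near {E : Finset (ℂ × ℂ)} {lam s : ℝ} (hlam : 0 ≤ lam) (X : Finset (ℂ × ℂ))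
    (hX : X ⊆ Cl E lam s)
    (hd : ∀ x ∈ X, ∀ x' ∈ X, ‖L x s - L x' s‖ < 21 / 128) :
    (X.card : ℝ) ≤ 4096 * lam * (4 * 10 ^ 6) := by
  rcases X.eq_empty_or_nonempty with rfl | ⟨x, hx⟩
  · simp; positivity
  · have h1 := mem_Cl.1 (hX hx)
    have h2 : X ⊆ ball E s (21 / 128) x := by
      intro y hy
      exact mem_ball.2 ⟨(mem_Cl.1 (hX hy)).1, hd x hx y hy⟩
    have h3 : (X.card : ℝ) ≤ (ball E s (21 / 128) x).card := by exact_mod_cast card_le_card h2
    nlinarith [h1.2.2.1, h1.2.2.2]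

open Classical in
/-- The poor lines of the class. -/
noncomputable def Poor (E : Finset (ℂ × ℂ)) (lam H ζ s : ℝ) : Finset (ℂ × ℂ) :=
  (Cl E lam s).filter fun x => ζ * ((ball E s (1 / 128) x).card : ℝ) ^ 2 <
    (((Zp E H s).filter fun p => p.1 ∈ ball E s (1 / 128) x ∧ p.2 ∈ ball E s (1 / 128) x).card : ℝ)

open Classical in
/-- The other lines of the class. -/
noncomputable def Rich (E : Finset (ℂ × ℂ)) (lam H ζ s : ℝ) : Finset (ℂ × ℂ) :=
  (Cl E lam s).filter fun x => ¬ ζ * ((ball E s (1 / 128) x).card : ℝ) ^ 2 <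
    (((Zp E H s).filter fun p => p.1 ∈ ball E s (1 / 128) x ∧ p.2 ∈ ball E s (1 / 128) x).card : ℝ)

lemma poor_rich (E : Finset (ℂ × ℂ)) (lam H ζ s : ℝ) :
    (Cl E lam s).card = (Poor E lam H ζ s).card + (Rich E lam H ζ s).card := by
  classical
  unfold Poor Rich
  exact (Finset.card_filter_add_card_filter_not _).symm

lemma poor_card {E : Finset (ℂ × ℂ)} {lam H ζ s : ℝ} (hlam : 0 < lam) (hζ : 0 < ζ) :
    ((Poor E lam H ζ s).card : ℝ) ≤ 4096 * (4 * 10 ^ 6) / (ζ * lam) * (Zp E H s).card := by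
  classical
  have h := mainA_dc (Poor E lam H ζ s) (Zp E H s)
    (fun x p => p.1 ∈ ball E s (1 / 128) x ∧ p.2 ∈ ball E s (1 / 128) x)
    (ζ * lam ^ 2) (4096 * lam * (4 * 10 ^ 6)) ?_ ?_
  · have e : 4096 * (4 * 10 ^ 6) / (ζ * lam) * ((Zp E H s).card : ℝ) =
        (Zp E H s).card * (4096 * lam * (4 * 10 ^ 6)) / (ζ * lam ^ 2) := by
      field_simp
    rw [e, le_div_iff₀ (by positivity)]
    exact h
  · intro x hx
    simp only [Poor, mem_filter] at hx
    have h1 := mem_Cl.1 hx.1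
    have h2 : (ball E s (1 / 1024) x).card ≤ (ball E s (1 / 128) x).card :=
      card_le_card (ball_mono (by norm_num) x)
    have h3 : lam ≤ ((ball E s (1 / 128) x).card : ℝ) :=
      h1.2.1.trans (by exact_mod_cast h2)
    have h4 : lam ^ 2 ≤ ((ball E s (1 / 128) x).card : ℝ) ^ 2 :=
      pow_le_pow_left₀ hlam.le h3 2
    have h5 : ζ * lam ^ 2 ≤ ζ * ((ball E s (1 / 128) x).card : ℝ) ^ 2 :=
      mul_le_mul_of_nonneg_left h4 hζ.le
    exact (h5.trans_lt hx.2).le
  · intro p hp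
    apply cl_near hlam.le
    · intro x hx
      rw [mem_filter] at hx
      exact (mem_filter.1 hx.1).1
    · intro x hx x' hx'
      rw [mem_filter] at hx hx'
      have h1 := (mem_ball.1 hx.2.1).2
      have h2 := (mem_ball.1 hx'.2.1).2
      have h3 := dist3 (L x s) (L p.1 s) (L x' s)
      rw [norm_sub_rev (L p.1 s) (L x' s)] at h3
      linarith

/-- The lines of the class which are not poor are near lines of a dominating pencil. -/
lemma rich_dom {E : Finset (ℂ × ℂ)} (hE : Cr E) {lam C1 ζ s : ℝ} (hs : |s| ≤ 1 / 2)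
    (hC1 : 1 ≤ C1) (hζ0 : 0 < ζ) (hζ1 : ζ ≤ 1 / 10 ^ 20) (hbig : 10 ^ 37 * C1 ^ 4 / ζ ≤ lam)
    {x : ℂ × ℂ} (hx : x ∈ Rich E lam (lam / (8 * C1 ^ 2)) ζ s) :
    ∃ V ⊆ ball E s (1 / 1024) x, 3 / 4 * lam ≤ (V.card : ℝ) ∧
      ∀ y ∈ V, Dom E (1 / 512) (5 * 10 ^ 10 * ζ * lam) (lam / 2) s y := by
  classical
  have hx' := (mem_filter.1 hx).1
  have hxr := (mem_filter.1 hx).2
  have h1 := mem_Cl.1 hx'
  obtain ⟨hxE, hv1, hv2, hv3⟩ := h1
  set Q := ball E s (1 / 128) x with hQ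
  set Q' := ball E s (21 / 128) x with hQ'
  set V0 := ball E s (1 / 1024) x with hV0
  have hVQ : V0 ⊆ Q := ball_mono (by norm_num) x
  have hQQ : Q ⊆ Q' := ball_mono (by norm_num) x
  have hVQc : (V0.card : ℝ) ≤ Q.card := by exact_mod_cast card_le_card hVQ
  have hQQc : (Q.card : ℝ) ≤ Q'.card := by exact_mod_cast card_le_card hQQ
  have hC14 : 1 ≤ C1 ^ 4 := one_le_pow₀ hC1
  have hlam0 : 10 ^ 37 * C1 ^ 4 ≤ lam * ζ := by
    rwa [div_le_iff₀ hζ0] at hbig
  have hlam : 10 ^ 37 ≤ lam := by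
    have h2 : (10 : ℝ) ^ 37 ≤ 10 ^ 37 * C1 ^ 4 / ζ := by
      rw [le_div_iff₀ hζ0]
      nlinarith
    linarith
  have hlampos : 0 < lam := by linarith
  have hC12 : 0 < C1 ^ 2 := by positivity
  -- the lines of `Q'` meet pairwise
  have hmeet : ∀ y ∈ Q', ∀ z ∈ Q', y ≠ z → ∃ t : ℝ, Meet y z t := by
    intro y hy z hz hyz
    have h2 := mem_ball.1 hy
    have h3 := mem_ball.1 hz
    have h4 := dist3 (L y s) (L x s) (L z s)
    rw [norm_sub_rev (L y s) (L x s)] at h4
    exact (hE y h2.1 z h3.1 hyz s (by linarith) (by linarith [h2.2, h3.2])).2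
  obtain ⟨t, P, hP⟩ := k22 (A := 4 * 10 ^ 6) (θ := 1 / (32768 * (4 * 10 ^ 6) * C1 ^ 2)) (ζ := ζ)
    hQQ hmeet (by norm_num) (by positivity) (by
      rw [div_le_one (by positivity)]
      nlinarith) hζ0 (by
      refine hζ1.trans ?_
      norm_num) (by nlinarith) (by
      refine le_trans ?_ ((hbig.trans hv1).trans hVQc)
      rw [div_le_div_iff₀ (by positivity) hζ0]
      rw [div_pow, mul_pow, mul_pow]
      have e : (10 : ℝ) ^ 37 * C1 ^ 4 * (1 ^ 2 / (32768 ^ 2 * (4 * 10 ^ 6) ^ 2 * (C1 ^ 2) ^ 2) * ζ)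
          = 10 ^ 37 / (32768 ^ 2 * (4 * 10 ^ 6) ^ 2) * ζ := by
        field_simp
      rw [mul_pow, e]
      gcongr
      norm_num) (by
      have hxr2 := not_lt.1 hxr
      refine le_trans (Nat.cast_le.2 (card_le_card ?_)) hxr2
      intro p hp
      simp only [mem_filter, mem_product] at hp
      obtain ⟨⟨hp1, hp2⟩, hp3, hp4⟩ := hp
      have h2 := mem_ball.1 hp1
      have h3 := mem_ball.1 hp2
      have h4 := dist3 (L p.1 s) (L x s) (L p.2 s)
      rw [norm_sub_rev (L p.1 s) (L x s)] at h4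
      have h5 : ‖L p.1 s - L p.2 s‖ < 1 / 64 := by linarith [h2.2, h3.2]
      obtain ⟨t, ht⟩ := hmeet p.1 (hQQ hp1) p.2 (hQQ hp2) hp3
      have hθ : 1 / (32768 * (4 * 10 ^ 6) * C1 ^ 2) * (Q.card : ℝ) ≤ lam / (8 * C1 ^ 2) := by
        rw [div_mul_eq_mul_div, div_le_div_iff₀ (by positivity) (by positivity)]
        have : (Q.card : ℝ) ≤ 4 * 10 ^ 6 * (4096 * lam) := by nlinarith
        nlinarith
      have key : ∀ a b : ℂ × ℂ, a ∈ Q → b ∈ Q → Meet a b t →
          lam / (8 * C1 ^ 2) ≤ (hh E a b : ℝ) → lam / (8 * C1 ^ 2) ≤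
            ((Q'.filter fun v => Meet a v t).card : ℝ) := by
        intro a b ha hb hab hhab
        refine hhab.trans ?_
        unfold hh
        norm_cast
        apply card_le_card
        intro z hz
        simp only [mem_filter] at hz ⊢
        obtain ⟨hzE, hza, hzb, ⟨t', ht1, ht2⟩, hz3⟩ := hz
        have hab' : a ≠ b := by
          rintro rfl
          rw [sub_self, norm_zero, mul_zero] at hz3
          have := norm_le_zero_iff.1 hz3
          exact ht2.ne (Ne.symm hza) (sub_eq_zero.1 this)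
        have htt : t' = t := ht1.unique hab hab'
        rw [htt] at ht2
        refine ⟨mem_ball.2 ⟨hzE, ?_⟩, ht2⟩
        have g1 := ht2.norm_sub s
        have g2 := hab.norm_sub s
        have ha' := mem_ball.1 ha
        have hb' := mem_ball.1 hb
        have g3 := dist3 (L a s) (L x s) (L b s)
        rw [norm_sub_rev (L a s) (L x s)] at g3
        have g4 := dist3 (L x s) (L a s) (L z s)
        have g5 : ‖L a s - L z s‖ ≤ 10 * ‖L a s - L b s‖ := by
          rw [g1, g2]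
          nlinarith [abs_nonneg (t - s)]
        linarith [ha'.2, hb'.2]
      simp only [mem_filter, Zp, mem_product]
      refine ⟨⟨⟨h2.1, h3.1⟩, hp3, h5.le, ?_, ?_⟩, hp1, hp2⟩
      · by_contra hc
        exact hp4 ⟨t, ht, hθ.trans (key p.1 p.2 hp1 hp2 ht (not_lt.1 hc))⟩
      · by_contra hc
        refine hp4 ⟨t, ht, hθ.trans ?_⟩
        have g := key p.2 p.1 hp2 hp1 ht.symm (not_lt.1 hc)
        have e : (Q'.filter fun v => Meet p.2 v t) = Q'.filter fun v => Meet p.1 v t := by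
          apply filter_congr
          intro v _
          exact ⟨fun h => ht.trans h, fun h => ht.symm.trans h⟩
        rwa [e] at g)
  -- the lines of the pencil near `x`
  have hζQ : 3 * ζ * (Q.card : ℝ) ≤ V0.card / 4 := by
    have : (Q.card : ℝ) ≤ 4 * 10 ^ 6 * V0.card := hQQc.trans hv3
    have h2 : ζ * (Q.card : ℝ) ≤ 1 / 10 ^ 20 * (4 * 10 ^ 6 * V0.card) :=
      mul_le_mul hζ1 this (by positivity) (by positivity)
    have h3 : (0 : ℝ) ≤ V0.card := by positivity
    nlinarith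
  have hζQ2 : 3 * ζ * (Q.card : ℝ) ≤ 5 * 10 ^ 10 * ζ * lam := by
    have : (Q.card : ℝ) ≤ 4 * 10 ^ 6 * (4096 * lam) := by nlinarith
    have h2 : ζ * (Q.card : ℝ) ≤ ζ * (4 * 10 ^ 6 * (4096 * lam)) :=
      mul_le_mul_of_nonneg_left this hζ0.le
    nlinarith [mul_pos hζ0 hlampos]
  refine ⟨V0.filter fun v => L v t = P, filter_subset _ _, ?_, ?_⟩
  · have h2 : (V0.card : ℝ) = (V0.filter fun v => L v t = P).card +
        (V0.filter fun v => L v t ≠ P).card := by
      have := Finset.card_filter_add_card_filter_not (s := V0) (fun v => L v t = P)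
      exact_mod_cast this.symm
    have h3 : ((V0.filter fun v => L v t ≠ P).card : ℝ) ≤ (Q.filter fun v => L v t ≠ P).card := by
      exact_mod_cast card_le_card (filter_subset_filter _ hVQ)
    linarith
  · intro y hy
    rw [mem_filter] at hy
    have hy1 := mem_ball.1 hy.1
    refine ⟨t, ?_, (V0.filter fun v => L v t = P).erase y, ?_, ?_, ?_, ?_⟩
    · intro T hT hT2
      refine le_trans ?_ (hP.trans hζQ2)
      norm_cast
      apply card_le_card
      intro v hv
      have g1 := hT2 v hv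
      rw [mem_filter]
      refine ⟨mem_ball.2 ⟨hT hv, ?_⟩, fun h => g1.2 ?_⟩
      · have g2 := dist3 (L x s) (L y s) (L v s)
        linarith [g1.1, hy1.2]
      · unfold Meet
        rw [hy.2, h]
    · intro v hv
      exact (mem_ball.1 (mem_filter.1 (mem_of_mem_erase hv)).1).1
    · exact notMem_erase y _
    · intro v hv
      have g1 := mem_filter.1 (mem_of_mem_erase hv)
      refine ⟨?_, ?_⟩
      · have g2 := dist3 (L y s) (L x s) (L v s)
        rw [norm_sub_rev (L y s) (L x s)] at g2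
        linarith [(mem_ball.1 g1.1).2, hy1.2]
      · unfold Meet
        rw [hy.2, g1.2]
    · have hmem : y ∈ V0.filter fun v => L v t = P := mem_filter.2 hy
      have g1 : (((V0.filter fun v => L v t = P).erase y).card : ℝ) =
          (V0.filter fun v => L v t = P).card - 1 := by
        rw [card_erase_of_mem hmem, Nat.cast_sub (card_pos.2 ⟨y, hmem⟩)]
        simp
      have h2 : (V0.card : ℝ) = (V0.filter fun v => L v t = P).card +
          (V0.filter fun v => L v t ≠ P).card := by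
        have := Finset.card_filter_add_card_filter_not (s := V0) (fun v => L v t = P)
        exact_mod_cast this.symm
      have h3 : ((V0.filter fun v => L v t ≠ P).card : ℝ) ≤
          (Q.filter fun v => L v t ≠ P).card := by
        exact_mod_cast card_le_card (filter_subset_filter _ hVQ)
      rw [g1]
      linarith

open Classical in
lemma rich_card {E : Finset (ℂ × ℂ)} (hE : Cr E) {lam C1 ζ s : ℝ} (hs : |s| ≤ 1 / 2)
    (hC1 : 1 ≤ C1) (hζ0 : 0 < ζ) (hζ1 : ζ ≤ 1 / 10 ^ 20) (hbig : 10 ^ 37 * C1 ^ 4 / ζ ≤ lam) :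
    ((Rich E lam (lam / (8 * C1 ^ 2)) ζ s).card : ℝ) ≤ 22 * 10 ^ 9 *
      (E.filter fun y => Dom E (1 / 512) (5 * 10 ^ 10 * ζ * lam) (lam / 2) s y).card := by
  have hlampos : 0 < lam := by
    refine lt_of_lt_of_le ?_ hbig
    positivity
  have h := mainA_dc (Rich E lam (lam / (8 * C1 ^ 2)) ζ s)
    (E.filter fun y => Dom E (1 / 512) (5 * 10 ^ 10 * ζ * lam) (lam / 2) s y)
    (fun x y => y ∈ ball E s (1 / 1024) x) (3 / 4 * lam) (4096 * lam * (4 * 10 ^ 6)) ?_ ?_
  · have h2 : ((Rich E lam (lam / (8 * C1 ^ 2)) ζ s).card : ℝ) * (3 / 4 * lam) ≤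
        22 * 10 ^ 9 * (E.filter fun y => Dom E (1 / 512) (5 * 10 ^ 10 * ζ * lam) (lam / 2) s y).card
        * (3 / 4 * lam) := by
      refine h.trans ?_
      have h3 : (0 : ℝ) ≤ (E.filter fun y =>
        Dom E (1 / 512) (5 * 10 ^ 10 * ζ * lam) (lam / 2) s y).card := by positivity
      nlinarith [mul_nonneg h3 hlampos.le]
    exact le_of_mul_le_mul_right h2 (by positivity)
  · intro x hx
    obtain ⟨V, hV1, hV2, hV3⟩ := rich_dom hE hs hC1 hζ0 hζ1 hbig hx
    refine hV2.trans ?_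
    norm_cast
    apply card_le_card
    intro y hy
    rw [mem_filter, mem_filter]
    exact ⟨⟨(mem_ball.1 (hV1 hy)).1, hV3 y hy⟩, hV1 hy⟩
  · intro y hy
    apply cl_near hlampos.le
    · intro x hx
      exact (mem_filter.1 (mem_filter.1 hx).1).1
    · intro x hx x' hx'
      have h1 := (mem_ball.1 (mem_filter.1 hx).2).2
      have h2 := (mem_ball.1 (mem_filter.1 hx').2).2
      have h3 := dist3 (L x s) (L y s) (L x' s)
      rw [norm_sub_rev (L y s) (L x' s)] at h3
      linarith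

end SD12
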