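import Pool.Agent.SD12.MainA

/-!
# The class bound
-/

open Finset ComplexConjugate

namespace SD12

open Classical in
theorem class_bound {E : Finset (ℂ × ℂ)} (hE : Cr E) (hf : Fn E) {j : ℕ} {κ : ℝ} {S : Finset ℝ}
    (hS : Times j κ S) (K : ℕ) (hK : ∀ x ∈ E, ∀ y ∈ E, 26 * ‖x.1 - y.1‖ < 2 ^ K)
    (hκ : 2 ^ (K + 1) ≤ κ) (Bh : ℂ × ℂ → ℝ → ℝ) (hB0 : ∀ x r, 0 ≤ Bh x r)
    (hBm : ∀ x r r', r ≤ r' → Bh x r ≤ Bh x r')
    (hB : ∀ x ∈ E, ∀ y ∈ E, (npl E j x y : ℝ) ≤ Bh x ‖x.1 - y.1‖)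
    {lam C1 ζ : ℝ} (hC1 : 1 ≤ C1) (hζ0 : 0 < ζ) (hζ1 : ζ ≤ 1 / 10 ^ 20)
    (hbig : 10 ^ 37 * C1 ^ 4 / ζ ≤ lam)
    (hκm : ∀ m : ℕ, 1 ≤ m → (m : ℝ) ≤ 1 / (16 * 10 ^ 11 * ζ) → ∀ x ∈ E, ∀ y ∈ E,
      ‖x.1 - y.1‖ ≤ κ * (15 * (1 / 512) / Real.sqrt m)) :
    ∑ s ∈ S, ((Cl E lam s).card : ℝ) ≤ S.card * (4 * 10 ^ 14 / ζ *
      ((∑ k ∈ range K, om j k * ∑ x ∈ E, Real.sqrt (Nk E j k x)) / (C1 * Real.sqrt lam) +
        (∑ k ∈ range K, om j k * ∑ x ∈ E, Bh x (2 ^ k)) / lam + E.card / C1 ^ 2) +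
      3 * 10 ^ 21 * Real.sqrt ζ * E.card + 3300 * (near E S j (1 / 512)).card / (ζ * lam)) := by
  have hC14 : 1 ≤ C1 ^ 4 := one_le_pow₀ hC1
  have hC12 : 1 ≤ C1 ^ 2 := one_le_pow₀ hC1
  have hlam0 : 10 ^ 37 * C1 ^ 4 ≤ lam * ζ := by
    rwa [div_le_iff₀ hζ0] at hbig
  have hζlam : 10 ^ 37 ≤ ζ * lam := by
    nlinarith
  have hlampos : 0 < lam := by
    refine lt_of_lt_of_le ?_ hbig
    positivity
  have hC1lam : C1 ^ 2 ≤ lam := by
    have h1 : C1 ^ 2 ≤ C1 ^ 4 := pow_le_pow_right₀ hC1 (by norm_num)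
    have h2 : lam * ζ ≤ lam := by
      have : ζ ≤ 1 := hζ1.trans (by norm_num)
      nlinarith
    nlinarith
  set ST := ∑ k ∈ range K, om j k * ∑ x ∈ E, Real.sqrt (Nk E j k x) with hST
  set SB := ∑ k ∈ range K, om j k * ∑ x ∈ E, Bh x (2 ^ k) with hSB
  -- the poor part
  have hZ : ∑ s ∈ S, ((Zp E (lam / (8 * C1 ^ 2)) s).card : ℝ) ≤
      22000 / (C1 ^ 2 / lam) * S.card * (Real.sqrt (C1 ^ 2 / lam) * ST + C1 ^ 2 / lam * SB +
        E.card) := by
    have h := poor_bound hE hf hS K hK hκ Bh hB0 hBm hB (π := C1 ^ 2 / lam)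
      (H := lam / (8 * C1 ^ 2)) (by positivity) (by rwa [div_le_one hlampos]) (by
        apply le_of_eq
        field_simp)
    refine (le_of_eq ?_).trans (h.trans (le_of_eq ?_))
    · rfl
    · congr 2
      rw [hST, hSB, Finset.mul_sum, Finset.mul_sum, ← Finset.sum_add_distrib]
      apply Finset.sum_congr rfl
      intro k _
      rw [Finset.sum_add_distrib, ← Finset.mul_sum, mul_add]
      have : ∑ x ∈ E, Real.sqrt (C1 ^ 2 / lam * (Nk E j k x : ℝ)) =
          Real.sqrt (C1 ^ 2 / lam) * ∑ x ∈ E, Real.sqrt (Nk E j k x) := by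
        rw [Finset.mul_sum]
        apply Finset.sum_congr rfl
        intro x _
        rw [Real.sqrt_mul (by positivity)]
      rw [this]
      ring
  have hsq : Real.sqrt (C1 ^ 2 / lam) = C1 / Real.sqrt lam := by
    rw [Real.sqrt_div (by positivity), Real.sqrt_sq (by linarith)]
  have hsl : 0 < Real.sqrt lam := Real.sqrt_pos.2 hlampos
  have hsl2 : Real.sqrt lam * Real.sqrt lam = lam := Real.mul_self_sqrt hlampos.le
  have hom : ∀ k, 0 ≤ om j k := by
    intro k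
    unfold om
    positivity
  have hST0 : 0 ≤ ST := Finset.sum_nonneg fun k _ => mul_nonneg (hom k)
    (Finset.sum_nonneg fun x _ => Real.sqrt_nonneg _)
  have hSB0 : 0 ≤ SB := Finset.sum_nonneg fun k _ => mul_nonneg (hom k)
    (Finset.sum_nonneg fun x _ => hB0 _ _)
  have hpoor : ∑ s ∈ S, ((Poor E lam (lam / (8 * C1 ^ 2)) ζ s).card : ℝ) ≤
      S.card * (4 * 10 ^ 14 / ζ * (ST / (C1 * Real.sqrt lam) + SB / lam + E.card / C1 ^ 2)) := by
    calc ∑ s ∈ S, ((Poor E lam (lam / (8 * C1 ^ 2)) ζ s).card : ℝ)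
        ≤ ∑ s ∈ S, 4096 * (4 * 10 ^ 6) / (ζ * lam) * ((Zp E (lam / (8 * C1 ^ 2)) s).card : ℝ) :=
          Finset.sum_le_sum fun s _ => poor_card hlampos hζ0
      _ = 4096 * (4 * 10 ^ 6) / (ζ * lam) *
          ∑ s ∈ S, ((Zp E (lam / (8 * C1 ^ 2)) s).card : ℝ) := by rw [Finset.mul_sum]
      _ ≤ 4096 * (4 * 10 ^ 6) / (ζ * lam) * (22000 / (C1 ^ 2 / lam) * S.card *
          (Real.sqrt (C1 ^ 2 / lam) * ST + C1 ^ 2 / lam * SB + E.card)) :=
          mul_le_mul_of_nonneg_left hZ (by positivity)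
      _ = S.card * ((4096 * (4 * 10 ^ 6) * 22000) / ζ *
          (ST / (C1 * Real.sqrt lam) + SB / lam + E.card / C1 ^ 2)) := by
          rw [hsq]
          have e : (C1 / Real.sqrt lam) / (C1 ^ 2 / lam) = Real.sqrt lam / C1 := by
            rw [div_div_div_eq, div_eq_div_iff (by positivity) (by positivity)]
            nth_rewrite 1 [← hsl2]
            ring
          have e2 : Real.sqrt lam / C1 / lam = 1 / (C1 * Real.sqrt lam) := by
            rw [div_div, div_eq_div_iff (by positivity) (by positivity)]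
            nth_rewrite 3 [← hsl2]
            ring
          have e3 : (C1 / Real.sqrt lam * ST + C1 ^ 2 / lam * SB + E.card) / (C1 ^ 2 / lam) / lam =
              ST / (C1 * Real.sqrt lam) + SB / lam + E.card / C1 ^ 2 := by
            have e4 : (C1 / Real.sqrt lam * ST + C1 ^ 2 / lam * SB + E.card) / (C1 ^ 2 / lam) / lam
                = ((C1 / Real.sqrt lam) / (C1 ^ 2 / lam)) / lam * ST + SB / lam +
                  E.card / C1 ^ 2 := by
              field_simp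
            rw [e4, e, e2]
            ring
          rw [← e3]
          field_simp
      _ ≤ S.card * (4 * 10 ^ 14 / ζ *
          (ST / (C1 * Real.sqrt lam) + SB / lam + E.card / C1 ^ 2)) := by
          have hX : 0 ≤ ST / (C1 * Real.sqrt lam) + SB / lam + E.card / C1 ^ 2 := by positivity
          apply mul_le_mul_of_nonneg_left _ (Nat.cast_nonneg _)
          apply mul_le_mul_of_nonneg_right _ hX
          apply div_le_div_of_nonneg_right _ hζ0.le
          norm_num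
  -- the rich part
  set m : ℕ := ⌊1 / (16 * 10 ^ 11 * ζ)⌋₊ with hm
  have hm1 : (m : ℝ) ≤ 1 / (16 * 10 ^ 11 * ζ) := Nat.floor_le (by positivity)
  have hm2 : 1 / (16 * 10 ^ 11 * ζ) < m + 1 := Nat.lt_floor_add_one _
  have hm3 : 10 ^ 7 ≤ 1 / (16 * 10 ^ 11 * ζ) := by
    rw [le_div_iff₀ (by positivity)]
    nlinarith
  have hm4 : 8100 ≤ m := by
    have : (8100 : ℝ) ≤ m := by linarith
    exact_mod_cast this
  have hm5 : 1 / (32 * 10 ^ 11 * ζ) ≤ m := by
    have e : 1 / (32 * 10 ^ 11 * ζ) = 1 / (16 * 10 ^ 11 * ζ) / 2 := by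
      field_simp
      norm_num
    rw [e]
    linarith
  have hmpos : (0 : ℝ) < m := by linarith
  have hsm : 1 / Real.sqrt m ≤ 2 * 10 ^ 6 * Real.sqrt ζ := by
    have h1 : 1 / Real.sqrt m = Real.sqrt (1 / m) := by
      rw [Real.sqrt_div zero_le_one, Real.sqrt_one]
    have h2 : 2 * 10 ^ 6 * Real.sqrt ζ = Real.sqrt ((2 * 10 ^ 6) ^ 2 * ζ) := by
      rw [Real.sqrt_mul (by positivity), Real.sqrt_sq (by positivity)]
    rw [h1, h2]
    apply Real.sqrt_le_sqrt
    rw [div_le_iff₀ hmpos]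
    rw [div_le_iff₀ (by positivity)] at hm5
    nlinarith [mul_pos hmpos hζ0]
  have hD := dom_bound hE hS (τ := 1 / 512) (by norm_num) (by norm_num) hm4
    (hκm m (by omega) hm1) (π := 1 / (4 * 10 ^ 11 * ζ * lam)) (μ₁ := 5 * 10 ^ 10 * ζ * lam)
    (μ₂ := lam / 2) (by positivity) (by
      rw [div_le_one (by positivity)]
      nlinarith) (by
      apply le_of_eq
      field_simp
      norm_num) (by
      have e : 1 / (4 * 10 ^ 11 * ζ * lam) * (lam / 2) = 2 * (1 / (16 * 10 ^ 11 * ζ)) := by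
        field_simp
        norm_num
      rw [e]
      linarith)
  have hrich : ∑ s ∈ S, ((Rich E lam (lam / (8 * C1 ^ 2)) ζ s).card : ℝ) ≤
      S.card * (3 * 10 ^ 21 * Real.sqrt ζ * E.card +
        3300 * (near E S j (1 / 512)).card / (ζ * lam)) := by
    calc ∑ s ∈ S, ((Rich E lam (lam / (8 * C1 ^ 2)) ζ s).card : ℝ)
        ≤ ∑ s ∈ S, 22 * 10 ^ 9 * ((E.filter fun y =>
            Dom E (1 / 512) (5 * 10 ^ 10 * ζ * lam) (lam / 2) s y).card : ℝ) := by
          apply Finset.sum_le_sum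
          intro s hs
          have h1 : |s| ≤ 1 / 2 := by
            refine (hS.abs_le s hs).trans ?_
            apply div_le_div_of_nonneg_left zero_le_one (by norm_num)
            rw [pow_succ]
            have : (1 : ℝ) ≤ 2 ^ j := one_le_pow₀ (by norm_num)
            linarith
          exact rich_card hE h1 hC1 hζ0 hζ1 hbig
      _ = 22 * 10 ^ 9 * ∑ s ∈ S, ((E.filter fun y =>
            Dom E (1 / 512) (5 * 10 ^ 10 * ζ * lam) (lam / 2) s y).card : ℝ) := by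
          rw [Finset.mul_sum]
      _ ≤ 22 * 10 ^ 9 * (60000 * S.card * (E.card / Real.sqrt m +
            1 / (4 * 10 ^ 11 * ζ * lam) * (near E S j (1 / 512)).card)) :=
          mul_le_mul_of_nonneg_left hD (by positivity)
      _ = S.card * (132 * 10 ^ 13 * (1 / Real.sqrt m) * E.card +
            3300 * (near E S j (1 / 512)).card / (ζ * lam)) := by
          field_simp
          ring
      _ ≤ S.card * (132 * 10 ^ 13 * (2 * 10 ^ 6 * Real.sqrt ζ) * E.card +
            3300 * (near E S j (1 / 512)).card / (ζ * lam)) := by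
          gcongr
      _ ≤ _ := by
          apply mul_le_mul_of_nonneg_left _ (Nat.cast_nonneg _)
          have h1 : 0 ≤ Real.sqrt ζ * (E.card : ℝ) := by positivity
          nlinarith
  calc ∑ s ∈ S, ((Cl E lam s).card : ℝ)
      = ∑ s ∈ S, ((Poor E lam (lam / (8 * C1 ^ 2)) ζ s).card : ℝ) +
        ∑ s ∈ S, ((Rich E lam (lam / (8 * C1 ^ 2)) ζ s).card : ℝ) := by
        rw [← Finset.sum_add_distrib]
        apply Finset.sum_congr rfl
        intro s _
        rw [poor_rich E lam (lam / (8 * C1 ^ 2)) ζ s]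
        push_cast
        ring
    _ ≤ _ := by
        refine (add_le_add hpoor hrich).trans (le_of_eq ?_)
        ring

end SD12
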