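import Pool.Agent.SD12.LGt

/-!
# The average number of close pairs on the grid of times
-/

open Finset ComplexConjugate

namespace SD12

theorem pbara_count (S : Finset ℕ) {l : ℝ} (hl : 0 ≤ l)
    (h : ∀ a ∈ S, ∀ b ∈ S, (b : ℝ) - a ≤ l) : (S.card : ℝ) ≤ l + 1 := by
  rcases S.eq_empty_or_nonempty with rfl | hS
  · simp only [card_empty, Nat.cast_zero]
    linarith
  · have h1 := h _ (S.min'_mem hS) _ (S.max'_mem hS)
    have h2 : S ⊆ Icc (S.min' hS) (S.max' hS) :=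
      fun x hx => mem_Icc.2 ⟨S.min'_le x hx, S.le_max' x hx⟩
    have h3 := card_le_card h2
    rw [Nat.card_Icc] at h3
    have h4 : S.min' hS ≤ S.max' hS := S.min'_le _ (S.max'_mem hS)
    have h5 : S.card + S.min' hS ≤ S.max' hS + 1 := by omega
    have h6 : (S.card : ℝ) + (S.min' hS : ℕ) ≤ (S.max' hS : ℕ) + 1 := by exact_mod_cast h5
    linarith

open Classical in
/-- The number of the grid times at which two lines are close. -/
theorem pbara_frac {x y : ℂ × ℂ} {t w : ℝ} (hxy : Meet x y t) {i I m : ℕ} (hi : i < I)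
    (hm : I + 4 ≤ m) (hw : 0 < w) (hr : 2 ^ i * w < ‖x.1 - y.1‖) :
    (((range (2 ^ m)).filter fun k =>
      ‖L x (tm (1 / w) m k) - L y (tm (1 / w) m k)‖ < 1 / 16).card : ℝ) ≤ 2 ^ m / 2 ^ i := by
  set r := ‖x.1 - y.1‖ with hrdef
  have hM : (0 : ℝ) < 2 ^ m := by positivity
  have hi0 : (0 : ℝ) < 2 ^ i := by positivity
  have hr0 : 0 < r := lt_trans (by positivity) hr
  have hcount := pbara_count ((range (2 ^ m)).filter fun k =>
      ‖L x (tm (1 / w) m k) - L y (tm (1 / w) m k)‖ < 1 / 16) (l := 2 ^ m / (16 * 2 ^ i))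
      (by positivity) (by
    intro a ha b hb
    have ha' := (mem_filter.1 ha).2
    have hb' := (mem_filter.1 hb).2
    rw [hxy.norm_sub, ← hrdef] at ha' hb'
    have e : tm (1 / w) m b - tm (1 / w) m a = 2 * (b - a) / (w * 2 ^ m) := by
      unfold tm
      field_simp
      ring
    have h1 : (tm (1 / w) m b - tm (1 / w) m a) * r ≤ 1 / 8 := by
      have h2 : tm (1 / w) m b - tm (1 / w) m a ≤
          |t - tm (1 / w) m a| + |t - tm (1 / w) m b| := by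
        have h3 := le_abs_self (t - tm (1 / w) m a)
        have h4 := neg_abs_le (t - tm (1 / w) m b)
        linarith
      nlinarith [mul_le_mul_of_nonneg_right h2 hr0.le]
    rw [e] at h1
    rw [le_div_iff₀ (by positivity)]
    have h5 : 2 * ((b : ℝ) - a) * r ≤ 1 / 8 * (w * 2 ^ m) := by
      have h6 : 2 * ((b : ℝ) - a) / (w * 2 ^ m) * r = 2 * ((b : ℝ) - a) * r / (w * 2 ^ m) := by
        ring
      rw [h6, div_le_iff₀ (by positivity)] at h1
      exact h1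
    by_cases hba : (b : ℝ) - a ≤ 0
    · have : ((b : ℝ) - a) * (16 * 2 ^ i) ≤ 0 :=
        mul_nonpos_of_nonpos_of_nonneg hba (by positivity)
      linarith
    · push Not at hba
      have h7 : ((b : ℝ) - a) * (2 ^ i * w) ≤ ((b : ℝ) - a) * r :=
        mul_le_mul_of_nonneg_left hr.le hba.le
      have h8 : w * (((b : ℝ) - a) * (16 * 2 ^ i)) ≤ w * 2 ^ m := by
        nlinarith
      exact le_of_mul_le_mul_left h8 hw)
  have h1 : (1 : ℝ) ≤ 2 ^ m / (16 * 2 ^ i) := by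
    rw [le_div_iff₀ (by positivity), one_mul]
    calc (16 : ℝ) * 2 ^ i = 2 ^ (i + 4) := by rw [pow_add]; norm_num; ring
      _ ≤ 2 ^ m := pow_le_pow_right₀ (by norm_num) (by omega)
  have h2 : (2 : ℝ) ^ m / (16 * 2 ^ i) = (2 ^ m / 2 ^ i) / 16 := by
    field_simp
  have h3 : (0 : ℝ) < 2 ^ m / 2 ^ i := by positivity
  rw [h2] at h1 hcount
  linarith

open Classical in
/-- The contribution of one pair. -/
theorem pbara_pair {E : Finset (ℂ × ℂ)} (hE : Cr E) {w : ℝ} (hw : 2 ≤ w) {I m : ℕ}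
    (hV : ∀ x ∈ E, ∀ y ∈ E, ‖x.1 - y.1‖ ≤ 2 ^ I * w) (hm : I + 4 ≤ m)
    {p : (ℂ × ℂ) × (ℂ × ℂ)} (hp : p ∈ E ×ˢ E) :
    (((range (2 ^ m)).filter fun k =>
      ‖L p.1 (tm (1 / w) m k) - L p.2 (tm (1 / w) m k)‖ < 1 / 16).card : ℝ) ≤
      2 ^ m * ((if p.1 = p.2 then 1 else 0) +
        (if p ∈ CP E (1 / w) ∧ ‖p.1.1 - p.2.1‖ ≤ w then 1 else 0) +
        ∑ i ∈ range I, (if p ∈ CP E (1 / w) ∧ ‖p.1.1 - p.2.1‖ ≤ 2 ^ (i + 1) * w then 1 else 0) /
          2 ^ i) := by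
  have hM : (0 : ℝ) < 2 ^ m := by positivity
  have hw0 : (0 : ℝ) < 1 / w := by positivity
  have hc : (((range (2 ^ m)).filter fun k =>
      ‖L p.1 (tm (1 / w) m k) - L p.2 (tm (1 / w) m k)‖ < 1 / 16).card : ℝ) ≤ 2 ^ m := by
    have := card_filter_le (range (2 ^ m)) (fun k =>
      ‖L p.1 (tm (1 / w) m k) - L p.2 (tm (1 / w) m k)‖ < 1 / 16)
    rw [card_range] at this
    exact_mod_cast this
  have n1 : (0 : ℝ) ≤ if p.1 = p.2 then 1 else 0 := by split_ifs <;> norm_num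
  have n2 : (0 : ℝ) ≤ if p ∈ CP E (1 / w) ∧ ‖p.1.1 - p.2.1‖ ≤ w then 1 else 0 := by
    split_ifs <;> norm_num
  have n3 : ∀ i ∈ range I, (0 : ℝ) ≤
      (if p ∈ CP E (1 / w) ∧ ‖p.1.1 - p.2.1‖ ≤ 2 ^ (i + 1) * w then 1 else 0) / 2 ^ i := by
    intro i _
    split_ifs <;> positivity
  have n4 := Finset.sum_nonneg n3
  by_cases hpp : p.1 = p.2
  · rw [if_pos hpp]
    nlinarith
  by_cases hne : ((range (2 ^ m)).filter fun k =>
      ‖L p.1 (tm (1 / w) m k) - L p.2 (tm (1 / w) m k)‖ < 1 / 16) = ∅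
  · rw [hne, card_empty, Nat.cast_zero]
    positivity
  obtain ⟨k, hk⟩ := Finset.nonempty_iff_ne_empty.2 hne
  rw [mem_filter, mem_range] at hk
  have hab := abs_tm hw0 hk.1
  have hCP : p ∈ CP E (1 / w) := by
    unfold CP
    rw [mem_filter]
    exact ⟨hp, hpp, _, hab, hk.2⟩
  obtain ⟨hp1, hp2⟩ := mem_product.1 hp
  have h1w : 1 / w ≤ 1 := by
    rw [div_le_one (by linarith)]
    linarith
  obtain ⟨-, t, ht⟩ := hE _ hp1 _ hp2 hpp _ (hab.trans h1w) (hk.2.trans (by norm_num))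
  by_cases hrw : ‖p.1.1 - p.2.1‖ ≤ w
  · have hc2 : p ∈ CP E (1 / w) ∧ ‖p.1.1 - p.2.1‖ ≤ w := ⟨hCP, hrw⟩
    rw [if_pos hc2]
    nlinarith
  push Not at hrw
  have hex : ∃ i < I, 2 ^ i * w < ‖p.1.1 - p.2.1‖ ∧ ‖p.1.1 - p.2.1‖ ≤ 2 ^ (i + 1) * w := by
    have hI := hV _ hp1 _ hp2
    have hP : ∃ j : ℕ, ‖p.1.1 - p.2.1‖ ≤ 2 ^ j * w := ⟨I, hI⟩
    have hf := Nat.find_spec hP
    have hmin := fun j => Nat.find_min hP (m := j)
    have hle : Nat.find hP ≤ I := Nat.find_min' hP hI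
    rcases Nat.eq_zero_or_pos (Nat.find hP) with h0 | h0
    · rw [h0] at hf
      norm_num at hf
      linarith
    · refine ⟨Nat.find hP - 1, by omega, ?_, ?_⟩
      · have := hmin (Nat.find hP - 1) (by omega)
        push Not at this
        exact this
      · have e : Nat.find hP - 1 + 1 = Nat.find hP := by omega
        rw [e]
        exact hf
  obtain ⟨i, hi, h1, h2⟩ := hex
  have hfr := pbara_frac ht hi hm (by linarith) h1
  have hsing := Finset.single_le_sum n3 (mem_range.2 hi)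
  have hc3 : p ∈ CP E (1 / w) ∧ ‖p.1.1 - p.2.1‖ ≤ 2 ^ (i + 1) * w := ⟨hCP, h2⟩
  rw [if_pos hc3] at hsing
  have h3 : (2 : ℝ) ^ m / 2 ^ i = 2 ^ m * (1 / 2 ^ i) := by ring
  rw [h3] at hfr
  refine hfr.trans (mul_le_mul_of_nonneg_left ?_ hM.le)
  linarith

open Classical in
theorem pbar_avg {E : Finset (ℂ × ℂ)} (hE : Cr E) {w : ℝ} (hw : 2 ≤ w) {I m : ℕ}
    (hV : ∀ x ∈ E, ∀ y ∈ E, ‖x.1 - y.1‖ ≤ 2 ^ I * w) (hm : I + 4 ≤ m) :
    Pbar E (1 / w) m ≤ E.card +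
      (((CP E (1 / w)).filter fun p => ‖p.1.1 - p.2.1‖ ≤ w).card : ℝ) +
      ∑ i ∈ range I, (((CP E (1 / w)).filter fun p =>
        ‖p.1.1 - p.2.1‖ ≤ 2 ^ (i + 1) * w).card : ℝ) / 2 ^ i := by
  have hM : (0 : ℝ) < 2 ^ m := by positivity
  unfold Pbar
  rw [div_le_iff₀ hM]
  have hcomm : (∑ k ∈ range (2 ^ m), (((E ×ˢ E).filter fun p =>
      ‖L p.1 (tm (1 / w) m k) - L p.2 (tm (1 / w) m k)‖ < 1 / 16).card : ℝ)) =
      ∑ p ∈ E ×ˢ E, (((range (2 ^ m)).filter fun k =>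
        ‖L p.1 (tm (1 / w) m k) - L p.2 (tm (1 / w) m k)‖ < 1 / 16).card : ℝ) := by
    simp only [card_filter, Nat.cast_sum]
    rw [sum_comm]
  rw [hcomm]
  refine (sum_le_sum fun p hp => pbara_pair hE hw hV hm hp).trans ?_
  have hdiag : ∑ p ∈ E ×ˢ E, (if p.1 = p.2 then (1 : ℝ) else 0) = E.card := by
    rw [sum_product]
    simp
  have hCPs : ∀ v : ℝ, ∑ p ∈ E ×ˢ E,
      (if p ∈ CP E (1 / w) ∧ ‖p.1.1 - p.2.1‖ ≤ v then (1 : ℝ) else 0) =
      ((CP E (1 / w)).filter fun p => ‖p.1.1 - p.2.1‖ ≤ v).card := by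
    intro v
    rw [← Finset.sum_filter, Finset.sum_const, nsmul_eq_mul, mul_one]
    congr 2
    ext p
    simp only [mem_filter]
    constructor
    · exact fun h => h.2
    · intro h
      refine ⟨?_, h⟩
      have := h.1
      unfold CP at this
      exact (mem_filter.1 this).1
  rw [← Finset.mul_sum, Finset.sum_add_distrib, Finset.sum_add_distrib, hdiag, hCPs, sum_comm]
  have hlast : ∑ i ∈ range I, ∑ p ∈ E ×ˢ E,
      (if p ∈ CP E (1 / w) ∧ ‖p.1.1 - p.2.1‖ ≤ 2 ^ (i + 1) * w then (1 : ℝ) else 0) / 2 ^ i =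
      ∑ i ∈ range I, (((CP E (1 / w)).filter fun p =>
        ‖p.1.1 - p.2.1‖ ≤ 2 ^ (i + 1) * w).card : ℝ) / 2 ^ i := by
    refine sum_congr rfl fun i _ => ?_
    rw [← Finset.sum_div, hCPs]
  rw [hlast, mul_comm]

end SD12
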