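import Mathlib

/-!
# Straight line planar graphs have few edges

The vertices have different abscissae, the edges are segments. Every edge is the topmost right
edge at its left end, or the topmost left edge at its right end, or it is directly below some
vertex. So there are at most three edges per vertex.
-/

open Finset

namespace SD12

/-- The height at abscissa `x` of the line through `u` and `v`. -/
noncomputable def ht (u v : ℝ × ℝ) (x : ℝ) : ℝ := u.2 + (v.2 - u.2) / (v.1 - u.1) * (x - u.1)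

/-- The slope of an edge. -/
noncomputable def pl1_s (e : (ℝ × ℝ) × (ℝ × ℝ)) : ℝ := (e.2.2 - e.1.2) / (e.2.1 - e.1.1)

lemma pl1_left (e : (ℝ × ℝ) × (ℝ × ℝ)) (x : ℝ) :
    ht e.1 e.2 x = e.1.2 + pl1_s e * (x - e.1.1) := rfl

lemma pl1_right {e : (ℝ × ℝ) × (ℝ × ℝ)} (he : e.1.1 < e.2.1) (x : ℝ) :
    ht e.1 e.2 x = e.2.2 + pl1_s e * (x - e.2.1) := by
  have h : e.2.1 - e.1.1 ≠ 0 := by linarith
  rw [pl1_left]
  have h1 : pl1_s e * (e.2.1 - e.1.1) = e.2.2 - e.1.2 := by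
    unfold pl1_s
    field_simp
  linear_combination h1

/-- An affine function without zeros on an interval keeps its sign. -/
lemma pl1_aff {α β x0 x1 : ℝ} (h : x0 < x1) (h1 : 0 < α + β * x1)
    (hne : ∀ x, x0 < x → x < x1 → α + β * x ≠ 0) : 0 ≤ α + β * x0 := by
  by_contra hcon
  push Not at hcon
  have hd : 0 < (α + β * x1) - (α + β * x0) := by linarith
  have hx : 0 < x1 - x0 := by linarith
  set t := -(α + β * x0) / ((α + β * x1) - (α + β * x0)) with ht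
  have ht0 : 0 < t := div_pos (by linarith) hd
  have ht1 : t < 1 := by
    rw [ht, div_lt_one hd]
    linarith
  have ht2 : t * ((α + β * x1) - (α + β * x0)) = -(α + β * x0) := by
    rw [ht]
    field_simp
  refine hne (x0 + t * (x1 - x0)) ?_ ?_ ?_
  · have := mul_pos ht0 hx
    linarith
  · have : t * (x1 - x0) < 1 * (x1 - x0) := mul_lt_mul_of_pos_right ht1 hx
    linarith
  · linear_combination ht2

/-- Two edges which do not meet: the one which is above at `x1` is not below at `x0`. -/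
lemma pl1_keep {e f : (ℝ × ℝ) × (ℝ × ℝ)} {x0 x1 : ℝ} (h : x0 < x1)
    (h1 : ht e.1 e.2 x1 < ht f.1 f.2 x1)
    (hne : ∀ x, x0 < x → x < x1 → ht e.1 e.2 x ≠ ht f.1 f.2 x) :
    ht e.1 e.2 x0 ≤ ht f.1 f.2 x0 := by
  have h2 := pl1_aff (α := f.1.2 - pl1_s f * f.1.1 - (e.1.2 - pl1_s e * e.1.1))
    (β := pl1_s f - pl1_s e) h (by
      rw [pl1_left, pl1_left] at h1
      linarith) (by
      intro x hx0 hx1 hx
      refine hne x hx0 hx1 ?_
      rw [pl1_left, pl1_left]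
      linarith)
  rw [pl1_left, pl1_left]
  linarith

/-- `e` is directly below the vertex `w`. -/
def Pl1Below (Ed : Finset ((ℝ × ℝ) × (ℝ × ℝ))) (e : (ℝ × ℝ) × (ℝ × ℝ)) (w : ℝ × ℝ) : Prop :=
  e.1.1 < w.1 ∧ w.1 < e.2.1 ∧ ht e.1 e.2 w.1 < w.2 ∧
    ∀ g ∈ Ed, g.1.1 < w.1 → w.1 < g.2.1 → ht e.1 e.2 w.1 < ht g.1 g.2 w.1 →
      ¬ ht g.1 g.2 w.1 < w.2

/-- The main claim. -/
lemma pl1_claim (V : Finset (ℝ × ℝ)) (Ed : Finset ((ℝ × ℝ) × (ℝ × ℝ)))
    (hinj : ∀ u ∈ V, ∀ v ∈ V, u.1 = v.1 → u = v)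
    (hE : ∀ e ∈ Ed, e.1 ∈ V ∧ e.2 ∈ V ∧ e.1.1 < e.2.1)
    (hv : ∀ e ∈ Ed, ∀ w ∈ V, e.1.1 < w.1 → w.1 < e.2.1 → w.2 ≠ ht e.1 e.2 w.1)
    (hc : ∀ e ∈ Ed, ∀ f ∈ Ed, e ≠ f → ∀ x : ℝ, e.1.1 < x → x < e.2.1 → f.1.1 < x → x < f.2.1 →
      ht e.1 e.2 x ≠ ht f.1 f.2 x) {e : (ℝ × ℝ) × (ℝ × ℝ)} (he : e ∈ Ed)
    {f₀ : (ℝ × ℝ) × (ℝ × ℝ)} (hf₀ : f₀ ∈ Ed) (hf₀1 : f₀.1 = e.1) (hf₀s : pl1_s e < pl1_s f₀)
    {f : (ℝ × ℝ) × (ℝ × ℝ)} (hf : f ∈ Ed) (hf2 : f.2 = e.2) (hfs : pl1_s f < pl1_s e) :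
    ∃ w ∈ V, Pl1Below Ed e w := by
  classical
  -- the lowest right edge above `e`
  obtain ⟨e₁, he₁, hmin⟩ := Finset.exists_min_image
    (Ed.filter fun g => g.1 = e.1 ∧ pl1_s e < pl1_s g) pl1_s
    ⟨f₀, Finset.mem_filter.2 ⟨hf₀, hf₀1, hf₀s⟩⟩
  obtain ⟨he₁E, he₁1, he₁s⟩ := Finset.mem_filter.1 he₁
  obtain ⟨hu, hvv, huv⟩ := hE e he
  obtain ⟨-, hv₁, huv₁⟩ := hE e₁ he₁E
  rw [he₁1] at huv₁
  have hee₁ : e ≠ e₁ := by
    rintro rfl
    exact lt_irrefl _ he₁s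
  have hlt : ∀ x, e.1.1 < x → ht e.1 e.2 x < ht e₁.1 e₁.2 x := by
    intro x hx
    rw [pl1_left, pl1_left, he₁1]
    have : pl1_s e * (x - e.1.1) < pl1_s e₁ * (x - e.1.1) :=
      mul_lt_mul_of_pos_right he₁s (by linarith)
    linarith
  by_cases hW : ((V.filter fun w => e.1.1 < w.1 ∧ w.1 < e.2.1 ∧ w.1 ≤ e₁.2.1 ∧
      ht e.1 e.2 w.1 < w.2 ∧ w.2 ≤ ht e₁.1 e₁.2 w.1)).Nonempty
  · -- Case A
    obtain ⟨w, hw, hwmin⟩ := Finset.exists_min_image _ (fun w : ℝ × ℝ => w.1) hW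
    obtain ⟨hwV, hw1, hw2, hw3, hw4, hw5⟩ := Finset.mem_filter.1 hw
    refine ⟨w, hwV, hw1, hw2, hw4, ?_⟩
    intro g hg hg1 hg2 hg3 hg4
    obtain ⟨hga, -, -⟩ := hE g hg
    have hge : g ≠ e := by
      rintro rfl
      exact lt_irrefl _ hg3
    have hge₁ : g ≠ e₁ := by
      rintro rfl
      exact absurd hw5 (not_le.2 hg4)
    have hg5 : ht g.1 g.2 w.1 < ht e₁.1 e₁.2 w.1 := lt_of_lt_of_le hg4 hw5
    -- comparison on `(x0, w.1)`
    have hcmp : ∀ x0, g.1.1 ≤ x0 → e.1.1 ≤ x0 → x0 < w.1 →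
        ht e.1 e.2 x0 ≤ ht g.1 g.2 x0 ∧ ht g.1 g.2 x0 ≤ ht e₁.1 e₁.2 x0 := by
      intro x0 h1 h2 h3
      constructor
      · refine pl1_keep h3 hg3 ?_
        intro x hx0 hx1
        exact hc e he g hg hge.symm x (by linarith) (by linarith) (by linarith) (by linarith)
      · refine pl1_keep h3 hg5 ?_
        intro x hx0 hx1
        exact hc g hg e₁ he₁E hge₁ x (by linarith) (by linarith) (by rw [he₁1]; linarith)
          (by linarith)
    rcases lt_trichotomy g.1.1 e.1.1 with hlt1 | heq | hgt1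
    · obtain ⟨c1, c2⟩ := hcmp e.1.1 hlt1.le le_rfl hw1
      have e1 : ht e.1 e.2 e.1.1 = e.1.2 := by rw [pl1_left]; ring
      have e2 : ht e₁.1 e₁.2 e.1.1 = e.1.2 := by rw [pl1_left, he₁1]; ring
      rw [e1] at c1
      rw [e2] at c2
      exact hv g hg e.1 hu hlt1 (by linarith) (le_antisymm c1 c2)
    · have hgu : g.1 = e.1 := hinj _ hga _ hu heq
      have hs1 : pl1_s e < pl1_s g := by
        rw [pl1_left, pl1_left, hgu] at hg3
        have : pl1_s e * (w.1 - e.1.1) < pl1_s g * (w.1 - e.1.1) := by linarith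
        exact lt_of_mul_lt_mul_right this (by linarith)
      have hs2 : pl1_s g < pl1_s e₁ := by
        rw [pl1_left, pl1_left, hgu, he₁1] at hg5
        have : pl1_s g * (w.1 - e.1.1) < pl1_s e₁ * (w.1 - e.1.1) := by linarith
        exact lt_of_mul_lt_mul_right this (by linarith)
      have := hmin g (Finset.mem_filter.2 ⟨hg, hgu, hs1⟩)
      linarith
    · obtain ⟨c1, c2⟩ := hcmp g.1.1 le_rfl hgt1.le hg1
      have e1 : ht g.1 g.2 g.1.1 = g.1.2 := by rw [pl1_left]; ring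
      rw [e1] at c1 c2
      have hne := hv e he g.1 hga hgt1 (by linarith)
      have hmem : g.1 ∈ V.filter fun w => e.1.1 < w.1 ∧ w.1 < e.2.1 ∧ w.1 ≤ e₁.2.1 ∧
          ht e.1 e.2 w.1 < w.2 ∧ w.2 ≤ ht e₁.1 e₁.2 w.1 :=
        Finset.mem_filter.2 ⟨hga, hgt1, by linarith, by linarith,
          lt_of_le_of_ne c1 (Ne.symm hne), c2⟩
      have := hwmin _ hmem
      linarith
  · -- Case B
    exfalso
    rw [Finset.not_nonempty_iff_eq_empty] at hW
    have hno : ∀ w ∈ V, e.1.1 < w.1 → w.1 < e.2.1 → w.1 ≤ e₁.2.1 → ht e.1 e.2 w.1 < w.2 →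
        w.2 ≤ ht e₁.1 e₁.2 w.1 → False := by
      intro w h1 h2 h3 h4 h5 h6
      have : w ∈ (∅ : Finset (ℝ × ℝ)) := by
        rw [← hW]
        exact Finset.mem_filter.2 ⟨h1, h2, h3, h4, h5, h6⟩
      exact absurd this (Finset.notMem_empty w)
    have he₁r : e₁.1.1 < e₁.2.1 := by rw [he₁1]; exact huv₁
    have hv₁ht : ht e₁.1 e₁.2 e₁.2.1 = e₁.2.2 := by rw [pl1_right he₁r]; ring
    have hge : e.2.1 ≤ e₁.2.1 := by
      by_contra hlt2
      push Not at hlt2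
      refine hno e₁.2 hv₁ huv₁ hlt2 le_rfl ?_ hv₁ht.ge
      rw [← hv₁ht]
      exact hlt _ huv₁
    have hne : e.2.1 ≠ e₁.2.1 := by
      intro h
      have := hinj _ hvv _ hv₁ h
      exact hee₁ (Prod.ext he₁1.symm this)
    have hgt : e.2.1 < e₁.2.1 := lt_of_le_of_ne hge hne
    obtain ⟨hu₁, -, hfr⟩ := hE f hf
    have hfe₁ : f ≠ e₁ := by
      rintro rfl
      rw [hf2] at hne
      exact hne rfl
    have hf2' : f.2.1 = e.2.1 := by rw [hf2]
    -- `f` is above `e` to the left of `e.2`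
    have hab : ∀ x, x < e.2.1 → ht e.1 e.2 x < ht f.1 f.2 x := by
      intro x hx
      rw [pl1_right huv, pl1_right hfr, hf2]
      have : pl1_s e * (x - e.2.1) < pl1_s f * (x - e.2.1) :=
        mul_lt_mul_of_neg_right hfs (by linarith)
      linarith
    have hfv : ht f.1 f.2 e.2.1 < ht e₁.1 e₁.2 e.2.1 := by
      have e1 : ht f.1 f.2 e.2.1 = e.2.2 := by rw [pl1_right hfr, hf2]; ring
      have e2 : ht e.1 e.2 e.2.1 = e.2.2 := by rw [pl1_right huv]; ring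
      rw [e1, ← e2]
      exact hlt _ huv
    have hcmp : ∀ x0, f.1.1 ≤ x0 → e.1.1 ≤ x0 → x0 < e.2.1 →
        ht f.1 f.2 x0 ≤ ht e₁.1 e₁.2 x0 := by
      intro x0 h1 h2 h3
      refine pl1_keep h3 hfv ?_
      intro x hx0 hx1
      exact hc f hf e₁ he₁E hfe₁ x (by linarith) (by linarith) (by rw [he₁1]; linarith)
        (by linarith)
    rcases lt_trichotomy f.1.1 e.1.1 with hlt1 | heq | hgt1
    · have c1 := hcmp e.1.1 hlt1.le le_rfl huv
      have e1 : ht e.1 e.2 e.1.1 = e.1.2 := by rw [pl1_left]; ring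
      have e2 : ht e₁.1 e₁.2 e.1.1 = e.1.2 := by rw [pl1_left, he₁1]; ring
      have c2 := hab e.1.1 huv
      linarith
    · have h1 : f.1 = e.1 := hinj _ hu₁ _ hu heq
      have h2 : f = e := Prod.ext h1 hf2
      rw [h2] at hfs
      exact lt_irrefl _ hfs
    · have hx : f.1.1 < e.2.1 := by linarith
      have c1 := hcmp f.1.1 le_rfl hgt1.le hx
      have e1 : ht f.1 f.2 f.1.1 = f.1.2 := by rw [pl1_left]; ring
      have c2 := hab f.1.1 hx
      rw [e1] at c1 c2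
      exact hno f.1 hu₁ hgt1 hx (by linarith) c2 c1

theorem planar_edges (V : Finset (ℝ × ℝ)) (Ed : Finset ((ℝ × ℝ) × (ℝ × ℝ)))
    (hinj : ∀ u ∈ V, ∀ v ∈ V, u.1 = v.1 → u = v)
    (hE : ∀ e ∈ Ed, e.1 ∈ V ∧ e.2 ∈ V ∧ e.1.1 < e.2.1)
    (hv : ∀ e ∈ Ed, ∀ w ∈ V, e.1.1 < w.1 → w.1 < e.2.1 → w.2 ≠ ht e.1 e.2 w.1)
    (hc : ∀ e ∈ Ed, ∀ f ∈ Ed, e ≠ f → ∀ x : ℝ, e.1.1 < x → x < e.2.1 → f.1.1 < x → x < f.2.1 →
      ht e.1 e.2 x ≠ ht f.1 f.2 x) :
    Ed.card ≤ 3 * V.card := by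
  classical
  set T1 := Ed.filter fun e => ∀ f ∈ Ed, f.1 = e.1 → pl1_s f ≤ pl1_s e with hT1
  set T2 := Ed.filter fun e => ∀ f ∈ Ed, f.2 = e.2 → pl1_s e ≤ pl1_s f with hT2
  set T3 := Ed.filter fun e => ∃ w ∈ V, Pl1Below Ed e w with hT3
  have hcov : Ed ⊆ T1 ∪ T2 ∪ T3 := by
    intro e he
    by_contra hcon
    rw [Finset.mem_union, Finset.mem_union] at hcon
    push Not at hcon
    obtain ⟨⟨h1, h2⟩, h3⟩ := hcon
    have h1' : ∃ f ∈ Ed, f.1 = e.1 ∧ pl1_s e < pl1_s f := by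
      by_contra hc1
      push Not at hc1
      exact h1 (Finset.mem_filter.2 ⟨he, hc1⟩)
    have h2' : ∃ f ∈ Ed, f.2 = e.2 ∧ pl1_s f < pl1_s e := by
      by_contra hc2
      push Not at hc2
      exact h2 (Finset.mem_filter.2 ⟨he, hc2⟩)
    obtain ⟨f₀, hf₀, hf₀1, hf₀s⟩ := h1'
    obtain ⟨f, hf, hf2, hfs⟩ := h2'
    exact h3 (Finset.mem_filter.2 ⟨he,
      pl1_claim V Ed hinj hE hv hc he hf₀ hf₀1 hf₀s hf hf2 hfs⟩)
  have c1 : T1.card ≤ V.card := by
    refine Finset.card_le_card_of_injOn (fun e => e.1) ?_ ?_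
    · intro e he
      exact (hE e (Finset.mem_filter.1 he).1).1
    · intro e he f hf hef
      obtain ⟨he1, he2⟩ := Finset.mem_filter.1 (Finset.mem_coe.1 he)
      obtain ⟨hf1, hf2⟩ := Finset.mem_filter.1 (Finset.mem_coe.1 hf)
      have hef' : e.1 = f.1 := hef
      by_contra hne
      have hs : pl1_s e = pl1_s f := le_antisymm (hf2 e he1 hef') (he2 f hf1 hef'.symm)
      have h1 := (hE e he1).2.2
      have h2 := (hE f hf1).2.2
      rw [← hef'] at h2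
      have h3 : e.1.1 < min e.2.1 f.2.1 := lt_min h1 h2
      obtain ⟨x, hx1, hx2⟩ := exists_between h3
      refine hc e he1 f hf1 hne x hx1 (lt_of_lt_of_le hx2 (min_le_left _ _))
        (by rw [← hef']; exact hx1) (lt_of_lt_of_le hx2 (min_le_right _ _)) ?_
      rw [pl1_left, pl1_left, hs, hef']
  have c2 : T2.card ≤ V.card := by
    refine Finset.card_le_card_of_injOn (fun e => e.2) ?_ ?_
    · intro e he
      exact (hE e (Finset.mem_filter.1 he).1).2.1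
    · intro e he f hf hef
      obtain ⟨he1, he2⟩ := Finset.mem_filter.1 (Finset.mem_coe.1 he)
      obtain ⟨hf1, hf2⟩ := Finset.mem_filter.1 (Finset.mem_coe.1 hf)
      have hef' : e.2 = f.2 := hef
      by_contra hne
      have hs : pl1_s e = pl1_s f := le_antisymm (he2 f hf1 hef'.symm) (hf2 e he1 hef')
      have h1 := (hE e he1).2.2
      have h2 := (hE f hf1).2.2
      have h2' := h2
      rw [← hef'] at h2
      have h3 : max e.1.1 f.1.1 < e.2.1 := max_lt h1 h2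
      obtain ⟨x, hx1, hx2⟩ := exists_between h3
      refine hc e he1 f hf1 hne x (lt_of_le_of_lt (le_max_left _ _) hx1) hx2
        (lt_of_le_of_lt (le_max_right _ _) hx1) (by rw [← hef']; exact hx2) ?_
      rw [pl1_right h1, pl1_right h2', hs, hef']
  have c3 : T3.card ≤ V.card := by
    have hch : ∀ e : (ℝ × ℝ) × (ℝ × ℝ), ∃ w : ℝ × ℝ, e ∈ T3 → w ∈ V ∧ Pl1Below Ed e w := by
      intro e
      by_cases he : e ∈ T3
      · obtain ⟨w, h1, h2⟩ := (Finset.mem_filter.1 he).2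
        exact ⟨w, fun _ => ⟨h1, h2⟩⟩
      · exact ⟨(0, 0), fun h => absurd h he⟩
    choose W hW using hch
    have key : ∀ e ∈ T3, ∀ f ∈ T3, W e = W f →
        ht e.1 e.2 (W e).1 < ht f.1 f.2 (W e).1 → False := by
      intro e he f hf hef h1
      have h2 := (hW e he).2
      have h3 := (hW f hf).2
      rw [← hef] at h3
      exact h2.2.2.2 f (Finset.mem_filter.1 hf).1 h3.1 h3.2.1 h1 h3.2.2.1
    refine Finset.card_le_card_of_injOn W ?_ ?_
    · intro e he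
      exact (hW e he).1
    · intro e he f hf hef
      have he' := Finset.mem_coe.1 he
      have hf' := Finset.mem_coe.1 hf
      by_contra hne
      have h2 := (hW e he').2
      have h3 := (hW f hf').2
      rw [← hef] at h3
      rcases lt_trichotomy (ht e.1 e.2 (W e).1) (ht f.1 f.2 (W e).1) with h | h | h
      · exact key e he' f hf' hef h
      · exact hc e (Finset.mem_filter.1 he').1 f (Finset.mem_filter.1 hf').1 hne _ h2.1 h2.2.1
          h3.1 h3.2.1 h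
      · rw [hef] at h
        exact key f hf' e he' hef.symm h
  have h1 := Finset.card_le_card hcov
  have h2 := Finset.card_union_le (T1 ∪ T2) T3
  have h3 := Finset.card_union_le T1 T2
  omega

end SD12
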