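import Pool.Agent.SD12.Samp
import Pool.Agent.SD12.Plane1

/-!
# The Szemerédi–Trotter theorem for rich points
-/

open Finset

namespace SD12

/-- The sampling step of the crossing lemma. -/
lemma pl2_samp {α : Type*} [DecidableEq α] (V : Finset α) (Ed : Finset (α × α))
    (X : Finset ((α × α) × (α × α))) {π : ℝ} (h0 : 0 ≤ π) (h1 : π ≤ 1)
    (hE : ∀ e ∈ Ed, e.1 ∈ V ∧ e.2 ∈ V ∧ e.1 ≠ e.2)
    (hX : ∀ q ∈ X, q.1.1 ∈ V ∧ q.1.2 ∈ V ∧ q.2.1 ∈ V ∧ q.2.2 ∈ V)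
    (hX4 : ∀ q ∈ X, ({q.1.1, q.1.2, q.2.1, q.2.2} : Finset α).card = 4)
    (h : ∀ T ⊆ V, (Ed.filter fun e => e.1 ∈ T ∧ e.2 ∈ T).card ≤ 3 * T.card +
      (X.filter fun q => q.1.1 ∈ T ∧ q.1.2 ∈ T ∧ q.2.1 ∈ T ∧ q.2.2 ∈ T).card) :
    Ed.card * π ^ 2 ≤ 3 * (V.card * π) + X.card * π ^ 4 := by
  have hL : Ex V π (fun T => ∑ e ∈ Ed, if ({e.1, e.2} : Finset α) ⊆ T then (1 : ℝ) else 0) =
      Ed.card * π ^ 2 := by
    rw [Ex_sum, Finset.sum_congr rfl (g := fun _ => π ^ 2), Finset.sum_const, nsmul_eq_mul]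
    intro e he
    obtain ⟨h2, h3, h4⟩ := hE e he
    rw [Ex_ind, Finset.card_pair h4]
    intro z hz
    rw [Finset.mem_insert, Finset.mem_singleton] at hz
    rcases hz with rfl | rfl <;> assumption
  have hR1 : Ex V π (fun T => ∑ v ∈ V, if ({v} : Finset α) ⊆ T then (1 : ℝ) else 0) =
      V.card * π := by
    rw [Ex_sum, Finset.sum_congr rfl (g := fun _ => π), Finset.sum_const, nsmul_eq_mul]
    intro v hv
    rw [Ex_ind, Finset.card_singleton, pow_one]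
    intro z hz
    rw [Finset.mem_singleton] at hz
    rwa [hz]
  have hR2 : Ex V π (fun T => ∑ q ∈ X, if ({q.1.1, q.1.2, q.2.1, q.2.2} : Finset α) ⊆ T then
      (1 : ℝ) else 0) = X.card * π ^ 4 := by
    rw [Ex_sum, Finset.sum_congr rfl (g := fun _ => π ^ 4), Finset.sum_const, nsmul_eq_mul]
    intro q hq
    obtain ⟨h2, h3, h4, h5⟩ := hX q hq
    rw [Ex_ind, hX4 q hq]
    intro z hz
    rw [Finset.mem_insert, Finset.mem_insert, Finset.mem_insert, Finset.mem_singleton] at hz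
    rcases hz with rfl | rfl | rfl | rfl <;> assumption
  rw [← hL, ← hR1, ← hR2, ← Ex_mul_left, ← Ex_add]
  refine Ex_mono h0 h1 fun T hT => ?_
  have e1 : (∑ e ∈ Ed, if ({e.1, e.2} : Finset α) ⊆ T then (1 : ℝ) else 0) =
      ((Ed.filter fun e => e.1 ∈ T ∧ e.2 ∈ T).card : ℝ) := by
    rw [Finset.sum_boole]
    congr 2
    ext e
    rw [Finset.mem_filter, Finset.mem_filter, Finset.insert_subset_iff,
      Finset.singleton_subset_iff]
  have e2 : (∑ v ∈ V, if ({v} : Finset α) ⊆ T then (1 : ℝ) else 0) = (T.card : ℝ) := by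
    rw [Finset.sum_boole]
    congr 2
    ext v
    rw [Finset.mem_filter, Finset.singleton_subset_iff]
    exact ⟨fun h => h.2, fun h => ⟨hT h, h⟩⟩
  have e3 : (∑ q ∈ X, if ({q.1.1, q.1.2, q.2.1, q.2.2} : Finset α) ⊆ T then (1 : ℝ) else 0) =
      ((X.filter fun q => q.1.1 ∈ T ∧ q.1.2 ∈ T ∧ q.2.1 ∈ T ∧ q.2.2 ∈ T).card : ℝ) := by
    rw [Finset.sum_boole]
    congr 2
    ext q
    rw [Finset.mem_filter, Finset.mem_filter, Finset.insert_subset_iff,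
      Finset.insert_subset_iff, Finset.insert_subset_iff, Finset.singleton_subset_iff]
  rw [e1, e2, e3]
  exact_mod_cast h T hT

/-- The crossing lemma. -/
lemma pl2_cross {α : Type*} [DecidableEq α] (V : Finset α) (Ed : Finset (α × α))
    (X : Finset ((α × α) × (α × α)))
    (hE : ∀ e ∈ Ed, e.1 ∈ V ∧ e.2 ∈ V ∧ e.1 ≠ e.2)
    (hX : ∀ q ∈ X, q.1.1 ∈ V ∧ q.1.2 ∈ V ∧ q.2.1 ∈ V ∧ q.2.2 ∈ V)
    (hX4 : ∀ q ∈ X, ({q.1.1, q.1.2, q.2.1, q.2.2} : Finset α).card = 4)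
    (h : ∀ T ⊆ V, (Ed.filter fun e => e.1 ∈ T ∧ e.2 ∈ T).card ≤ 3 * T.card +
      (X.filter fun q => q.1.1 ∈ T ∧ q.1.2 ∈ T ∧ q.2.1 ∈ T ∧ q.2.2 ∈ T).card)
    (hn : 4 * (V.card : ℝ) ≤ Ed.card) :
    (Ed.card : ℝ) ^ 3 ≤ 64 * (V.card : ℝ) ^ 2 * X.card := by
  rcases Nat.eq_zero_or_pos Ed.card with h0 | h0
  · rw [h0]
    simp only [CharP.cast_eq_zero, ne_eq, OfNat.ofNat_ne_zero, not_false_eq_true, zero_pow]
    positivity
  have h0' : (0 : ℝ) < Ed.card := by exact_mod_cast h0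
  have hV : (0 : ℝ) < V.card := by
    have : 0 < V.card := by
      obtain ⟨e, he⟩ := Finset.card_pos.1 h0
      exact Finset.card_pos.2 ⟨e.1, (hE e he).1⟩
    exact_mod_cast this
  set n : ℝ := (V.card : ℝ) with hn'
  set m : ℝ := (Ed.card : ℝ) with hm'
  have hk := pl2_samp V Ed X (π := 4 * n / m) (by positivity)
    (by rw [div_le_one h0']; exact hn) hE hX hX4 h
  rw [← hn', ← hm'] at hk
  have h2 : m * (4 * n / m) ^ 2 = 16 * n ^ 2 / m := by field_simp; ring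
  have h3 : 3 * (n * (4 * n / m)) = 12 * n ^ 2 / m := by ring
  have h4 : (X.card : ℝ) * (4 * n / m) ^ 4 = 256 * n ^ 4 * X.card / m ^ 4 := by ring
  rw [h2, h3, h4] at hk
  have h5 : 4 * n ^ 2 / m ≤ 256 * n ^ 4 * X.card / m ^ 4 := by
    have : 16 * n ^ 2 / m = 12 * n ^ 2 / m + 4 * n ^ 2 / m := by ring
    linarith
  rw [div_le_div_iff₀ h0' (by positivity)] at h5
  have h6 : 0 < 4 * n ^ 2 * m := by positivity
  have h7 : 4 * n ^ 2 * m * m ^ 3 ≤ 4 * n ^ 2 * m * (64 * n ^ 2 * X.card) := by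
    calc 4 * n ^ 2 * m * m ^ 3 = 4 * n ^ 2 * m ^ 4 := by ring
      _ ≤ 256 * n ^ 4 * X.card * m := h5
      _ = 4 * n ^ 2 * m * (64 * n ^ 2 * X.card) := by ring
  exact le_of_mul_le_mul_left h7 h6

/-- Two points of different abscissae are on one line. -/
lemma pl2_line {l l' u w : ℝ × ℝ} (h1 : u.2 = l.1 * u.1 + l.2) (h2 : w.2 = l.1 * w.1 + l.2)
    (h3 : u.2 = l'.1 * u.1 + l'.2) (h4 : w.2 = l'.1 * w.1 + l'.2) (h : u.1 ≠ w.1) : l = l' := by
  have h5 : (l.1 - l'.1) * (u.1 - w.1) = 0 := by linear_combination h2 - h1 + h3 - h4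
  have h6 : l.1 = l'.1 := by
    rcases mul_eq_zero.1 h5 with h7 | h7
    · linarith
    · exact absurd (sub_eq_zero.1 h7) h
  refine Prod.ext h6 ?_
  rw [h6] at h1
  linarith

lemma pl2_ht {l u w : ℝ × ℝ} (h1 : u.2 = l.1 * u.1 + l.2) (h2 : w.2 = l.1 * w.1 + l.2)
    (h : u.1 < w.1) (x : ℝ) : ht u w x = l.1 * x + l.2 := by
  have h3 : w.1 - u.1 ≠ 0 := by linarith
  unfold ht
  rw [h1, h2]
  field_simp
  ring

open Classical in
/-- The crossing lemma for the points `Ps`, which have different abscissae, and the segments of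
the lines `Ls` between consecutive points. -/
lemma pl2_core (Ls Ps : Finset (ℝ × ℝ)) (hx : ∀ u ∈ Ps, ∀ v ∈ Ps, u.1 = v.1 → u = v)
    (hbig : 4 * Ps.card + Ls.card ≤
      ((Ls ×ˢ Ps).filter fun q => q.2.2 = q.1.1 * q.2.1 + q.1.2).card) :
    ((((Ls ×ˢ Ps).filter fun q => q.2.2 = q.1.1 * q.2.1 + q.1.2).card : ℝ) - Ls.card) ^ 3 ≤
      64 * (Ps.card : ℝ) ^ 2 * (Ls.card : ℝ) ^ 2 := by
  obtain ⟨S, hS⟩ : ∃ S, S = (Ls ×ˢ Ps).filter fun q => q.2.2 = q.1.1 * q.2.1 + q.1.2 := ⟨_, rfl⟩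
  rw [← hS] at hbig ⊢
  obtain ⟨Ed, hEd⟩ : ∃ Ed, Ed = (Ps ×ˢ Ps).filter fun e => e.1.1 < e.2.1 ∧ ∃ l ∈ Ls,
    e.1.2 = l.1 * e.1.1 + l.2 ∧ e.2.2 = l.1 * e.2.1 + l.2 ∧
      ∀ w ∈ Ps, w.2 = l.1 * w.1 + l.2 → e.1.1 < w.1 → ¬ w.1 < e.2.1 := ⟨_, rfl⟩
  have hEdm : ∀ e ∈ Ed, ∃ l ∈ Ls, e.1 ∈ Ps ∧ e.2 ∈ Ps ∧ e.1.1 < e.2.1 ∧
      e.1.2 = l.1 * e.1.1 + l.2 ∧ e.2.2 = l.1 * e.2.1 + l.2 ∧
      ∀ w ∈ Ps, w.2 = l.1 * w.1 + l.2 → e.1.1 < w.1 → ¬ w.1 < e.2.1 := by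
    intro e he
    rw [hEd, Finset.mem_filter, Finset.mem_product] at he
    obtain ⟨⟨h1, h2⟩, h3, l, hl, h4, h5, h6⟩ := he
    exact ⟨l, hl, h1, h2, h3, h4, h5, h6⟩
  choose! ln hlnL hE1 hE2 hE12 hon1 hon2 hcons using hEdm
  -- edges of the same line do not overlap
  have hsame : ∀ e ∈ Ed, ∀ f ∈ Ed, ln e = ln f → ∀ x : ℝ, e.1.1 < x → x < e.2.1 → f.1.1 < x →
      x < f.2.1 → e = f := by
    intro e he f hf hl x x1 x2 x3 x4
    have a1 : ¬ e.1.1 < f.1.1 := fun h => hcons e he f.1 (hE1 f hf) (by rw [hl]; exact hon1 f hf)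
      h (x3.trans x2)
    have a2 : ¬ f.1.1 < e.1.1 := fun h => hcons f hf e.1 (hE1 e he) (by rw [← hl]; exact hon1 e he)
      h (x1.trans x4)
    have a3 : ¬ e.2.1 < f.2.1 := fun h => hcons f hf e.2 (hE2 e he) (by rw [← hl]; exact hon2 e he)
      (x3.trans x2) h
    have a4 : ¬ f.2.1 < e.2.1 := fun h => hcons e he f.2 (hE2 f hf) (by rw [hl]; exact hon2 f hf)
      (x1.trans x4) h
    exact Prod.ext (hx _ (hE1 e he) _ (hE1 f hf) (le_antisymm (not_lt.1 a2) (not_lt.1 a1)))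
      (hx _ (hE2 e he) _ (hE2 f hf) (le_antisymm (not_lt.1 a4) (not_lt.1 a3)))
  have hht : ∀ e ∈ Ed, ∀ x : ℝ, ht e.1 e.2 x = (ln e).1 * x + (ln e).2 := fun e he x =>
    pl2_ht (hon1 e he) (hon2 e he) (hE12 e he) x
  obtain ⟨X, hXdef⟩ : ∃ X, X = (Ed ×ˢ Ed).filter fun q => q.1 ≠ q.2 ∧ ∃ x : ℝ,
    q.1.1.1 < x ∧ x < q.1.2.1 ∧ q.2.1.1 < x ∧ x < q.2.2.1 ∧
      ht q.1.1 q.1.2 x = ht q.2.1 q.2.2 x := ⟨_, rfl⟩
  have hXm : ∀ q ∈ X, ∃ x : ℝ, q.1 ∈ Ed ∧ q.2 ∈ Ed ∧ q.1 ≠ q.2 ∧ q.1.1.1 < x ∧ x < q.1.2.1 ∧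
      q.2.1.1 < x ∧ x < q.2.2.1 ∧ ht q.1.1 q.1.2 x = ht q.2.1 q.2.2 x := by
    intro q hq
    rw [hXdef, Finset.mem_filter, Finset.mem_product] at hq
    obtain ⟨⟨h1, h2⟩, h3, x, h4⟩ := hq
    exact ⟨x, h1, h2, h3, h4⟩
  have hXl : ∀ q ∈ X, ln q.1 ≠ ln q.2 := by
    intro q hq hl
    obtain ⟨x, h1, h2, h3, x1, x2, x3, x4, _⟩ := hXm q hq
    exact h3 (hsame _ h1 _ h2 hl x x1 x2 x3 x4)
  have hXcard : X.card ≤ Ls.card ^ 2 := by
    rw [pow_two, ← Finset.card_product]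
    refine Finset.card_le_card_of_injOn (fun q => (ln q.1, ln q.2)) ?_ ?_
    · intro q hq
      obtain ⟨x, h1, h2, _⟩ := hXm q (Finset.mem_coe.1 hq)
      exact Finset.mem_coe.2 (Finset.mem_product.2 ⟨hlnL _ h1, hlnL _ h2⟩)
    · intro q hq q' hq' hqq
      have hq := Finset.mem_coe.1 hq
      have hq' := Finset.mem_coe.1 hq'
      obtain ⟨e1, e2⟩ := Prod.mk.inj hqq
      obtain ⟨x, h1, h2, h3, x1, x2, x3, x4, x5⟩ := hXm q hq
      obtain ⟨y, g1, g2, g3, y1, y2, y3, y4, y5⟩ := hXm q' hq'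
      rw [hht _ h1, hht _ h2] at x5
      rw [hht _ g1, hht _ g2, ← e1, ← e2] at y5
      have hxy : x = y := by
        by_contra hne
        exact hXl q hq (pl2_line (u := (x, (ln q.1).1 * x + (ln q.1).2))
          (w := (y, (ln q.1).1 * y + (ln q.1).2)) rfl rfl x5 y5 hne)
      subst hxy
      exact Prod.ext (hsame _ h1 _ g1 e1 x x1 x2 y1 y2) (hsame _ h2 _ g2 e2 x x3 x4 y3 y4)
  have hScard : S.card ≤ Ed.card + Ls.card := by
    have hnx : ∀ q ∈ S.filter (fun q => ¬ ∀ w ∈ Ps, w.2 = q.1.1 * w.1 + q.1.2 → w.1 ≤ q.2.1),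
        ∃ w : ℝ × ℝ, w ∈ Ps ∧ w.2 = q.1.1 * w.1 + q.1.2 ∧ q.2.1 < w.1 ∧
          ∀ v ∈ Ps, v.2 = q.1.1 * v.1 + q.1.2 → q.2.1 < v.1 → w.1 ≤ v.1 := by
      intro q hq
      obtain ⟨hq1, hq2⟩ := Finset.mem_filter.1 hq
      push Not at hq2
      obtain ⟨w0, hw0, hw1, hw2⟩ := hq2
      obtain ⟨w, hw, hmin⟩ := Finset.exists_min_image
        (Ps.filter fun v => v.2 = q.1.1 * v.1 + q.1.2 ∧ q.2.1 < v.1) (fun v => v.1)
        ⟨w0, Finset.mem_filter.2 ⟨hw0, hw1, hw2⟩⟩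
      obtain ⟨h1, h2, h3⟩ := Finset.mem_filter.1 hw
      exact ⟨w, h1, h2, h3, fun v hv g1 g2 => hmin v (Finset.mem_filter.2 ⟨hv, g1, g2⟩)⟩
    choose! nx hnx1 hnx2 hnx3 hnx4 using hnx
    have c1 : (S.filter fun q => ∀ w ∈ Ps, w.2 = q.1.1 * w.1 + q.1.2 → w.1 ≤ q.2.1).card ≤
        Ls.card := by
      refine Finset.card_le_card_of_injOn (fun q => q.1) ?_ ?_
      · intro q hq
        have h1 := (Finset.mem_filter.1 (Finset.mem_coe.1 hq)).1
        rw [hS] at h1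
        exact Finset.mem_coe.2 (Finset.mem_product.1 (Finset.mem_filter.1 h1).1).1
      · intro q hq q' hq' hqq
        obtain ⟨h1, h2⟩ := Finset.mem_filter.1 (Finset.mem_coe.1 hq)
        obtain ⟨g1, g2⟩ := Finset.mem_filter.1 (Finset.mem_coe.1 hq')
        rw [hS] at h1 g1
        obtain ⟨h3, h4⟩ := Finset.mem_filter.1 h1
        obtain ⟨g3, g4⟩ := Finset.mem_filter.1 g1
        have hqq : q.1 = q'.1 := hqq
        have a1 := h2 q'.2 (Finset.mem_product.1 g3).2 (by rw [hqq]; exact g4)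
        have a2 := g2 q.2 (Finset.mem_product.1 h3).2 (by rw [← hqq]; exact h4)
        exact Prod.ext hqq (hx _ (Finset.mem_product.1 h3).2 _ (Finset.mem_product.1 g3).2
          (le_antisymm a2 a1))
    have c2 : (S.filter fun q => ¬ ∀ w ∈ Ps, w.2 = q.1.1 * w.1 + q.1.2 → w.1 ≤ q.2.1).card ≤
        Ed.card := by
      refine Finset.card_le_card_of_injOn (fun q => (q.2, nx q)) ?_ ?_
      · intro q hq
        have hq := Finset.mem_coe.1 hq
        have hqS := (Finset.mem_filter.1 hq).1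
        rw [hS] at hqS
        obtain ⟨h3, h4⟩ := Finset.mem_filter.1 hqS
        rw [hEd]
        refine Finset.mem_coe.2 (Finset.mem_filter.2 ⟨Finset.mem_product.2
          ⟨(Finset.mem_product.1 h3).2, hnx1 q hq⟩, hnx3 q hq, q.1, (Finset.mem_product.1 h3).1,
          h4, hnx2 q hq, ?_⟩)
        intro w hw g1 g2 g3
        have := hnx4 q hq w hw g1 g2
        exact absurd g3 (not_lt.2 this)
      · intro q hq q' hq' hqq
        have hq := Finset.mem_coe.1 hq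
        have hq' := Finset.mem_coe.1 hq'
        obtain ⟨e1, e2⟩ := Prod.mk.inj hqq
        have hqS := (Finset.mem_filter.1 hq).1
        have hqS' := (Finset.mem_filter.1 hq').1
        rw [hS] at hqS hqS'
        obtain ⟨h3, h4⟩ := Finset.mem_filter.1 hqS
        obtain ⟨g3, g4⟩ := Finset.mem_filter.1 hqS'
        refine Prod.ext (pl2_line h4 (hnx2 q hq) ?_ ?_ (ne_of_lt (hnx3 q hq))) e1
        · rw [e1]; exact g4
        · rw [e2]; exact hnx2 q' hq'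
    have c3 := Finset.card_filter_add_card_filter_not (s := S)
      (fun q => ∀ w ∈ Ps, w.2 = q.1.1 * w.1 + q.1.2 → w.1 ≤ q.2.1)
    rw [← c3, add_comm Ed.card]
    exact add_le_add c1 c2
  have hcross := pl2_cross Ps Ed X
    (fun e he => ⟨hE1 e he, hE2 e he, fun h => by
      have := hE12 e he
      rw [h] at this
      exact lt_irrefl _ this⟩)
    (fun q hq => by
      obtain ⟨x, h1, h2, _⟩ := hXm q hq
      exact ⟨hE1 _ h1, hE2 _ h1, hE1 _ h2, hE2 _ h2⟩)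
    (fun q hq => by
      obtain ⟨x, h1, h2, h3, x1, x2, x3, x4, x5⟩ := hXm q hq
      have hl := hXl q hq
      rw [hht _ h1, hht _ h2] at x5
      have n1 : q.1.1 ≠ q.1.2 := fun h => by rw [h] at x1; exact lt_asymm x1 x2
      have n2 : q.2.1 ≠ q.2.2 := fun h => by rw [h] at x3; exact lt_asymm x3 x4
      have n3 : q.1.1 ≠ q.2.2 := fun h => by rw [h] at x1; exact lt_asymm x1 x4
      have n4 : q.1.2 ≠ q.2.1 := fun h => by rw [h] at x2; exact lt_asymm x2 x3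
      have n5 : q.1.1 ≠ q.2.1 := fun h => hl (pl2_line (u := q.1.1)
        (w := (x, (ln q.1).1 * x + (ln q.1).2)) (hon1 _ h1) rfl (by rw [h]; exact hon1 _ h2) x5
        (ne_of_lt x1))
      have n6 : q.1.2 ≠ q.2.2 := fun h => hl (pl2_line (u := q.1.2)
        (w := (x, (ln q.1).1 * x + (ln q.1).2)) (hon2 _ h1) rfl (by rw [h]; exact hon2 _ h2) x5
        (ne_of_gt x2))
      rw [Finset.card_insert_of_notMem, Finset.card_insert_of_notMem, Finset.card_pair n2]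
      · rw [Finset.mem_insert, Finset.mem_singleton, not_or]
        exact ⟨n4, n6⟩
      · rw [Finset.mem_insert, Finset.mem_insert, Finset.mem_singleton, not_or, not_or]
        exact ⟨n1, n5, n3⟩)
    (fun T hT => by
      obtain ⟨ET, hET⟩ : ∃ ET, ET = Ed.filter fun e => e.1 ∈ T ∧ e.2 ∈ T := ⟨_, rfl⟩
      obtain ⟨Bad, hBad⟩ : ∃ Bad, Bad = ET.filter fun e => ∃ f ∈ ET, (e, f) ∈ X := ⟨_, rfl⟩
      rw [← hET]
      have b1 : Bad.card ≤
          (X.filter fun q => q.1.1 ∈ T ∧ q.1.2 ∈ T ∧ q.2.1 ∈ T ∧ q.2.2 ∈ T).card := by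
        refine le_trans (Finset.card_le_card ?_) (Finset.card_image_le (f := Prod.fst))
        intro e he
        rw [hBad] at he
        obtain ⟨h1, f, h2, h3⟩ := Finset.mem_filter.1 he
        rw [hET] at h1 h2
        refine Finset.mem_image.2 ⟨(e, f), Finset.mem_filter.2 ⟨h3, ?_⟩, rfl⟩
        obtain ⟨_, h4, h5⟩ := Finset.mem_filter.1 h1
        obtain ⟨_, h6, h7⟩ := Finset.mem_filter.1 h2
        exact ⟨h4, h5, h6, h7⟩
      have b2 : (ET.filter fun e => ¬ ∃ f ∈ ET, (e, f) ∈ X).card ≤ 3 * T.card := by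
        refine planar_edges T _ (fun u hu v hv h => hx u (hT hu) v (hT hv) h) ?_ ?_ ?_
        · intro e he
          have he := (Finset.mem_filter.1 he).1
          rw [hET] at he
          obtain ⟨h1, h2, h3⟩ := Finset.mem_filter.1 he
          exact ⟨h2, h3, hE12 e h1⟩
        · intro e he w hw w1 w2 w3
          have he := (Finset.mem_filter.1 he).1
          rw [hET] at he
          obtain ⟨h1, h2, h3⟩ := Finset.mem_filter.1 he
          rw [hht e h1] at w3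
          exact hcons e h1 w (hT hw) w3 w1 w2
        · intro e he f hf hef x x1 x2 x3 x4 x5
          obtain ⟨he1, he2⟩ := Finset.mem_filter.1 he
          obtain ⟨hf1, hf2⟩ := Finset.mem_filter.1 hf
          refine he2 ⟨f, hf1, ?_⟩
          rw [hET] at he1 hf1
          rw [hXdef]
          exact Finset.mem_filter.2 ⟨Finset.mem_product.2
            ⟨(Finset.mem_filter.1 he1).1, (Finset.mem_filter.1 hf1).1⟩, hef, x, x1, x2, x3, x4,
              x5⟩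
      have b3 : Bad.card + (ET.filter fun e => ¬ ∃ f ∈ ET, (e, f) ∈ X).card = ET.card := by
        rw [hBad]
        convert Finset.card_filter_add_card_filter_not (s := ET)
          (fun e => ∃ f ∈ ET, (e, f) ∈ X)
      rw [← b3, add_comm (3 * T.card)]
      exact add_le_add b1 b2)
    (by
      have : 4 * Ps.card ≤ Ed.card := le_of_add_le_add_right (hbig.trans hScard)
      exact_mod_cast this)
  have hpos : (0 : ℝ) ≤ (S.card : ℝ) - Ls.card := by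
    have : Ls.card ≤ S.card := le_trans (Nat.le_add_left _ _) hbig
    exact sub_nonneg.2 (Nat.cast_le.2 this)
  have hle : (S.card : ℝ) - Ls.card ≤ Ed.card := by
    have : (S.card : ℝ) ≤ Ed.card + Ls.card := by exact_mod_cast hScard
    exact sub_le_iff_le_add.2 this
  have hX2 : (X.card : ℝ) ≤ (Ls.card : ℝ) ^ 2 := by exact_mod_cast hXcard
  calc ((S.card : ℝ) - Ls.card) ^ 3 ≤ (Ed.card : ℝ) ^ 3 := pow_le_pow_left₀ hpos hle 3
    _ ≤ 64 * (Ps.card : ℝ) ^ 2 * X.card := hcross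
    _ ≤ 64 * (Ps.card : ℝ) ^ 2 * (Ls.card : ℝ) ^ 2 := by gcongr

end SD12
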