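import Pool.Agent.SD12.Defs

/-! # P1: a polynomial vanishing on all lines, and its gradient on one line. -/

open Finset ComplexConjugate

namespace SD12

/-- The point of space at time `s` of a line, as three polynomials in `s`. -/
noncomputable def polyA_sub (x : ℂ × ℂ) : Fin 3 → Polynomial ℝ :=
  ![Polynomial.C x.2.re + Polynomial.C x.1.im * Polynomial.X,
    Polynomial.C x.2.im - Polynomial.C x.1.re * Polynomial.X, Polynomial.X]

/-- Restriction of a polynomial to a line. -/
noncomputable def polyA_ev (x : ℂ × ℂ) : MvPolynomial (Fin 3) ℝ →ₐ[ℝ] Polynomial ℝ :=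
  MvPolynomial.aeval (polyA_sub x)

lemma polyA_ev_X (x : ℂ × ℂ) (i : Fin 3) : polyA_ev x (MvPolynomial.X i) = polyA_sub x i := by
  unfold polyA_ev
  rw [MvPolynomial.aeval_X]

lemma polyA_ev_C (x : ℂ × ℂ) (a : ℝ) : polyA_ev x (MvPolynomial.C a) = Polynomial.C a := by
  unfold polyA_ev
  rw [MvPolynomial.aeval_C]
  rfl

lemma polyA_chain (x : ℂ × ℂ) (P : MvPolynomial (Fin 3) ℝ) :
    Polynomial.derivative (polyA_ev x P) =
      Polynomial.C x.1.im * polyA_ev x (MvPolynomial.pderiv 0 P) -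
      Polynomial.C x.1.re * polyA_ev x (MvPolynomial.pderiv 1 P) +
      polyA_ev x (MvPolynomial.pderiv 2 P) := by
  induction P using MvPolynomial.induction_on with
  | C a => simp [polyA_ev_C]
  | add p q hp hq =>
    simp only [map_add, hp, hq]
    ring
  | mul_X p i hp =>
    rw [map_mul, Polynomial.derivative_mul, hp, MvPolynomial.pderiv_mul, MvPolynomial.pderiv_mul,
      MvPolynomial.pderiv_mul, polyA_ev_X]
    simp only [map_add, map_mul, polyA_ev_X]
    fin_cases i <;> simp [polyA_sub, MvPolynomial.pderiv_X, Pi.single_apply] <;> ring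

lemma polyA_eval (x : ℂ × ℂ) (t : ℝ) (P : MvPolynomial (Fin 3) ℝ) :
    (polyA_ev x P).eval t = MvPolynomial.eval ![(L x t).re, (L x t).im, t] P := by
  induction P using MvPolynomial.induction_on with
  | C a => simp [polyA_ev_C]
  | add p q hp hq => simp only [map_add, Polynomial.eval_add, hp, hq]
  | mul_X p i hp =>
    rw [map_mul, Polynomial.eval_mul, hp, polyA_ev_X, map_mul, MvPolynomial.eval_X]
    congr 1
    fin_cases i <;> simp [polyA_sub, L] <;> ring

lemma polyA_natDegree (x : ℂ × ℂ) (P : MvPolynomial (Fin 3) ℝ) :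
    (polyA_ev x P).natDegree ≤ P.totalDegree := by
  have h := MvPolynomial.aeval_natDegree_le (m := P.totalDegree) (n := 1) P le_rfl (polyA_sub x)
    (by
      intro i
      fin_cases i
      · simp only [polyA_sub]
        refine (Polynomial.natDegree_add_le _ _).trans (max_le (by simp) ?_)
        exact (Polynomial.natDegree_C_mul_le _ _).trans (by simp)
      · simp only [polyA_sub]
        refine (Polynomial.natDegree_sub_le _ _).trans (max_le (by simp) ?_)
        exact (Polynomial.natDegree_C_mul_le _ _).trans (by simp)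
      · simp [polyA_sub])
  simpa [polyA_ev] using h

lemma polyA_pderiv_lt {P : MvPolynomial (Fin 3) ℝ} (i : Fin 3)
    (h : MvPolynomial.pderiv i P ≠ 0) :
    (MvPolynomial.pderiv i P).totalDegree < P.totalDegree := by
  have h1 : ∀ s ∈ (MvPolynomial.pderiv i P).support, (s.sum fun _ e => e) + 1 ≤ P.totalDegree := by
    intro s hs
    rw [MvPolynomial.mem_support_iff, MvPolynomial.coeff_pderiv] at hs
    have h2 : s + Finsupp.single i 1 ∈ P.support := by
      rw [MvPolynomial.mem_support_iff]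
      intro h0
      exact hs (by rw [h0, zero_mul])
    have h3 := MvPolynomial.le_totalDegree h2
    rw [Finsupp.sum_add_index' (fun _ => rfl) (fun _ _ _ => rfl)] at h3
    simpa using h3
  obtain ⟨s, hs⟩ := MvPolynomial.support_nonempty.2 h
  have h4 : 0 < P.totalDegree := lt_of_lt_of_le (Nat.succ_pos _) (h1 s hs)
  unfold MvPolynomial.totalDegree
  rw [Finset.sup_lt_iff (by exact h4)]
  intro s hs
  exact Nat.lt_of_succ_le (h1 s hs)

lemma polyA_pderiv_ne {P : MvPolynomial (Fin 3) ℝ} (h : P.totalDegree ≠ 0) :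
    ∃ i, MvPolynomial.pderiv i P ≠ 0 := by
  have h1 : ∃ m ∈ P.support, (m.sum fun _ e => e) ≠ 0 := by
    by_contra hc
    push Not at hc
    apply h
    rw [MvPolynomial.totalDegree, ← Nat.le_zero]
    exact Finset.sup_le fun m hm => (hc m hm).le
  obtain ⟨m, hm, hm0⟩ := h1
  have h2 : ∃ i, m i ≠ 0 := by
    by_contra hc
    push Not at hc
    apply hm0
    have : m = 0 := Finsupp.ext hc
    simp [this]
  obtain ⟨i, hi⟩ := h2
  refine ⟨i, fun h0 => ?_⟩
  have h3 := MvPolynomial.coeff_pderiv (i := i) P (m - Finsupp.single i 1)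
  have h4 : m - Finsupp.single i 1 + Finsupp.single i 1 = m := by
    apply tsub_add_cancel_of_le
    rw [Finsupp.single_le_iff]
    exact Nat.one_le_iff_ne_zero.2 hi
  rw [h0, h4, MvPolynomial.coeff_zero] at h3
  rcases mul_eq_zero.1 h3.symm with h5 | h5
  · exact MvPolynomial.mem_support_iff.1 hm h5
  · have h6 : (0 : ℝ) ≤ (((m - Finsupp.single i 1 : Fin 3 →₀ ℕ) i : ℕ) : ℝ) := Nat.cast_nonneg _
    linarith

/-- The polynomial with given coefficients (all exponents at most `e`). -/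
noncomputable def polyA_phi (e : ℕ) :
    ((Fin 3 → Fin (e + 1)) → ℝ) →ₗ[ℝ] MvPolynomial (Fin 3) ℝ where
  toFun v := ∑ a, MvPolynomial.monomial (Finsupp.equivFunOnFinite.symm fun i => (a i : ℕ)) (v a)
  map_add' v w := by
    simp only [Pi.add_apply, map_add, Finset.sum_add_distrib]
  map_smul' c v := by
    simp only [Pi.smul_apply, smul_eq_mul, RingHom.id_apply, Finset.smul_sum,
      MvPolynomial.smul_monomial]

lemma polyA_phi_coeff (e : ℕ) (v : (Fin 3 → Fin (e + 1)) → ℝ) (a : Fin 3 → Fin (e + 1)) :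
    MvPolynomial.coeff (Finsupp.equivFunOnFinite.symm fun i => (a i : ℕ)) (polyA_phi e v) = v a := by
  classical
  simp only [polyA_phi, LinearMap.coe_mk, AddHom.coe_mk, MvPolynomial.coeff_sum,
    MvPolynomial.coeff_monomial]
  rw [Finset.sum_eq_single a]
  · simp
  · intro b _ hb
    rw [if_neg]
    intro h
    apply hb
    have h1 := Finsupp.equivFunOnFinite.symm.injective h
    funext i
    exact Fin.ext (congrFun h1 i)
  · simp

lemma polyA_phi_deg (e : ℕ) (v : (Fin 3 → Fin (e + 1)) → ℝ) :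
    (polyA_phi e v).totalDegree ≤ 3 * e := by
  simp only [polyA_phi, LinearMap.coe_mk, AddHom.coe_mk]
  refine MvPolynomial.totalDegree_finsetSum_le fun a _ => ?_
  refine (MvPolynomial.totalDegree_monomial_le _ _).trans ?_
  rw [Finsupp.sum_fintype _ _ (fun _ => rfl)]
  simp only [Finsupp.equivFunOnFinite_symm_apply_apply]
  calc ∑ i : Fin 3, (a i : ℕ) ≤ ∑ _i : Fin 3, e :=
        Finset.sum_le_sum fun i _ => Nat.lt_succ_iff.1 (a i).2
    _ = 3 * e := by simp

lemma polyA_exists (F : Finset (ℂ × ℂ)) : ∃ P : MvPolynomial (Fin 3) ℝ, P ≠ 0 ∧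
    P.totalDegree ≤ 3 * Nat.sqrt (3 * F.card) ∧ ∀ x ∈ F, polyA_ev x P = 0 := by
  classical
  set e := Nat.sqrt (3 * F.card) with he
  let f : ((Fin 3 → Fin (e + 1)) → ℝ) →ₗ[ℝ] (F × Fin (3 * e + 1) → ℝ) :=
    LinearMap.pi fun p => (Polynomial.lcoeff ℝ (p.2 : ℕ)).comp
      ((polyA_ev p.1.1).toLinearMap.comp (polyA_phi e))
  have hcard : Module.finrank ℝ (F × Fin (3 * e + 1) → ℝ) <
      Module.finrank ℝ ((Fin 3 → Fin (e + 1)) → ℝ) := by
    simp only [Module.finrank_fintype_fun_eq_card, Fintype.card_prod, Fintype.card_coe,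
      Fintype.card_fin, Fintype.card_fun]
    have h1 : 3 * F.card < (e + 1) * (e + 1) := Nat.lt_succ_sqrt _
    have h2 : 3 * F.card + 1 ≤ (e + 1) * (e + 1) := h1
    have h3 : (3 * F.card + 1) * (e + 1) ≤ (e + 1) * (e + 1) * (e + 1) :=
      Nat.mul_le_mul_right _ h2
    calc F.card * (3 * e + 1) < (3 * F.card + 1) * (e + 1) := by nlinarith
      _ ≤ (e + 1) * (e + 1) * (e + 1) := h3
      _ = (e + 1) ^ 3 := by ring
  have hker := LinearMap.ker_ne_bot_of_finrank_lt (f := f) hcard
  obtain ⟨v, hv, hv0⟩ := Submodule.exists_mem_ne_zero_of_ne_bot hker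
  refine ⟨polyA_phi e v, ?_, polyA_phi_deg e v, ?_⟩
  · intro h0
    apply hv0
    funext a
    have h1 := polyA_phi_coeff e v a
    rw [h0, MvPolynomial.coeff_zero] at h1
    exact h1.symm
  · intro x hx
    ext k
    rw [Polynomial.coeff_zero]
    by_cases hk : k ≤ 3 * e
    · have h1 : f v = 0 := hv
      have h2 := congrFun h1 (⟨x, hx⟩, ⟨k, Nat.lt_succ_iff.2 hk⟩)
      simpa [f] using h2
    · apply Polynomial.coeff_eq_zero_of_natDegree_lt
      exact lt_of_le_of_lt ((polyA_natDegree x _).trans (polyA_phi_deg e v)) (not_le.1 hk)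

theorem exists_grad (F : Finset (ℂ × ℂ)) (hF : F.Nonempty) :
    ∃ x ∈ F, ∃ G H : Polynomial ℝ, (G ≠ 0 ∨ H ≠ 0) ∧
      (G.natDegree : ℝ) ≤ 6 * Real.sqrt F.card ∧ (H.natDegree : ℝ) ≤ 6 * Real.sqrt F.card ∧
      ∀ y ∈ F, ∀ t : ℝ, Meet x y t →
        G.eval t * (x.1 - y.1).re + H.eval t * (x.1 - y.1).im = 0 := by
  classical
  set S : Set ℕ := {d | ∃ P : MvPolynomial (Fin 3) ℝ, P ≠ 0 ∧ P.totalDegree = d ∧
    ∀ x ∈ F, polyA_ev x P = 0} with hS
  obtain ⟨P0, hP0, hd0, hv0⟩ := polyA_exists F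
  have hmem : P0.totalDegree ∈ S := ⟨P0, hP0, rfl, hv0⟩
  obtain ⟨P, hP, hd, hv⟩ := Nat.sInf_mem (s := S) ⟨_, hmem⟩
  have hdle : P.totalDegree ≤ 3 * Nat.sqrt (3 * F.card) :=
    hd.le.trans ((Nat.sInf_le hmem).trans hd0)
  have hmin : ∀ Q : MvPolynomial (Fin 3) ℝ, Q ≠ 0 → Q.totalDegree < P.totalDegree →
      ∃ x ∈ F, polyA_ev x Q ≠ 0 := by
    intro Q hQ hlt
    by_contra hc
    push Not at hc
    have : sInf S ≤ Q.totalDegree := Nat.sInf_le ⟨Q, hQ, rfl, hc⟩
    omega
  have hne : P.totalDegree ≠ 0 := by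
    intro h0
    obtain ⟨x, hx⟩ := hF
    have h1 := MvPolynomial.totalDegree_eq_zero_iff_eq_C.1 h0
    have h2 := hv x hx
    rw [h1, polyA_ev_C] at h2
    have h3 : MvPolynomial.coeff 0 P = 0 := by simpa using h2
    apply hP
    rw [h1, h3, map_zero]
  obtain ⟨i, hi⟩ := polyA_pderiv_ne hne
  obtain ⟨x, hx, hxi⟩ := hmin _ hi (polyA_pderiv_lt i hi)
  have hbound : ∀ j : Fin 3, ((polyA_ev x (MvPolynomial.pderiv j P)).natDegree : ℝ) ≤
      6 * Real.sqrt F.card := by
    intro j
    by_cases hj : MvPolynomial.pderiv j P = 0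
    · rw [hj, map_zero]
      simp
    have h1 : (polyA_ev x (MvPolynomial.pderiv j P)).natDegree ≤ 3 * Nat.sqrt (3 * F.card) :=
      (polyA_natDegree x _).trans ((polyA_pderiv_lt j hj).le.trans hdle)
    have h2 : ((Nat.sqrt (3 * F.card) : ℕ) : ℝ) ≤ 2 * Real.sqrt F.card := by
      have h3 : ((Nat.sqrt (3 * F.card) : ℕ) : ℝ) ≤ Real.sqrt ((3 * F.card : ℕ) : ℝ) :=
        Real.nat_sqrt_le_real_sqrt
      refine h3.trans ?_
      have h4 : (2 : ℝ) * Real.sqrt F.card = Real.sqrt (4 * F.card) := by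
        rw [Real.sqrt_mul (by norm_num) _, show (4 : ℝ) = 2 ^ 2 by norm_num,
          Real.sqrt_sq (by norm_num)]
      rw [h4]
      apply Real.sqrt_le_sqrt
      push_cast
      have : (0 : ℝ) ≤ F.card := Nat.cast_nonneg _
      linarith
    calc ((polyA_ev x (MvPolynomial.pderiv j P)).natDegree : ℝ)
        ≤ ((3 * Nat.sqrt (3 * F.card) : ℕ) : ℝ) := by exact_mod_cast h1
      _ = 3 * ((Nat.sqrt (3 * F.card) : ℕ) : ℝ) := by push_cast; ring
      _ ≤ 3 * (2 * Real.sqrt F.card) := by linarith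
      _ = 6 * Real.sqrt F.card := by ring
  refine ⟨x, hx, -polyA_ev x (MvPolynomial.pderiv 1 P), polyA_ev x (MvPolynomial.pderiv 0 P),
    ?_, ?_, hbound 0, ?_⟩
  · by_contra hc
    push Not at hc
    obtain ⟨h1, h0⟩ := hc
    rw [neg_eq_zero] at h1
    have hch := polyA_chain x P
    rw [hv x hx, h0, h1] at hch
    simp only [Polynomial.derivative_zero, mul_zero, sub_zero, zero_add] at hch
    apply hxi
    fin_cases i
    · exact h0
    · exact h1
    · exact hch.symm
  · rw [Polynomial.natDegree_neg]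
    exact hbound 1
  · intro y hy t ht
    have key : ∀ z ∈ F, (z.1.im * MvPolynomial.eval ![(L z t).re, (L z t).im, t]
        (MvPolynomial.pderiv 0 P) - z.1.re * MvPolynomial.eval ![(L z t).re, (L z t).im, t]
        (MvPolynomial.pderiv 1 P) + MvPolynomial.eval ![(L z t).re, (L z t).im, t]
        (MvPolynomial.pderiv 2 P) = 0) := by
      intro z hz
      have h1 := congrArg (Polynomial.eval t) (polyA_chain z P)
      rw [hv z hz] at h1
      simp only [Polynomial.derivative_zero, Polynomial.eval_zero, Polynomial.eval_add,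
        Polynomial.eval_sub, Polynomial.eval_mul, Polynomial.eval_C, polyA_eval] at h1
      exact h1.symm
    have hx1 := key x hx
    have hy1 := key y hy
    have ht' : L x t = L y t := ht
    rw [← ht'] at hy1
    rw [Polynomial.eval_neg, polyA_eval, polyA_eval, Complex.sub_re, Complex.sub_im]
    linear_combination hx1 - hy1

end SD12
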