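import Pool.Agent.SD12.Cell
import Pool.Agent.SD12.Grid

/-!
# The inequality of the polynomial method

Pairs of close lines which meet at a clean point, counted over all the times of `S`: the pairs are
distributed over the cells of four grids in space and the cells of sixteen dyadic grids in the
space of lines, and `cell_count` is applied in every cell.
-/

open Finset ComplexConjugate

namespace SD12

/-- Equal labels in the grid in space: the points are close. -/
lemma polyIneq_vc {b : Bool × Bool} {z w : ℂ} (h : vc b z = vc b w) : ‖z - w‖ ≤ 1 / 16 := by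
  unfold vc at h
  obtain ⟨h1, h2⟩ := Prod.mk.inj h
  have a1 := Int.abs_sub_lt_one_of_floor_eq_floor h1
  have a2 := Int.abs_sub_lt_one_of_floor_eq_floor h2
  have b1 : |25 * (z.re - w.re)| < 1 := by
    have e : 25 * (z.re - w.re) = 25 * z.re + (if b.1 then 1 / 2 else 0) -
      (25 * w.re + (if b.1 then 1 / 2 else 0)) := by ring
    rw [e]; exact a1
  have b2 : |25 * (z.im - w.im)| < 1 := by
    have e : 25 * (z.im - w.im) = 25 * z.im + (if b.2 then 1 / 2 else 0) -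
      (25 * w.im + (if b.2 then 1 / 2 else 0)) := by ring
    rw [e]; exact a2
  have c1 := (sq_lt_one_iff_abs_lt_one _).2 b1
  have c2 := (sq_lt_one_iff_abs_lt_one _).2 b2
  have hn : ‖z - w‖ ^ 2 = (z.re - w.re) ^ 2 + (z.im - w.im) ^ 2 := by
    rw [← Complex.normSq_eq_norm_sq, Complex.normSq_apply, Complex.sub_re, Complex.sub_im]
    ring
  have hs : ‖z - w‖ ^ 2 ≤ (1 / 16) ^ 2 := by
    rw [hn]
    nlinarith
  exact (pow_le_pow_iff_left₀ (norm_nonneg _) (by norm_num) two_ne_zero).1 hs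

lemma polyIneq_floor {u v : ℝ} (h : |u - v| < 1 / 2) :
    ∃ b : Bool, ⌊u + (if b then (1 : ℝ) / 2 else 0)⌋ = ⌊v + (if b then (1 : ℝ) / 2 else 0)⌋ := by
  by_contra hc
  push Not at hc
  have h1 := hc false
  have h2 := hc true
  simp only [if_true, Bool.false_eq_true, if_false, add_zero] at h1 h2
  obtain ⟨h3, h4⟩ := abs_lt.1 h
  -- an integer separates `u` and `v`
  have key : ∀ {p q : ℝ}, p ≤ q → ⌊p⌋ ≠ ⌊q⌋ → p < (⌊q⌋ : ℝ) := by
    intro p q hpq hne
    have h5 : ⌊p⌋ ≤ ⌊q⌋ := Int.floor_le_floor hpq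
    have h6 : ⌊p⌋ < ⌊q⌋ := lt_of_le_of_ne h5 hne
    exact Int.floor_lt.1 h6
  rcases le_total u v with huv | huv
  · have a1 := key huv h1
    have a2 := key (by linarith : u + 1 / 2 ≤ v + 1 / 2) h2
    have a3 := Int.floor_le v
    have a4 := Int.floor_le (v + 1 / 2)
    have a5 : (⌊v⌋ : ℝ) < (⌊v + 1 / 2⌋ : ℤ) := by linarith
    have a6 : (⌊v + 1 / 2⌋ : ℝ) < (⌊v⌋ : ℤ) + 1 := by linarith
    have a7 : ⌊v⌋ < ⌊v + 1 / 2⌋ := by exact_mod_cast a5
    have a8 : ⌊v + 1 / 2⌋ < ⌊v⌋ + 1 := by exact_mod_cast a6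
    omega
  · have a1 := key huv h1.symm
    have a2 := key (by linarith : v + 1 / 2 ≤ u + 1 / 2) h2.symm
    have a3 := Int.floor_le u
    have a4 := Int.floor_le (u + 1 / 2)
    have a5 : (⌊u⌋ : ℝ) < (⌊u + 1 / 2⌋ : ℤ) := by linarith
    have a6 : (⌊u + 1 / 2⌋ : ℝ) < (⌊u⌋ : ℤ) + 1 := by linarith
    have a7 : ⌊u⌋ < ⌊u + 1 / 2⌋ := by exact_mod_cast a5
    have a8 : ⌊u + 1 / 2⌋ < ⌊u⌋ + 1 := by exact_mod_cast a6
    omega

/-- Close points have the same label in one of the grids in space. -/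
lemma polyIneq_exists_vc {z w : ℂ} (h : ‖z - w‖ ≤ 1 / 64) : ∃ b : Bool × Bool,
    vc b z = vc b w := by
  have h1 := (Complex.abs_re_le_norm (z - w)).trans h
  have h2 := (Complex.abs_im_le_norm (z - w)).trans h
  rw [Complex.sub_re] at h1
  rw [Complex.sub_im] at h2
  have h3 : |25 * z.re - 25 * w.re| < 1 / 2 := by
    rw [← mul_sub, abs_mul, abs_of_nonneg (by norm_num : (0 : ℝ) ≤ 25)]
    linarith
  have h4 : |25 * z.im - 25 * w.im| < 1 / 2 := by
    rw [← mul_sub, abs_mul, abs_of_nonneg (by norm_num : (0 : ℝ) ≤ 25)]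
    linarith
  obtain ⟨b1, hb1⟩ := polyIneq_floor h3
  obtain ⟨b2, hb2⟩ := polyIneq_floor h4
  exact ⟨(b1, b2), Prod.ext hb1 hb2⟩

/-- The pairs which are counted in the cells of level `k + 1` of the grid `a`. -/
def PP (E : Finset (ℂ × ℂ)) (j : ℕ) (β : ℂ × ℂ → ℝ → ℝ) (a : Bool × Bool × Bool × Bool) (k : ℕ)
    (x y : ℂ × ℂ) : Prop :=
  Pr E j β x y ∧ lab j a k x ≠ lab j a k y ∧ (2 : ℝ) ^ (k + 1) ≤ 26 * ‖x.1 - y.1‖

lemma PP.symm {E : Finset (ℂ × ℂ)} {j : ℕ} {β : ℂ × ℂ → ℝ → ℝ} {a : Bool × Bool × Bool × Bool}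
    {k : ℕ} {x y : ℂ × ℂ} (h : PP E j β a k x y) : PP E j β a k y x :=
  ⟨h.1.symm, h.2.1.symm, by rw [norm_sub_rev]; exact h.2.2⟩

lemma polyIneq_lt {E : Finset (ℂ × ℂ)} {K k : ℕ}
    (hK : ∀ x ∈ E, ∀ y ∈ E, 26 * ‖x.1 - y.1‖ < 2 ^ K) {x y : ℂ × ℂ} (hx : x ∈ E) (hy : y ∈ E)
    (h : (2 : ℝ) ^ (k + 1) ≤ 26 * ‖x.1 - y.1‖) : k + 1 < K := by
  have h1 : (2 : ℝ) ^ (k + 1) < 2 ^ K := h.trans_lt (hK x hx y hy)
  exact (pow_lt_pow_iff_right₀ (by norm_num)).1 h1

lemma polyIneq_abs {j : ℕ} {κ : ℝ} {S : Finset ℝ} (hS : Times j κ S) {s : ℝ} (hs : s ∈ S) :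
    |s| ≤ 1 / 2 := by
  refine (hS.abs_le s hs).trans ?_
  rw [one_div, one_div]
  refine inv_anti₀ (by norm_num) ?_
  rw [pow_succ]
  have : (1 : ℝ) ≤ 2 ^ j := one_le_pow₀ (by norm_num)
  linarith

open Classical in
/-- The number of times at which the two lines are in the same cell in space. -/
lemma polyIneq_R {E : Finset (ℂ × ℂ)} (hE : Cr E) {j : ℕ} {κ : ℝ} {S : Finset ℝ}
    (hS : Times j κ S) {K : ℕ} (hK : ∀ x ∈ E, ∀ y ∈ E, 26 * ‖x.1 - y.1‖ < 2 ^ K)
    (hκ : 2 ^ (K + 1) ≤ κ) {k : ℕ} {b : Bool × Bool} {x y : ℂ × ℂ} (hx : x ∈ E) (hy : y ∈ E)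
    (hxy : x ≠ y) (h : (2 : ℝ) ^ (k + 1) ≤ 26 * ‖x.1 - y.1‖) :
    ((S.filter fun s => vc b (L x s) = vc b (L y s)).card : ℝ) ≤ S.card * om j k := by
  have hcS : ((S.filter fun s => vc b (L x s) = vc b (L y s)).card : ℝ) ≤ S.card :=
    Nat.cast_le.2 (Finset.card_le_card (Finset.filter_subset _ _))
  have hom : S.card * om j k = min (S.card : ℝ) (S.card * (2 ^ (j + 1) / 2 ^ k)) := by
    unfold om
    rw [mul_min_of_nonneg _ _ (Nat.cast_nonneg _), mul_one]
  rw [hom]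
  refine le_min hcS ?_
  rcases Finset.eq_empty_or_nonempty (S.filter fun s => vc b (L x s) = vc b (L y s)) with h0 | h0
  · rw [h0]
    simp only [Finset.card_empty, Nat.cast_zero]
    positivity
  obtain ⟨s0, hs0⟩ := h0
  obtain ⟨hs1, hs2⟩ := Finset.mem_filter.1 hs0
  have hd := polyIneq_vc hs2
  obtain ⟨hρ, t, ht⟩ := hE x hx y hy hxy s0
    ((polyIneq_abs hS hs1).trans (by norm_num)) (hd.trans_lt (by norm_num))
  set ρ := ‖x.1 - y.1‖ with hρd
  have hρ0 : 0 < ρ := by linarith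
  have hsub : (S.filter fun s => vc b (L x s) = vc b (L y s)) ⊆
      S.filter fun s => t - 1 / (16 * ρ) ≤ s ∧ s ≤ t + 1 / (16 * ρ) := by
    intro s hs
    obtain ⟨h1, h2⟩ := Finset.mem_filter.1 hs
    have h3 := polyIneq_vc h2
    rw [ht.norm_sub] at h3
    have h4 : |t - s| ≤ 1 / (16 * ρ) := by
      rw [le_div_iff₀ (by positivity)]
      linarith
    obtain ⟨h5, h6⟩ := abs_le.1 h4
    exact Finset.mem_filter.2 ⟨h1, by linarith, by linarith⟩
  have hcount := hS.count (t - 1 / (16 * ρ)) (t + 1 / (16 * ρ))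
    (by have : 0 ≤ 1 / (16 * ρ) := by positivity
        linarith)
  have hle := (Nat.cast_le (α := ℝ)).2 (Finset.card_le_card hsub)
  refine hle.trans (hcount.trans ?_)
  have hkK : k + 1 < K := polyIneq_lt hK hx hy h
  have hp : (0 : ℝ) < 2 ^ k := by positivity
  have hκ1 : (8 : ℝ) * 2 ^ k ≤ κ := by
    refine le_trans ?_ hκ
    have e : (8 : ℝ) * 2 ^ k = 2 ^ (k + 3) := by rw [pow_add]; norm_num; ring
    rw [e]
    exact pow_le_pow_right₀ (by norm_num) (by omega)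
  have hκ0 := hS.pos
  have e1 : 1 / (8 * ρ) ≤ (13 / 8) / 2 ^ k := by
    rw [div_le_div_iff₀ (by positivity) hp]
    rw [pow_succ] at h
    linarith
  have e2 : t + 1 / (16 * ρ) - (t - 1 / (16 * ρ)) = 1 / (8 * ρ) := by
    field_simp
    ring
  rw [e2]
  have e3 : (1 : ℝ) ≤ κ * (1 / 8) / 2 ^ k := by
    rw [le_div_iff₀ hp]
    linarith
  calc κ * (1 / (8 * ρ)) + 1 ≤ κ * ((13 / 8) / 2 ^ k) + κ * (1 / 8) / 2 ^ k :=
        add_le_add (mul_le_mul_of_nonneg_left e1 hκ0.le) e3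
    _ = κ * (7 / 4) / 2 ^ k := by ring
    _ ≤ κ * 2 / 2 ^ k := by
        gcongr
        norm_num
    _ ≤ (S.card * 2 ^ j) * 2 / 2 ^ k := by
        gcongr
        exact hS.le_card
    _ = S.card * (2 ^ (j + 1) / 2 ^ k) := by ring

/-- Distances in a cell of level `k + 1` which contains a counted pair. -/
lemma polyIneq_dist {E : Finset (ℂ × ℂ)} {j : ℕ} {β : ℂ × ℂ → ℝ → ℝ}
    {a : Bool × Bool × Bool × Bool} {k : ℕ} {x y z : ℂ × ℂ} (h : PP E j β a k x y)
    (hz : lab j a (k + 1) x = lab j a (k + 1) z) :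
    ‖x.1 - z.1‖ ≤ 10 * ‖x.1 - y.1‖ ∧
      ‖x.2 - z.2‖ ≤ 10 * ‖x.1 - y.1‖ / 2 ^ j + 3 / 2 := by
  obtain ⟨h1, h2⟩ := lab_close hz
  have h3 := h.2.2
  have hn := norm_nonneg (x.1 - y.1)
  refine ⟨by linarith, ?_⟩
  have hj : (0 : ℝ) < 2 ^ j := by positivity
  by_cases hk : j + 2 ≤ k + 1
  · have e : (2 : ℝ) ^ (k + 1) = 2 ^ (k + 1 - (j + 2)) * (4 * 2 ^ j) := by
      have : k + 1 = (k + 1 - (j + 2)) + (j + 2) := by omega
      conv_lhs => rw [this]
      rw [pow_add, pow_add 2 j 2]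
      norm_num
      ring
    have h4 : (2 : ℝ) ^ (k + 1 - (j + 2)) ≤ (13 / 2) * ‖x.1 - y.1‖ / 2 ^ j := by
      rw [le_div_iff₀ hj]
      rw [e] at h3
      linarith
    have h5 : (13 / 2) * ‖x.1 - y.1‖ / 2 ^ j = (13 / 20) * (10 * ‖x.1 - y.1‖ / 2 ^ j) := by ring
    have h6 : 0 ≤ 10 * ‖x.1 - y.1‖ / 2 ^ j := by positivity
    rw [h5] at h4
    linarith
  · have e : k + 1 - (j + 2) = 0 := by omega
    rw [e, pow_zero] at h2
    have h6 : 0 ≤ 10 * ‖x.1 - y.1‖ / 2 ^ j := by positivity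
    linarith

open Classical in
/-- The count in one cell. -/
lemma polyIneq_cell {E : Finset (ℂ × ℂ)} (hE : Cr E) {j : ℕ} {κ : ℝ} {S : Finset ℝ}
    (hS : Times j κ S) {K : ℕ} (hK : ∀ x ∈ E, ∀ y ∈ E, 26 * ‖x.1 - y.1‖ < 2 ^ K)
    (hκ : 2 ^ (K + 1) ≤ κ) {β : ℂ × ℂ → ℝ → ℝ} (hβ0 : ∀ x r, 0 ≤ β x r)
    (hβ : ∀ x r r', r ≤ r' → β x r ≤ β x r') (b : Bool × Bool)
    (a : Bool × Bool × Bool × Bool) (k : ℕ) (c0 : ℤ × ℤ × ℤ × ℤ) :
    ∑ s ∈ S, ((((E.filter fun x => lab j a (k + 1) x = c0) ×ˢ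
        (E.filter fun x => lab j a (k + 1) x = c0)).filter fun p =>
        p.1 ≠ p.2 ∧ PP E j β a k p.1 p.2 ∧ vc b (L p.1 s) = vc b (L p.2 s)).card : ℝ) ≤
      2 * (S.card * om j k) * (∑ x ∈ E.filter fun x => lab j a (k + 1) x = c0,
        if 2 ≤ (E.filter fun x => lab j a (k + 1) x = c0).card then
        (54 * Real.sqrt (E.filter fun x => lab j a (k + 1) x = c0).card + β x (2 ^ k)) else 0) +
      2 * ∑ s ∈ S, ((((E.filter fun x => lab j a (k + 1) x = c0).image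
        (fun x => vc b (L x s))).filter fun u =>
        ∃ x ∈ E.filter (fun x => lab j a (k + 1) x = c0),
        ∃ y ∈ E.filter (fun x => lab j a (k + 1) x = c0),
        vc b (L x s) = u ∧ vc b (L y s) = u ∧ lab j a k x ≠ lab j a k y).card : ℝ) := by
  set F := E.filter fun x => lab j a (k + 1) x = c0 with hF
  have hFE : F ⊆ E := Finset.filter_subset _ _
  have hlab : ∀ x ∈ F, ∀ y ∈ F, lab j a (k + 1) x = lab j a (k + 1) y := by
    intro x hx y hy
    rw [(Finset.mem_filter.1 hx).2, (Finset.mem_filter.1 hy).2]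
  have hom : 0 ≤ om j k := by
    unfold om
    positivity
  by_cases h2 : 2 ≤ F.card
  · have h := cell_count (hE.mono hFE) S (fun s hs => polyIneq_abs hS hs)
      (fun s x => vc b (L x s)) (fun s _ x _ y _ h => polyIneq_vc h) (lab j a k)
      (PP E j β a k) (fun x y h => h.symm) (fun x => β x (2 ^ k)) (fun x => hβ0 x _)
      (S.card * om j k) (mul_nonneg (Nat.cast_nonneg _) hom)
      (fun x hx y hy hxy h => by
        have h9 := polyIneq_R hE hS hK hκ (b := b) (hFE hx) (hFE hy) hxy h.2.2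
        refine le_trans (Nat.cast_le.2 (Finset.card_le_card ?_)) h9
        intro z hz
        simp only [Finset.mem_filter] at hz ⊢
        exact hz)
      (fun x _ y _ _ h => h.2.1)
      (fun x hx y hy hxy h z hz hzx t m1 m2 => h.1.1 z (hFE hz) hzx t m1 m2
        (polyIneq_dist h (hlab x hx z hz)).1)
      (fun x hx y hy hxy h => by
        refine le_trans ?_ ((h.1.2.2.1).trans (hβ x _ _ ?_))
        · unfold npl
          refine Nat.cast_le.2 (Finset.card_le_card ?_)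
          intro z hz
          obtain ⟨hz1, hz2, hz3, hz4⟩ := Finset.mem_filter.1 hz
          obtain ⟨hd1, hd2⟩ := polyIneq_dist h (hlab x hx z hz1)
          exact Finset.mem_filter.2 ⟨hFE hz1, hz2, hz3, hz4, hd1, hd2⟩
        · have h3 := (lab_close (hlab x hx y hy)).1
          rw [pow_succ] at h3
          have : (0 : ℝ) < 2 ^ k := by positivity
          linarith)
    have hsum : (∑ x ∈ F, if 2 ≤ F.card then (54 * Real.sqrt F.card + β x (2 ^ k)) else 0) =
        ∑ x ∈ F, (54 * Real.sqrt F.card + β x (2 ^ k)) :=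
      Finset.sum_congr rfl fun x _ => if_pos h2
    rw [hsum]
    refine le_trans (Finset.sum_le_sum fun s _ => Nat.cast_le.2 (Finset.card_le_card ?_))
      (h.trans (add_le_add le_rfl (mul_le_mul_of_nonneg_left (Finset.sum_le_sum fun s _ =>
        Nat.cast_le.2 (Finset.card_le_card ?_)) (by norm_num))))
    · intro z hz
      simp only [Finset.mem_filter] at hz ⊢
      exact hz
    · intro z hz
      simp only [Finset.mem_filter, Finset.mem_image] at hz ⊢
      exact hz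
  · have h0 : ∀ s ∈ S, (((F ×ˢ F).filter fun p =>
        p.1 ≠ p.2 ∧ PP E j β a k p.1 p.2 ∧ vc b (L p.1 s) = vc b (L p.2 s)).card : ℝ) = 0 := by
      intro s _
      rw [Nat.cast_eq_zero, Finset.card_eq_zero, Finset.filter_eq_empty_iff]
      intro p hp hc
      obtain ⟨hp1, hp2⟩ := Finset.mem_product.1 hp
      have h1 : F.card ≤ 1 := by omega
      exact hc.1 (Finset.card_le_one.1 h1 _ hp1 _ hp2)
    have hsum : (∑ x ∈ F, if 2 ≤ F.card then (54 * Real.sqrt F.card + β x (2 ^ k)) else 0) = 0 :=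
      Finset.sum_eq_zero fun x _ => if_neg h2
    rw [Finset.sum_eq_zero h0, hsum, mul_zero, zero_add]
    exact mul_nonneg (by norm_num) (Finset.sum_nonneg fun s _ => Nat.cast_nonneg _)

open Classical in
/-- The branching cells. -/
lemma polyIneq_br (E : Finset (ℂ × ℂ)) (j K : ℕ) (v : ℂ × ℂ → ℤ × ℤ)
    (a : Bool × Bool × Bool × Bool) :
    ∑ k ∈ range K, ∑ c0 ∈ E.image (lab j a (k + 1)),
      (((E.filter fun x => lab j a (k + 1) x = c0).image v).filter fun u =>
        ∃ x ∈ E.filter (fun x => lab j a (k + 1) x = c0),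
        ∃ y ∈ E.filter (fun x => lab j a (k + 1) x = c0),
        v x = u ∧ v y = u ∧ lab j a k x ≠ lab j a k y).card ≤ E.card := by
  have h1 : ∀ k, ∑ c0 ∈ E.image (lab j a (k + 1)),
      (((E.filter fun x => lab j a (k + 1) x = c0).image v).filter fun u =>
        ∃ x ∈ E.filter (fun x => lab j a (k + 1) x = c0),
        ∃ y ∈ E.filter (fun x => lab j a (k + 1) x = c0),
        v x = u ∧ v y = u ∧ lab j a k x ≠ lab j a k y).card ≤
      ∑ u ∈ E.image v, (((E.filter fun x => v x = u).image (lab j a (k + 1))).filter fun c =>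
      ∃ x ∈ E.filter (fun x => v x = u), ∃ y ∈ E.filter (fun x => v x = u),
        lab j a (k + 1) x = c ∧ lab j a (k + 1) y = c ∧
        lab j a k x ≠ lab j a k y).card := by
    intro k
    calc _ ≤ ∑ c0 ∈ E.image (lab j a (k + 1)), ∑ u ∈ E.image v,
          if (∃ x ∈ E, ∃ y ∈ E, lab j a (k + 1) x = c0 ∧ lab j a (k + 1) y = c0 ∧
            v x = u ∧ v y = u ∧ lab j a k x ≠ lab j a k y) then 1 else 0 := by
          refine Finset.sum_le_sum fun c0 _ => ?_
          rw [← Finset.card_filter]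
          refine Finset.card_le_card ?_
          intro u hu
          obtain ⟨hu1, x, hx, y, hy, h2, h3, h4⟩ := Finset.mem_filter.1 hu
          obtain ⟨hx1, hx2⟩ := Finset.mem_filter.1 hx
          obtain ⟨hy1, hy2⟩ := Finset.mem_filter.1 hy
          exact Finset.mem_filter.2 ⟨Finset.mem_image.2 ⟨x, hx1, h2⟩,
            x, hx1, y, hy1, hx2, hy2, h2, h3, h4⟩
      _ = ∑ u ∈ E.image v, ∑ c0 ∈ E.image (lab j a (k + 1)),
          if (∃ x ∈ E, ∃ y ∈ E, lab j a (k + 1) x = c0 ∧ lab j a (k + 1) y = c0 ∧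
            v x = u ∧ v y = u ∧ lab j a k x ≠ lab j a k y) then 1 else 0 := Finset.sum_comm
      _ ≤ _ := by
          refine Finset.sum_le_sum fun u _ => ?_
          rw [← Finset.card_filter]
          refine Finset.card_le_card ?_
          intro c hc
          obtain ⟨_, x, hx, y, hy, h2, h3, h4, h5, h6⟩ := Finset.mem_filter.1 hc
          have hx' : x ∈ E.filter (fun x => v x = u) := Finset.mem_filter.2 ⟨hx, h4⟩
          have hy' : y ∈ E.filter (fun x => v x = u) := Finset.mem_filter.2 ⟨hy, h5⟩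
          exact Finset.mem_filter.2 ⟨Finset.mem_image.2 ⟨x, hx', h2⟩, x, hx', y, hy', h2, h3, h6⟩
  calc _ ≤ ∑ k ∈ range K, ∑ u ∈ E.image v,
        (((E.filter fun x => v x = u).image (lab j a (k + 1))).filter fun c =>
      ∃ x ∈ E.filter (fun x => v x = u), ∃ y ∈ E.filter (fun x => v x = u),
        lab j a (k + 1) x = c ∧ lab j a (k + 1) y = c ∧
        lab j a k x ≠ lab j a k y).card := Finset.sum_le_sum fun k _ => h1 k
    _ = ∑ u ∈ E.image v, ∑ k ∈ range K,
        (((E.filter fun x => v x = u).image (lab j a (k + 1))).filter fun c =>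
      ∃ x ∈ E.filter (fun x => v x = u), ∃ y ∈ E.filter (fun x => v x = u),
        lab j a (k + 1) x = c ∧ lab j a (k + 1) y = c ∧
        lab j a k x ≠ lab j a k y).card := Finset.sum_comm
    _ ≤ ∑ u ∈ E.image v, (E.filter fun x => v x = u).card :=
        Finset.sum_le_sum fun u _ => branching _ j a K
    _ = E.card := (Finset.card_eq_sum_card_image v E).symm

open Classical in
/-- Every counted pair is in a cell. -/
lemma polyIneq_cover {E : Finset (ℂ × ℂ)} (hE : Cr E) (hf : Fn E) {j : ℕ} {κ : ℝ} {S : Finset ℝ}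
    (hS : Times j κ S) {K : ℕ} (hK : ∀ x ∈ E, ∀ y ∈ E, 26 * ‖x.1 - y.1‖ < 2 ^ K)
    (β : ℂ × ℂ → ℝ → ℝ) {s : ℝ} (hs : s ∈ S) :
    (((E ×ˢ E).filter fun p => p.1 ≠ p.2 ∧ ‖L p.1 s - L p.2 s‖ ≤ 1 / 64 ∧
        Pr E j β p.1 p.2).card : ℝ) ≤
      ∑ b : Bool × Bool, ∑ a : Bool × Bool × Bool × Bool, ∑ k ∈ range K,
        ∑ c0 ∈ E.image (lab j a (k + 1)),
        ((((E.filter fun x => lab j a (k + 1) x = c0) ×ˢ
        (E.filter fun x => lab j a (k + 1) x = c0)).filter fun p =>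
        p.1 ≠ p.2 ∧ PP E j β a k p.1 p.2 ∧ vc b (L p.1 s) = vc b (L p.2 s)).card : ℝ) := by
  have hsub : ((E ×ˢ E).filter fun p => p.1 ≠ p.2 ∧ ‖L p.1 s - L p.2 s‖ ≤ 1 / 64 ∧
        Pr E j β p.1 p.2) ⊆
      (univ : Finset (Bool × Bool)).biUnion fun b =>
      (univ : Finset (Bool × Bool × Bool × Bool)).biUnion fun a => (range K).biUnion fun k =>
      (E.image (lab j a (k + 1))).biUnion fun c0 =>
        (((E.filter fun x => lab j a (k + 1) x = c0) ×ˢ
        (E.filter fun x => lab j a (k + 1) x = c0)).filter fun p =>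
        p.1 ≠ p.2 ∧ PP E j β a k p.1 p.2 ∧ vc b (L p.1 s) = vc b (L p.2 s)) := by
    rintro ⟨x, y⟩ hp
    obtain ⟨hp1, hxy, hd, hpr⟩ := Finset.mem_filter.1 hp
    obtain ⟨hx, hy⟩ := Finset.mem_product.1 hp1
    simp only at hxy hd hpr hx hy
    have hs2 := polyIneq_abs hS hs
    obtain ⟨hρ, t, ht⟩ := hE x hx y hy hxy s (hs2.trans (by norm_num))
      (hd.trans_lt (by norm_num))
    have hd2 : ‖x.2 - y.2‖ ≤ ‖x.1 - y.1‖ / 2 ^ (j + 1) + 1 / 16 := by
      have e : x.2 - y.2 = (L x s - L y s) + Complex.I * s * (x.1 - y.1) := by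
        unfold L
        ring
      rw [e]
      refine (norm_add_le _ _).trans ?_
      rw [norm_mul, norm_mul, Complex.norm_I, one_mul, Complex.norm_real, Real.norm_eq_abs]
      have h1 : |s| * ‖x.1 - y.1‖ ≤ 1 / 2 ^ (j + 1) * ‖x.1 - y.1‖ :=
        mul_le_mul_of_nonneg_right (hS.abs_le s hs) (norm_nonneg _)
      have h2 : 1 / 2 ^ (j + 1) * ‖x.1 - y.1‖ = ‖x.1 - y.1‖ / 2 ^ (j + 1) := by ring
      rw [h2] at h1
      linarith
    obtain ⟨a, k, hk1, hk2, hk3⟩ := lab_split hxy (hf x hx y hy hxy) hρ hd2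
    have hkK := polyIneq_lt hK hx hy hk3
    obtain ⟨b, hb⟩ := polyIneq_exists_vc hd
    refine Finset.mem_biUnion.2 ⟨b, Finset.mem_univ _, Finset.mem_biUnion.2 ⟨a,
      Finset.mem_univ _, Finset.mem_biUnion.2 ⟨k, Finset.mem_range.2 (by omega),
      Finset.mem_biUnion.2 ⟨lab j a (k + 1) x, Finset.mem_image_of_mem _ hx, ?_⟩⟩⟩⟩
    exact Finset.mem_filter.2 ⟨Finset.mem_product.2 ⟨Finset.mem_filter.2 ⟨hx, rfl⟩,
      Finset.mem_filter.2 ⟨hy, hk1.symm⟩⟩, hxy, ⟨hpr, hk2, hk3⟩, hb⟩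
  have hle := (Nat.cast_le (α := ℝ)).2 (Finset.card_le_card hsub)
  refine hle.trans ?_
  have h1 := Finset.card_biUnion_le (s := (univ : Finset (Bool × Bool))) (t := fun b =>
      (univ : Finset (Bool × Bool × Bool × Bool)).biUnion fun a => (range K).biUnion fun k =>
      (E.image (lab j a (k + 1))).biUnion fun c0 =>
        (((E.filter fun x => lab j a (k + 1) x = c0) ×ˢ
        (E.filter fun x => lab j a (k + 1) x = c0)).filter fun p =>
        p.1 ≠ p.2 ∧ PP E j β a k p.1 p.2 ∧ vc b (L p.1 s) = vc b (L p.2 s)))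
  refine ((Nat.cast_le (α := ℝ)).2 h1).trans ?_
  rw [Nat.cast_sum]
  refine Finset.sum_le_sum fun b _ => ?_
  refine ((Nat.cast_le (α := ℝ)).2 Finset.card_biUnion_le).trans ?_
  rw [Nat.cast_sum]
  refine Finset.sum_le_sum fun a _ => ?_
  refine ((Nat.cast_le (α := ℝ)).2 Finset.card_biUnion_le).trans ?_
  rw [Nat.cast_sum]
  refine Finset.sum_le_sum fun k _ => ?_
  refine ((Nat.cast_le (α := ℝ)).2 Finset.card_biUnion_le).trans ?_
  rw [Nat.cast_sum]

open Classical in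
theorem poly_ineq {E : Finset (ℂ × ℂ)} (hE : Cr E) (hf : Fn E) {j : ℕ} {κ : ℝ} {S : Finset ℝ}
    (hS : Times j κ S) (K : ℕ) (hK : ∀ x ∈ E, ∀ y ∈ E, 26 * ‖x.1 - y.1‖ < 2 ^ K)
    (hκ : 2 ^ (K + 1) ≤ κ) (β : ℂ × ℂ → ℝ → ℝ) (hβ0 : ∀ x r, 0 ≤ β x r)
    (hβ : ∀ x r r', r ≤ r' → β x r ≤ β x r') :
    ∑ s ∈ S, (((E ×ˢ E).filter fun p => p.1 ≠ p.2 ∧ ‖L p.1 s - L p.2 s‖ ≤ 1 / 64 ∧
        Pr E j β p.1 p.2).card : ℝ) ≤
      8 * S.card * (∑ a : Bool × Bool × Bool × Bool, ∑ k ∈ range K, om j k *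
        ∑ x ∈ E.filter fun x => 2 ≤ (E.filter fun y => lab j a (k + 1) y = lab j a (k + 1) x).card,
          (54 * Real.sqrt (E.filter fun y => lab j a (k + 1) y = lab j a (k + 1) x).card +
            β x (2 ^ k)) + 16 * E.card) := by
  -- distribute over the cells
  have h1 := Finset.sum_le_sum fun s (hs : s ∈ S) => polyIneq_cover hE hf hS hK β hs
  refine h1.trans ?_
  have h2 : ∀ N : ℝ → (Bool × Bool) → (Bool × Bool × Bool × Bool) → ℕ → (ℤ × ℤ × ℤ × ℤ) → ℝ,
      ∑ s ∈ S, ∑ b : Bool × Bool, ∑ a : Bool × Bool × Bool × Bool, ∑ k ∈ range K,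
        ∑ c0 ∈ E.image (lab j a (k + 1)), N s b a k c0 =
      ∑ b : Bool × Bool, ∑ a : Bool × Bool × Bool × Bool, ∑ k ∈ range K,
        ∑ c0 ∈ E.image (lab j a (k + 1)), ∑ s ∈ S, N s b a k c0 := by
    intro N
    rw [Finset.sum_comm]
    refine Finset.sum_congr rfl fun b _ => ?_
    rw [Finset.sum_comm]
    refine Finset.sum_congr rfl fun a _ => ?_
    rw [Finset.sum_comm]
    refine Finset.sum_congr rfl fun k _ => ?_
    rw [Finset.sum_comm]
  rw [h2]
  -- apply the count in every cell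
  have h3 : ∀ (b : Bool × Bool) (a : Bool × Bool × Bool × Bool) (k : ℕ),
      ∑ c0 ∈ E.image (lab j a (k + 1)), ∑ s ∈ S,
        ((((E.filter fun x => lab j a (k + 1) x = c0) ×ˢ
        (E.filter fun x => lab j a (k + 1) x = c0)).filter fun p =>
        p.1 ≠ p.2 ∧ PP E j β a k p.1 p.2 ∧ vc b (L p.1 s) = vc b (L p.2 s)).card : ℝ) ≤
      2 * (S.card * om j k) * (∑ x ∈ E.filter fun x =>
          2 ≤ (E.filter fun y => lab j a (k + 1) y = lab j a (k + 1) x).card,
          (54 * Real.sqrt (E.filter fun y => lab j a (k + 1) y = lab j a (k + 1) x).card +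
            β x (2 ^ k))) +
      2 * ∑ s ∈ S, ∑ c0 ∈ E.image (lab j a (k + 1)),
        ((((E.filter fun x => lab j a (k + 1) x = c0).image
        (fun x => vc b (L x s))).filter fun u =>
        ∃ x ∈ E.filter (fun x => lab j a (k + 1) x = c0),
        ∃ y ∈ E.filter (fun x => lab j a (k + 1) x = c0),
        vc b (L x s) = u ∧ vc b (L y s) = u ∧ lab j a k x ≠ lab j a k y).card : ℝ) := by
    intro b a k
    refine (Finset.sum_le_sum fun c0 _ => polyIneq_cell hE hS hK hκ hβ0 hβ b a k c0).trans ?_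
    rw [Finset.sum_add_distrib, ← Finset.mul_sum, ← Finset.mul_sum]
    refine add_le_add (le_of_eq ?_) (le_of_eq ?_)
    · congr 1
      rw [Finset.sum_filter]
      rw [← Finset.sum_fiberwise_of_maps_to (s := E) (t := E.image (lab j a (k + 1)))
        (g := lab j a (k + 1)) (fun x hx => Finset.mem_image_of_mem _ hx)]
      refine Finset.sum_congr rfl fun c0 _ => ?_
      refine Finset.sum_congr rfl fun x hx => ?_
      rw [(Finset.mem_filter.1 hx).2]
    · rw [Finset.sum_comm]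
  have h4 := Finset.sum_le_sum fun b (_ : b ∈ (univ : Finset (Bool × Bool))) =>
    Finset.sum_le_sum fun a (_ : a ∈ (univ : Finset (Bool × Bool × Bool × Bool))) =>
    Finset.sum_le_sum fun k (_ : k ∈ range K) => h3 b a k
  refine h4.trans ?_
  -- collect the terms
  have hb4 : (Finset.univ : Finset (Bool × Bool)).card = 4 := by decide
  have ha16 : (Finset.univ : Finset (Bool × Bool × Bool × Bool)).card = 16 := by decide
  have h5 : ∀ (b : Bool × Bool) (a : Bool × Bool × Bool × Bool),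
      ∑ k ∈ range K, (2 * (S.card * om j k) * (∑ x ∈ E.filter fun x =>
          2 ≤ (E.filter fun y => lab j a (k + 1) y = lab j a (k + 1) x).card,
          (54 * Real.sqrt (E.filter fun y => lab j a (k + 1) y = lab j a (k + 1) x).card +
            β x (2 ^ k))) +
      2 * ∑ s ∈ S, ∑ c0 ∈ E.image (lab j a (k + 1)),
        ((((E.filter fun x => lab j a (k + 1) x = c0).image
        (fun x => vc b (L x s))).filter fun u =>
        ∃ x ∈ E.filter (fun x => lab j a (k + 1) x = c0),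
        ∃ y ∈ E.filter (fun x => lab j a (k + 1) x = c0),
        vc b (L x s) = u ∧ vc b (L y s) = u ∧ lab j a k x ≠ lab j a k y).card : ℝ)) ≤
      2 * S.card * (∑ k ∈ range K, om j k * (∑ x ∈ E.filter fun x =>
          2 ≤ (E.filter fun y => lab j a (k + 1) y = lab j a (k + 1) x).card,
          (54 * Real.sqrt (E.filter fun y => lab j a (k + 1) y = lab j a (k + 1) x).card +
            β x (2 ^ k)))) + 2 * S.card * E.card := by
    intro b a
    rw [Finset.sum_add_distrib]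
    refine add_le_add (le_of_eq ?_) ?_
    · rw [Finset.mul_sum]
      exact Finset.sum_congr rfl fun k _ => by ring
    · rw [← Finset.mul_sum, Finset.sum_comm, mul_assoc, ← nsmul_eq_mul, ← Finset.sum_const]
      refine mul_le_mul_of_nonneg_left (Finset.sum_le_sum fun s _ => ?_) (by norm_num)
      have := polyIneq_br E j K (fun x => vc b (L x s)) a
      exact_mod_cast this
  refine (Finset.sum_le_sum fun b _ => Finset.sum_le_sum fun a _ => h5 b a).trans
    (le_of_eq ?_)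
  rw [Finset.sum_const, hb4, Finset.sum_add_distrib, Finset.sum_const, ha16, ← Finset.mul_sum]
  simp only [nsmul_eq_mul]
  push_cast
  ring

end SD12
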