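import Pool.Agent.SD12.Samp
import Pool.Agent.SD12.Grid

/-!
# The right-hand side of the sampled inequality

If `T` is a random subset of `E` then the expectation of the right-hand side of `poly_ineq` for
`T` is small, since `√(1 + X) ≤ √2 √X` for an integer `X ≥ 1`.
-/

open Finset ComplexConjugate

namespace SD12

section
variable {α : Type*} [DecidableEq α] {E : Finset α} {π : ℝ}

/-- The expectation of the number of sampled elements of `D`, given that `x` is sampled. -/
lemma poorR_pair {x : α} (hx : x ∈ E) {D : Finset α} (hD : D ⊆ E) (hxD : x ∉ D) :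
    Ex E π (fun T => (if x ∈ T then (1 : ℝ) else 0) * ((D.filter fun y => y ∈ T).card : ℝ)) =
      π ^ 2 * D.card := by
  have h1 : (fun T : Finset α => (if x ∈ T then (1 : ℝ) else 0) *
      ((D.filter fun y => y ∈ T).card : ℝ)) =
      fun T => ∑ y ∈ D, if ({x, y} : Finset α) ⊆ T then (1 : ℝ) else 0 := by
    funext T
    rw [Finset.card_filter]
    push_cast
    rw [Finset.mul_sum]
    refine Finset.sum_congr rfl ?_
    intro y _
    by_cases h1 : x ∈ T <;> by_cases h2 : y ∈ T <;> simp [Finset.insert_subset_iff, h1, h2]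
  rw [h1, Ex_sum]
  have h2 : ∀ y ∈ D, Ex E π (fun T => if ({x, y} : Finset α) ⊆ T then (1 : ℝ) else 0) = π ^ 2 := by
    intro y hy
    rw [Ex_ind {x, y} (by
      intro z hz
      rcases Finset.mem_insert.1 hz with h | h
      · rw [h]; exact hx
      · rw [Finset.mem_singleton.1 h]; exact hD hy)]
    rw [Finset.card_pair (by rintro rfl; exact hxD hy)]
  rw [Finset.sum_congr rfl h2, Finset.sum_const, nsmul_eq_mul, mul_comm]

lemma poorR_one {x : α} (hx : x ∈ E) :
    Ex E π (fun T => if x ∈ T then (1 : ℝ) else 0) = π := by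
  have h := Ex_ind (E := E) (π := π) {x} (Finset.singleton_subset_iff.2 hx)
  rw [Finset.card_singleton, pow_one] at h
  rw [← h]
  congr 1
  funext T
  simp only [Finset.singleton_subset_iff]

/-- The main estimate for one element `x` of a cell `C`. -/
lemma poorR_x (h0 : 0 < π) (h1 : π ≤ 1) {x : α} (hx : x ∈ E) {C : Finset α} (hC : C ⊆ E)
    (hxC : x ∈ C) {b : ℝ} (hb : 0 ≤ b) :
    Ex E π (fun T => if x ∈ T ∧ 2 ≤ (C.filter fun y => y ∈ T).card then
      (54 * Real.sqrt (C.filter fun y => y ∈ T).card + 8 * (1 + π * b)) else 0) ≤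
      85 * π * Real.sqrt (π * C.card) + 8 * π ^ 2 * b := by
  set l := Real.sqrt (π * C.card) with hl
  have hCpos : 0 < (C.card : ℝ) := by exact_mod_cast Finset.card_pos.2 ⟨x, hxC⟩
  have hlpos : 0 < l := Real.sqrt_pos.2 (mul_pos h0 hCpos)
  have hl2 : l ^ 2 = π * C.card := Real.sq_sqrt (mul_pos h0 hCpos).le
  have hs2 : Real.sqrt 2 ≤ 1.4143 := by
    rw [Real.sqrt_le_left (by norm_num)]
    norm_num
  -- pointwise bound
  have hpt : ∀ T ⊆ E, (if x ∈ T ∧ 2 ≤ (C.filter fun y => y ∈ T).card then
      (54 * Real.sqrt (C.filter fun y => y ∈ T).card + 8 * (1 + π * b)) else 0) ≤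
      (84.4 / (2 * l)) * ((if x ∈ T then (1 : ℝ) else 0) *
        (((C.erase x).filter fun y => y ∈ T).card : ℝ)) +
      (84.4 * l / 2 + 8 * π * b) * (if x ∈ T then (1 : ℝ) else 0) := by
    intro T _
    by_cases hxT : x ∈ T
    · have hcard : (C.filter fun y => y ∈ T).card =
          ((C.erase x).filter fun y => y ∈ T).card + 1 := by
        have e : (C.filter fun y => y ∈ T) =
            insert x ((C.erase x).filter fun y => y ∈ T) := by
          ext y
          simp only [Finset.mem_filter, Finset.mem_insert, Finset.mem_erase]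
          constructor
          · rintro ⟨h1, h2⟩
            by_cases hyx : y = x
            · exact Or.inl hyx
            · exact Or.inr ⟨⟨hyx, h1⟩, h2⟩
          · rintro (h | ⟨⟨_, h1⟩, h2⟩)
            · rw [h]; exact ⟨hxC, hxT⟩
            · exact ⟨h1, h2⟩
        rw [e, Finset.card_insert_of_notMem]
        simp
      set X := ((C.erase x).filter fun y => y ∈ T).card with hX
      rw [hcard, if_pos hxT, one_mul, mul_one]
      have hXnn : (0 : ℝ) ≤ X := Nat.cast_nonneg _
      by_cases h2 : 2 ≤ X + 1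
      · rw [if_pos ⟨hxT, h2⟩]
        have hX1 : (1 : ℝ) ≤ X := by
          have : 1 ≤ X := by omega
          exact_mod_cast this
        have hsX : Real.sqrt X ≤ (X / l + l) / 2 := by
          rw [Real.sqrt_le_left (by positivity)]
          have : ((X : ℝ) / l + l) ^ 2 = ((X : ℝ) / l - l) ^ 2 + 4 * X := by
            field_simp
            ring
          have h3 := sq_nonneg ((X : ℝ) / l - l)
          calc (X : ℝ) = (4 * X) / 4 := by ring
            _ ≤ ((X : ℝ) / l + l) ^ 2 / 4 := by rw [this]; linarith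
            _ = (((X : ℝ) / l + l) / 2) ^ 2 := by ring
        have hsX1 : 1 ≤ Real.sqrt X := by
          rw [Real.one_le_sqrt]; exact hX1
        have hs : Real.sqrt ((X + 1 : ℕ) : ℝ) ≤ Real.sqrt 2 * Real.sqrt X := by
          rw [← Real.sqrt_mul (by norm_num)]
          apply Real.sqrt_le_sqrt
          push_cast
          linarith
        have hs' : Real.sqrt ((X + 1 : ℕ) : ℝ) ≤ 1.4143 * Real.sqrt X :=
          hs.trans (mul_le_mul_of_nonneg_right hs2 (Real.sqrt_nonneg _))
        have e : 84.4 / (2 * l) * (X : ℝ) + (84.4 * l / 2 + 8 * π * b) =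
            84.4 * ((X / l + l) / 2) + 8 * π * b := by
          field_simp
          ring
        rw [e]
        nlinarith [hs', hsX, hsX1]
      · rw [if_neg (fun h => h2 h.2)]
        positivity
    · rw [if_neg (fun h => hxT h.1), if_neg hxT]
      simp
  refine (Ex_mono h0.le h1 hpt).trans ?_
  rw [Ex_add, Ex_mul_left, Ex_mul_left, poorR_one hx,
    poorR_pair hx ((Finset.erase_subset _ _).trans hC) (Finset.notMem_erase x C)]
  have hle : (((C.erase x).card : ℕ) : ℝ) ≤ C.card := by
    exact_mod_cast Finset.card_le_card (Finset.erase_subset _ _)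
  have e1 : 84.4 / (2 * l) * (π ^ 2 * (C.card : ℝ)) = 42.2 * π * l := by
    rw [pow_two, mul_assoc, ← hl2]
    field_simp
    ring
  calc 84.4 / (2 * l) * (π ^ 2 * ((C.erase x).card : ℝ)) + (84.4 * l / 2 + 8 * π * b) * π
      ≤ 84.4 / (2 * l) * (π ^ 2 * (C.card : ℝ)) + (84.4 * l / 2 + 8 * π * b) * π := by gcongr
    _ = 84.4 * π * l + 8 * π ^ 2 * b := by rw [e1]; ring
    _ ≤ 85 * π * l + 8 * π ^ 2 * b := by
        have : 0 ≤ π * l := by positivity
        nlinarith

end

open Classical in
/-- The expectation of the right-hand side of `poly_ineq` for a random subset. -/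
theorem poorR_total (E : Finset (ℂ × ℂ)) (j K : ℕ) {c : ℝ} (hc : 0 ≤ c) (Bh : ℂ × ℂ → ℝ → ℝ)
    (hB0 : ∀ x r, 0 ≤ Bh x r) {π : ℝ} (h0 : 0 < π) (h1 : π ≤ 1) :
    Ex E π (fun T => 8 * c * (∑ a : Bool × Bool × Bool × Bool, ∑ k ∈ range K, om j k *
      ∑ x ∈ T.filter fun x => 2 ≤ (T.filter fun y => lab j a (k + 1) y = lab j a (k + 1) x).card,
        (54 * Real.sqrt (T.filter fun y => lab j a (k + 1) y = lab j a (k + 1) x).card +
          8 * (1 + π * Bh x (2 ^ k))) + 16 * T.card)) ≤
      11000 * π * c * (∑ k ∈ range K, om j k *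
        ∑ x ∈ E, (Real.sqrt (π * Nk E j k x) + π * Bh x (2 ^ k)) + E.card) := by
  have hom : ∀ k, 0 ≤ om j k := by
    intro k
    unfold om
    positivity
  -- one cell sum
  have hcell : ∀ (a : Bool × Bool × Bool × Bool) (k : ℕ),
      Ex E π (fun T => ∑ x ∈ T.filter fun x =>
        2 ≤ (T.filter fun y => lab j a (k + 1) y = lab j a (k + 1) x).card,
        (54 * Real.sqrt (T.filter fun y => lab j a (k + 1) y = lab j a (k + 1) x).card +
          8 * (1 + π * Bh x (2 ^ k)))) ≤
      ∑ x ∈ E, (85 * π * Real.sqrt (π * Nk E j k x) + 8 * π ^ 2 * Bh x (2 ^ k)) := by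
    intro a k
    have e : Ex E π (fun T => ∑ x ∈ T.filter fun x =>
        2 ≤ (T.filter fun y => lab j a (k + 1) y = lab j a (k + 1) x).card,
        (54 * Real.sqrt (T.filter fun y => lab j a (k + 1) y = lab j a (k + 1) x).card +
          8 * (1 + π * Bh x (2 ^ k)))) ≤
        Ex E π (fun T => ∑ x ∈ E, if x ∈ T ∧
          2 ≤ ((E.filter fun y => lab j a (k + 1) y = lab j a (k + 1) x).filter
            fun y => y ∈ T).card then
          (54 * Real.sqrt ((E.filter fun y => lab j a (k + 1) y = lab j a (k + 1) x).filter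
            fun y => y ∈ T).card + 8 * (1 + π * Bh x (2 ^ k))) else 0) := by
      refine Ex_mono h0.le h1 ?_
      intro T hT
      rw [← Finset.sum_filter]
      have hf : ∀ x : ℂ × ℂ, ((E.filter fun y => lab j a (k + 1) y = lab j a (k + 1) x).filter
          fun y => y ∈ T) = T.filter fun y => lab j a (k + 1) y = lab j a (k + 1) x := by
        intro x
        ext y
        simp only [Finset.mem_filter]
        constructor
        · rintro ⟨⟨_, h⟩, h'⟩; exact ⟨h', h⟩
        · rintro ⟨h', h⟩; exact ⟨⟨hT h', h⟩, h'⟩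
      apply le_of_eq
      refine Finset.sum_congr ?_ ?_
      · ext x
        simp only [Finset.mem_filter, hf]
        constructor
        · rintro ⟨h, h'⟩; exact ⟨hT h, h, h'⟩
        · rintro ⟨_, h, h'⟩; exact ⟨h, h'⟩
      · intro x _
        rw [hf]
    refine e.trans ?_
    rw [Ex_sum]
    refine Finset.sum_le_sum ?_
    intro x hx
    refine (poorR_x h0 h1 hx
      (C := E.filter fun y => lab j a (k + 1) y = lab j a (k + 1) x) (Finset.filter_subset _ _)
      (Finset.mem_filter.2 ⟨hx, rfl⟩) (hB0 x (2 ^ k))).trans ?_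
    have hN : (((E.filter fun y => lab j a (k + 1) y = lab j a (k + 1) x).card : ℕ) : ℝ) ≤
        Nk E j k x := by
      unfold Nk
      refine Nat.cast_le.2 (Finset.card_le_card ?_)
      intro y hy
      obtain ⟨hy1, hy2⟩ := Finset.mem_filter.1 hy
      refine Finset.mem_filter.2 ⟨hy1, ?_⟩
      obtain ⟨h3, h4⟩ := lab_close hy2.symm
      refine ⟨?_, h4⟩
      refine h3.trans_le ?_
      rw [pow_succ]
      have : (0 : ℝ) < 2 ^ k := by positivity
      linarith
    gcongr
  have hT1 : Ex E π (fun T => (T.card : ℝ)) = π * E.card := by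
    have e : Ex E π (fun T => (T.card : ℝ)) =
        Ex E π (fun T => ∑ x ∈ E, if x ∈ T then (1 : ℝ) else 0) := by
      unfold Ex
      refine Finset.sum_congr rfl ?_
      intro T hT
      have hTE := Finset.mem_powerset.1 hT
      congr 1
      show (T.card : ℝ) = ∑ x ∈ E, if x ∈ T then (1 : ℝ) else 0
      rw [Finset.sum_ite_mem, Finset.inter_eq_right.2 hTE]
      simp
    rw [e, Ex_sum, Finset.sum_congr rfl (fun x hx => poorR_one hx), Finset.sum_const,
      nsmul_eq_mul, mul_comm]
  rw [Ex_mul_left, Ex_add, Ex_mul_left, hT1, Ex_sum]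
  have hsum : ∑ a : Bool × Bool × Bool × Bool, Ex E π (fun T => ∑ k ∈ range K, om j k *
      ∑ x ∈ T.filter fun x => 2 ≤ (T.filter fun y => lab j a (k + 1) y = lab j a (k + 1) x).card,
        (54 * Real.sqrt (T.filter fun y => lab j a (k + 1) y = lab j a (k + 1) x).card +
          8 * (1 + π * Bh x (2 ^ k)))) ≤
      16 * ∑ k ∈ range K, om j k *
        ∑ x ∈ E, (85 * π * Real.sqrt (π * Nk E j k x) + 8 * π ^ 2 * Bh x (2 ^ k)) := by
    have h16 : (Finset.univ : Finset (Bool × Bool × Bool × Bool)).card = 16 := by decide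
    calc _ ≤ ∑ a : Bool × Bool × Bool × Bool, ∑ k ∈ range K, om j k *
          ∑ x ∈ E, (85 * π * Real.sqrt (π * Nk E j k x) + 8 * π ^ 2 * Bh x (2 ^ k)) := by
          refine Finset.sum_le_sum ?_
          intro a _
          rw [Ex_sum]
          refine Finset.sum_le_sum ?_
          intro k _
          rw [Ex_mul_left]
          exact mul_le_mul_of_nonneg_left (hcell a k) (hom k)
      _ = _ := by
          rw [Finset.sum_const, h16, nsmul_eq_mul]
          norm_num
  have hfin : 16 * ∑ k ∈ range K, om j k *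
        ∑ x ∈ E, (85 * π * Real.sqrt (π * Nk E j k x) + 8 * π ^ 2 * Bh x (2 ^ k)) ≤
      1360 * π * ∑ k ∈ range K, om j k *
        ∑ x ∈ E, (Real.sqrt (π * Nk E j k x) + π * Bh x (2 ^ k)) := by
    rw [Finset.mul_sum, Finset.mul_sum]
    refine Finset.sum_le_sum ?_
    intro k _
    have hx : ∑ x ∈ E, (85 * π * Real.sqrt (π * Nk E j k x) + 8 * π ^ 2 * Bh x (2 ^ k)) ≤
        85 * π * ∑ x ∈ E, (Real.sqrt (π * Nk E j k x) + π * Bh x (2 ^ k)) := by
      rw [Finset.mul_sum]
      refine Finset.sum_le_sum ?_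
      intro x _
      have h2 : 0 ≤ π ^ 2 * Bh x (2 ^ k) := mul_nonneg (sq_nonneg _) (hB0 _ _)
      nlinarith
    have := mul_le_mul_of_nonneg_left hx (hom k)
    nlinarith
  have hS0 : 0 ≤ ∑ k ∈ range K, om j k *
        ∑ x ∈ E, (Real.sqrt (π * Nk E j k x) + π * Bh x (2 ^ k)) := by
    refine Finset.sum_nonneg ?_
    intro k _
    refine mul_nonneg (hom k) (Finset.sum_nonneg ?_)
    intro x _
    exact add_nonneg (Real.sqrt_nonneg _) (mul_nonneg h0.le (hB0 _ _))
  have hE0 : (0 : ℝ) ≤ E.card := Nat.cast_nonneg _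
  have hall := hsum.trans hfin
  calc 8 * c * (_ + 16 * (π * (E.card : ℝ)))
      ≤ 8 * c * (1360 * π * (∑ k ∈ range K, om j k *
        ∑ x ∈ E, (Real.sqrt (π * Nk E j k x) + π * Bh x (2 ^ k))) + 16 * (π * (E.card : ℝ))) := by
        refine mul_le_mul_of_nonneg_left ?_ (by positivity)
        exact add_le_add_left hall _
    _ ≤ _ := by
        have e1 : 0 ≤ π * c * ∑ k ∈ range K, om j k *
          ∑ x ∈ E, (Real.sqrt (π * Nk E j k x) + π * Bh x (2 ^ k)) := by positivity
        have e2 : 0 ≤ π * c * (E.card : ℝ) := by positivity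
        nlinarith

end SD12
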