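import Pool.Agent.SD12.PolyIneq
import Pool.Agent.SD12.PoorR

/-!
# There are few poor pairs

The inequality `poly_ineq` for a random subset `T` of `E`: a pair of lines which meet at a poor
point is counted with probability at least `π ^ 2 / 2`.
-/

open Finset ComplexConjugate

namespace SD12

section
variable {α : Type*} [DecidableEq α] {E : Finset α} {π : ℝ}

lemma poor_two {x y : α} (hx : x ∈ E) (hy : y ∈ E) (hxy : x ≠ y) :
    Ex E π (fun T => if x ∈ T ∧ y ∈ T then (1 : ℝ) else 0) = π ^ 2 := by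
  have h := Ex_ind (E := E) (π := π) {x, y} (Finset.insert_subset_iff.2 ⟨hx, by simpa using hy⟩)
  rw [Finset.card_pair hxy] at h
  rw [← h]
  congr 1
  funext T
  simp only [Finset.insert_subset_iff, Finset.singleton_subset_iff]

lemma poor_three {x y z : α} (hx : x ∈ E) (hy : y ∈ E) (hz : z ∈ E) (hxy : x ≠ y) (hxz : x ≠ z)
    (hyz : y ≠ z) :
    Ex E π (fun T => if x ∈ T ∧ y ∈ T ∧ z ∈ T then (1 : ℝ) else 0) = π ^ 3 := by
  have h := Ex_ind (E := E) (π := π) {x, y, z} (Finset.insert_subset_iff.2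
    ⟨hx, Finset.insert_subset_iff.2 ⟨hy, by simpa using hz⟩⟩)
  rw [Finset.card_insert_of_notMem (by simp [hxy, hxz]), Finset.card_pair hyz] at h
  rw [← h]
  congr 1
  funext T
  simp only [Finset.insert_subset_iff, Finset.singleton_subset_iff]

/-- The expected number of sampled elements of `D`, if `x` and `y` are sampled. -/
lemma poor_sum (h0 : 0 ≤ π) {x y : α} (hx : x ∈ E) (hy : y ∈ E) (hxy : x ≠ y)
    {D : Finset α} (hD : D ⊆ E) (hxD : x ∉ D) :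
    Ex E π (fun T => ∑ z ∈ D, if x ∈ T ∧ y ∈ T ∧ z ∈ T then (1 : ℝ) else 0) ≤
      (if y ∈ D then π ^ 2 else 0) + π ^ 3 * D.card := by
  rw [Ex_sum]
  have h : ∀ z ∈ D, Ex E π (fun T => if x ∈ T ∧ y ∈ T ∧ z ∈ T then (1 : ℝ) else 0) ≤
      (if z = y then π ^ 2 else 0) + π ^ 3 := by
    intro z hz
    have hxz : x ≠ z := fun h => hxD (h ▸ hz)
    by_cases hzy : z = y
    · subst hzy
      rw [if_pos rfl]
      have e : (fun T : Finset α => if x ∈ T ∧ z ∈ T ∧ z ∈ T then (1 : ℝ) else 0) =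
          fun T => if x ∈ T ∧ z ∈ T then (1 : ℝ) else 0 := by
        funext T
        simp only [and_self]
      rw [e, poor_two hx hy hxz]
      have : 0 ≤ π ^ 3 := pow_nonneg h0 3
      linarith
    · rw [if_neg hzy, zero_add]
      exact (poor_three hx hy (hD hz) hxy hxz (Ne.symm hzy)).le
  refine (Finset.sum_le_sum h).trans ?_
  rw [Finset.sum_add_distrib, Finset.sum_ite_eq', Finset.sum_const, nsmul_eq_mul, mul_comm]

end

open Classical in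
lemma poor_clean {E : Finset (ℂ × ℂ)} {x y : ℂ × ℂ} (hx : x ∈ E) (hy : y ∈ E) (hxy : x ≠ y)
    {π H : ℝ} (h0 : 0 < π) (h1 : π ≤ 1) (hH : π * H ≤ 1 / 8) (hh1 : (hh E x y : ℝ) < H) :
    Ex E π (fun T => if x ∈ T ∧ y ∈ T ∧ ¬ Clean T x y then (1 : ℝ) else 0) ≤ π ^ 2 / 8 := by
  set D := E.filter fun z => z ≠ x ∧ z ≠ y ∧ (∃ t : ℝ, Meet x y t ∧ Meet x z t) ∧
    ‖x.1 - z.1‖ ≤ 10 * ‖x.1 - y.1‖ with hD
  have hcard : (D.card : ℝ) < H := by
    have : hh E x y = D.card := rfl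
    rw [← this]
    exact hh1
  have hxD : x ∉ D := by simp [hD]
  have hyD : y ∉ D := by simp [hD]
  have hpt : ∀ T ⊆ E, (if x ∈ T ∧ y ∈ T ∧ ¬ Clean T x y then (1 : ℝ) else 0) ≤
      ∑ z ∈ D, if x ∈ T ∧ y ∈ T ∧ z ∈ T then (1 : ℝ) else 0 := by
    intro T hT
    by_cases h : x ∈ T ∧ y ∈ T ∧ ¬ Clean T x y
    · rw [if_pos h]
      obtain ⟨hxT, hyT, hc⟩ := h
      unfold Clean at hc
      push Not at hc
      obtain ⟨z, hz, hzx, t, m1, m2, hle, hzy⟩ := hc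
      have hzD : z ∈ D := Finset.mem_filter.2 ⟨hT hz, hzx, hzy, ⟨t, m1, m2⟩, hle⟩
      have hs := Finset.single_le_sum
        (f := fun z => if x ∈ T ∧ y ∈ T ∧ z ∈ T then (1 : ℝ) else 0)
        (fun i _ => by split_ifs <;> norm_num) hzD
      simpa [hxT, hyT, hz] using hs
    · rw [if_neg h]
      exact Finset.sum_nonneg fun i _ => by split_ifs <;> norm_num
  refine (Ex_mono h0.le h1 hpt).trans ?_
  refine (poor_sum h0.le hx hy hxy (Finset.filter_subset _ _) hxD).trans ?_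
  rw [if_neg hyD, zero_add]
  have hp : 0 < π ^ 2 := by positivity
  calc π ^ 3 * (D.card : ℝ) = π ^ 2 * (π * D.card) := by ring
    _ ≤ π ^ 2 * (1 / 8) := by
        refine mul_le_mul_of_nonneg_left ?_ hp.le
        refine (mul_le_mul_of_nonneg_left hcard.le h0.le).trans hH
    _ = π ^ 2 / 8 := by ring

open Classical in
lemma poor_npl {E : Finset (ℂ × ℂ)} {j : ℕ} {x y : ℂ × ℂ} (hx : x ∈ E) (hy : y ∈ E)
    (hxy : x ≠ y) {π b : ℝ} (h0 : 0 < π) (h1 : π ≤ 1) (hb : (npl E j x y : ℝ) ≤ b) :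
    Ex E π (fun T => if x ∈ T ∧ y ∈ T ∧ ¬ ((npl T j x y : ℝ) ≤ 8 * (1 + π * b))
      then (1 : ℝ) else 0) ≤ π ^ 2 / 8 := by
  set D := E.filter fun z => z ≠ x ∧ (∃ t : ℝ, Meet x z t) ∧ Par (x.1 - z.1) (x.1 - y.1) ∧
    ‖x.1 - z.1‖ ≤ 10 * ‖x.1 - y.1‖ ∧
    ‖x.2 - z.2‖ ≤ 10 * ‖x.1 - y.1‖ / 2 ^ j + 3 / 2 with hD
  have hcard : (D.card : ℝ) ≤ b := by
    have : npl E j x y = D.card := rfl
    rw [← this]
    exact hb
  have hb0 : 0 ≤ b := (Nat.cast_nonneg _).trans hcard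
  have hxD : x ∉ D := by simp [hD]
  have hpos : 0 < 8 * (1 + π * b) := by positivity
  have hpt : ∀ T ⊆ E, (if x ∈ T ∧ y ∈ T ∧ ¬ ((npl T j x y : ℝ) ≤ 8 * (1 + π * b))
      then (1 : ℝ) else 0) ≤
      (1 / (8 * (1 + π * b))) * ∑ z ∈ D, if x ∈ T ∧ y ∈ T ∧ z ∈ T then (1 : ℝ) else 0 := by
    intro T hT
    by_cases h : x ∈ T ∧ y ∈ T ∧ ¬ ((npl T j x y : ℝ) ≤ 8 * (1 + π * b))
    · rw [if_pos h]
      obtain ⟨hxT, hyT, hc⟩ := h
      have hsum : (∑ z ∈ D, if x ∈ T ∧ y ∈ T ∧ z ∈ T then (1 : ℝ) else 0) =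
          (npl T j x y : ℝ) := by
        have e : ∀ z ∈ D, (if x ∈ T ∧ y ∈ T ∧ z ∈ T then (1 : ℝ) else 0) =
            if z ∈ T then 1 else 0 := by
          intro z _
          simp [hxT, hyT]
        rw [Finset.sum_congr rfl e, Finset.sum_boole]
        unfold npl
        congr 2
        ext z
        simp only [hD, Finset.mem_filter]
        constructor
        · rintro ⟨⟨_, h⟩, h'⟩; exact ⟨h', h⟩
        · rintro ⟨h', h⟩; exact ⟨⟨hT h', h⟩, h'⟩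
      rw [hsum]
      rw [not_le] at hc
      rw [one_div, inv_mul_eq_div, le_div_iff₀ hpos, one_mul]
      exact hc.le
    · rw [if_neg h]
      refine mul_nonneg (by positivity) (Finset.sum_nonneg fun i _ => by split_ifs <;> norm_num)
  refine (Ex_mono h0.le h1 hpt).trans ?_
  rw [Ex_mul_left]
  have hs : Ex E π (fun T => ∑ z ∈ D, if x ∈ T ∧ y ∈ T ∧ z ∈ T then (1 : ℝ) else 0) ≤
      π ^ 2 * (1 + π * b) := by
    refine (poor_sum h0.le hx hy hxy (Finset.filter_subset _ _) hxD).trans ?_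
    have e1 : (if y ∈ D then π ^ 2 else 0) ≤ π ^ 2 := by
      split_ifs
      · exact le_rfl
      · positivity
    have e2 : π ^ 3 * (D.card : ℝ) ≤ π ^ 3 * b :=
      mul_le_mul_of_nonneg_left hcard (by positivity)
    calc _ ≤ π ^ 2 + π ^ 3 * b := add_le_add e1 e2
      _ = π ^ 2 * (1 + π * b) := by ring
  calc 1 / (8 * (1 + π * b)) * _ ≤ 1 / (8 * (1 + π * b)) * (π ^ 2 * (1 + π * b)) :=
        mul_le_mul_of_nonneg_left hs (by positivity)
    _ = π ^ 2 / 8 := by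
        have : (1 + π * b) ≠ 0 := by positivity
        field_simp

open Classical in
lemma poor_pair {E : Finset (ℂ × ℂ)} {j : ℕ} {x y : ℂ × ℂ} (hx : x ∈ E) (hy : y ∈ E)
    (hxy : x ≠ y) (Bh : ℂ × ℂ → ℝ → ℝ)
    (hB : ∀ x ∈ E, ∀ y ∈ E, (npl E j x y : ℝ) ≤ Bh x ‖x.1 - y.1‖)
    {π H : ℝ} (h0 : 0 < π) (h1 : π ≤ 1) (hH : π * H ≤ 1 / 8) (hh1 : (hh E x y : ℝ) < H)
    (hh2 : (hh E y x : ℝ) < H) :
    π ^ 2 / 2 ≤ Ex E π (fun T => if x ∈ T ∧ y ∈ T ∧
      Pr T j (fun x r => 8 * (1 + π * Bh x r)) x y then (1 : ℝ) else 0) := by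
  have a1 := poor_clean hx hy hxy h0 h1 hH hh1
  have a2 := poor_clean hy hx hxy.symm h0 h1 hH hh2
  have a3 := poor_npl (j := j) hx hy hxy h0 h1 (hB x hx y hy)
  have a4 := poor_npl (j := j) hy hx hxy.symm h0 h1 (hB y hy x hx)
  have hpt : ∀ T ⊆ E, (if x ∈ T ∧ y ∈ T then (1 : ℝ) else 0) ≤
      ((((if x ∈ T ∧ y ∈ T ∧
        Pr T j (fun x r => 8 * (1 + π * Bh x r)) x y then (1 : ℝ) else 0) +
      (if x ∈ T ∧ y ∈ T ∧ ¬ Clean T x y then (1 : ℝ) else 0)) +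
      (if y ∈ T ∧ x ∈ T ∧ ¬ Clean T y x then (1 : ℝ) else 0)) +
      (if x ∈ T ∧ y ∈ T ∧ ¬ ((npl T j x y : ℝ) ≤ 8 * (1 + π * Bh x ‖x.1 - y.1‖))
        then (1 : ℝ) else 0)) +
      (if y ∈ T ∧ x ∈ T ∧ ¬ ((npl T j y x : ℝ) ≤ 8 * (1 + π * Bh y ‖y.1 - x.1‖))
        then (1 : ℝ) else 0) := by
    intro T _
    by_cases hT : x ∈ T ∧ y ∈ T
    · by_cases c1 : Clean T x y
      · by_cases c2 : Clean T y x
        · by_cases c3 : (npl T j x y : ℝ) ≤ 8 * (1 + π * Bh x ‖x.1 - y.1‖)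
          · by_cases c4 : (npl T j y x : ℝ) ≤ 8 * (1 + π * Bh y ‖y.1 - x.1‖)
            · have hp : Pr T j (fun x r => 8 * (1 + π * Bh x r)) x y := ⟨c1, c2, c3, c4⟩
              simp [hT.1, hT.2, c1, c2, hp, c3, c4]
            · simp only [hT.1, hT.2, true_and, c1, c2, not_true_eq_false, if_false, if_true,
                c3, c4, not_false_eq_true]
              split_ifs <;> norm_num
          · simp only [hT.1, hT.2, true_and, c1, c2, not_true_eq_false, if_false, if_true,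
                c3, not_false_eq_true]
            split_ifs <;> norm_num
        · simp only [hT.1, hT.2, true_and, c1, c2, not_true_eq_false, if_false, if_true,
                not_false_eq_true]
          split_ifs <;> norm_num
      · simp only [hT.1, hT.2, true_and, c1, if_true, not_false_eq_true]
        split_ifs <;> norm_num
    · rw [if_neg hT]
      positivity
  have hE := Ex_mono h0.le h1 hpt
  rw [poor_two hx hy hxy, Ex_add, Ex_add, Ex_add, Ex_add] at hE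
  linarith

open Classical in
/-- There are few poor pairs. -/
theorem poor_bound {E : Finset (ℂ × ℂ)} (hE : Cr E) (hf : Fn E) {j : ℕ} {κ : ℝ} {S : Finset ℝ}
    (hS : Times j κ S) (K : ℕ) (hK : ∀ x ∈ E, ∀ y ∈ E, 26 * ‖x.1 - y.1‖ < 2 ^ K)
    (hκ : 2 ^ (K + 1) ≤ κ) (Bh : ℂ × ℂ → ℝ → ℝ) (hB0 : ∀ x r, 0 ≤ Bh x r)
    (hBm : ∀ x r r', r ≤ r' → Bh x r ≤ Bh x r')
    (hB : ∀ x ∈ E, ∀ y ∈ E, (npl E j x y : ℝ) ≤ Bh x ‖x.1 - y.1‖)
    {π H : ℝ} (h0 : 0 < π) (h1 : π ≤ 1) (hH : π * H ≤ 1 / 8) :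
    ∑ s ∈ S, (((E ×ˢ E).filter fun p => p.1 ≠ p.2 ∧ ‖L p.1 s - L p.2 s‖ ≤ 1 / 64 ∧
        (hh E p.1 p.2 : ℝ) < H ∧ (hh E p.2 p.1 : ℝ) < H).card : ℝ) ≤
      22000 / π * S.card * (∑ k ∈ range K, om j k *
        ∑ x ∈ E, (Real.sqrt (π * Nk E j k x) + π * Bh x (2 ^ k)) + E.card) := by
  set β : ℂ × ℂ → ℝ → ℝ := fun x r => 8 * (1 + π * Bh x r) with hβ
  -- the left-hand side for a random subset
  have hleft : π ^ 2 / 2 * ∑ s ∈ S, (((E ×ˢ E).filter fun p => p.1 ≠ p.2 ∧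
        ‖L p.1 s - L p.2 s‖ ≤ 1 / 64 ∧
        (hh E p.1 p.2 : ℝ) < H ∧ (hh E p.2 p.1 : ℝ) < H).card : ℝ) ≤
      Ex E π (fun T => ∑ s ∈ S, (((T ×ˢ T).filter fun p => p.1 ≠ p.2 ∧
        ‖L p.1 s - L p.2 s‖ ≤ 1 / 64 ∧ Pr T j β p.1 p.2).card : ℝ)) := by
    rw [Ex_sum, Finset.mul_sum]
    refine Finset.sum_le_sum fun s _ => ?_
    have e : Ex E π (fun T => ∑ p ∈ (E ×ˢ E).filter fun p => p.1 ≠ p.2 ∧
        ‖L p.1 s - L p.2 s‖ ≤ 1 / 64, if p.1 ∈ T ∧ p.2 ∈ T ∧ Pr T j β p.1 p.2 then (1 : ℝ)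
          else 0) ≤
        Ex E π (fun T => (((T ×ˢ T).filter fun p => p.1 ≠ p.2 ∧
        ‖L p.1 s - L p.2 s‖ ≤ 1 / 64 ∧ Pr T j β p.1 p.2).card : ℝ)) := by
      refine Ex_mono h0.le h1 fun T hT => ?_
      rw [Finset.sum_boole]
      refine Nat.cast_le.2 (Finset.card_le_card ?_)
      intro p hp
      obtain ⟨hp1, hp2, hp3, hp4⟩ := Finset.mem_filter.1 hp
      obtain ⟨_, hp5, hp6⟩ := Finset.mem_filter.1 hp1
      exact Finset.mem_filter.2 ⟨Finset.mem_product.2 ⟨hp2, hp3⟩, hp5, hp6, hp4⟩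
    refine le_trans ?_ e
    rw [Ex_sum]
    have e2 : ((E ×ˢ E).filter fun p => p.1 ≠ p.2 ∧
        ‖L p.1 s - L p.2 s‖ ≤ 1 / 64 ∧
        (hh E p.1 p.2 : ℝ) < H ∧ (hh E p.2 p.1 : ℝ) < H) ⊆
        (E ×ˢ E).filter fun p => p.1 ≠ p.2 ∧ ‖L p.1 s - L p.2 s‖ ≤ 1 / 64 := by
      intro p hp
      obtain ⟨hp1, hp2, hp3, _⟩ := Finset.mem_filter.1 hp
      exact Finset.mem_filter.2 ⟨hp1, hp2, hp3⟩
    refine le_trans ?_ (Finset.sum_le_sum_of_subset_of_nonneg e2 ?_)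
    · rw [mul_comm, ← nsmul_eq_mul, ← Finset.sum_const]
      refine Finset.sum_le_sum fun p hp => ?_
      obtain ⟨hp1, hp2, _, hp4, hp5⟩ := Finset.mem_filter.1 hp
      obtain ⟨hp6, hp7⟩ := Finset.mem_product.1 hp1
      exact poor_pair hp6 hp7 hp2 Bh hB h0 h1 hH hp4 hp5
    · intro p _ _
      have := Ex_mono (E := E) h0.le h1 (f := fun _ => (0 : ℝ))
        (g := fun T => if p.1 ∈ T ∧ p.2 ∈ T ∧ Pr T j β p.1 p.2 then (1 : ℝ) else 0)
        (fun T _ => by split_ifs <;> norm_num)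
      rwa [Ex_const] at this
  -- the right-hand side
  have hmid : Ex E π (fun T => ∑ s ∈ S, (((T ×ˢ T).filter fun p => p.1 ≠ p.2 ∧
        ‖L p.1 s - L p.2 s‖ ≤ 1 / 64 ∧ Pr T j β p.1 p.2).card : ℝ)) ≤
      Ex E π (fun T => 8 * (S.card : ℝ) * (∑ a : Bool × Bool × Bool × Bool,
        ∑ k ∈ range K, om j k *
      ∑ x ∈ T.filter fun x => 2 ≤ (T.filter fun y => lab j a (k + 1) y = lab j a (k + 1) x).card,
        (54 * Real.sqrt (T.filter fun y => lab j a (k + 1) y = lab j a (k + 1) x).card +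
          8 * (1 + π * Bh x (2 ^ k))) + 16 * T.card)) := by
    refine Ex_mono h0.le h1 fun T hT => ?_
    exact poly_ineq (hE.mono hT) (hf.mono hT) hS K (fun x hx y hy => hK x (hT hx) y (hT hy)) hκ β
      (fun x r => by
        have := hB0 x r
        positivity)
      (fun x r r' hr => by
        have := mul_le_mul_of_nonneg_left (hBm x r r' hr) h0.le
        simp only [hβ]
        linarith)
  have hR := poorR_total E j K (c := (S.card : ℝ)) (Nat.cast_nonneg _) Bh hB0 h0 h1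
  have hall := hleft.trans (hmid.trans hR)
  have hp : 0 < π ^ 2 / 2 := by positivity
  rw [← mul_le_mul_iff_right₀ hp]
  refine hall.trans (le_of_eq ?_)
  field_simp
  ring

end SD12
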