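import Pool.Agent.SD12.WinDefs
import Pool.Agent.SD12.LGb

/-! # Near pairs of points and windows -/

open Finset

namespace SD12

lemma wina_floor {h a b : ℝ} (hh : 0 < h) (hab : |a - b| ≤ h) : |⌊a / h⌋ - ⌊b / h⌋| ≤ 1 := by
  have h0 : a / h ≤ b / h + 1 := by
    rw [div_add_one hh.ne', div_le_div_iff_of_pos_right hh]
    linarith [(abs_le.1 hab).2]
  have h1 : b / h ≤ a / h + 1 := by
    rw [div_add_one hh.ne', div_le_div_iff_of_pos_right hh]
    linarith [(abs_le.1 hab).1]
  have h2 := Int.floor_le_floor h0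
  have h3 := Int.floor_le_floor h1
  rw [Int.floor_add_one] at h2 h3
  rw [abs_le]
  constructor <;> linarith

theorem near_le (A : Finset ℂ) {h : ℝ} (hh : 0 < h) :
    ((A ×ˢ A).filter fun x => ‖x.1 - x.2‖ ≤ h).card ≤ 9 * (WP A h).card := by
  classical
  have h1 := lgb_fine A (win h) 1
  have h2 : ((A ×ˢ A).filter fun x => ‖x.1 - x.2‖ ≤ h).card ≤
      ((A ×ˢ A).filter fun p => nr ((1 : ℕ) : ℤ) (win h p.1) (win h p.2)).card := by
    refine card_le_card fun p hp => ?_
    rw [mem_filter] at hp ⊢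
    refine ⟨hp.1, ?_, ?_⟩
    · refine (wina_floor hh ?_).trans_eq (by norm_num)
      rw [← Complex.sub_re]
      exact (Complex.abs_re_le_norm _).trans hp.2
    · refine (wina_floor hh ?_).trans_eq (by norm_num)
      rw [← Complex.sub_im]
      exact (Complex.abs_im_le_norm _).trans hp.2
  refine h2.trans ?_
  refine h1.trans_eq ?_
  unfold WP
  norm_num

end SD12
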